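import Pool.Agent.Work.MP_bc729a_al.CG.StbA

/-! # The centre, small dimensions -/

namespace Pool.Agent.Work.MP_bc729a_al.CG

open Module

universe u v

variable {K : Type u} {V : Type v} [Field K] [AddCommGroup V] [Module K V] [Finite K] [Finite V]

namespace PS

variable {Φ : PS K V}

omit [Finite K] [Finite V] in
private theorem n3 (hc : Φ.c + 2 ≤ finrank K V ∨ 2 ≤ Φ.t ∧ 3 ≤ finrank K V) :
    3 ≤ finrank K V := by
  have := Φ.one_le_c
  omega

omit [Finite K] [Finite V] in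
private theorem cn (hc : Φ.c + 2 ≤ finrank K V ∨ 2 ≤ Φ.t ∧ 3 ≤ finrank K V) :
    Φ.c ≤ finrank K V := by
  have := Φ.c_le
  omega

private theorem cen_point2 {D : Subgroup (V ≃ₗ[K] V)} (hD : Φ.Grp D) (hc : Φ.c + 2 ≤ finrank K V ∨ 2 ≤ Φ.t ∧ 3 ≤ finrank K V)
    {g : V ≃ₗ[K] V} (hg : g ∈ D) (hcom : ∀ h ∈ D, g * h = h * g) {x : Submodule K V}
    (hx : Φ.IsPt x) : x.map (g : V →ₗ[K] V) = x := by
  by_contra hne
  obtain ⟨h, hh, hmv⟩ := exists_move (n3 hc) hx (hx.map (hD.le hg)) (Ne.symm hne)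
  apply hmv
  have h1 := hcom h (hD.u x hx hh)
  have h2 : lat K V g (lat K V h x) = lat K V h (lat K V g x) := by
    rw [← RelIso.mul_apply, ← map_mul, h1, map_mul, RelIso.mul_apply]
  rw [lat_apply, lat_apply, lat_apply, lat_apply, hh.map_eq] at h2
  exact h2.symm

private theorem cen_vec2 {D : Subgroup (V ≃ₗ[K] V)} (hD : Φ.Grp D) (hc : Φ.c + 2 ≤ finrank K V ∨ 2 ≤ Φ.t ∧ 3 ≤ finrank K V)
    {g : V ≃ₗ[K] V} (hg : g ∈ D) (hcom : ∀ h ∈ D, g * h = h * g) {v : V} (h0 : v ≠ 0)
    (hv : Φ.S v) : ∃ a : K, g v = a • v := by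
  have h1 := cen_point2 hD hc hg hcom (isPt_span h0 hv)
  have h2 : g v ∈ (Submodule.span K {v}).map (g : V →ₗ[K] V) :=
    ⟨v, Submodule.mem_span_singleton_self v, rfl⟩
  rw [h1] at h2
  obtain ⟨a, ha⟩ := Submodule.mem_span_singleton.1 h2
  exact ⟨a, ha.symm⟩

private theorem cen_perp2 {D : Subgroup (V ≃ₗ[K] V)} (hD : Φ.Grp D) (hc : Φ.c + 2 ≤ finrank K V ∨ 2 ≤ Φ.t ∧ 3 ≤ finrank K V)
    {g : V ≃ₗ[K] V} (hg : g ∈ D) (hcom : ∀ h ∈ D, g * h = h * g) {v w : V} (hv0 : v ≠ 0)
    (hv : Φ.S v) (hw0 : w ≠ 0) (hw : Φ.S w) (hB : Φ.B v w = 0) {a b : K} (ha : g v = a • v)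
    (hb : g w = b • w) : a = b := by
  by_cases hs : w ∈ Submodule.span K {v}
  · obtain ⟨c, rfl⟩ := Submodule.mem_span_singleton.1 hs
    rw [map_smul, ha, smul_comm] at hb
    exact smul_left_injective K hw0 hb
  · have h0 : v + w ≠ 0 := by
      intro h
      apply hs
      rw [Submodule.mem_span_singleton]
      exact ⟨-1, by rw [neg_one_smul]; exact neg_eq_of_add_eq_zero_right h⟩
    obtain ⟨d, hd⟩ := cen_vec2 hD hc hg hcom h0 (Φ.S_add v w hv hw hB)
    rw [map_add, ha, hb, smul_add] at hd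
    have h1 : (b - d) • w = (d - a) • v := by
      rw [sub_smul, sub_smul, sub_eq_sub_iff_add_eq_add, add_comm, hd]
    have h2 : b - d = 0 := by
      by_contra hne
      apply hs
      rw [Submodule.mem_span_singleton]
      refine ⟨(b - d)⁻¹ * (d - a), ?_⟩
      rw [mul_smul, ← h1, smul_smul, inv_mul_cancel₀ hne, one_smul]
    rw [h2, zero_smul] at h1
    have h3 : d - a = 0 := by
      rcases smul_eq_zero.1 h1.symm with h | h
      · exact h
      · exact absurd h hv0
    rw [sub_eq_zero] at h2 h3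
    rw [h2, h3]

private theorem cen_eq2 {D : Subgroup (V ≃ₗ[K] V)} (hD : Φ.Grp D)
    (hc : Φ.c + 2 ≤ finrank K V ∨ 2 ≤ Φ.t ∧ 3 ≤ finrank K V)
    {g : V ≃ₗ[K] V} (hg : g ∈ D) (hcom : ∀ h ∈ D, g * h = h * g) {v w : V} (hv0 : v ≠ 0)
    (hv : Φ.S v) (hw0 : w ≠ 0) (hw : Φ.S w) {a b : K} (ha : g v = a • v)
    (hb : g w = b • w) : a = b := by
  by_cases hB : Φ.B v w = 0
  · exact cen_perp2 hD hc hg hcom hv0 hv hw0 hw hB ha hb
  rcases id hc with hc' | ⟨ht, -⟩
  · have h1 := Submodule.finrank_sup_add_finrank_inf_eq (Submodule.span K {v})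
      (Submodule.span K {w})
    rw [finrank_span_singleton hv0, finrank_span_singleton hw0] at h1
    have h2 := finrank_orth (Φ := Φ) (Submodule.span K {v} ⊔ Submodule.span K {w})
    obtain ⟨z, hz, hzo⟩ := exists_pt (Φ := Φ)
      (W := Φ.orth (Submodule.span K {v} ⊔ Submodule.span K {w})) (by omega)
    obtain ⟨u, hu, hu0⟩ := hz.exists
    obtain ⟨d, hd⟩ := cen_vec2 hD hc hg hcom hu0 (hz.S hu)
    have h3 : Φ.B u v = 0 := hzo hu v (Submodule.mem_sup_left (Submodule.mem_span_singleton_self v))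
    have h4 : Φ.B u w = 0 := hzo hu w (Submodule.mem_sup_right (Submodule.mem_span_singleton_self w))
    have h5 := cen_perp2 hD hc hg hcom hu0 (hz.S hu) hv0 hv h3 hd ha
    have h6 := cen_perp2 hD hc hg hcom hu0 (hz.S hu) hw0 hw h4 hd hb
    rw [← h5, h6]
  · have h1 := Φ.card_t w v hw hB
    have h2 : ∃ r : K, r ≠ 0 ∧ Φ.S (v + r • w) := by
      by_contra hno
      push Not at hno
      have h3 : Nat.card {r : K // Φ.S (v + r • w)} ≤ 1 := by
        have : Subsingleton {r : K // Φ.S (v + r • w)} := by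
          constructor
          rintro ⟨r, hr⟩ ⟨s, hs⟩
          have e1 : r = 0 := by
            by_contra h
            exact hno r h hr
          have e2 : s = 0 := by
            by_contra h
            exact hno s h hs
          exact Subtype.ext (e1.trans e2.symm)
        exact Finite.card_le_one_iff_subsingleton.2 this
      omega
    obtain ⟨r, hr0, hr⟩ := h2
    have hww : Φ.B w w = 0 := Φ.S_B w hw
    have hnv : ∀ s : K, v ≠ s • w := by
      intro s hs
      apply hB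
      rw [hs, Φ.smul_left, hww, mul_zero]
    have hu0 : v + r • w ≠ 0 := by
      intro h
      apply hnv (-r)
      rw [neg_smul]
      exact eq_neg_of_add_eq_zero_left h
    obtain ⟨d, hd⟩ := cen_vec2 hD hc hg hcom hu0 hr
    rw [map_add, map_smul, ha, hb, smul_add] at hd
    have h4 : (a - d) • v = (d * r - r * b) • w := by
      rw [sub_smul, sub_smul, sub_eq_sub_iff_add_eq_add, mul_smul, mul_smul, hd]
      abel
    have h5 : a = d := by
      by_contra hne
      apply hnv ((a - d)⁻¹ * (d * r - r * b))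
      rw [mul_smul, ← h4, smul_smul, inv_mul_cancel₀ (sub_ne_zero.2 hne), one_smul]
    rw [h5, sub_self, zero_smul] at h4
    have h6 : d * r - r * b = 0 := by
      rcases smul_eq_zero.1 h4.symm with h | h
      · exact h
      · exact absurd h hw0
    have h7 : r * (d - b) = 0 := by
      rw [mul_sub, mul_comm r d]
      exact h6
    rcases mul_eq_zero.1 h7 with h | h
    · exact absurd h hr0
    · rw [h5]
      exact sub_eq_zero.1 h

private theorem cen_scalar2 {D : Subgroup (V ≃ₗ[K] V)} (hD : Φ.Grp D)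
    (hc : Φ.c + 2 ≤ finrank K V ∨ 2 ≤ Φ.t ∧ 3 ≤ finrank K V) {g : V ≃ₗ[K] V} (hg : g ∈ D) (hcom : ∀ h ∈ D, g * h = h * g) :
    ∃ a : K, ∀ v, g v = a • v := by
  obtain ⟨x, hx, -⟩ := exists_pt (Φ := Φ) (W := (⊤ : Submodule K V)) (by
    rw [finrank_top]
    exact cn hc)
  obtain ⟨u, hu, hu0⟩ := hx.exists
  obtain ⟨a, ha⟩ := cen_vec2 hD hc hg hcom hu0 (hx.S hu)
  refine ⟨a, ?_⟩
  let M : Submodule K V := LinearMap.eqLocus (g : V →ₗ[K] V) (a • LinearMap.id)
  have hM : (⊤ : Submodule K V) ≤ M := by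
    rw [span_pts ND_top hx le_top]
    apply sSup_le
    rintro z ⟨hz, -⟩ v hv
    change g v = a • v
    by_cases hv0 : v = 0
    · rw [hv0, map_zero, smul_zero]
    · obtain ⟨b, hb⟩ := cen_vec2 hD hc hg hcom hv0 (hz.S hv)
      rw [hb, cen_eq2 hD hc hg hcom hu0 (hx.S hu) hv0 (hz.S hv) ha hb]
  intro v
  exact hM (Submodule.mem_top (x := v))

theorem center_iff2 {D : Subgroup (V ≃ₗ[K] V)} (hD : Φ.Grp D) (hc : Φ.c + 2 ≤ finrank K V ∨ 2 ≤ Φ.t ∧ 3 ≤ finrank K V)
    {g : V ≃ₗ[K] V} (hg : g ∈ D) : (∀ h ∈ D, g * h = h * g) ↔ lat K V g = 1 := by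
  constructor
  · intro hcom
    obtain ⟨a, ha⟩ := cen_scalar2 hD hc hg hcom
    apply RelIso.ext
    intro W
    change W.map (g : V →ₗ[K] V) = W
    apply Submodule.eq_of_le_of_finrank_eq
    · rintro _ ⟨v, hv, rfl⟩
      change g v ∈ W
      rw [ha v]
      exact W.smul_mem a hv
    · exact finrank_map_eq
  · intro hlat h _
    have h1 : ∀ v, ¬ LinearIndependent K ![v, (g : V →ₗ[K] V) v] := by
      intro v hv
      have h2 : lat K V g (Submodule.span K {v}) = Submodule.span K {v} := by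
        rw [hlat]
        rfl
      have h3 : g v ∈ (Submodule.span K {v}).map (g : V →ₗ[K] V) :=
        ⟨v, Submodule.mem_span_singleton_self v, rfl⟩
      rw [← lat_apply, h2] at h3
      obtain ⟨a, ha⟩ := Submodule.mem_span_singleton.1 h3
      rw [LinearIndependent.pair_iff] at hv
      have h4 := hv a (-1) (by
        rw [ha, neg_one_smul]
        exact add_neg_cancel _)
      exact absurd h4.2 (by simp)
    obtain ⟨a, ha⟩ := LinearMap.exists_eq_smul_id_of_forall_notLinearIndependent h1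
    have h5 : ∀ v, g v = a • v := by
      intro v
      have h6 := DFunLike.congr_fun ha v
      exact h6
    apply LinearEquiv.ext
    intro v
    change g (h v) = h (g v)
    rw [h5, h5, map_smul]

theorem quot_center2 {D : Subgroup (V ≃ₗ[K] V)} (hD : Φ.Grp D) (hc : Φ.c + 2 ≤ finrank K V ∨ 2 ≤ Φ.t ∧ 3 ≤ finrank K V) :
    Nonempty ((↥D ⧸ Subgroup.center ↥D) ≃* ↥(PG D)) := by
  let f : ↥D →* ↥(PG D) :=
    { toFun := fun g => toPG g.2
      map_one' := Subtype.ext (map_one (lat K V))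
      map_mul' := fun a b => Subtype.ext (map_mul (lat K V) a.1 b.1) }
  have hf : Function.Surjective f := by
    intro s
    obtain ⟨g, hg, rfl⟩ := exists_toPG s
    exact ⟨⟨g, hg⟩, rfl⟩
  have hker : f.ker = Subgroup.center ↥D := by
    ext g
    rw [MonoidHom.mem_ker, Subgroup.mem_center_iff]
    have h1 : f g = 1 ↔ lat K V g.1 = 1 := by
      constructor
      · intro h
        exact congrArg Subtype.val h
      · intro h
        exact Subtype.ext h
    rw [h1, ← center_iff2 hD hc g.2]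
    constructor
    · intro h k
      exact Subtype.ext (h k.1 k.2).symm
    · intro h k hk
      exact (congrArg Subtype.val (h ⟨k, hk⟩)).symm
  exact ⟨(QuotientGroup.quotientMulEquivOfEq hker.symm).trans
    (QuotientGroup.quotientKerEquivOfSurjective f hf)⟩

end PS

end Pool.Agent.Work.MP_bc729a_al.CG
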