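import Pool.Agent.Work.MP_bc729a_al.CG.Bas

/-! # Classical groups of small rank: definitions -/

namespace Pool.Agent.Work.MP_bc729a_al.CG

open Module

universe u v

variable {K : Type u} {V : Type v} [Field K] [AddCommGroup V] [Module K V]

namespace PS

variable (Φ : PS K V)

/-- the image of the unipotent radical of the stabiliser of `x` in `PG D` -/
def UP (D : Subgroup (V ≃ₗ[K] V)) (x : Submodule K V) : Subgroup ↥(PG D) where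
  carrier := {s | ∃ g, Φ.IsU x g ∧ s.1 = lat K V g}
  one_mem' := ⟨1, (Φ.UU x).one_mem, (map_one (lat K V)).symm⟩
  mul_mem' := by
    rintro s t ⟨g, hg, hs⟩ ⟨h, hh, ht⟩
    refine ⟨g * h, (Φ.UU x).mul_mem hg hh, ?_⟩
    rw [map_mul, ← hs, ← ht]
    rfl
  inv_mem' := by
    rintro s ⟨g, hg, hs⟩
    refine ⟨g⁻¹, (Φ.UU x).inv_mem hg, ?_⟩
    rw [map_inv, ← hs]
    rfl

theorem mem_UP {D : Subgroup (V ≃ₗ[K] V)} {x : Submodule K V} {s : ↥(PG D)} :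
    s ∈ Φ.UP D x ↔ ∃ g, Φ.IsU x g ∧ s.1 = lat K V g := Iff.rfl

/-- an additive involution of `W` compatible with singular vectors and perpendicularity -/
structure Inv2 (W : Submodule K V) (A : V → V) : Prop where
  mem : ∀ v ∈ W, A v ∈ W
  add : ∀ u ∈ W, ∀ v ∈ W, A (u + v) = A u + A v
  inv : ∀ v ∈ W, A (A v) = v
  sing : ∀ u ∈ W, Φ.S u → Φ.S (A u)
  smul : ∀ u ∈ W, Φ.S u → ∀ c : K, ∃ d : K, A (c • u) = d • A u
  perp : ∀ u ∈ W, ∀ v ∈ W, Φ.S u → (Φ.B v u = 0 ↔ Φ.B (A v) (A u) = 0)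

/-- hyperbolic lines -/
def Blk (L : Submodule K V) : Prop :=
  ∃ x y, Φ.IsPt x ∧ Φ.IsPt y ∧ ¬ y ≤ Φ.orth x ∧ L = x ⊔ y

/-- a permutation `β` of the points induced by the automorphism `α` -/
structure Bet (D : Subgroup (V ≃ₗ[K] V)) (α : MulAut ↥(PG D)) (β : Equiv.Perm Φ.Pt) : Prop where
  st : ∀ x : Φ.Pt, (stE D x.1).map α.toMonoidHom = stE D (β x).1
  eq : ∀ (s : ↥(PG D)) (x y : Φ.Pt), s.1 x.1 = y.1 → (α s).1 (β x).1 = (β y).1

/-- dualities: `θ` maps points to lines, `η` maps lines to points -/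
structure Dua (D : Subgroup (V ≃ₗ[K] V)) (α : MulAut ↥(PG D))
    (θ : Φ.Pt ≃ {ℓ : Submodule K V // Φ.IsLn ℓ}) (η : {ℓ : Submodule K V // Φ.IsLn ℓ} ≃ Φ.Pt) :
    Prop where
  pt : ∀ x : Φ.Pt, (stE D x.1).map α.toMonoidHom = stE D (θ x).1
  ln : ∀ ℓ : {ℓ : Submodule K V // Φ.IsLn ℓ}, (stE D ℓ.1).map α.toMonoidHom = stE D (η ℓ).1
  inc : ∀ (x : Φ.Pt) (ℓ : {ℓ : Submodule K V // Φ.IsLn ℓ}), (η ℓ).1 ≤ (θ x).1 ↔ x.1 ≤ ℓ.1

/-- a permutation of the points preserving perpendicularity -/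
def Prp (β : Equiv.Perm Φ.Pt) : Prop :=
  ∀ x y : Φ.Pt, (β x).1 ≤ Φ.orth (β y).1 ↔ x.1 ≤ Φ.orth y.1

end PS

/-- the stabiliser of the pair `W, W'` -/
def stP (D : Subgroup (V ≃ₗ[K] V)) (W W' : Submodule K V) : Subgroup ↥(PG D) where
  carrier := {s | (s.1 W = W ∧ s.1 W' = W') ∨ (s.1 W = W' ∧ s.1 W' = W)}
  one_mem' := Or.inl ⟨rfl, rfl⟩
  mul_mem' := by
    rintro s t (⟨h1, h2⟩ | ⟨h1, h2⟩) (⟨h3, h4⟩ | ⟨h3, h4⟩)
    · exact Or.inl ⟨(congrArg s.1 h3).trans h1, (congrArg s.1 h4).trans h2⟩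
    · exact Or.inr ⟨(congrArg s.1 h3).trans h2, (congrArg s.1 h4).trans h1⟩
    · exact Or.inr ⟨(congrArg s.1 h3).trans h1, (congrArg s.1 h4).trans h2⟩
    · exact Or.inl ⟨(congrArg s.1 h3).trans h2, (congrArg s.1 h4).trans h1⟩
  inv_mem' := by
    have key : ∀ (s : ↥(PG D)) (A B : Submodule K V), s.1 A = B → (s⁻¹).1 B = A := by
      intro s A B h
      change s.1.symm B = A
      rw [OrderIso.symm_apply_eq]
      exact h.symm
    rintro s (⟨h1, h2⟩ | ⟨h1, h2⟩)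
    · exact Or.inl ⟨key s _ _ h1, key s _ _ h2⟩
    · exact Or.inr ⟨key s _ _ h2, key s _ _ h1⟩

theorem mem_stP {D : Subgroup (V ≃ₗ[K] V)} {W W' : Submodule K V} {s : ↥(PG D)} :
    s ∈ stP D W W' ↔ (s.1 W = W ∧ s.1 W' = W') ∨ (s.1 W = W' ∧ s.1 W' = W) := Iff.rfl

/-- the stabiliser of a set of subspaces -/
def stS (D : Subgroup (V ≃ₗ[K] V)) (Z : Set (Submodule K V)) : Subgroup ↥(PG D) where
  carrier := {s | ∀ z, s.1 z ∈ Z ↔ z ∈ Z}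
  one_mem' := fun _ => Iff.rfl
  mul_mem' := by
    intro s t hs ht z
    exact (hs (t.1 z)).trans (ht z)
  inv_mem' := by
    intro s hs z
    have h := hs ((s⁻¹).1 z)
    have h1 : s.1 ((s⁻¹).1 z) = z := s.1.apply_symm_apply z
    rw [h1] at h
    exact h.symm

theorem mem_stS {D : Subgroup (V ≃ₗ[K] V)} {Z : Set (Submodule K V)} {s : ↥(PG D)} :
    s ∈ stS D Z ↔ ∀ z, s.1 z ∈ Z ↔ z ∈ Z := Iff.rfl

end Pool.Agent.Work.MP_bc729a_al.CG
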