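import Pool.Agent.Work.MP_bc729a_al.CR.Gr
import Pool.Agent.Work.MP_bc729a_al.CR.Cen2
import Pool.Agent.Work.MP_bc729a_al.CR.Defs
import Pool.Agent.Work.MP_bc729a_al.CG.StbB

/-! # Small rank: preparations -/

namespace Pool.Agent.Work.MP_bc729a_al.CG

open Module

universe u v w

variable {K : Type u} {V : Type v} [Field K] [AddCommGroup V] [Module K V] [Finite K] [Finite V]

namespace PS

variable {Φ : PS K V}

theorem hcl_of_hI {D : Subgroup (V ≃ₗ[K] V)} (hD : Φ.Grp D) [IsSimpleGroup ↥(PG D)]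
    (hc : Φ.c ≤ finrank K V) (hn : 3 ≤ finrank K V)
    (hI : ∀ E, Φ.TS E → 2 ≤ finrank K E → Φ.pn ⊤ < Φ.bn D ⊤ E) (α : MulAut ↥(PG D)) :
    ∀ x, Φ.IsPt x → ∃ y, Φ.IsPt y ∧ (stE D x).map α.toMonoidHom = stE D y := by
  intro x hx
  obtain ⟨p, hp⟩ := CharP.exists K
  have hp' : Fact p.Prime := ⟨CharP.char_is_prime K p⟩
  have h1 : ((stE D x).map α.toMonoidHom).index = Φ.pn ⊤ := by
    rw [← index_pt hD hn hx]
    exact Subgroup.index_map_equiv _ α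
  exact eq_stE' (p := p) hD hc hn hI h1

omit [Finite K] [Finite V] in
theorem ha_sp (hS : ∀ v, Φ.S v) {W : Submodule K V} (h0 : W ≠ ⊥) {A : V → V}
    (hA : Φ.Inv2 W A) : ∃ w ∈ W, w ≠ 0 ∧ Φ.S w ∧ ∃ c : K, A w = c • w := by
  obtain ⟨v, hv, hv0⟩ := (Submodule.ne_bot_iff W).1 h0
  by_cases h : v + A v = 0
  · refine ⟨v, hv, hv0, hS v, -1, ?_⟩
    rw [neg_one_smul]
    exact eq_neg_of_add_eq_zero_right h
  · refine ⟨v + A v, W.add_mem hv (hA.mem v hv), h, hS _, 1, ?_⟩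
    rw [hA.add v hv (A v) (hA.mem v hv), hA.inv v hv, one_smul, add_comm]

theorem to_red {D : Subgroup (V ≃ₗ[K] V)} (hD : Φ.Grp D)
    (hc : Φ.c + 2 ≤ finrank K V ∨ 2 ≤ Φ.t ∧ 3 ≤ finrank K V)
    (G : Type w) [Group G] [Finite G] (hG : MaxCompl G)
    (h : IsCompFactor (↥D ⧸ Subgroup.center ↥D) G) :
    IsSimpleGroup ↥(PG D) ∧ ∃ X : Subgroup (MulAut ↥(PG D)), LA.Red ↥(PG D) X := by
  obtain ⟨e⟩ := quot_center2 hD hc
  have h' : IsCompFactor ↥(PG D) G := by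
    obtain ⟨m, s, hs, i, hi, ⟨f⟩⟩ := h
    exact ⟨m, s, hs, i, hi, ⟨f.trans e⟩⟩
  have hfin : Finite ↥(PG D) := finite_PG D
  have hs : IsSimpleGroup ↥(PG D) := by
    obtain ⟨m, s, hs, i, hi, ⟨f⟩⟩ := h'
    obtain ⟨-, hi', hsimp⟩ := hs.2.2 i
    have := hsimp
    exact MulEquiv.isSimpleGroup f.symm
  have h1 := Φ.one_le_c
  have h2 := Φ.c_le
  have h3 : 3 ≤ finrank K V := by omega
  have h4 : Φ.c ≤ finrank K V := by omega
  exact ⟨hs, LA.exists_red (PG_nonab hD h3 h4) G hG h'⟩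

end PS

end Pool.Agent.Work.MP_bc729a_al.CG
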