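import Pool.Agent.Work.MP_bc729a_al.CR.FinP
import Pool.Agent.Work.MP_bc729a_al.CG.Fin

/-! # The theorem for symplectic, unitary and orthogonal groups, small rank included -/

namespace Pool.Agent.Work.MP_bc729a_al.CG

open Module

universe u v w

variable {K : Type u} {V : Type v} [Field K] [AddCommGroup V] [Module K V] [Finite K] [Finite V]

omit [Finite K] in
private theorem tau_eq {Φ : PS K V} (hd : 1 ≤ finrank K V) {σ : K → K}
    (h : ∀ (a : K) (u v : V), Φ.B u (a • v) = σ a * Φ.B u v) (a : K) : Φ.τ a = σ a := by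
  have hfd : Module.Finite K V := inferInstance
  have hnt : Nontrivial V := by
    apply Module.nontrivial_of_finrank_pos (R := K)
    omega
  obtain ⟨u, hu⟩ := exists_ne (0 : V)
  have h1 : ∃ v, Φ.B u v ≠ 0 := by
    by_contra hno
    push Not at hno
    exact hu (Φ.nd u hno)
  obtain ⟨v, hv⟩ := h1
  have h2 := Φ.smul_right a u v
  rw [h] at h2
  exact (mul_right_cancel₀ hv h2).symm

theorem no_sp' (B : LinearMap.BilinForm K V) (hB : B.IsAlt)
    (hn : ∀ u, (∀ v, B u v = 0) → u = 0) (hd : 4 ≤ finrank K V)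
    (hx : ¬ (finrank K V = 4 ∧ Nat.card K = 2))
    (G : Type w) [Group G] [Finite G] (hG : MaxCompl G)
    (h : IsCompFactor (↥(SpB B) ⧸ Subgroup.center ↥(SpB B)) G) : False := by
  rcases Nat.lt_or_ge 4 (finrank K V) with h5 | h5
  · exact no_sp B hB hn h5 G hG h
  have h4 : finrank K V = 4 := by omega
  obtain ⟨Φ, h1, h2, h3, -⟩ := exists_sp B hB hn
  have hD : Φ.Grp (SpB B) := by
    constructor
    · intro g hg
      refine ⟨fun u v => ?_, fun v => ⟨fun _ => h2 _, fun _ => h2 _⟩⟩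
      rw [h1, h1]
      exact hg u v
    · intro x _ g hg u v
      rw [← h1, ← h1]
      exact hg.1.1 u v
  have hI : Φ.Iso ≤ SpB B := by
    intro g hg u v
    rw [← h1, ← h1]
    exact hg.1 u v
  have hK : 1 < Nat.card K := Finite.one_lt_card
  obtain ⟨hs, X, hX⟩ := PS.to_red hD (Or.inl (by omega)) G hG h
  exact PS.sp4_false hD hI h4 h3 h2 (by omega) hX

theorem no_herm' {σ : K →+* K} (f : V →ₛₗ[σ] V →ₗ[K] K) (h2 : ∀ a, σ (σ a) = a)
    (h1 : ∃ a, σ a ≠ a) (hs : ∀ u v, σ (f u v) = f v u)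
    (hn : ∀ u, (∀ v, f u v = 0) → u = 0) (hd : 3 ≤ finrank K V) (hd4 : finrank K V ≠ 4)
    (G : Type w) [Group G] [Finite G] (hG : MaxCompl G)
    (h : IsCompFactor (↥(SUh f) ⧸ Subgroup.center ↥(SUh f)) G) : False := by
  rcases Nat.lt_or_ge 5 (finrank K V) with h5 | h5
  · exact no_herm f h2 h1 hs hn h5 G hG h
  obtain ⟨Φ, h3, h4, h5', h6⟩ := exists_herm f h2 h1 hs hn
  have hD : Φ.Grp (SUh f) := by
    constructor
    · intro g hg
      refine ⟨fun u v => ?_, fun v => ?_⟩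
      · rw [h3, h3]
        exact hg.1 v u
      · rw [h4, h4, hg.1 v v]
    · intro x _ g hg
      refine ⟨fun u v => ?_, PS.IsU.det hg⟩
      rw [← h3, ← h3]
      exact hg.1.1 v u
  have hdet : ∀ g ∈ Φ.Iso, LinearEquiv.det g = 1 → g ∈ SUh f := by
    intro g hg hg1
    refine ⟨fun u v => ?_, hg1⟩
    rw [← h3, ← h3]
    exact hg.1 v u
  have hτ : ∀ a, Φ.τ a = σ a := by
    intro a
    apply tau_eq (by omega)
    intro a u v
    rw [h3, h3, map_smulₛₗ, LinearMap.smul_apply, smul_eq_mul]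
  have hs' : ∀ u v, Φ.τ (Φ.B u v) = Φ.B v u := by
    intro u v
    rw [hτ, h3, h3, hs]
  have h1' : ∃ a, Φ.τ a ≠ a := by
    obtain ⟨a, ha⟩ := h1
    refine ⟨a, ?_⟩
    rw [hτ]
    exact ha
  have hK : 1 < Nat.card K := Finite.one_lt_card
  have ht2 : 2 ≤ Φ.t := by
    by_contra hlt
    have : Φ.t = 0 ∨ Φ.t = 1 := by omega
    rcases this with h | h <;> rw [h] at h6 <;> omega
  obtain ⟨hsim, X, hX⟩ := PS.to_red hD (Or.inr ⟨ht2, hd⟩) G hG h
  have h7 : finrank K V = 3 ∨ finrank K V = 5 := by omega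
  rcases h7 with h7 | h7
  · exact PS.u3_false hD hdet h7 h5' hs' h1' hX
  · exact PS.u5_false hD h7 h5' h6 hs' h1' hX

theorem no_orth6 (Q : QuadraticForm K V)
    (hn : ∀ u, (∀ v, QuadraticMap.polar Q u v = 0) → u = 0) (hd : finrank K V = 6)
    (h3' : ¬ ∃ E : Submodule K V, finrank K E = 3 ∧ ∀ v ∈ E, Q v = 0)
    (G : Type w) [Group G] [Finite G] (hG : MaxCompl G)
    (h : IsCompFactor (↥⁅OQ Q, OQ Q⁆ ⧸ Subgroup.center ↥⁅OQ Q, OQ Q⁆) G) : False := by
  obtain ⟨Φ, h3, h4, h5, h6⟩ := exists_orth Q hn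
  have hfd : Module.Finite K V := inferInstance
  have hD : Φ.Grp ⁅OQ Q, OQ Q⁆ := by
    constructor
    · have h7 : OQ Q ≤ Φ.Iso := by
        intro g hg
        refine ⟨fun u v => ?_, fun v => ?_⟩
        · rw [h3, h3, QuadraticMap.polar, QuadraticMap.polar, ← map_add, hg, hg, hg]
        · rw [h4, h4, hg]
      rw [Subgroup.commutator_le]
      intro a ha b hb
      exact Subgroup.mul_mem _ (Subgroup.mul_mem _ (Subgroup.mul_mem _ (h7 ha) (h7 hb))
        (Subgroup.inv_mem _ (h7 ha))) (Subgroup.inv_mem _ (h7 hb))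
    · intro x hx
      exact PS.UU_le_Om h3 h4 (by omega) hx
  have hτ : ∀ a, Φ.τ a = a := by
    intro a
    refine tau_eq (σ := fun a => a) (by omega) ?_ a
    intro a u v
    rw [h3, h3, QuadraticMap.polar_smul_right, smul_eq_mul]
  have hsym : ∀ u v, Φ.B u v = Φ.B v u := by
    intro u v
    rw [h3, h3, QuadraticMap.polar_comm]
  have hr : ∀ E, Φ.TS E → finrank K E ≤ 2 := by
    intro E hE
    by_contra hlt
    have h7 := PS.ts_dim (Φ := Φ) PS.ND_top hE le_top
    rw [finrank_top] at h7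
    exact h3' ⟨E, by omega, fun v hv => (h4 v).1 (hE.1 v hv)⟩
  obtain ⟨hsim, X, hX⟩ := PS.to_red hD (Or.inl (by omega)) G hG h
  exact PS.o6_false hD hd h5 h6 hτ hsym hr hX

end Pool.Agent.Work.MP_bc729a_al.CG
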