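import Pool.Agent.Work.MP_bc729a_al.CR.Hd
import Pool.Agent.Work.MP_bc729a_al.CG.Lns

/-! # Numbers of lines, rank at least two -/

namespace Pool.Agent.Work.MP_bc729a_al.CG

open Module

universe u v

variable {K : Type u} {V : Type v} [Field K] [AddCommGroup V] [Module K V] [Finite K] [Finite V]

namespace PS

variable {Φ : PS K V}

theorem card_lines_mod' {p : ℕ} [Fact p.Prime] [CharP K p] (h : Φ.c + 2 ≤ finrank K V) :
    Nat.card {ℓ : Submodule K V // Φ.IsLn ℓ} ≡ 1 [MOD p] := by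
  classical
  have hfin : Finite (Submodule K V) :=
    Finite.of_injective (fun W : Submodule K V => (W : Set V)) SetLike.coe_injective
  have := Fintype.ofFinite {x : Submodule K V // Φ.IsPt x}
  have := Fintype.ofFinite {ℓ : Submodule K V // Φ.IsLn ℓ}
  -- points
  have hP : Nat.card {x : Submodule K V // Φ.IsPt x} ≡ 1 [MOD p] := by
    have h1 : Φ.pn ⊤ ≡ 1 [MOD p] := pn_mod (by rw [finrank_top]; omega)
    have h2 : Nat.card {x : Submodule K V // Φ.IsPt x} = Φ.pn ⊤ :=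
      Nat.card_congr (Equiv.subtypeEquivRight fun x => ⟨fun hx => ⟨hx, le_top⟩, fun hx => hx.1⟩)
    rwa [h2]
  -- lines through a point
  have hL : ∀ x : {x : Submodule K V // Φ.IsPt x},
      Nat.card {ℓ : {ℓ : Submodule K V // Φ.IsLn ℓ} // x.1 ≤ ℓ.1} ≡ 1 [MOD p] := by
    rintro ⟨x, hx⟩
    have h1 : Nat.card {ℓ : {ℓ : Submodule K V // Φ.IsLn ℓ} // x ≤ ℓ.1} =
        Nat.card {ℓ : Submodule K V // Φ.IsLn ℓ ∧ x ≤ ℓ ∧ ℓ ≤ Φ.orth x} := by
      apply Nat.card_congr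
      exact
        { toFun := fun ℓ => ⟨ℓ.1.1, ℓ.1.2, ℓ.2, ℓ.1.2.1.2.trans (Φ.orth_anti ℓ.2)⟩
          invFun := fun ℓ => ⟨⟨ℓ.1, ℓ.2.1⟩, ℓ.2.2.1⟩
          left_inv := fun _ => rfl
          right_inv := fun _ => rfl }
    rw [h1]
    refine card_ln_mod hx hx.self le_rfl ?_
    have h2 := finrank_orth (Φ := Φ) x
    rw [hx.finrank] at h2
    omega
  -- points on a line
  have hQ : Nat.card K ≡ 0 [MOD p] := by
    rw [Nat.modEq_zero_iff_dvd]
    have := Fintype.ofFinite K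
    rw [Nat.card_eq_fintype_card]
    obtain ⟨n, hn, hc⟩ := FiniteField.card K p
    rw [hc]
    exact dvd_pow_self p n.ne_zero
  have hpn : ∀ ℓ : {ℓ : Submodule K V // Φ.IsLn ℓ},
      Nat.card {x : {x : Submodule K V // Φ.IsPt x} // x.1 ≤ ℓ.1} ≡ 1 [MOD p] := by
    rintro ⟨ℓ, hℓ⟩
    have h1 : Nat.card {x : {x : Submodule K V // Φ.IsPt x} // x.1 ≤ ℓ} = Φ.pn ℓ := by
      apply Nat.card_congr
      exact
        { toFun := fun x => ⟨x.1.1, x.1.2, x.2⟩
          invFun := fun x => ⟨⟨x.1, x.2.1⟩, x.2.2⟩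
          left_inv := fun _ => rfl
          right_inv := fun _ => rfl }
    rw [h1, pn_ts hℓ.1, hℓ.2]
    simp only [Finset.sum_range_succ, Finset.sum_range_zero, pow_zero, pow_one, zero_add]
    have h2 := Nat.ModEq.add_left 1 hQ
    simpa using h2
  -- double counting
  have e : (Σ x : {x : Submodule K V // Φ.IsPt x},
      {ℓ : {ℓ : Submodule K V // Φ.IsLn ℓ} // x.1 ≤ ℓ.1}) ≃
      (Σ ℓ : {ℓ : Submodule K V // Φ.IsLn ℓ},
        {x : {x : Submodule K V // Φ.IsPt x} // x.1 ≤ ℓ.1}) :=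
    { toFun := fun s => ⟨s.2.1, s.1, s.2.2⟩
      invFun := fun s => ⟨s.2.1, s.1, s.2.2⟩
      left_inv := fun _ => rfl
      right_inv := fun _ => rfl }
  have h1 := Nat.card_congr e
  rw [Nat.card_sigma, Nat.card_sigma] at h1
  have hsum : ∀ {ι : Type v} [Fintype ι] (f : ι → ℕ), (∀ i, f i ≡ 1 [MOD p]) →
      ∑ i, f i ≡ Nat.card ι [MOD p] := by
    intro ι _ f hf
    have h2 : ∑ i : ι, f i ≡ ∑ _i : ι, 1 [MOD p] := by
      apply Nat.ModEq.sum
      intro i _
      exact hf i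
    rwa [Finset.sum_const, Finset.card_univ, smul_eq_mul, mul_one,
      ← Nat.card_eq_fintype_card] at h2
  have h2 := hsum _ hL
  have h3 := hsum _ hpn
  rw [h1] at h2
  exact h3.symm.trans (h2.trans hP)


end PS

end Pool.Agent.Work.MP_bc729a_al.CG
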