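import Pool.Agent.Work.MP_bc729a_al.CR.Gb
import Pool.Agent.Work.MP_bc729a_al.CG.Idxp

/-! # The index of the stabiliser of a line, rank at least two -/

namespace Pool.Agent.Work.MP_bc729a_al.CG

open Module

universe u v

variable {K : Type u} {V : Type v} [Field K] [AddCommGroup V] [Module K V] [Finite K] [Finite V]

namespace PS

variable {Φ : PS K V}

theorem index_ln' {D : Subgroup (V ≃ₗ[K] V)} (hD : Φ.Grp D) (hc : Φ.c + 2 ≤ finrank K V)
    {ℓ : Submodule K V} (hℓ : Φ.IsLn ℓ) :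
    (stE D ℓ).index = Nat.card {ℓ : Submodule K V // Φ.IsLn ℓ} := by
  rw [index_stE (Φ := Φ), bn]
  apply Nat.card_congr
  apply Equiv.subtypeEquivRight
  intro F
  constructor
  · rintro ⟨g, hg, -, rfl⟩
    exact ⟨hℓ.1.map (hD.le hg), finrank_map_eq.trans hℓ.2⟩
  · intro hF
    obtain ⟨g, hg, hgF⟩ := trans_ln' hD hc hℓ hF
    refine ⟨g, hg, ?_, hgF⟩
    intro v hv
    rw [Φ.orth_top, Submodule.mem_bot] at hv
    rw [hv, map_zero]


end PS

end Pool.Agent.Work.MP_bc729a_al.CG
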