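import Pool.Agent.Work.MP_bc729a_al.CR.Defs
import Pool.Agent.Work.MP_bc729a_al.CR.Gx
import Pool.Agent.Work.MP_bc729a_al.CR.Gl
import Pool.Agent.Work.MP_bc729a_al.CG.Tst
import Pool.Agent.Work.MP_bc729a_al.CG.Exq
import Pool.Agent.Work.MP_bc729a_al.CG.StbA

/-! # Module Inc (M): incidence of points and lines

PROOF of `mv_ln`. Case `ℓ ≤ orth x`: `sep` (`W = ⊤`, `E = ℓ`, `z = x`) gives a point `w ≤ orth ℓ`, `¬ w ≤ orth x`. Let `e ≤ ℓ` be a point (`e ≤ orth x`); `exists_opp2` (`W = ⊤`) gives a point `w'` opposite to `x` and to `e`. `u_trans` gives `g`, `IsU x g`, `w.map g = w'`. If `ℓ.map g = ℓ` then `w' ≤ orth ℓ ≤ orth e` (`map_le_orth_map`), contradiction.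
Case `¬ ℓ ≤ orth x`: there is a point `e ≤ ℓ` opposite to `x` and a point `f ≤ ℓ ⊓ orth x` (dimension `≥ 1`); `exists_opp2` gives a point `w'` opposite to `x` and to `f`, `u_trans` `g` with `e.map g = w'`; if `ℓ.map g = ℓ` then `w' ≤ ℓ ≤ orth ℓ ≤ orth f`, contradiction.
`up_le` (compare CG/Bt): `H` contains a Sylow `p`-subgroup `P` of `PG D` (finite), `P ≤ stE D x`. `UP D x` is a `p`-group (`IsU.pow`) normalised by `stE D x` (`IsU.conj`), so `P ⊔ UP D x` is a `p`-group, so it is `P`, and `UP D x ≤ P ≤ H`.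
`stE_ln_inj`: if `ℓ ≠ m` there is a point `x ≤ ℓ`, `¬ x ≤ m`. The elements of `UU x` fix `ℓ` (`IsU.map_line`), so they fix `m`, contradiction to `mv_ln`. `stE_pt_ln`: if `stE D x = stE D ℓ` and `¬ x ≤ ℓ`: the elements of `UU x` fix `x`, so `ℓ`: `mv_ln`. If `x ≤ ℓ`: let `y ≤ ℓ` be another point; the elements of `UU y` fix `ℓ`, so `x`: contradiction to `exists_move`.
`inc_iff`. `→`: `(stE D x ⊓ stE D ℓ).index = (stE D x).relIndex (stE D ℓ) * (stE D ℓ).index`; the second factor is the number of lines, `≡ 1` (`index_ln'`, `card_lines_mod'`), the first one is the number of images of `x` under `stE D ℓ` (`relIndex_stE`), all points of `ℓ` (`trans_ln_pt'`): `pn ℓ = 1 + |K| ≡ 1` (`pn_ts`). `←`: `up_le` with `H = stE D x ⊓ stE D ℓ`: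
the elements of `UU x` fix `ℓ`, so `x ≤ ℓ` by `mv_ln`. -/

namespace Pool.Agent.Work.MP_bc729a_al.CG

open Module

universe u v

variable {K : Type u} {V : Type v} [Field K] [AddCommGroup V] [Module K V] [Finite K] [Finite V]

namespace PS

variable {Φ : PS K V}

omit [Finite K] in
private theorem nd_topI : Φ.ND (⊤ : Submodule K V) := by
  unfold ND
  rw [orth_top, inf_bot_eq]

omit [Finite K] [Finite V] in
private theorem pt_not_le {E F : Submodule K V} (hE : Φ.TS E) (h : ¬ E ≤ F) :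
    ∃ e, Φ.IsPt e ∧ e ≤ E ∧ ¬ e ≤ F := by
  obtain ⟨v, hv, hvF⟩ := SetLike.not_le_iff_exists.1 h
  have h0 : v ≠ 0 := fun h1 => hvF (by rw [h1]; exact F.zero_mem)
  refine ⟨Submodule.span K {v}, hE.isPt hv h0, ?_, ?_⟩
  · rw [Submodule.span_singleton_le_iff_mem]
    exact hv
  · rw [Submodule.span_singleton_le_iff_mem]
    exact hvF

theorem mv_ln {x ℓ : Submodule K V} (hx : Φ.IsPt x) (hℓ : Φ.IsLn ℓ) (h : ¬ x ≤ ℓ) :
    ∃ g : V ≃ₗ[K] V, Φ.IsU x g ∧ ℓ.map (g : V →ₗ[K] V) ≠ ℓ := by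
  have hℓ0 : ¬ ℓ ≤ ⊥ := by
    intro h1
    have h2 := hℓ.2
    rw [le_bot_iff.1 h1, finrank_bot] at h2
    omega
  by_cases hxo : ℓ ≤ Φ.orth x
  · obtain ⟨w, hw, -, hwℓ, hwx⟩ := sep (Φ := Φ) nd_topI hℓ.1 le_top hx le_top h
    obtain ⟨e, he, heℓ, -⟩ := pt_not_le hℓ.1 hℓ0
    have hex : e ≤ Φ.orth x := heℓ.trans hxo
    obtain ⟨w', hw', -, hw'x, hw'e⟩ := exists_opp2 (Φ := Φ) nd_topI hx le_top he le_top
      (Φ.le_orth_comm.1 hex)
    obtain ⟨g, hg, -, hgw⟩ := u_trans (W := ⊤) hx le_top hw le_top hw' le_top hwx hw'x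
    refine ⟨g, hg, fun hgℓ => hw'e ?_⟩
    have h1 := (map_le_orth_map (U := w) (W := ℓ) hg.1).2 hwℓ
    rw [hgw, hgℓ] at h1
    exact h1.trans (Φ.orth_anti heℓ)
  · obtain ⟨e, he, heℓ, hex⟩ := pt_not_le hℓ.1 hxo
    have hf : ¬ ℓ ⊓ Φ.orth x ≤ ⊥ := by
      intro h1
      have h2 := Submodule.finrank_sup_add_finrank_inf_eq ℓ (Φ.orth x)
      rw [le_bot_iff.1 h1, finrank_bot, hℓ.2] at h2
      have h3 := finrank_orth (Φ := Φ) x
      rw [hx.finrank] at h3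
      have h4 := Submodule.finrank_le (ℓ ⊔ Φ.orth x)
      omega
    obtain ⟨f, hfp, hfℓ, -⟩ := pt_not_le (hℓ.1.mono inf_le_left) hf
    have hfx : f ≤ Φ.orth x := hfℓ.trans inf_le_right
    obtain ⟨w', hw', -, hw'x, hw'f⟩ := exists_opp2 (Φ := Φ) nd_topI hx le_top hfp le_top
      (Φ.le_orth_comm.1 hfx)
    obtain ⟨g, hg, -, hgw⟩ := u_trans (W := ⊤) hx le_top he le_top hw' le_top hex hw'x
    refine ⟨g, hg, fun hgℓ => hw'f ?_⟩
    have h1 : e.map (g : V →ₗ[K] V) ≤ ℓ.map (g : V →ₗ[K] V) := map_le_map.2 heℓ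
    rw [hgw, hgℓ] at h1
    exact h1.trans (hℓ.1.2.trans (Φ.orth_anti (hfℓ.trans inf_le_left)))

theorem up_le {D : Subgroup (V ≃ₗ[K] V)} (hD : Φ.Grp D) {p : ℕ} [Fact p.Prime] [CharP K p]
    {x : Submodule K V} (hx : Φ.IsPt x) {H : Subgroup ↥(PG D)} (hH : H ≤ stE D x)
    (hp : ¬ p ∣ H.index) : Φ.UP D x ≤ H := by
  have hfin : Finite ↥(PG D) := finite_PG D
  have hpp : p.Prime := Fact.out
  obtain ⟨Q⟩ : Nonempty (Sylow p ↥H) := inferInstance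
  obtain ⟨P0, hP0e⟩ : ∃ P0 : Subgroup ↥(PG D), P0 = (Q : Subgroup ↥H).map H.subtype :=
    ⟨_, rfl⟩
  have hP0 : IsPGroup p P0 := by
    rw [hP0e]
    exact Q.2.map _
  have hP0R : P0 ≤ H := by
    rw [hP0e]
    exact Subgroup.map_subtype_le _
  have hind : ¬ p ∣ P0.index := by
    rw [hP0e, Subgroup.index_map_subtype]
    intro h
    rcases hpp.dvd_mul.1 h with h | h
    · exact Q.not_dvd_index h
    · exact hp h
  have hmax : ∀ U : Subgroup ↥(PG D), IsPGroup p U → P0 ≤ U → U = P0 := by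
    intro U hU hPU
    exact (hP0.toSylow hind).is_maximal' hU hPU
  have hUp : IsPGroup p (Φ.UP D x) := by
    rintro ⟨s, hs⟩
    obtain ⟨g, hg, e⟩ := Φ.mem_UP.1 hs
    refine ⟨2, Subtype.ext (Subtype.ext ?_)⟩
    show s.1 ^ (p ^ 2) = 1
    rw [e, ← map_pow, hg.pow, map_one]
  have hconj : ∀ s ∈ P0, ∀ t ∈ Φ.UP D x, s * t * s⁻¹ ∈ Φ.UP D x := by
    intro s hs t ht
    obtain ⟨g, hg, e⟩ := Φ.mem_UP.1 ht
    have hsx := hH (hP0R hs)
    obtain ⟨h, hh, rfl⟩ := exists_toPG s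
    have hhx : x.map (h : V →ₗ[K] V) = x := by
      rw [← toPG_apply hh]
      exact hsx
    have h1 := hg.conj (hD.le hh)
    rw [hhx] at h1
    refine Φ.mem_UP.2 ⟨h * g * h⁻¹, h1, ?_⟩
    rw [map_mul, map_mul, map_inv, ← e]
    rfl
  have hnorm : P0 ≤ Subgroup.normalizer (Φ.UP D x) := by
    intro s hs
    rw [Subgroup.mem_normalizer_iff]
    intro t
    refine ⟨fun ht => hconj s hs t ht, fun ht => ?_⟩
    have h1 := hconj s⁻¹ (P0.inv_mem hs) _ ht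
    have h2 : s⁻¹ * (s * t * s⁻¹) * s⁻¹⁻¹ = t := by group
    rwa [h2] at h1
  have hsup := hmax _ (hP0.to_sup_of_normal_right' hUp hnorm) le_sup_left
  have hUP : Φ.UP D x ≤ P0 := by
    rw [← hsup]
    exact le_sup_right
  exact hUP.trans hP0R

private theorem ln_fix {D : Subgroup (V ≃ₗ[K] V)} (hD : Φ.Grp D) {x ℓ : Submodule K V}
    (hx : Φ.IsPt x) (hℓ : Φ.IsLn ℓ) (hxℓ : x ≤ ℓ) {g : V ≃ₗ[K] V} (hg : Φ.IsU x g) :
    ∃ h : g ∈ D, toPG h ∈ stE D ℓ :=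
  ⟨hD.u x hx hg, hg.map_line hxℓ (hℓ.1.2.trans (Φ.orth_anti hxℓ))⟩

theorem stE_ln_inj {D : Subgroup (V ≃ₗ[K] V)} (hD : Φ.Grp D) {ℓ m : Submodule K V}
    (hℓ : Φ.IsLn ℓ) (hm : Φ.IsLn m) (h : stE D ℓ = stE D m) : ℓ = m := by
  by_contra hne
  have hnle : ¬ ℓ ≤ m := fun hle =>
    hne (Submodule.eq_of_le_of_finrank_le hle (by rw [hℓ.2, hm.2]))
  obtain ⟨x, hx, hxℓ, hxm⟩ := pt_not_le hℓ.1 hnle
  obtain ⟨g, hg, hgm⟩ := mv_ln hx hm hxm
  obtain ⟨hgD, h1⟩ := ln_fix hD hx hℓ hxℓ hg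
  rw [h] at h1
  exact hgm h1

theorem stE_pt_ln {D : Subgroup (V ≃ₗ[K] V)} (hD : Φ.Grp D) (hn : 3 ≤ finrank K V)
    {x ℓ : Submodule K V} (hx : Φ.IsPt x) (hℓ : Φ.IsLn ℓ) : stE D x ≠ stE D ℓ := by
  intro h
  by_cases hxℓ : x ≤ ℓ
  · have hnle : ¬ ℓ ≤ x := by
      intro h1
      have h2 := Submodule.finrank_mono h1
      rw [hx.finrank, hℓ.2] at h2
      omega
    obtain ⟨y, hy, hyℓ, hyx⟩ := pt_not_le hℓ.1 hnle
    have hne : y ≠ x := fun h1 => hyx (le_of_eq h1)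
    obtain ⟨g, hg, hgx⟩ := exists_move hn hy hx hne
    obtain ⟨hgD, h1⟩ := ln_fix hD hy hℓ hyℓ hg
    rw [← h] at h1
    exact hgx h1
  · obtain ⟨g, hg, hgm⟩ := mv_ln hx hℓ hxℓ
    have hgD : g ∈ D := hD.u x hx hg
    have h1 : toPG hgD ∈ stE D x := hg.map_eq
    rw [h] at h1
    exact hgm h1

theorem inc_iff {D : Subgroup (V ≃ₗ[K] V)} (hD : Φ.Grp D) {p : ℕ} [Fact p.Prime] [CharP K p]
    (hc : Φ.c + 2 ≤ finrank K V) {x ℓ : Submodule K V} (hx : Φ.IsPt x) (hℓ : Φ.IsLn ℓ) :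
    x ≤ ℓ ↔ ¬ p ∣ (stE D x ⊓ stE D ℓ).index := by
  have hprime : p.Prime := Fact.out
  have hmod1 : ∀ n : ℕ, n ≡ 1 [MOD p] → ¬ p ∣ n := by
    intro n hn hdvd
    have h1 : n ≡ 0 [MOD p] := (Nat.modEq_zero_iff_dvd).2 hdvd
    have h2 : 1 ≡ 0 [MOD p] := hn.symm.trans h1
    have h3 := (Nat.modEq_zero_iff_dvd).1 h2
    exact hprime.one_lt.ne' (Nat.dvd_one.1 h3)
  constructor
  · intro hxℓ
    have h1 := Subgroup.relIndex_mul_index (H := stE D x ⊓ stE D ℓ) (K := stE D ℓ) inf_le_right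
    rw [Subgroup.inf_relIndex_right] at h1
    rw [← h1]
    intro hdvd
    rcases hprime.dvd_mul.1 hdvd with h2 | h2
    · rw [relIndex_stE] at h2
      have h3 : Nat.card {F : Submodule K V // ∃ s ∈ stE D ℓ, s.1 x = F} = Φ.pn ℓ := by
        apply Nat.card_congr
        apply Equiv.subtypeEquivRight
        intro F
        constructor
        · rintro ⟨s, hs, rfl⟩
          obtain ⟨g, hg, rfl⟩ := exists_toPG s
          rw [mem_stE] at hs
          rw [toPG_apply] at hs ⊢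
          refine ⟨hx.map (hD.le hg), ?_⟩
          have h4 : x.map (g : V →ₗ[K] V) ≤ ℓ.map (g : V →ₗ[K] V) := map_le_map.2 hxℓ
          rwa [hs] at h4
        · rintro ⟨hF, hFℓ⟩
          obtain ⟨g, hg, hgx, hgℓ⟩ := trans_ln_pt' hD hc hx hℓ hxℓ hF hℓ hFℓ
          exact ⟨toPG hg, hgℓ, hgx⟩
      rw [h3, pn_ts hℓ.1, hℓ.2] at h2
      simp only [Finset.sum_range_succ, Finset.sum_range_zero, pow_zero, pow_one, zero_add] at h2
      have hQ : Nat.card K ≡ 0 [MOD p] := by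
        rw [Nat.modEq_zero_iff_dvd]
        have := Fintype.ofFinite K
        rw [Nat.card_eq_fintype_card]
        obtain ⟨n, hn, hc⟩ := FiniteField.card K p
        rw [hc]
        exact dvd_pow_self p n.ne_zero
      have h5 := Nat.ModEq.add_left 1 hQ
      exact hmod1 _ h5 h2
    · rw [index_ln' hD hc hℓ] at h2
      exact hmod1 _ (card_lines_mod' hc) h2
  · intro hp
    by_contra hxℓ
    obtain ⟨g, hg, hgm⟩ := mv_ln hx hℓ hxℓ
    have hgD : g ∈ D := hD.u x hx hg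
    have h1 : toPG hgD ∈ Φ.UP D x := Φ.mem_UP.2 ⟨g, hg, rfl⟩
    have h2 := (up_le hD hx inf_le_left hp h1).2
    exact hgm h2

end PS

end Pool.Agent.Work.MP_bc729a_al.CG
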