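import Pool.Agent.Work.MP_bc729a_al.CR.Rad
import Pool.Agent.Work.MP_bc729a_al.CG.Mst

/-! # Module AlU (S-M): automorphisms and unipotent radicals

PROOF of `alU`. Lines: for a line `ℓ` there is a line `ℓ'` with `(β y).1 ≤ ℓ' ↔ y.1 ≤ ℓ` (`exists_image`, `hP`), and then `(stE D ℓ).map α = stE D ℓ'` (`map_stE`, `ts_pts`, `hβ.eq`); in the same way (with `β⁻¹`) every line `ℓ' ≥ β x` comes from a line `ℓ ≥ x`. So `s` fixes `x` and all lines through `x` and has `s ^ (p ^ k) = 1` iff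
`α s` fixes `β x` (`hβ.st`: `s ∈ stE D x ↔ α s ∈ stE D (β x)`), all lines through `β x`, and `(α s) ^ (p ^ k) = 1`. `rad_iff` for `x` and `β x`. `alU3`: the same with `rad3`. -/

namespace Pool.Agent.Work.MP_bc729a_al.CG

open Module

universe u v

variable {K : Type u} {V : Type v} [Field K] [AddCommGroup V] [Module K V] [Finite K] [Finite V]

namespace PS

variable {Φ : PS K V}

private theorem alu_ai {X : Type*} (β : Equiv.Perm X) (x : X) : β (β⁻¹ x) = x :=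
  β.apply_symm_apply x

private theorem alu_ia {X : Type*} (β : Equiv.Perm X) (x : X) : β⁻¹ (β x) = x :=
  β.symm_apply_apply x

omit [Finite K] [Finite V] in
private theorem alu_isPt {D : Subgroup (V ≃ₗ[K] V)} (hD : Φ.Grp D) (s : ↥(PG D))
    {z : Submodule K V} (hz : Φ.IsPt z) : Φ.IsPt (s.1 z) := by
  obtain ⟨g, hg, rfl⟩ := exists_toPG s
  rw [toPG_apply]
  exact hz.map (hD.le hg)

omit [Finite K] [Finite V] in
private theorem alu_inv {D : Subgroup (V ≃ₗ[K] V)} (hD : Φ.Grp D) {α : MulAut ↥(PG D)}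
    {β : Equiv.Perm Φ.Pt} (hβ : Φ.Bet D α β) : Φ.Bet D α⁻¹ β⁻¹ where
  st := by
    intro x
    have h := hβ.st (β⁻¹ x)
    rw [alu_ai] at h
    rw [← h, Subgroup.map_map]
    have h2 : (α⁻¹ : MulAut ↥(PG D)).toMonoidHom.comp α.toMonoidHom =
        MonoidHom.id ↥(PG D) := by
      ext1 s
      exact MulAut.inv_apply_self _ α s
    rw [h2, Subgroup.map_id]
  eq := by
    intro s x y h
    have h3 := hβ.eq (α⁻¹ s) (β⁻¹ x)
      ⟨(α⁻¹ s).1 (β⁻¹ x).1, alu_isPt hD _ (β⁻¹ x).2⟩ rfl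
    rw [alu_ai, MulAut.apply_inv_self, h] at h3
    have h4 : y = β ⟨(α⁻¹ s).1 (β⁻¹ x).1, alu_isPt hD _ (β⁻¹ x).2⟩ := Subtype.ext h3
    rw [h4, alu_ia]

omit [Finite K] [Finite V] in
private theorem alu_prp {β : Equiv.Perm Φ.Pt} (hP : Φ.Prp β) : Φ.Prp β⁻¹ := by
  intro x y
  have h := hP (β⁻¹ x) (β⁻¹ y)
  rw [alu_ai, alu_ai] at h
  exact h.symm

private theorem alu_le {D : Subgroup (V ≃ₗ[K] V)} (hD : Φ.Grp D) {p : ℕ} [Fact p.Prime]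
    [CharP K p] (hc : Φ.c + 2 ≤ finrank K V) {α : MulAut ↥(PG D)} {β : Equiv.Perm Φ.Pt}
    (hβ : Φ.Bet D α β) (hP : Φ.Prp β) (x : Φ.Pt) {s : ↥(PG D)} (hs : s ∈ Φ.UP D x.1) :
    α s ∈ Φ.UP D (β x).1 := by
  rw [rad_iff hD (p := p) hc x.2] at hs
  obtain ⟨h1, h2, k, h3⟩ := hs
  rw [rad_iff hD (p := p) hc (β x).2]
  refine ⟨hβ.eq s x x h1, fun ℓ' hℓ' hx => ?_, k, ?_⟩
  · obtain ⟨ℓ, hℓ, hd, hiff⟩ := exists_image β⁻¹ (alu_prp hP) hℓ'.1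
    have hiff' : ∀ z : Φ.Pt, (β z).1 ≤ ℓ' ↔ z.1 ≤ ℓ := fun z => by
      have h := hiff (β z)
      rw [alu_ia] at h
      exact h.symm
    have h4 : s.1 ℓ = ℓ := h2 ℓ ⟨hℓ, hd.trans hℓ'.2⟩ ((hiff' x).1 hx)
    have h5 := map_stE hD α β hβ.eq (ts_pts hℓ) (ts_pts hℓ'.1) hiff'
    have h6 : α s ∈ stE D ℓ' := by
      rw [← h5]
      exact ⟨s, mem_stE.2 h4, rfl⟩
    exact mem_stE.1 h6
  · rw [← map_pow, h3, map_one]

private theorem alu_le3 {D : Subgroup (V ≃ₗ[K] V)} (hD : Φ.Grp D) {p : ℕ} [Fact p.Prime]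
    [CharP K p] (hn : finrank K V = 3) {α : MulAut ↥(PG D)} {β : Equiv.Perm Φ.Pt}
    (hβ : Φ.Bet D α β) (x : Φ.Pt) {s : ↥(PG D)} (hs : s ∈ Φ.UP D x.1) :
    α s ∈ Φ.UP D (β x).1 := by
  rw [rad3 hD (p := p) hn x.2] at hs
  obtain ⟨h1, k, h3⟩ := hs
  rw [rad3 hD (p := p) hn (β x).2]
  exact ⟨hβ.eq s x x h1, k, by rw [← map_pow, h3, map_one]⟩

theorem alU {D : Subgroup (V ≃ₗ[K] V)} (hD : Φ.Grp D) {p : ℕ} [Fact p.Prime] [CharP K p]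
    (hc : Φ.c + 2 ≤ finrank K V) {α : MulAut ↥(PG D)} {β : Equiv.Perm Φ.Pt}
    (hβ : Φ.Bet D α β) (hP : Φ.Prp β) (x : Φ.Pt) :
    (Φ.UP D x.1).map α.toMonoidHom = Φ.UP D (β x).1 := by
  apply le_antisymm
  · rintro _ ⟨s, hs, rfl⟩
    exact alu_le (p := p) hD hc hβ hP x hs
  · intro t ht
    have h := alu_le (p := p) hD hc (alu_inv hD hβ) (alu_prp hP) (β x) ht
    rw [alu_ia] at h
    exact ⟨α⁻¹ t, h, MulAut.apply_inv_self _ α t⟩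

theorem alU3 {D : Subgroup (V ≃ₗ[K] V)} (hD : Φ.Grp D) {p : ℕ} [Fact p.Prime] [CharP K p]
    (hn : finrank K V = 3) {α : MulAut ↥(PG D)} {β : Equiv.Perm Φ.Pt}
    (hβ : Φ.Bet D α β) (x : Φ.Pt) :
    (Φ.UP D x.1).map α.toMonoidHom = Φ.UP D (β x).1 := by
  apply le_antisymm
  · rintro _ ⟨s, hs, rfl⟩
    exact alu_le3 (p := p) hD hn hβ x hs
  · intro t ht
    have h := alu_le3 (p := p) hD hn (alu_inv hD hβ) (β x) ht
    rw [alu_ia] at h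
    exact ⟨α⁻¹ t, h, MulAut.apply_inv_self _ α t⟩

end PS

end Pool.Agent.Work.MP_bc729a_al.CG
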