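import Pool.Agent.Work.MP_bc729a_al.CR.Apt
import Pool.Agent.Work.MP_bc729a_al.CR.Inc
import Pool.Agent.Work.MP_bc729a_al.CG.StbA
import Pool.Agent.Work.MP_bc729a_al.CG.Idxp

/-! # Module ApD (M): dualities and apartments

See the header of Apt. PROOF of `quad_dual`: for lines `ℓ ≠ m` the points `η ℓ`, `η m` are perpendicular iff some line `θ z` contains both (`TS.sup`; every line is `θ z`) iff some point `z` is `≤ ℓ` and `≤ m` (`hδ.inc`). `x ⊔ x'` and `y ⊔ y'` do not meet, `x' ⊔ y` and `y' ⊔ x` do not meet, the other pairs meet in `x'`, `y`, `y'`, `x`.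
PROOF of `map_stS_dual`. For lines `ℓ, m`: `s.1 ℓ = m ↔ (α s).1 (η ℓ) = η m`: `s.1 ℓ = m` iff `stE D m = (stE D ℓ).map (conj s)` (`stE_conj`, `stE_ln_inj`) iff (apply `α`) `stE D (η m) = (stE D (η ℓ)).map (conj (α s)) = stE D ((α s).1 (η ℓ))` iff `(α s).1 (η ℓ) = η m` (`stE_inj`; images of points are points). `s` permutes the four points iff it permutes the four lines: the four lines are the joins of the
perpendicular pairs of different points of the set (and `s` preserves perpendicularity), the four points are the intersections of the pairs of different intersecting lines: `(x ⊔ x') ⊓ (x ⊔ y') = x` etc. (`bk_nd`: the four points are independent). -/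

namespace Pool.Agent.Work.MP_bc729a_al.CG

open Module

universe u v

variable {K : Type u} {V : Type v} [Field K] [AddCommGroup V] [Module K V] [Finite K] [Finite V]

namespace PS

variable {Φ : PS K V}

/-- rotation of a quadrangle -/
private theorem apd_rot {x y x' y' : Submodule K V} (hq : Φ.Quad x y x' y') :
    Φ.Quad x' y' y x where
  px := hq.px'
  py := hq.py'
  px' := hq.py
  py' := hq.px
  xy := hq.xy'
  xy' := fun h => hq.xy (Φ.le_orth_comm.1 h)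
  xx := Φ.le_orth_comm.1 hq.yx
  yx := Φ.le_orth_comm.1 hq.yy
  xy1 := Φ.le_orth_comm.1 hq.xx
  yy := Φ.le_orth_comm.1 hq.xy1

private theorem apd_zero {x y : Submodule K V} (hx : Φ.IsPt x) (h : ¬ y ≤ Φ.orth x) {a : V}
    (ha : a ∈ x) (hao : a ∈ Φ.orth y) : a = 0 := by
  by_contra h0
  exact h (Φ.le_orth_comm.1 (hx.le_of_mem ha h0 hao))

private theorem apd_inf1 {x y x' y' : Submodule K V} (hq : Φ.Quad x y x' y') :
    (x ⊔ x') ⊓ (x' ⊔ y) = x' := by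
  apply le_antisymm
  · rintro w ⟨hw1, hw2⟩
    obtain ⟨a, ha, b, hb, rfl⟩ := Submodule.mem_sup.1 hw1
    have h1 : x' ⊔ y ≤ Φ.orth y := sup_le hq.yx hq.py.self
    have h2 : a ∈ Φ.orth y := by
      have h3 := (Φ.orth y).sub_mem (h1 hw2) (hq.yx hb)
      rwa [add_sub_cancel_right] at h3
    rw [apd_zero hq.px hq.xy ha h2, zero_add]
    exact hb
  · exact le_inf le_sup_right le_sup_left

private theorem apd_inf0 {x y x' y' : Submodule K V} (hq : Φ.Quad x y x' y') :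
    (x ⊔ x') ⊓ (y ⊔ y') = ⊥ := by
  rw [eq_bot_iff]
  rintro w ⟨hw1, hw2⟩
  obtain ⟨a, ha, b, hb, rfl⟩ := Submodule.mem_sup.1 hw1
  have h1 : y ⊔ y' ≤ Φ.orth y := sup_le hq.py.self hq.yy
  have h1' : y ⊔ y' ≤ Φ.orth y' := sup_le (Φ.le_orth_comm.1 hq.yy) hq.py'.self
  have h2 : a ∈ Φ.orth y := by
    have h3 := (Φ.orth y).sub_mem (h1 hw2) (hq.yx hb)
    rwa [add_sub_cancel_right] at h3
  have ha0 := apd_zero hq.px hq.xy ha h2
  rw [ha0, zero_add] at hw2 ⊢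
  exact (Submodule.mem_bot K).2 (apd_zero hq.px' hq.xy' hb (h1' hw2))

private theorem apd_map {D : Subgroup (V ≃ₗ[K] V)} (hD : Φ.Grp D) (s : ↥(PG D)) :
    (∀ x, Φ.IsPt x → Φ.IsPt (s.1 x)) ∧ (∀ ℓ, Φ.IsLn ℓ → Φ.IsLn (s.1 ℓ)) := by
  obtain ⟨g, hg, rfl⟩ := exists_toPG s
  refine ⟨fun x hx => ?_, fun ℓ hℓ => ?_⟩
  · rw [toPG_apply]
    exact hx.map (hD.le hg)
  · rw [toPG_apply]
    exact ⟨hℓ.1.map (hD.le hg), finrank_map_eq.trans hℓ.2⟩

private theorem apd_perp {D : Subgroup (V ≃ₗ[K] V)} {α : MulAut ↥(PG D)}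
    {θ : Φ.Pt ≃ {ℓ : Submodule K V // Φ.IsLn ℓ}} {η : {ℓ : Submodule K V // Φ.IsLn ℓ} ≃ Φ.Pt}
    (hδ : Φ.Dua D α θ η) (ℓ m : {ℓ : Submodule K V // Φ.IsLn ℓ}) :
    (η ℓ).1 ≤ Φ.orth (η m).1 ↔ ∃ z, Φ.IsPt z ∧ z ≤ ℓ.1 ∧ z ≤ m.1 := by
  constructor
  · intro h
    by_cases he : η ℓ = η m
    · have hlm : ℓ = m := η.injective he
      subst hlm
      have h2 : finrank K ℓ.1 = 2 := ℓ.2.2
      have hne : ℓ.1 ≠ ⊥ := by
        intro hb
        rw [hb, finrank_bot] at h2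
        omega
      obtain ⟨v, hv, h0⟩ := Submodule.exists_mem_ne_zero_of_ne_bot hne
      refine ⟨Submodule.span K {v}, ℓ.2.1.isPt hv h0, ?_, ?_⟩ <;>
        rwa [Submodule.span_singleton_le_iff_mem]
    · have hTS : Φ.TS ((η ℓ).1 ⊔ (η m).1) := TS.sup (η ℓ).2.ts (η m).2.ts h
      have hinf : (η ℓ).1 ⊓ (η m).1 = ⊥ :=
        (η ℓ).2.inf_eq_bot fun hle => he (Subtype.ext ((η ℓ).2.eq_of_le (η m).2 hle))
      have hfr : finrank K ↥((η ℓ).1 ⊔ (η m).1) = 2 := by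
        have h3 := Submodule.finrank_sup_add_finrank_inf_eq (η ℓ).1 (η m).1
        rw [hinf, finrank_bot, (η ℓ).2.finrank, (η m).2.finrank] at h3
        exact h3
      have hz := θ.apply_symm_apply ⟨_, hTS, hfr⟩
      refine ⟨(θ.symm ⟨_, hTS, hfr⟩).1, (θ.symm ⟨_, hTS, hfr⟩).2, ?_, ?_⟩
      · rw [← hδ.inc, hz]
        exact le_sup_left
      · rw [← hδ.inc, hz]
        exact le_sup_right
  · rintro ⟨z, hz, h1, h2⟩
    have e1 := (hδ.inc ⟨z, hz⟩ ℓ).2 h1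
    have e2 := (hδ.inc ⟨z, hz⟩ m).2 h2
    exact e1.trans ((θ ⟨z, hz⟩).2.1.2.trans (Φ.orth_anti e2))

private theorem apd_stS {D : Subgroup (V ≃ₗ[K] V)} {Z : Set (Submodule K V)} (hZ : Z.Finite)
    (s : ↥(PG D)) : s ∈ stS D Z ↔ ∀ z ∈ Z, s.1 z ∈ Z := by
  rw [mem_stS]
  constructor
  · exact fun h z hz => (h z).2 hz
  · intro h z
    refine ⟨fun hz => ?_, fun hz => h z hz⟩
    have him : s.1 '' Z ⊆ Z := by
      rintro _ ⟨w, hw, rfl⟩
      exact h w hw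
    have heq : s.1 '' Z = Z :=
      Set.Finite.eq_of_subset_of_card_le hZ him
        (by rw [Nat.card_image_of_injective s.1.injective])
    rw [← heq] at hz
    obtain ⟨w, hw, hwz⟩ := hz
    rwa [← s.1.injective hwz]

private theorem apd_A {x y x' y' : Submodule K V} (hq : Φ.Quad x y x' y') {a b : Submodule K V}
    (ha : a ∈ ({x, y, x', y'} : Set (Submodule K V)))
    (hb : b ∈ ({x, y, x', y'} : Set (Submodule K V))) (h : Φ.IsLn (a ⊔ b)) :
    a ⊔ b ∈ ({x ⊔ x', y ⊔ y', x' ⊔ y, y' ⊔ x} : Set (Submodule K V)) := by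
  have hp : b ≤ Φ.orth a := le_sup_right.trans (h.1.2.trans (Φ.orth_anti le_sup_left))
  have hself : ∀ z, Φ.IsPt z → ¬ Φ.IsLn (z ⊔ z) := by
    intro z hz hl
    have h1 := hl.2
    rw [sup_idem, hz.finrank] at h1
    omega
  simp only [Set.mem_insert_iff, Set.mem_singleton_iff] at ha hb ⊢
  rcases ha with rfl | rfl | rfl | rfl <;> rcases hb with rfl | rfl | rfl | rfl
  · exact absurd h (hself _ hq.px)
  · exact absurd hp hq.xy
  · left; rfl
  · right; right; right; exact sup_comm _ _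
  · exact absurd (Φ.le_orth_comm.1 hp) hq.xy
  · exact absurd h (hself _ hq.py)
  · right; right; left; exact sup_comm _ _
  · right; left; rfl
  · left; exact sup_comm _ _
  · right; right; left; rfl
  · exact absurd h (hself _ hq.px')
  · exact absurd hp hq.xy'
  · right; right; right; rfl
  · right; left; exact sup_comm _ _
  · exact absurd (Φ.le_orth_comm.1 hp) hq.xy'
  · exact absurd h (hself _ hq.py')

private theorem apd_B {x y x' y' : Submodule K V} (hq : Φ.Quad x y x' y') {a b : Submodule K V}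
    (hl : ∀ ℓ ∈ ({x ⊔ x', y ⊔ y', x' ⊔ y, y' ⊔ x} : Set (Submodule K V)), Φ.IsLn ℓ)
    (ha : a ∈ ({x ⊔ x', y ⊔ y', x' ⊔ y, y' ⊔ x} : Set (Submodule K V)))
    (hb : b ∈ ({x ⊔ x', y ⊔ y', x' ⊔ y, y' ⊔ x} : Set (Submodule K V)))
    (h : Φ.IsPt (a ⊓ b)) :
    a ⊓ b ∈ ({x, y, x', y'} : Set (Submodule K V)) := by
  have hq1 := apd_rot hq
  have hq2 := apd_rot hq1
  have hq3 := apd_rot hq2
  have i1 := apd_inf1 hq
  have i2 := apd_inf1 hq1
  have i3 := apd_inf1 hq2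
  have i4 := apd_inf1 hq3
  have j1 := apd_inf0 hq
  have j2 := apd_inf0 hq1
  have hself : ∀ z, Φ.IsLn z → ¬ Φ.IsPt (z ⊓ z) := by
    intro z hz hl
    have h1 := hl.finrank
    rw [inf_idem, hz.2] at h1
    omega
  have hla := hl a ha
  simp only [Set.mem_insert_iff, Set.mem_singleton_iff] at ha hb ⊢
  rcases ha with rfl | rfl | rfl | rfl <;> rcases hb with rfl | rfl | rfl | rfl
  · exact absurd h (hself _ hla)
  · rw [j1] at h
    exact absurd rfl h.ne_bot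
  · right; right; left; exact i1
  · left; rw [inf_comm]; exact i4
  · rw [inf_comm, j1] at h
    exact absurd rfl h.ne_bot
  · exact absurd h (hself _ hla)
  · right; left; rw [inf_comm]; exact i2
  · right; right; right; exact i3
  · right; right; left; rw [inf_comm]; exact i1
  · right; left; exact i2
  · exact absurd h (hself _ hla)
  · rw [j2] at h
    exact absurd rfl h.ne_bot
  · left; exact i4
  · right; right; right; rw [inf_comm]; exact i3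
  · rw [inf_comm, j2] at h
    exact absurd rfl h.ne_bot
  · exact absurd h (hself _ hla)

private theorem apd_key {D : Subgroup (V ≃ₗ[K] V)} (hD : Φ.Grp D) (hn : 3 ≤ finrank K V)
    {α : MulAut ↥(PG D)}
    {θ : Φ.Pt ≃ {ℓ : Submodule K V // Φ.IsLn ℓ}} {η : {ℓ : Submodule K V // Φ.IsLn ℓ} ≃ Φ.Pt}
    (hδ : Φ.Dua D α θ η) (s : ↥(PG D)) (ℓ m : {ℓ : Submodule K V // Φ.IsLn ℓ}) :
    s.1 ℓ.1 = m.1 ↔ (α s).1 (η ℓ).1 = (η m).1 := by
  have h1 : ((stE D ℓ.1).map (MulAut.conj s).toMonoidHom).map α.toMonoidHom =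
      stE D ((α s).1 (η ℓ).1) := by
    rw [← stE_conj, ← hδ.ln ℓ, Subgroup.map_map, Subgroup.map_map]
    congr 1
    ext t : 1
    change α (s * t * s⁻¹) = α s * α t * (α s)⁻¹
    rw [map_mul, map_mul, map_inv]
  rw [stE_conj] at h1
  constructor
  · intro h
    rw [h, hδ.ln m] at h1
    exact (stE_inj hD hn (η m).2 ((apd_map hD (α s)).1 _ (η ℓ).2) h1.le).symm
  · intro h
    rw [h, ← hδ.ln m] at h1
    exact stE_ln_inj hD ((apd_map hD s).2 _ ℓ.2) m.2 (Subgroup.map_injective α.injective h1)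

theorem quad_dual {D : Subgroup (V ≃ₗ[K] V)} {α : MulAut ↥(PG D)}
    {θ : Φ.Pt ≃ {ℓ : Submodule K V // Φ.IsLn ℓ}} {η : {ℓ : Submodule K V // Φ.IsLn ℓ} ≃ Φ.Pt}
    (hδ : Φ.Dua D α θ η) {x y x' y' : Submodule K V} (hq : Φ.Quad x y x' y')
    (h1 : Φ.IsLn (x ⊔ x')) (h2 : Φ.IsLn (x' ⊔ y)) (h3 : Φ.IsLn (y ⊔ y'))
    (h4 : Φ.IsLn (y' ⊔ x)) :
    Φ.Quad (η ⟨x ⊔ x', h1⟩).1 (η ⟨y ⊔ y', h3⟩).1 (η ⟨x' ⊔ y, h2⟩).1 (η ⟨y' ⊔ x, h4⟩).1 := by
  have j1 := apd_inf0 hq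
  have j2 := apd_inf0 (apd_rot hq)
  refine ⟨(η _).2, (η _).2, (η _).2, (η _).2, ?_, ?_, ?_, ?_, ?_, ?_⟩
  · rw [apd_perp hδ]
    rintro ⟨z, hz, hz1, hz2⟩
    have h5 : z ≤ (x ⊔ x') ⊓ (y ⊔ y') := le_inf hz2 hz1
    rw [j1, le_bot_iff] at h5
    exact hz.ne_bot h5
  · rw [apd_perp hδ]
    rintro ⟨z, hz, hz1, hz2⟩
    have h5 : z ≤ (x' ⊔ y) ⊓ (y' ⊔ x) := le_inf hz2 hz1
    rw [j2, le_bot_iff] at h5
    exact hz.ne_bot h5
  · rw [apd_perp hδ]
    exact ⟨x', hq.px', le_sup_left, le_sup_right⟩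
  · rw [apd_perp hδ]
    exact ⟨y, hq.py, le_sup_right, le_sup_left⟩
  · rw [apd_perp hδ]
    exact ⟨x, hq.px, le_sup_right, le_sup_left⟩
  · rw [apd_perp hδ]
    exact ⟨y', hq.py', le_sup_left, le_sup_right⟩

theorem map_stS_dual {D : Subgroup (V ≃ₗ[K] V)} (hD : Φ.Grp D) (hn : 3 ≤ finrank K V)
    {α : MulAut ↥(PG D)}
    {θ : Φ.Pt ≃ {ℓ : Submodule K V // Φ.IsLn ℓ}} {η : {ℓ : Submodule K V // Φ.IsLn ℓ} ≃ Φ.Pt}
    (hδ : Φ.Dua D α θ η) {x y x' y' : Submodule K V} (hq : Φ.Quad x y x' y')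
    (h1 : Φ.IsLn (x ⊔ x')) (h2 : Φ.IsLn (x' ⊔ y)) (h3 : Φ.IsLn (y ⊔ y'))
    (h4 : Φ.IsLn (y' ⊔ x)) :
    (stS D {x, y, x', y'}).map α.toMonoidHom =
      stS D {(η ⟨x ⊔ x', h1⟩).1, (η ⟨y ⊔ y', h3⟩).1, (η ⟨x' ⊔ y, h2⟩).1,
        (η ⟨y' ⊔ x, h4⟩).1} := by
  have hl : ∀ ℓ ∈ ({x ⊔ x', y ⊔ y', x' ⊔ y, y' ⊔ x} : Set (Submodule K V)), Φ.IsLn ℓ := by
    intro ℓ hℓ
    simp only [Set.mem_insert_iff, Set.mem_singleton_iff] at hℓ
    rcases hℓ with rfl | rfl | rfl | rfl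
    exacts [h1, h3, h2, h4]
  have hq1 := apd_rot hq
  have hq2 := apd_rot hq1
  have hq3 := apd_rot hq2
  have i1 := apd_inf1 hq
  have i2 := apd_inf1 hq1
  have i3 := apd_inf1 hq2
  have i4 := apd_inf1 hq3
  -- the lines
  have hs1 : ∀ s : ↥(PG D), s ∈ stS D {x, y, x', y'} ↔
      ∀ ℓ ∈ ({x ⊔ x', y ⊔ y', x' ⊔ y, y' ⊔ x} : Set (Submodule K V)),
        s.1 ℓ ∈ ({x ⊔ x', y ⊔ y', x' ⊔ y, y' ⊔ x} : Set (Submodule K V)) := by
    intro s
    rw [apd_stS (Set.toFinite _)]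
    constructor
    · intro h ℓ hℓ
      have key : ∀ a ∈ ({x, y, x', y'} : Set (Submodule K V)),
          ∀ b ∈ ({x, y, x', y'} : Set (Submodule K V)), Φ.IsLn (a ⊔ b) →
            s.1 (a ⊔ b) ∈ ({x ⊔ x', y ⊔ y', x' ⊔ y, y' ⊔ x} : Set (Submodule K V)) := by
        intro a ha b hb hab
        have h5 := (apd_map hD s).2 _ hab
        rw [OrderIso.map_sup] at h5 ⊢
        exact apd_A hq (h a ha) (h b hb) h5
      have hℓ' := hℓ
      simp only [Set.mem_insert_iff, Set.mem_singleton_iff] at hℓ'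
      rcases hℓ' with rfl | rfl | rfl | rfl
      · exact key x (by simp) x' (by simp) h1
      · exact key y (by simp) y' (by simp) h3
      · exact key x' (by simp) y (by simp) h2
      · exact key y' (by simp) x (by simp) h4
    · intro h z hz
      have key : ∀ a ∈ ({x ⊔ x', y ⊔ y', x' ⊔ y, y' ⊔ x} : Set (Submodule K V)),
          ∀ b ∈ ({x ⊔ x', y ⊔ y', x' ⊔ y, y' ⊔ x} : Set (Submodule K V)), Φ.IsPt (a ⊓ b) →
            s.1 (a ⊓ b) ∈ ({x, y, x', y'} : Set (Submodule K V)) := by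
        intro a ha b hb hab
        have h5 := (apd_map hD s).1 _ hab
        rw [OrderIso.map_inf] at h5 ⊢
        exact apd_B hq hl (h a ha) (h b hb) h5
      have hz' := hz
      simp only [Set.mem_insert_iff, Set.mem_singleton_iff] at hz'
      rcases hz' with rfl | rfl | rfl | rfl
      · have := key (y' ⊔ z) (by simp) (z ⊔ x') (by simp) (by rw [i4]; exact hq.px)
        rwa [i4] at this
      · have := key (x' ⊔ z) (by simp) (z ⊔ y') (by simp) (by rw [i2]; exact hq.py)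
        rwa [i2] at this
      · have := key (x ⊔ z) (by simp) (z ⊔ y) (by simp) (by rw [i1]; exact hq.px')
        rwa [i1] at this
      · have := key (y ⊔ z) (by simp) (z ⊔ x) (by simp) (by rw [i3]; exact hq.py')
        rwa [i3] at this
  have hkey : ∀ (s : ↥(PG D)) (ℓ m : Submodule K V) (hℓ : Φ.IsLn ℓ) (hm : Φ.IsLn m),
      s.1 ℓ = m ↔ (α s).1 (η ⟨ℓ, hℓ⟩).1 = (η ⟨m, hm⟩).1 :=
    fun s ℓ m hℓ hm => apd_key hD hn hδ s ⟨ℓ, hℓ⟩ ⟨m, hm⟩
  have hs2 : ∀ s : ↥(PG D), s ∈ stS D {x, y, x', y'} ↔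
      α s ∈ stS D {(η ⟨x ⊔ x', h1⟩).1, (η ⟨y ⊔ y', h3⟩).1, (η ⟨x' ⊔ y, h2⟩).1,
        (η ⟨y' ⊔ x, h4⟩).1} := by
    intro s
    rw [hs1, apd_stS (Set.toFinite _)]
    simp only [Set.mem_insert_iff, Set.mem_singleton_iff, forall_eq_or_imp, forall_eq]
    rw [hkey s _ _ h1 h1, hkey s _ _ h1 h3, hkey s _ _ h1 h2, hkey s _ _ h1 h4,
      hkey s _ _ h3 h1, hkey s _ _ h3 h3, hkey s _ _ h3 h2, hkey s _ _ h3 h4,
      hkey s _ _ h2 h1, hkey s _ _ h2 h3, hkey s _ _ h2 h2, hkey s _ _ h2 h4,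
      hkey s _ _ h4 h1, hkey s _ _ h4 h3, hkey s _ _ h4 h2, hkey s _ _ h4 h4]
  ext t
  rw [Subgroup.mem_map]
  constructor
  · rintro ⟨s, hs, rfl⟩
    exact (hs2 s).1 hs
  · intro ht
    refine ⟨α.symm t, (hs2 _).2 ?_, α.apply_symm_apply t⟩
    rwa [MulEquiv.apply_symm_apply]

end PS

end Pool.Agent.Work.MP_bc729a_al.CG
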