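import Pool.Agent.Work.MP_bc729a_al.CR.Defs
import Pool.Agent.Work.MP_bc729a_al.CG.Exq
import Pool.Agent.Work.MP_bc729a_al.CG.Sig

/-! # Module Apt (M): apartments of symplectic spaces of dimension four

`x = span {x₀}`, `y = span {y₀}`, `x' = span {x₀'}`, `y' = span {y₀'}` is a basis; `V = (x ⊔ y) ⊕ (x' ⊔ y')`, the two summands are perpendicular. All vectors are singular, `B v v = 0`, `B u v = - B v u`, and `τ a = a` (from `B u (a • v) = - B (a • v) u = a * B u v`).
PROOF of `ira`. Let `z = span {z₀} ≤ E` be a point, `z₀ = b + a`, `b ∈ x ⊔ y`, `a ∈ x' ⊔ y'`; by symmetry let `b = λ x₀ + μ y₀ ≠ 0`. It is enough to find an isometry `g`, the identity on `x' ⊔ y'`, preserving `{x, y}` with `B (g b) b ≠ 0`: then `g ∈ Φ.Iso ≤ D`, `toPG g ∈ stS D {x, y, x', y'}`, and `B (g z₀) z₀ = B (g b) b ≠ 0`, so `z.map g` is not perpendicular to `z` and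
`E.map g ≠ E`. If `λ = 0` or `μ = 0` let `g x₀ = y₀`, `g y₀ = - x₀` (`B (g x₀) (g y₀) = - B y₀ x₀ = B x₀ y₀`). Otherwise choose `c ≠ 0, 1` in `K` (`|K| ≥ 4`); in characteristic `2`, `c ^ 2 ≠ 1`; `g x₀ = c x₀`, `g y₀ = c⁻¹ y₀`: `B (g b) b = λ μ (c - c⁻¹) B x₀ y₀ ≠ 0`.
`map_stS`: `s.1 u.1 = v.1 ↔ (α s).1 (β u).1 = (β v).1` for points `u, v` (`hβ.eq`, and conversely by injectivity of `β`; `s.1 u.1` is a point), and `stS` of a finite set: `s` maps the set into itself iff `s.1 z ∈ Z ↔ z ∈ Z`. -/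

namespace Pool.Agent.Work.MP_bc729a_al.CG

open Module

universe u v

variable {K : Type u} {V : Type v} [Field K] [AddCommGroup V] [Module K V] [Finite K] [Finite V]

namespace PS

variable {Φ : PS K V}

omit [Finite K] [Finite V] in
private theorem stS_of_maps {D : Subgroup (V ≃ₗ[K] V)} {Z : Set (Submodule K V)} (hZ : Z.Finite)
    {s : ↥(PG D)} (h : ∀ z ∈ Z, s.1 z ∈ Z) : s ∈ stS D Z := by
  have himg : (fun z => s.1 z) '' Z = Z := by
    apply Set.eq_of_subset_of_ncard_le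
    · rintro _ ⟨z, hz, rfl⟩
      exact h z hz
    · rw [Set.ncard_image_of_injective _ s.1.injective]
    · exact hZ
  intro z
  constructor
  · intro hz
    rw [← himg] at hz
    obtain ⟨w, hw, hwz⟩ := hz
    have h1 : w = z := s.1.injective hwz
    rwa [← h1]
  · exact h z

omit [Finite K] [Finite V] in
private theorem B_alt (hS : ∀ v, Φ.S v) (u v : V) : Φ.B v u = -Φ.B u v := by
  have h := Φ.S_B (u + v) (hS _)
  rw [Φ.add_left, Φ.add_right, Φ.add_right, Φ.S_B u (hS u), Φ.S_B v (hS v), zero_add,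
    add_zero] at h
  exact (neg_eq_of_add_eq_zero_right h).symm

omit [Finite K] [Finite V] in
private theorem tau_id (hS : ∀ v, Φ.S v) {u v : V} (h : Φ.B u v ≠ 0) (a : K) : Φ.τ a = a := by
  have h1 := B_alt hS (a • v) u
  rw [Φ.smul_right, Φ.smul_left, B_alt hS u v] at h1
  have h2 : Φ.τ a * Φ.B u v = a * Φ.B u v := by
    rw [h1]
    ring
  exact mul_right_cancel₀ h h2

omit [Finite K] [Finite V] in
private theorem B_split {L : Submodule K V} {q q' P P' : V} (hq : q ∈ Φ.orth L)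
    (hq' : q' ∈ Φ.orth L) (hP : P ∈ L) (hP' : P' ∈ L) :
    Φ.B (q + P) (q' + P') = Φ.B q q' + Φ.B P P' := by
  rw [Φ.add_left, Φ.add_right, Φ.add_right, hq P' hP', Φ.refl _ _ (hq' P hP), add_zero, zero_add]

omit [Finite K] in
private theorem exists_iso (hS : ∀ v, Φ.S v) {x0 y0 X Y : V} {L : Submodule K V}
    (hL : L = Submodule.span K {x0} ⊔ Submodule.span K {y0}) (hxy : Φ.B x0 y0 ≠ 0)
    (hX : X ∈ L) (hY : Y ∈ L) (hXY : Φ.B X Y = Φ.B x0 y0) :
    ∃ g : V ≃ₗ[K] V, g ∈ Φ.Iso ∧ g x0 = X ∧ g y0 = Y ∧ ∀ v ∈ Φ.orth L, g v = v := by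
  have hyx : Φ.B y0 x0 ≠ 0 := by
    rw [B_alt hS x0 y0]
    exact neg_ne_zero.2 hxy
  have hx0 : x0 ∈ L := by
    rw [hL]
    exact Submodule.mem_sup_left (Submodule.mem_span_singleton_self x0)
  have hy0 : y0 ∈ L := by
    rw [hL]
    exact Submodule.mem_sup_right (Submodule.mem_span_singleton_self y0)
  have horth : ∀ v, Φ.B v x0 = 0 → Φ.B v y0 = 0 → v ∈ Φ.orth L := by
    intro v h1 h2
    rw [hL, Φ.orth_sup]
    exact ⟨Φ.mem_orth_span.2 h1, Φ.mem_orth_span.2 h2⟩
  set ca : V → K := fun v => Φ.B v y0 / Φ.B x0 y0 with hca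
  set cb : V → K := fun v => Φ.B v x0 / Φ.B y0 x0 with hcb
  let f : V →ₗ[K] V :=
    { toFun := fun v => v + ca v • (X - x0) + cb v • (Y - y0)
      map_add' := by
        intro u v
        simp only [hca, hcb, Φ.add_left, add_div, add_smul]
        abel
      map_smul' := by
        intro c v
        simp only [hca, hcb, Φ.smul_left, mul_div_assoc, mul_smul, smul_add, RingHom.id_apply] }
  have hf : ∀ v, f v = v + ca v • (X - x0) + cb v • (Y - y0) := fun _ => rfl
  have hq : ∀ v, v - ca v • x0 - cb v • y0 ∈ Φ.orth L := by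
    intro v
    apply horth
    · rw [Φ.B_sub_left, Φ.B_sub_left, Φ.smul_left, Φ.smul_left, Φ.S_B x0 (hS x0)]
      simp only [hcb]
      field_simp
      ring
    · rw [Φ.B_sub_left, Φ.B_sub_left, Φ.smul_left, Φ.smul_left, Φ.S_B y0 (hS y0)]
      simp only [hca]
      field_simp
      ring
  have hiso : ∀ u v, Φ.B (f u) (f v) = Φ.B u v := by
    intro u v
    have e1 : ∀ w, f w = (w - ca w • x0 - cb w • y0) + (ca w • X + cb w • Y) := by
      intro w
      rw [hf, smul_sub, smul_sub]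
      abel
    have e2 : ∀ w, w = (w - ca w • x0 - cb w • y0) + (ca w • x0 + cb w • y0) := by
      intro w
      abel
    have hP : ∀ w, ca w • X + cb w • Y ∈ L := fun w =>
      L.add_mem (L.smul_mem _ hX) (L.smul_mem _ hY)
    have hP0 : ∀ w, ca w • x0 + cb w • y0 ∈ L := fun w =>
      L.add_mem (L.smul_mem _ hx0) (L.smul_mem _ hy0)
    have e3 : Φ.B (ca u • X + cb u • Y) (ca v • X + cb v • Y) =
        Φ.B (ca u • x0 + cb u • y0) (ca v • x0 + cb v • y0) := by
      simp only [Φ.add_left, Φ.add_right, Φ.smul_left, Φ.smul_right, Φ.S_B X (hS X),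
        Φ.S_B Y (hS Y), Φ.S_B x0 (hS x0), Φ.S_B y0 (hS y0), B_alt hS X Y, B_alt hS x0 y0, hXY]
    rw [e1 u, e1 v, B_split (hq u) (hq v) (hP u) (hP v), e3]
    conv_rhs => rw [e2 u, e2 v, B_split (hq u) (hq v) (hP0 u) (hP0 v)]
  have hinj : Function.Injective f := by
    rw [injective_iff_map_eq_zero]
    intro u hu
    apply Φ.nd
    intro v
    rw [← hiso, hu, Φ.B_zero_left]
  have hfd : FiniteDimensional K V := inferInstance
  refine ⟨LinearEquiv.ofInjectiveEndo f hinj, ⟨?_, fun v => ⟨fun _ => hS _, fun _ => hS _⟩⟩,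
    ?_, ?_, ?_⟩
  · intro u v
    exact hiso u v
  · change f x0 = X
    rw [hf]
    simp only [hca, hcb, Φ.S_B x0 (hS x0), div_self hxy, zero_div, zero_smul, one_smul]
    abel
  · change f y0 = Y
    rw [hf]
    simp only [hca, hcb, Φ.S_B y0 (hS y0), div_self hyx, zero_div, zero_smul, one_smul]
    abel
  · intro v hv
    change f v = v
    rw [hf]
    simp only [hca, hcb, hv x0 hx0, hv y0 hy0, zero_div, zero_smul, add_zero]

omit [Finite K] [Finite V] in
private theorem map_span_of {g : V ≃ₗ[K] V} {a b : V} {c : K} (hc : c ≠ 0) (h : g a = c • b) :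
    (Submodule.span K {a}).map (g : V →ₗ[K] V) = Submodule.span K {b} := by
  rw [Submodule.map_span, Set.image_singleton]
  change Submodule.span K {g a} = _
  rw [h]
  exact Submodule.span_singleton_smul_eq (IsUnit.mk0 c hc) b

private theorem core (hS : ∀ v, Φ.S v) (h4 : 4 ≤ Nat.card K) {x y x' y' : Submodule K V}
    (hq : Φ.Quad x y x' y') {b : V} (hb : b ∈ x ⊔ y) (hb0 : b ≠ 0) :
    ∃ g : V ≃ₗ[K] V, g ∈ Φ.Iso ∧ (∀ v ∈ Φ.orth (x ⊔ y), g v = v) ∧
      ((x.map (g : V →ₗ[K] V) = x ∧ y.map (g : V →ₗ[K] V) = y) ∨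
        (x.map (g : V →ₗ[K] V) = y ∧ y.map (g : V →ₗ[K] V) = x)) ∧ Φ.B (g b) b ≠ 0 := by
  obtain ⟨x0, hx00, -, rfl⟩ := hq.px
  obtain ⟨y0, hy00, -, rfl⟩ := hq.py
  have hyx : Φ.B y0 x0 ≠ 0 := by
    intro h
    exact hq.xy (Φ.span_le_orth.2 h)
  have hxy : Φ.B x0 y0 ≠ 0 := fun h => hyx (Φ.refl _ _ h)
  obtain ⟨b1, hb1, b2, hb2, rfl⟩ := Submodule.mem_sup.1 hb
  obtain ⟨l, rfl⟩ := Submodule.mem_span_singleton.1 hb1
  obtain ⟨m, rfl⟩ := Submodule.mem_span_singleton.1 hb2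
  have hx0L : x0 ∈ Submodule.span K {x0} ⊔ Submodule.span K {y0} :=
    Submodule.mem_sup_left (Submodule.mem_span_singleton_self x0)
  have hy0L : y0 ∈ Submodule.span K {x0} ⊔ Submodule.span K {y0} :=
    Submodule.mem_sup_right (Submodule.mem_span_singleton_self y0)
  have hτ := tau_id hS hxy
  by_cases hlm : l = 0 ∨ m = 0
  · obtain ⟨g, hg, hgx, hgy, hgo⟩ := exists_iso hS rfl hxy hy0L
      ((Submodule.neg_mem_iff _).2 hx0L) (by rw [Φ.B_neg_right, B_alt hS x0 y0, neg_neg])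
    refine ⟨g, hg, hgo, Or.inr ⟨map_span_of one_ne_zero (by rw [hgx, one_smul]),
      map_span_of (c := -1) (neg_ne_zero.2 one_ne_zero) (by rw [hgy, neg_one_smul])⟩, ?_⟩
    rw [map_add, map_smul, map_smul, hgx, hgy]
    rcases hlm with rfl | rfl
    · rw [zero_smul, zero_smul, zero_add, zero_add, Φ.smul_left, Φ.smul_right, Φ.B_neg_left, hτ]
      have hm : m ≠ 0 := by
        rintro rfl
        simp at hb0
      exact mul_ne_zero hm (mul_ne_zero hm (neg_ne_zero.2 hxy))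
    · rw [zero_smul, zero_smul, add_zero, add_zero, Φ.smul_left, Φ.smul_right, hτ]
      have hl : l ≠ 0 := by
        rintro rfl
        simp at hb0
      exact mul_ne_zero hl (mul_ne_zero hl hyx)
  · push Not at hlm
    obtain ⟨hl, hm⟩ := hlm
    obtain ⟨c, hc⟩ : ∃ c : K, c ∉ ({0, 1, -1} : Set K) := by
      by_contra hcon
      push Not at hcon
      have h1 : (Set.univ : Set K) ⊆ {0, 1, -1} := fun c _ => hcon c
      have h2 := Set.ncard_le_ncard h1 (Set.toFinite _)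
      rw [Set.ncard_univ] at h2
      have h3 : ({0, 1, -1} : Set K).ncard ≤ 3 := by
        refine (Set.ncard_insert_le _ _).trans ?_
        have h5 := Set.ncard_insert_le (1 : K) {-1}
        rw [Set.ncard_singleton] at h5
        omega
      omega
    simp only [Set.mem_insert_iff, Set.mem_singleton_iff, not_or] at hc
    obtain ⟨hc0, hc1, hcm⟩ := hc
    obtain ⟨g, hg, hgx, hgy, hgo⟩ := exists_iso (X := c • x0) (Y := c⁻¹ • y0) hS rfl hxy
      (Submodule.smul_mem _ c hx0L) (Submodule.smul_mem _ c⁻¹ hy0L) (by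
        rw [Φ.smul_left, Φ.smul_right, hτ, ← mul_assoc, mul_inv_cancel₀ hc0, one_mul])
    refine ⟨g, hg, hgo, Or.inl ⟨map_span_of hc0 hgx, map_span_of (inv_ne_zero hc0) hgy⟩, ?_⟩
    rw [map_add, map_smul, map_smul, hgx, hgy]
    have h6 : Φ.B (l • c • x0 + m • c⁻¹ • y0) (l • x0 + m • y0) =
        l * m * (c - c⁻¹) * Φ.B x0 y0 := by
      simp only [Φ.add_left, Φ.add_right, Φ.smul_left, Φ.smul_right, hτ, Φ.S_B x0 (hS x0),
        Φ.S_B y0 (hS y0), B_alt hS x0 y0]
      ring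
    rw [h6]
    refine mul_ne_zero (mul_ne_zero (mul_ne_zero hl hm) ?_) hxy
    intro h7
    have h8 : c * c = 1 := by
      have h9 : c = c⁻¹ := sub_eq_zero.1 h7
      calc c * c = c * c⁻¹ := by rw [← h9]
        _ = 1 := mul_inv_cancel₀ hc0
    rcases mul_self_eq_one_iff.1 h8 with h9 | h9
    · exact hc1 h9
    · exact hcm h9

omit [Finite K] [Finite V] in
private theorem quad_symm {x y x' y' : Submodule K V} (hq : Φ.Quad x y x' y') :
    Φ.Quad x' y' x y :=
  ⟨hq.px', hq.py', hq.px, hq.py, hq.xy', hq.xy, Φ.le_orth_comm.1 hq.xx, Φ.le_orth_comm.1 hq.xy1,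
    Φ.le_orth_comm.1 hq.yx, Φ.le_orth_comm.1 hq.yy⟩

private theorem ira_aux {D : Subgroup (V ≃ₗ[K] V)} (hI : Φ.Iso ≤ D)
    (hS : ∀ v, Φ.S v) (h4 : 4 ≤ Nat.card K) {x y x' y' E : Submodule K V}
    (hq : Φ.Quad x y x' y') (hE : Φ.TS E) {a b : V} (hab : b + a ∈ E) (hb : b ∈ x ⊔ y)
    (hb0 : b ≠ 0) (ha : a ∈ x' ⊔ y') {Z : Set (Submodule K V)}
    (hZ : ∀ z, z ∈ Z ↔ z = x ∨ z = y ∨ z = x' ∨ z = y') : ¬ stS D Z ≤ stE D E := by
  intro hle
  obtain ⟨g, hg, hgo, hgxy, hgb⟩ := core hS h4 hq hb hb0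
  have hperp : x' ⊔ y' ≤ Φ.orth (x ⊔ y) := by
    rw [Φ.orth_sup]
    exact sup_le (le_inf hq.xx hq.yx) (le_inf hq.xy1 hq.yy)
  have hfix : ∀ W : Submodule K V, W ≤ Φ.orth (x ⊔ y) → W.map (g : V →ₗ[K] V) = W := by
    intro W hW
    ext v
    constructor
    · rintro ⟨w, hw, rfl⟩
      change g w ∈ W
      rw [hgo w (hW hw)]
      exact hw
    · intro hv
      exact ⟨v, hv, hgo v (hW hv)⟩
  have hfin : Z.Finite := by
    have h1 : Z = {x, y, x', y'} := by
      ext z
      rw [hZ]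
      rfl
    rw [h1]
    exact Set.toFinite _
  have hmem : toPG (hI hg) ∈ stS D Z := by
    apply stS_of_maps hfin
    intro z hz
    rw [toPG_apply, hZ]
    rcases (hZ z).1 hz with rfl | rfl | rfl | rfl
    · rcases hgxy with h | h
      · exact Or.inl h.1
      · exact Or.inr (Or.inl h.1)
    · rcases hgxy with h | h
      · exact Or.inr (Or.inl h.2)
      · exact Or.inl h.2
    · exact Or.inr (Or.inr (Or.inl (hfix _ (le_sup_left.trans hperp))))
    · exact Or.inr (Or.inr (Or.inr (hfix _ (le_sup_right.trans hperp))))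
  have h1 := hle hmem
  rw [mem_stE, toPG_apply] at h1
  have h2 : g (b + a) ∈ E := by
    rw [← h1]
    exact ⟨b + a, hab, rfl⟩
  have h3 : Φ.B (g (b + a)) (b + a) = 0 := hE.2 h2 _ hab
  have hgL : g b ∈ x ⊔ y := by
    have h5 : (x ⊔ y).map (g : V →ₗ[K] V) = x ⊔ y := by
      rw [Submodule.map_sup]
      rcases hgxy with h | h
      · rw [h.1, h.2]
      · rw [h.1, h.2, sup_comm]
    rw [← h5]
    exact ⟨b, hb, rfl⟩
  rw [map_add, hgo a (hperp ha), Φ.add_left, Φ.add_right, Φ.add_right, Φ.S_B a (hS a),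
    hperp ha b hb, Φ.refl _ _ (hperp ha _ hgL), add_zero, add_zero, add_zero] at h3
  exact hgb h3

theorem ira {D : Subgroup (V ≃ₗ[K] V)} (hD : Φ.Grp D) (hI : Φ.Iso ≤ D)
    (hn : finrank K V = 4) (hS : ∀ v, Φ.S v) (heven : Even (Nat.card K))
    (h4 : 4 ≤ Nat.card K) {x y x' y' E : Submodule K V} (hq : Φ.Quad x y x' y')
    (hE : Φ.TS E) (h0 : E ≠ ⊥) : ¬ stS D {x, y, x', y'} ≤ stE D E := by
  obtain ⟨z, hz, hz0⟩ := Submodule.exists_mem_ne_zero_of_ne_bot h0
  have htop : bk x y x' y' = ⊤ := by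
    have hfd : FiniteDimensional K V := inferInstance
    apply Submodule.eq_top_of_finrank_eq
    rw [(bk_nd hq).2, hn]
  have hz1 : z ∈ (x ⊔ y) ⊔ (x' ⊔ y') := by
    have h1 : z ∈ bk x y x' y' := by
      rw [htop]
      trivial
    exact h1
  obtain ⟨b, hb, a, ha, rfl⟩ := Submodule.mem_sup.1 hz1
  by_cases hb0 : b = 0
  · have ha0 : a ≠ 0 := by
      rintro rfl
      apply hz0
      rw [hb0, add_zero]
    refine ira_aux hI hS h4 (quad_symm hq) hE (a := b) (b := a) (by rwa [add_comm]) ha ha0 hb ?_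
    intro z
    simp only [Set.mem_insert_iff, Set.mem_singleton_iff]
    tauto
  · refine ira_aux hI hS h4 hq hE hz hb hb0 ha ?_
    intro z
    simp only [Set.mem_insert_iff, Set.mem_singleton_iff]

theorem map_stS {D : Subgroup (V ≃ₗ[K] V)} (hD : Φ.Grp D) {α : MulAut ↥(PG D)}
    {β : Equiv.Perm Φ.Pt} (hβ : Φ.Bet D α β) (x y x' y' : Φ.Pt) :
    (stS D {x.1, y.1, x'.1, y'.1}).map α.toMonoidHom =
      stS D {(β x).1, (β y).1, (β x').1, (β y').1} := by
  have hpt : ∀ (s : ↥(PG D)) (u : Φ.Pt), Φ.IsPt (s.1 u.1) := by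
    intro s u
    obtain ⟨g, hg, rfl⟩ := exists_toPG s
    rw [toPG_apply]
    exact u.2.map (hD.le hg)
  have key : ∀ s : ↥(PG D), s ∈ stS D {x.1, y.1, x'.1, y'.1} ↔
      α s ∈ stS D {(β x).1, (β y).1, (β x').1, (β y').1} := by
    intro s
    constructor
    · intro hs
      apply stS_of_maps (Set.toFinite _)
      have h1 : ∀ u : Φ.Pt, u.1 ∈ ({x.1, y.1, x'.1, y'.1} : Set (Submodule K V)) →
          (α s).1 (β u).1 ∈ ({(β x).1, (β y).1, (β x').1, (β y').1} : Set (Submodule K V)) := by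
        intro u hu
        have h2 := (hs u.1).2 hu
        simp only [Set.mem_insert_iff, Set.mem_singleton_iff] at h2 ⊢
        rcases h2 with h2 | h2 | h2 | h2
        · exact Or.inl (hβ.eq s u x h2)
        · exact Or.inr (Or.inl (hβ.eq s u y h2))
        · exact Or.inr (Or.inr (Or.inl (hβ.eq s u x' h2)))
        · exact Or.inr (Or.inr (Or.inr (hβ.eq s u y' h2)))
      intro z hz
      simp only [Set.mem_insert_iff, Set.mem_singleton_iff] at hz
      rcases hz with rfl | rfl | rfl | rfl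
      · exact h1 x (by simp)
      · exact h1 y (by simp)
      · exact h1 x' (by simp)
      · exact h1 y' (by simp)
    · intro hs
      apply stS_of_maps (Set.toFinite _)
      have h1 : ∀ u : Φ.Pt, (β u).1 ∈
          ({(β x).1, (β y).1, (β x').1, (β y').1} : Set (Submodule K V)) →
          s.1 u.1 ∈ ({x.1, y.1, x'.1, y'.1} : Set (Submodule K V)) := by
        intro u hu
        have h2 := (hs (β u).1).2 hu
        have h3 : (α s).1 (β u).1 = (β ⟨s.1 u.1, hpt s u⟩).1 := hβ.eq s u ⟨s.1 u.1, hpt s u⟩ rfl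
        have h4 : ∀ v : Φ.Pt, (β ⟨s.1 u.1, hpt s u⟩).1 = (β v).1 → s.1 u.1 = v.1 := by
          intro v hv
          have h5 := β.injective (Subtype.ext hv)
          exact congrArg Subtype.val h5
        rw [h3] at h2
        simp only [Set.mem_insert_iff, Set.mem_singleton_iff] at h2 ⊢
        rcases h2 with h2 | h2 | h2 | h2
        · exact Or.inl (h4 _ h2)
        · exact Or.inr (Or.inl (h4 _ h2))
        · exact Or.inr (Or.inr (Or.inl (h4 _ h2)))
        · exact Or.inr (Or.inr (Or.inr (h4 _ h2)))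
      intro z hz
      simp only [Set.mem_insert_iff, Set.mem_singleton_iff] at hz
      rcases hz with rfl | rfl | rfl | rfl
      · exact h1 x (by simp)
      · exact h1 y (by simp)
      · exact h1 x' (by simp)
      · exact h1 y' (by simp)
  ext s
  constructor
  · rintro ⟨t, ht, rfl⟩
    exact (key t).1 ht
  · intro hs
    refine ⟨α.symm s, ?_, ?_⟩
    · apply (key _).2
      rw [MulEquiv.apply_symm_apply]
      exact hs
    · exact MulEquiv.apply_symm_apply α s

end PS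

end Pool.Agent.Work.MP_bc729a_al.CG
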