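import Pool.Agent.Work.MP_bc729a_al.CG.Bnd

/-! # Module Bd2 (S-M): rank two: more lines than points

PROOF. `idx_bound2`: `finrank E = 2`. `x, y` from `exists_opp_in` (`W = ⊤`), `dsc`: `W' = ⊤ ⊓ orth (x ⊔ y)`, `E' = E ⊓ orth y` a point of `W'`; `bn D W' E' = pn W'` (`bn_pt`; `hd` gives its hypothesis: `finrank W' ≥ 3` or `2 ≤ t`), `pn E = 1 + Q` (`pn_ts`), `bn_rec`: `pn ⊤ * pn W' ≤ bn D ⊤ E * (1 + Q)`, and `pn W' > 1 + Q`, `pn ⊤ > 0`.
`pn_w3`: `W = orth (x ⊔ y)` is nondegenerate of dimension `3`, has a point `x'` (`exists_pt`), an opposite point `y'` in `W`; `W ⊓ orth (x' ⊔ y')` has dimension `1` and no point (a singular vector `v` has `B v v = 0`, so it would be in the radical): `pn = 0`; `pn_rec`: `pn W = 1 + t Q`. `pn_w4`: dimension `4`, `W'' = W ⊓ orth (x' ⊔ y')` has dimension `2` and no point: otherwise `x`, `x'` and a point of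
`W''` span a totally singular space of dimension `3` (`TS.sup`); `pn_rec`: `pn W = 1 + t Q ^ 2`. -/

namespace Pool.Agent.Work.MP_bc729a_al.CG

open Module

universe u v

variable {K : Type u} {V : Type v} [Field K] [AddCommGroup V] [Module K V] [Finite K] [Finite V]

namespace PS

variable {Φ : PS K V}

omit [Finite K] [Finite V] in
private theorem bd2_disj {U W : Submodule K V} (h : U ⊓ W = ⊥) [FiniteDimensional K V] :
    finrank K ↥(U ⊔ W) = finrank K U + finrank K W := by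
  have h1 := Submodule.finrank_sup_add_finrank_inf_eq U W
  rw [h, finrank_bot] at h1
  omega

private theorem bd2_none {W : Submodule K V} (h : ∀ p, Φ.IsPt p → ¬ p ≤ W) : Φ.pn W = 0 := by
  have : IsEmpty {x : Submodule K V // Φ.IsPt x ∧ x ≤ W} := ⟨fun x => h x.1 x.2.1 x.2.2⟩
  exact Nat.card_of_isEmpty

theorem idx_bound2 {D : Subgroup (V ≃ₗ[K] V)} (hD : Φ.Grp D) (hd : 5 ≤ finrank K V ∨ 2 ≤ Φ.t)
    (hr : ∀ E, Φ.TS E → finrank K E ≤ 2)
    (hw : ∀ x y, Φ.IsPt x → Φ.IsPt y → ¬ y ≤ Φ.orth x →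
      1 + Nat.card K < Φ.pn (Φ.orth (x ⊔ y))) (h3 : 3 ≤ finrank K V) :
    ∀ E, Φ.TS E → 2 ≤ finrank K E → Φ.pn ⊤ < Φ.bn D ⊤ E := by
  intro E hE h2
  have hE2 : finrank K E = 2 := le_antisymm (hr E hE) h2
  have hEb : E ≠ ⊥ := by
    rintro rfl
    rw [finrank_bot] at h2
    omega
  obtain ⟨x, y, hx, hxE, hy, hyW, hxy⟩ := exists_opp_in ND_top hE le_top hEb
  obtain ⟨hW', hfW, hE', hfE, hEW', -⟩ := dsc ND_top hE le_top hx hxE hy hyW hxy
  have hrec := bn_rec hD ND_top (Or.inl (by rw [finrank_top]; exact h3)) hE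
    le_top hx hxE hy hyW hxy
  rw [finrank_top] at hfW
  have hlt := hw x y hx hy hxy
  have hW'o : (⊤ : Submodule K V) ⊓ Φ.orth (x ⊔ y) = Φ.orth (x ⊔ y) := top_inf_eq _
  have hE1 : finrank K ↥(E ⊓ Φ.orth y) = 1 := by omega
  have hEpt : Φ.IsPt (E ⊓ Φ.orth y) := by
    obtain ⟨v, hv, hv0⟩ := (Submodule.ne_bot_iff (E ⊓ Φ.orth y)).1 (by
      intro hb
      rw [hb, finrank_bot] at hE1
      omega)
    have h4 : Submodule.span K {v} = E ⊓ Φ.orth y := by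
      apply Submodule.eq_of_le_of_finrank_eq
      · rw [Submodule.span_singleton_le_iff_mem]
        exact hv
      · rw [finrank_span_singleton hv0, hE1]
    rw [← h4]
    exact hE'.isPt hv hv0
  have hbn := bn_pt hD hW' (hd.imp (by intro h; omega) id) hEpt hEW'
  rw [hbn, hW'o] at hrec
  have hpE : Φ.pn E = 1 + Nat.card K := by
    rw [pn_ts hE, hE2]
    simp [Finset.sum_range_succ]
  have hpT : 0 < Φ.pn ⊤ := pn_pos_of hx (hxE.trans le_top)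
  rw [hpE] at hrec
  by_contra hcon
  have hcon' := not_lt.1 hcon
  have h5 : Φ.pn ⊤ * (1 + Nat.card K) < Φ.pn ⊤ * Φ.pn (Φ.orth (x ⊔ y)) :=
    Nat.mul_lt_mul_of_pos_left hlt hpT
  have h6 : Φ.bn D ⊤ E * (1 + Nat.card K) ≤ Φ.pn ⊤ * (1 + Nat.card K) :=
    Nat.mul_le_mul_right _ hcon'
  omega

theorem pn_w3 (hn : finrank K V = 5) (hc : Φ.c ≤ 3) {x y : Submodule K V} (hx : Φ.IsPt x)
    (hy : Φ.IsPt y) (h : ¬ y ≤ Φ.orth x) :
    Φ.pn (Φ.orth (x ⊔ y)) = 1 + Φ.t * Nat.card K := by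
  obtain ⟨hnd, h2⟩ := hyp_nd hx hy h
  have hW := hnd.orth
  have hf : finrank K ↥(Φ.orth (x ⊔ y)) = 3 := by
    have h1 := (ND_top (Φ := Φ)).finrank_inf_orth (le_top : x ⊔ y ≤ ⊤)
    rw [top_inf_eq, finrank_top] at h1
    omega
  obtain ⟨x', hx', hxW'⟩ := exists_pt (Φ := Φ) (W := Φ.orth (x ⊔ y)) (by omega)
  obtain ⟨y', hy', hyW', hxy'⟩ := exists_opp hW hx' hxW'
  obtain ⟨hW'', hf'', -⟩ := dsc hW hx'.ts hxW' hx' le_rfl hy' hyW' hxy'
  have h0 : Φ.pn (Φ.orth (x ⊔ y) ⊓ Φ.orth (x' ⊔ y')) = 0 := by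
    apply bd2_none
    intro p hp hpW
    have h4 : p = Φ.orth (x ⊔ y) ⊓ Φ.orth (x' ⊔ y') := by
      apply Submodule.eq_of_le_of_finrank_eq hpW
      rw [hp.finrank]
      omega
    unfold ND at hW''
    rw [← h4, inf_eq_left.2 hp.self] at hW''
    exact hp.ne_bot hW''
  rw [pn_rec hW hx' hxW' hy' hyW' hxy', h0, hf, mul_zero, add_zero, pow_one]

theorem pn_w4 (hn : finrank K V = 6) (hr : ∀ E, Φ.TS E → finrank K E ≤ 2) (hc : Φ.c ≤ 4)
    {x y : Submodule K V} (hx : Φ.IsPt x) (hy : Φ.IsPt y) (h : ¬ y ≤ Φ.orth x) :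
    Φ.pn (Φ.orth (x ⊔ y)) = 1 + Φ.t * Nat.card K ^ 2 := by
  obtain ⟨hnd, h2⟩ := hyp_nd hx hy h
  have hW := hnd.orth
  have hf : finrank K ↥(Φ.orth (x ⊔ y)) = 4 := by
    have h1 := (ND_top (Φ := Φ)).finrank_inf_orth (le_top : x ⊔ y ≤ ⊤)
    rw [top_inf_eq, finrank_top] at h1
    omega
  obtain ⟨x', hx', hxW'⟩ := exists_pt (Φ := Φ) (W := Φ.orth (x ⊔ y)) (by omega)
  obtain ⟨y', hy', hyW', hxy'⟩ := exists_opp hW hx' hxW'
  have h0 : Φ.pn (Φ.orth (x ⊔ y) ⊓ Φ.orth (x' ⊔ y')) = 0 := by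
    apply bd2_none
    intro p hp hpW
    have hpW1 : p ≤ Φ.orth (x ⊔ y) := hpW.trans inf_le_left
    have hpx' : p ≤ Φ.orth x' := hpW.trans (inf_le_right.trans (Φ.orth_anti le_sup_left))
    have hpy' : p ≤ Φ.orth y' := hpW.trans (inf_le_right.trans (Φ.orth_anti le_sup_right))
    have hts1 : Φ.TS (x' ⊔ p) := hx'.ts.sup hp.ts (Φ.le_orth_comm.1 hpx')
    have hle : x' ⊔ p ≤ Φ.orth (x ⊔ y) := sup_le hxW' hpW1
    have hts2 : Φ.TS (x ⊔ (x' ⊔ p)) := by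
      refine hx.ts.sup hts1 (Φ.le_orth_comm.1 ?_)
      exact hle.trans (Φ.orth_anti le_sup_left)
    have hd1 : x' ⊓ p = ⊥ := by
      refine hx'.inf_eq_bot fun hle' => hxy' ?_
      have := hx'.eq_of_le hp hle'
      exact Φ.le_orth_comm.1 (hle'.trans hpy')
    have hd2 : x ⊓ (x' ⊔ p) = ⊥ := by
      refine hx.inf_eq_bot fun hle' => h ?_
      exact Φ.le_orth_comm.1 ((hle'.trans hle).trans (Φ.orth_anti le_sup_right))
    have hf1 := bd2_disj hd1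
    have hf2 := bd2_disj hd2
    have hr2 := hr _ hts2
    have e1 := hx.finrank
    have e2 := hx'.finrank
    have e3 := hp.finrank
    omega
  rw [pn_rec hW hx' hxW' hy' hyW' hxy', h0, hf, mul_zero, add_zero]

end PS

end Pool.Agent.Work.MP_bc729a_al.CG
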