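import Pool.Agent.Work.MP_bc729a_al.CR.Zen
import Pool.Agent.Work.MP_bc729a_al.CR.AlU
import Pool.Agent.Work.MP_bc729a_al.CG.Hyp

/-! # Module Blk (S-M): automorphisms of unitary groups of dimension three preserve hyperbolic lines

PROOF of `blk3`. If `z = x` both sides hold. Otherwise `zen3`: `z ≤ x ⊔ y` iff there is a central element `s` of `UP D x` with `s.1 y = z`; `α` maps `UP D x` onto `UP D (β x)` (`alU3`), central elements to central elements, and `s.1 y = z ↔ (α s).1 (β y) = β z` (`hβ.eq`, injectivity of `β`); `β x ≠ β y`, `β x ≠ β z`.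
`blk_st`: `map_stE` with `E = x ⊔ y`, `E' = β x ⊔ β y`; both are spanned by points: `x ⊔ y = sSup {z | IsPt z ∧ z ≤ x ⊔ y}` (`le_antisymm`, or `span_pts` with `hyp_nd`, `opp3`). -/

namespace Pool.Agent.Work.MP_bc729a_al.CG

open Module

universe u v

variable {K : Type u} {V : Type v} [Field K] [AddCommGroup V] [Module K V] [Finite K] [Finite V]

namespace PS

variable {Φ : PS K V}

omit [Finite K] [Finite V] in
private theorem PG_isPt {D : Subgroup (V ≃ₗ[K] V)} (hD : Φ.Grp D) (s : ↥(PG D)) {z : Submodule K V}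
    (hz : Φ.IsPt z) : Φ.IsPt (s.1 z) := by
  obtain ⟨g, hg, rfl⟩ := exists_toPG s
  rw [toPG_apply]
  exact hz.map (hD.le hg)

theorem blk3 {D : Subgroup (V ≃ₗ[K] V)} (hD : Φ.Grp D) {p : ℕ} [Fact p.Prime] [CharP K p]
    (hn : finrank K V = 3) (h1 : ∃ a, Φ.τ a ≠ a) {α : MulAut ↥(PG D)}
    {β : Equiv.Perm Φ.Pt} (hβ : Φ.Bet D α β) {x y : Φ.Pt} (hxy : x ≠ y) (z : Φ.Pt) :
    (β z).1 ≤ (β x).1 ⊔ (β y).1 ↔ z.1 ≤ x.1 ⊔ y.1 := by
  by_cases hxz : x = z
  · subst hxz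
    exact ⟨fun _ => le_sup_left, fun _ => le_sup_left⟩
  have hU := alU3 (p := p) hD hn hβ x
  have n1 : x.1 ≠ y.1 := fun h => hxy (Subtype.ext h)
  have n2 : x.1 ≠ z.1 := fun h => hxz (Subtype.ext h)
  have n3 : (β x).1 ≠ (β y).1 := fun h => hxy (β.injective (Subtype.ext h))
  have n4 : (β x).1 ≠ (β z).1 := fun h => hxz (β.injective (Subtype.ext h))
  rw [zen3 hD hn h1 (β x).2 (β y).2 (β z).2 n3 n4, zen3 hD hn h1 x.2 y.2 z.2 n1 n2]
  constructor
  · rintro ⟨s', hs', hc, he⟩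
    rw [← hU] at hs'
    obtain ⟨s, hs, rfl⟩ := hs'
    refine ⟨s, hs, ?_, ?_⟩
    · intro r hr
      have h2 : α.toMonoidHom r ∈ Φ.UP D (β x).1 := by
        rw [← hU]
        exact ⟨r, hr, rfl⟩
      have h3 := hc _ h2
      rw [← map_mul, ← map_mul] at h3
      exact α.injective h3
    · have h3 := hβ.eq s y ⟨s.1 y.1, PG_isPt hD s y.2⟩ rfl
      have h4 : (β ⟨s.1 y.1, PG_isPt hD s y.2⟩).1 = (β z).1 := h3.symm.trans he
      have h5 := β.injective (Subtype.ext h4)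
      exact congrArg Subtype.val h5
  · rintro ⟨s, hs, hc, he⟩
    refine ⟨α s, ?_, ?_, hβ.eq s y z he⟩
    · rw [← hU]
      exact ⟨s, hs, rfl⟩
    · intro r' hr'
      rw [← hU] at hr'
      obtain ⟨r, hr, rfl⟩ := hr'
      change α s * α r = α r * α s
      rw [← map_mul, ← map_mul, hc r hr]

theorem blk_st {D : Subgroup (V ≃ₗ[K] V)} (hD : Φ.Grp D) {p : ℕ} [Fact p.Prime] [CharP K p]
    (hn : finrank K V = 3) (h1 : ∃ a, Φ.τ a ≠ a) {α : MulAut ↥(PG D)}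
    {β : Equiv.Perm Φ.Pt} (hβ : Φ.Bet D α β) {x y : Φ.Pt} (hxy : x ≠ y) :
    (stE D (x.1 ⊔ y.1)).map α.toMonoidHom = stE D ((β x).1 ⊔ (β y).1) := by
  have n1 : x.1 ≠ y.1 := fun h => hxy (Subtype.ext h)
  have n3 : (β x).1 ≠ (β y).1 := fun h => hxy (β.injective (Subtype.ext h))
  refine map_stE hD α β hβ.eq ?_ ?_ (fun z => blk3 (p := p) hD hn h1 hβ hxy z)
  · exact span_pts (hyp_nd x.2 y.2 (opp3 hn x.2 y.2 n1)).1 x.2 le_sup_left
  · exact span_pts (hyp_nd (β x).2 (β y).2 (opp3 hn (β x).2 (β y).2 n3)).1 (β x).2 le_sup_left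

end PS

end Pool.Agent.Work.MP_bc729a_al.CG
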