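import Pool.Agent.Work.MP_bc729a_al.CR.Hd
import Pool.Agent.Work.MP_bc729a_al.CG.TrnB

/-! # Transitivity on lines, rank at least two -/

namespace Pool.Agent.Work.MP_bc729a_al.CG

open Module

universe u v

variable {K : Type u} {V : Type v} [Field K] [AddCommGroup V] [Module K V] [Finite K] [Finite V]

namespace PS

variable {Φ : PS K V}

omit [Finite K] in
private theorem pt_sup_finrank {x z : Submodule K V} (hx : Φ.IsPt x) (hz : Φ.IsPt z)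
    (h : x ≠ z) : finrank K ↥(x ⊔ z) = 2 := by
  have h0 : ¬ x ≤ z := fun h1 => h (hx.eq_of_le hz h1)
  have h1 : x ⊓ z = ⊥ := hx.inf_eq_bot h0
  have h2 := Submodule.finrank_sup_add_finrank_inf_eq x z
  rw [h1, finrank_bot, hx.finrank, hz.finrank] at h2
  omega

omit [Finite K] in
private theorem line_split {x y ℓ : Submodule K V} (hx : Φ.IsPt x) (hℓ : Φ.IsLn ℓ)
    (hxℓ : x ≤ ℓ) (hy : Φ.IsPt y) (h : ¬ y ≤ Φ.orth x) :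
    ∃ z, Φ.IsPt z ∧ z ≤ Φ.orth (x ⊔ y) ∧ ℓ = x ⊔ z := by
  obtain ⟨x0, hx0, hx1⟩ := hx.exists
  obtain ⟨y0, hy0, hy1⟩ := hy.exists
  have ex := hx.eq_span hx0 hx1
  have ey := hy.eq_span hy0 hy1
  have hB : Φ.B x0 y0 ≠ 0 := by
    intro h1
    apply h
    rw [ex, ey, Φ.span_le_orth]
    exact Φ.refl _ _ h1
  have hlt : ¬ ℓ ≤ x := by
    intro h1
    have h2 := Submodule.finrank_mono h1
    rw [hℓ.2, hx.finrank] at h2
    omega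
  obtain ⟨a, ha, hax⟩ := SetLike.not_le_iff_exists.1 hlt
  set c : K := Φ.B a y0 / Φ.B x0 y0 with hc
  have hz1 : a - c • x0 ∈ ℓ := ℓ.sub_mem ha (ℓ.smul_mem c (hxℓ hx0))
  have hz2 : a - c • x0 ∉ x := by
    intro h1
    apply hax
    have h2 := x.add_mem h1 (x.smul_mem c hx0)
    rwa [sub_add_cancel] at h2
  have hz0 : a - c • x0 ≠ 0 := by
    intro h1
    apply hz2
    rw [h1]
    exact x.zero_mem
  have hzp : Φ.IsPt (Submodule.span K {a - c • x0}) := hℓ.1.isPt hz1 hz0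
  have hzℓ : Submodule.span K {a - c • x0} ≤ ℓ := by
    rw [Submodule.span_singleton_le_iff_mem]
    exact hz1
  refine ⟨Submodule.span K {a - c • x0}, hzp, ?_, ?_⟩
  · rw [Φ.orth_sup]
    refine le_inf (hzℓ.trans (hℓ.1.2.trans (Φ.orth_anti hxℓ))) ?_
    rw [ey, Φ.span_le_orth, Φ.B_sub_left, Φ.smul_left, hc, div_mul_cancel₀ _ hB, sub_self]
  · symm
    apply Submodule.eq_of_le_of_finrank_eq (sup_le hxℓ hzℓ)
    rw [hℓ.2]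
    apply pt_sup_finrank hx hzp
    intro h1
    apply hz2
    rw [h1]
    exact Submodule.mem_span_singleton_self _

private theorem trans_core {D : Subgroup (V ≃ₗ[K] V)} (hD : Φ.Grp D) (hc : Φ.c + 2 ≤ finrank K V)
    {x ℓ ℓ' : Submodule K V} (hx : Φ.IsPt x) (hℓ : Φ.IsLn ℓ) (hxℓ : x ≤ ℓ)
    (hℓ' : Φ.IsLn ℓ') (hxℓ' : x ≤ ℓ') :
    ∃ g ∈ D, x.map (g : V →ₗ[K] V) = x ∧ ℓ.map (g : V →ₗ[K] V) = ℓ' := by
  obtain ⟨y, hy, -, hxy⟩ := exists_opp (Φ := Φ) ND_top hx le_top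
  obtain ⟨hH, hH2⟩ := hyp_nd hx hy hxy
  obtain ⟨z, hz, hzW, hz'⟩ := line_split hx hℓ hxℓ hy hxy
  obtain ⟨w, hw, hwW, hw'⟩ := line_split hx hℓ' hxℓ' hy hxy
  have hfr : 3 ≤ finrank K ↥(Φ.orth (x ⊔ y)) ∨ 2 ≤ Φ.t := by
    have h1 := Φ.finrank_orth (x ⊔ y)
    exact hdW' hc (by omega)
  obtain ⟨g, hg, hg1, hg2⟩ := trans_pt hD hH.orth hfr hz hzW hw hwW
  have hfix : ∀ v ∈ x ⊔ y, g v = v := by
    intro v hv
    apply hg1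
    rw [orth_orth]
    exact hv
  have hxg : x.map (g : V →ₗ[K] V) = x := by
    ext v
    constructor
    · rintro ⟨u, hu, rfl⟩
      have h1 : g u = u := hfix u ((le_sup_left : x ≤ x ⊔ y) hu)
      change g u ∈ x
      rw [h1]
      exact hu
    · intro hv
      exact ⟨v, hv, hfix v ((le_sup_left : x ≤ x ⊔ y) hv)⟩
  refine ⟨g, hg, hxg, ?_⟩
  rw [hz', Submodule.map_sup, hxg, hg2, hw']

theorem trans_ln_pt' {D : Subgroup (V ≃ₗ[K] V)} (hD : Φ.Grp D) (hc : Φ.c + 2 ≤ finrank K V)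
    {x ℓ x' ℓ' : Submodule K V} (hx : Φ.IsPt x) (hℓ : Φ.IsLn ℓ) (hxℓ : x ≤ ℓ)
    (hx' : Φ.IsPt x') (hℓ' : Φ.IsLn ℓ') (hxℓ' : x' ≤ ℓ') :
    ∃ g ∈ D, x.map (g : V →ₗ[K] V) = x' ∧ ℓ.map (g : V →ₗ[K] V) = ℓ' := by
  have hfr : 3 ≤ finrank K ↥(⊤ : Submodule K V) := by
    rw [finrank_top]
    exact hd3 hc
  obtain ⟨g, hg, -, hg2⟩ := trans_pt hD ND_top (Or.inl hfr) hx le_top hx' le_top
  have hgI := hD.le hg
  have hℓ1 : Φ.IsLn (ℓ.map (g : V →ₗ[K] V)) := ⟨hℓ.1.map hgI, by rw [finrank_map_eq, hℓ.2]⟩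
  have hxℓ1 : x' ≤ ℓ.map (g : V →ₗ[K] V) := by
    rw [← hg2]
    exact Submodule.map_mono hxℓ
  obtain ⟨h, hh, hh1, hh2⟩ := trans_core hD hc hx' hℓ1 hxℓ1 hℓ' hxℓ'
  have hm : ∀ E : Submodule K V, E.map ((h * g : V ≃ₗ[K] V) : V →ₗ[K] V) =
      (E.map (g : V →ₗ[K] V)).map (h : V →ₗ[K] V) := by
    intro E
    rw [← Submodule.map_comp]
    rfl
  refine ⟨h * g, D.mul_mem hh hg, ?_, ?_⟩
  · rw [hm, hg2, hh1]
  · rw [hm, hh2]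

omit [Finite K] [Finite V] in
private theorem IsLn.exists_pt' {ℓ : Submodule K V} (hℓ : Φ.IsLn ℓ) : ∃ x, Φ.IsPt x ∧ x ≤ ℓ := by
  have h0 : ℓ ≠ ⊥ := by
    intro h1
    have h2 := hℓ.2
    rw [h1, finrank_bot] at h2
    omega
  obtain ⟨v, hv, h1⟩ := (Submodule.ne_bot_iff ℓ).1 h0
  exact ⟨_, hℓ.1.isPt hv h1, by
    rw [Submodule.span_singleton_le_iff_mem]
    exact hv⟩

theorem trans_ln' {D : Subgroup (V ≃ₗ[K] V)} (hD : Φ.Grp D) (hc : Φ.c + 2 ≤ finrank K V)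
    {ℓ ℓ' : Submodule K V} (hℓ : Φ.IsLn ℓ) (hℓ' : Φ.IsLn ℓ') :
    ∃ g ∈ D, ℓ.map (g : V →ₗ[K] V) = ℓ' := by
  obtain ⟨x, hx, hxℓ⟩ := IsLn.exists_pt' hℓ
  obtain ⟨x', hx', hxℓ'⟩ := IsLn.exists_pt' hℓ'
  obtain ⟨g, hg, -, h⟩ := trans_ln_pt' hD hc hx hℓ hxℓ hx' hℓ' hxℓ'
  exact ⟨g, hg, h⟩


end PS

end Pool.Agent.Work.MP_bc729a_al.CG
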