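import Pool.Agent.Work.MP_bc729a_al.CG.StbA
import Pool.Agent.Work.MP_bc729a_al.CG.Idxp
import Pool.Agent.Work.MP_bc729a_al.CR.Gb
import Pool.Agent.Work.MP_bc729a_al.CG.Lns
import Pool.Agent.Work.MP_bc729a_al.CG.Exq

/-! # Opposite points, rank at least two -/

namespace Pool.Agent.Work.MP_bc729a_al.CG

open Module

universe u v

variable {K : Type u} {V : Type v} [Field K] [AddCommGroup V] [Module K V] [Finite K] [Finite V]

namespace PS

variable {Φ : PS K V}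

omit [Finite K] in
private theorem ln_of_pts {x z : Submodule K V} (hx : Φ.IsPt x) (hz : Φ.IsPt z) (h : z ≤ Φ.orth x)
    (hne : x ≠ z) : Φ.IsLn (x ⊔ z) := by
  have hfin : Module.Finite K V := inferInstance
  refine ⟨hx.ts.sup hz.ts (Φ.le_orth_comm.1 h), ?_⟩
  have h1 : x ⊓ z = ⊥ := hx.inf_eq_bot fun hle => hne (hx.eq_of_le hz hle)
  have h2 := Submodule.finrank_sup_add_finrank_inf_eq x z
  rw [h1, finrank_bot, hx.finrank, hz.finrank] at h2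
  omega

private theorem exists_pow {p : ℕ} [Fact p.Prime] [CharP K p] (n : ℕ) :
    ∃ k : ℕ, Φ.t * Nat.card K ^ n = p ^ k := by
  have hp : p.Prime := Fact.out
  have : Fintype K := Fintype.ofFinite K
  obtain ⟨m, -, hm⟩ := FiniteField.card K p
  have hQ : Nat.card K = p ^ (m : ℕ) := by rw [Nat.card_eq_fintype_card, hm]
  have ht : ∃ k, Φ.t = p ^ k := by
    rcases Φ.typ with ⟨-, h1⟩ | ⟨-, h1⟩ | ⟨-, h1⟩
    · exact ⟨0, by rw [h1, pow_zero]⟩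
    · rw [hQ] at h1
      obtain ⟨k, -, hk⟩ := (Nat.dvd_prime_pow hp).1 (Dvd.intro _ h1)
      exact ⟨k, hk⟩
    · exact ⟨m, by rw [h1, hQ]⟩
  obtain ⟨k, hk⟩ := ht
  exact ⟨k + m * n, by rw [hk, hQ, ← pow_mul, ← pow_add]⟩

private theorem relIndex_opp {D : Subgroup (V ≃ₗ[K] V)} (hD : Φ.Grp D) {x y : Submodule K V}
    (hx : Φ.IsPt x) (hy : Φ.IsPt y) (h : ¬ y ≤ Φ.orth x) :
    (stE D y).relIndex (stE D x) =
      Nat.card {F : Submodule K V // Φ.IsPt F ∧ F ≤ ⊤ ∧ ¬ F ≤ Φ.orth x} := by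
  rw [relIndex_stE]
  apply Nat.card_congr
  apply Equiv.subtypeEquivRight
  intro F
  constructor
  · rintro ⟨s, hs, rfl⟩
    obtain ⟨g, hg, rfl⟩ := exists_toPG s
    rw [mem_stE, toPG_apply] at hs
    rw [toPG_apply]
    refine ⟨hy.map (hD.le hg), le_top, fun h1 => h ?_⟩
    rw [← map_le_orth_map (hD.le hg), hs]
    exact h1
  · rintro ⟨hF, -, hF2⟩
    obtain ⟨g, hg, -, hgm⟩ := u_trans (Φ := Φ) (W := ⊤) hx le_top hy le_top hF le_top h hF2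
    have hgD : g ∈ D := hD.u x hx hg
    refine ⟨toPG hgD, ?_, ?_⟩
    · rw [mem_stE, toPG_apply]
      exact hg.map_eq
    · rw [toPG_apply]
      exact hgm

private theorem relIndex_line {D : Subgroup (V ≃ₗ[K] V)} (hD : Φ.Grp D) (hc : Φ.c + 2 ≤ finrank K V)
    {x ℓ : Submodule K V} (hx : Φ.IsPt x) (hℓ : Φ.IsLn ℓ) (hxℓ : x ≤ ℓ) :
    (stE D ℓ).relIndex (stE D x) =
      Nat.card {F : Submodule K V // Φ.IsLn F ∧ x ≤ F ∧ F ≤ Φ.orth x} := by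
  rw [relIndex_stE]
  apply Nat.card_congr
  apply Equiv.subtypeEquivRight
  intro F
  constructor
  · rintro ⟨s, hs, rfl⟩
    obtain ⟨g, hg, rfl⟩ := exists_toPG s
    rw [mem_stE, toPG_apply] at hs
    rw [toPG_apply]
    have h1 : Φ.IsLn (ℓ.map (g : V →ₗ[K] V)) :=
      ⟨hℓ.1.map (hD.le hg), by rw [finrank_map_eq]; exact hℓ.2⟩
    have h2 : x ≤ ℓ.map (g : V →ₗ[K] V) := by
      calc x = x.map (g : V →ₗ[K] V) := hs.symm
        _ ≤ _ := Submodule.map_mono hxℓ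
    exact ⟨h1, h2, h1.1.2.trans (Φ.orth_anti h2)⟩
  · rintro ⟨hF, hxF, -⟩
    obtain ⟨g, hg, h1, h2⟩ := trans_ln_pt' hD hc hx hℓ hxℓ hx hF hxF
    refine ⟨toPG hg, ?_, ?_⟩
    · rw [mem_stE, toPG_apply]
      exact h1
    · rw [toPG_apply]
      exact h2

private theorem exists_two_ln (hc : Φ.c + 2 ≤ finrank K V) {x : Submodule K V} (hx : Φ.IsPt x) :
    ∃ a b : {F : Submodule K V // Φ.IsLn F ∧ x ≤ F ∧ F ≤ Φ.orth x}, a ≠ b := by
  obtain ⟨y₁, hy₁, -, hxy⟩ := exists_opp (Φ := Φ) (W := ⊤) ND_top hx le_top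
  obtain ⟨hnd, hfr⟩ := hyp_nd hx hy₁ hxy
  have h1 := Φ.finrank_orth (x ⊔ y₁)
  rw [hfr] at h1
  have h2 : Φ.c ≤ finrank K ↥(Φ.orth (x ⊔ y₁)) := by omega
  obtain ⟨z, hz, hzW⟩ := exists_pt (Φ := Φ) h2
  obtain ⟨z', hz', hzW', hzz⟩ := exists_opp (Φ := Φ) hnd.orth hz hzW
  have key : ∀ w, Φ.IsPt w → w ≤ Φ.orth (x ⊔ y₁) → Φ.IsLn (x ⊔ w) ∧ x ≤ x ⊔ w ∧
      x ⊔ w ≤ Φ.orth x := by
    intro w hw hwW
    have h3 : w ≤ Φ.orth x := hwW.trans (Φ.orth_anti le_sup_left)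
    refine ⟨ln_of_pts hx hw h3 ?_, le_sup_left, sup_le hx.self h3⟩
    rintro rfl
    exact hxy (Φ.le_orth_comm.1 (hwW.trans (Φ.orth_anti le_sup_right)))
  refine ⟨⟨x ⊔ z, key z hz hzW⟩, ⟨x ⊔ z', key z' hz' hzW'⟩, fun he => hzz ?_⟩
  have h4 : x ⊔ z = x ⊔ z' := congrArg Subtype.val he
  have h5 : z' ≤ x ⊔ z := by rw [h4]; exact le_sup_right
  refine h5.trans (sup_le ?_ hz.self)
  exact Φ.le_orth_comm.1 (hzW.trans (Φ.orth_anti le_sup_left))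

theorem opp_iff' {D : Subgroup (V ≃ₗ[K] V)} (hD : Φ.Grp D) {p : ℕ} [Fact p.Prime] [CharP K p]
    (hc : Φ.c + 2 ≤ finrank K V) {x y : Submodule K V} (hx : Φ.IsPt x) (hy : Φ.IsPt y)
    (hxy : x ≠ y) :
    ¬ y ≤ Φ.orth x ↔ ∃ k : ℕ, (stE D y).relIndex (stE D x) = p ^ k := by
  have hp : p.Prime := Fact.out
  have hc1 := Φ.one_le_c
  constructor
  · intro h
    rw [relIndex_opp hD hx hy h, card_opp ND_top hx le_top]
    exact exists_pow _
  · rintro ⟨k, hk⟩ h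
    have hℓ : Φ.IsLn (x ⊔ y) := ln_of_pts hx hy h hxy
    have h1 : stE D x ⊓ stE D y ≤ stE D (x ⊔ y) := by
      rintro s ⟨hs1, hs2⟩
      have hs1' : s.1 x = x := hs1
      have hs2' : s.1 y = y := hs2
      rw [mem_stE, OrderIso.map_sup, hs1', hs2']
    have h2 : (stE D (x ⊔ y)).relIndex (stE D x) ∣ (stE D y).relIndex (stE D x) := by
      rw [← Subgroup.inf_relIndex_left (stE D x) (stE D y)]
      exact Subgroup.relIndex_dvd_of_le_left _ h1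
    rw [hk, relIndex_line hD hc hx hℓ le_sup_left] at h2
    obtain ⟨j, -, hj⟩ := (Nat.dvd_prime_pow hp).1 h2
    have h3 := Φ.finrank_orth x
    rw [hx.finrank] at h3
    have h4 := card_ln_mod (Φ := Φ) (p := p) hx hx.self le_rfl (by omega)
    rw [hj] at h4
    have hj0 : j = 0 := by
      by_contra hne
      have h5 : p ^ j ≡ 0 [MOD p] := (Nat.modEq_zero_iff_dvd).2 (dvd_pow_self p hne)
      have h6 : (1 : ℕ) ≡ 0 [MOD p] := h4.symm.trans h5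
      have h7 : p ∣ 1 := (Nat.modEq_zero_iff_dvd).1 h6
      exact hp.one_lt.ne' (Nat.dvd_one.1 h7)
    rw [hj0, pow_zero] at hj
    obtain ⟨a, b, hab⟩ := exists_two_ln hc hx
    obtain ⟨hs, -⟩ := Nat.card_eq_one_iff_unique.1 hj
    exact hab (hs.elim a b)


end PS

end Pool.Agent.Work.MP_bc729a_al.CG
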