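import Pool.Agent.Work.MP_bc729a_al.CR.Defs
import Pool.Agent.Work.MP_bc729a_al.CR.Gs
import Pool.Agent.Work.MP_bc729a_al.CG.Idxp
import Pool.Agent.Work.MP_bc729a_al.CG.StbA

/-! # Module Bo (M): automorphisms preserving the class of point stabilisers

PROOF. As in CG/Bet (`exists_beta`), with the hypothesis `h` instead of `eq_stE`: choose `f : Φ.Pt → Φ.Pt` with `(stE D x.1).map α.toMonoidHom = stE D (f x).1`; injective by `Subgroup.map_injective` and `stE_inj`, so bijective (`Φ.Pt` is finite). `st` holds, `eq`: `stE_conj`, `stE_inj`.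
`beta_of`: `Prp`: as in CG/Bet with `opp_iff'` (module Gs, hypothesis `c + 2 ≤ n`). The proofs of CG/Bet can be copied. -/

namespace Pool.Agent.Work.MP_bc729a_al.CG

open Module

universe u v

variable {K : Type u} {V : Type v} [Field K] [AddCommGroup V] [Module K V] [Finite K] [Finite V]

namespace PS

variable {Φ : PS K V}

theorem beta_one {D : Subgroup (V ≃ₗ[K] V)} (hD : Φ.Grp D) (hn : 3 ≤ finrank K V)
    (α : MulAut ↥(PG D))
    (h : ∀ x, Φ.IsPt x → ∃ y, Φ.IsPt y ∧ (stE D x).map α.toMonoidHom = stE D y) :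
    ∃ β : Equiv.Perm Φ.Pt, Φ.Bet D α β := by
  have hex : ∀ x : Φ.Pt, ∃ y : Φ.Pt, (stE D x.1).map α.toMonoidHom = stE D y.1 := by
    intro x
    obtain ⟨y, hy, e⟩ := h x.1 x.2
    exact ⟨⟨y, hy⟩, e⟩
  choose f hf using hex
  have hinj : Function.Injective f := by
    intro x x' h
    have h1 : (stE D x.1).map α.toMonoidHom = (stE D x'.1).map α.toMonoidHom := by
      rw [hf, hf, h]
    have h2 := Subgroup.map_injective α.injective h1
    exact Subtype.ext (stE_inj hD hn x.2 x'.2 h2.le)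
  have hbij : Function.Bijective f := Finite.injective_iff_bijective.1 hinj
  refine ⟨Equiv.ofBijective f hbij, hf, ?_⟩
  intro s x y h
  change (α s).1 (f x).1 = (f y).1
  have h1 : stE D (f y).1 = stE D ((α s).1 (f x).1) := by
    rw [← stE_conj, ← hf x, ← hf y, ← h, ← stE_conj, Subgroup.map_map, Subgroup.map_map]
    congr 1
    ext t : 1
    simp
  obtain ⟨g, hg, e⟩ := exists_toPG (α s)
  have hP : Φ.IsPt ((α s).1 (f x).1) := by
    rw [e]
    exact (f x).2.map (hD.le hg)
  exact (stE_inj hD hn (f y).2 hP h1.le).symm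

theorem Bet.prp {D : Subgroup (V ≃ₗ[K] V)} (hD : Φ.Grp D) {p : ℕ} [Fact p.Prime] [CharP K p]
    (hc : Φ.c + 2 ≤ finrank K V) {α : MulAut ↥(PG D)} {β : Equiv.Perm Φ.Pt}
    (hβ : Φ.Bet D α β) : Φ.Prp β := by
  intro x y
  by_cases hxy : x = y
  · subst hxy
    exact ⟨fun _ => x.2.self, fun _ => (β x).2.self⟩
  · have h1 : y.1 ≠ x.1 := fun h => hxy (Subtype.ext h.symm)
    have h2 : (β y).1 ≠ (β x).1 := fun h => hxy (β.injective (Subtype.ext h.symm))
    have e1 := opp_iff' (p := p) hD hc y.2 x.2 h1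
    have e2 := opp_iff' (p := p) hD hc (β y).2 (β x).2 h2
    have e3 : (stE D (β x).1).relIndex (stE D (β y).1) =
        (stE D x.1).relIndex (stE D y.1) := by
      rw [← hβ.st, ← hβ.st]
      exact Subgroup.relIndex_map_map_of_injective _ _ α.injective
    rw [e3] at e2
    exact not_iff_not.1 (e2.trans e1.symm)

end PS

end Pool.Agent.Work.MP_bc729a_al.CG
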