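import Pool.Agent.Work.MP_bc729a_al.CR.Zen
import Pool.Agent.Work.MP_bc729a_al.CG.Hyp

/-! # Module Ct3 (M): unitary groups of dimension three: the final contradiction

`2 ≠ 0` in `K`. `orth L = span {e₀}`, `V = L ⊕ orth L`, `B e₀ e₀ ≠ 0`; `t ≥ 2`. `N a = a * τ a`.
PROOF. Let `x ≤ L` be a point, `x = span {x₀}`, `β x ≠ x`, `β x ≤ L`, `β x = span {z₀}`. Let `y` be a point, `¬ y ≤ L` (`V` is the span of its points), `y = span {e₀ + u}`, `u ∈ L` (scale; the `orth L`-component is `≠ 0`), `B u u = - B e₀ e₀ =: κ ≠ 0`, `B u x₀ ≠ 0` (otherwise `u ∈ L ⊓ orth x = x`, `B u u = 0`). Let `a₁ ≠ 0` with `τ a₁ * B u x₀ + a₁ * B x₀ u = 0` (take `c₀ = b - τ b ≠ 0`, `τ c₀ = - c₀`, `a₁ = c₀ / B x₀ u`;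
`τ (B x₀ u) = B u x₀`). For `a ∈ {0, a₁, - a₁}` the vector `e₀ + u + a • x₀` is singular (`B (u + a x₀) (u + a x₀) = κ`), it spans a point `y a ≤ x ⊔ y`, `¬ y a ≤ L`. By `hall` (`orth L ≤ y a ⊔ β (y a)`, so `β (y a) ≤ orth L ⊔ y a`) and `¬ β (y a) ≤ L` (`hL`, `β` involution: if `β v ≤ L` then `v = β (β v) ≤ L`): `β (y a) = span {e₀ + λ a • (u + a • x₀)}`, `λ a ≠ 0` (`e₀` is not singular), and `κ * N (λ a) = κ`, so `N (λ a) = 1`.
By `hblk` all `β (y a)` and `β x` are `≤ M := β x ⊔ β y`. `M ≠ L`, `M ⊓ L = β x` (dimension `1`). So `λ a • (u + a • x₀) - λ 0 • u ∈ M ⊓ L = span {z₀}`. For `a = ± a₁`: if `λ a = λ 0` then `λ a * a • x₀ ∈ span {z₀}`, so `β x = x`, contradiction. So `z₀` is a multiple of `u + κ₀ • x₀` with `κ₀ = λ a * a / (λ a - λ 0)`; `u, x₀` are independent, so `κ₀` is the same for `a = a₁` and `a = - a₁`, and `κ₀ ≠ 0`. So `λ a * (κ₀ - a) = κ₀ * λ 0`, and taking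
norms `N (κ₀ - a) = N κ₀`: `- κ₀ * τ a - a * τ κ₀ + N a = 0` for `a = a₁` and `a = - a₁`; add: `2 * N a₁ = 0`, contradiction. -/

namespace Pool.Agent.Work.MP_bc729a_al.CG

open Module

universe u v

variable {K : Type u} {V : Type v} [Field K] [AddCommGroup V] [Module K V] [Finite K] [Finite V]

namespace PS

variable {Φ : PS K V}

omit [AddCommGroup V] [Module K V] [Finite V] in
private theorem two_ne3 (hodd : Odd (Nat.card K)) : (2 : K) ≠ 0 := by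
  intro h2
  have h : CharP K 2 := by
    have h1 : ringChar K ∣ 2 := by
      rw [← CharP.cast_eq_zero_iff K (ringChar K)]
      exact_mod_cast h2
    rcases (Nat.dvd_prime Nat.prime_two).1 h1 with h3 | h3
    · exact absurd h3 CharP.ringChar_ne_one
    · rw [← h3]
      exact ringChar.charP K
  have := Fintype.ofFinite K
  have h3 : 2 ∣ Nat.card K := by
    rw [Nat.card_eq_fintype_card, ← CharP.cast_eq_zero_iff K 2]
    exact Nat.cast_card_eq_zero K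
  obtain ⟨k, hk⟩ := hodd
  omega

omit [Finite K] [Finite V] in
/-- the scalar part of the argument -/
private theorem scalar3 (h2 : (2 : K) ≠ 0) {a₁ l0 l1 l2 μ1 μ2 : K} (ha : a₁ ≠ 0)
    (hμ1 : μ1 ≠ 0)
    (h0 : l0 * Φ.τ l0 = 1) (h1 : l1 * Φ.τ l1 = 1) (h2' : l2 * Φ.τ l2 = 1)
    (e1 : μ2 * (l1 - l0) = μ1 * (l2 - l0)) (e2 : μ2 * (l1 * a₁) = -(μ1 * (l2 * a₁)))
    (hd : l1 - l0 ≠ 0) : False := by
  have hl1 : l1 ≠ 0 := by
    rintro rfl
    rw [zero_mul] at h1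
    exact zero_ne_one h1
  have hl2 : l2 ≠ 0 := by
    rintro rfl
    rw [zero_mul] at h2'
    exact zero_ne_one h2'
  obtain ⟨κ, hκ⟩ : ∃ κ, κ = l1 * a₁ / (l1 - l0) := ⟨_, rfl⟩
  have k1 : κ * (l1 - l0) = l1 * a₁ := by
    rw [hκ, div_mul_cancel₀ _ hd]
  have hμ2 : μ2 ≠ 0 := by
    rintro rfl
    rw [zero_mul] at e2
    have h3 : μ1 * (l2 * a₁) = 0 := by
      rw [← neg_eq_zero, ← e2]
    exact mul_ne_zero hμ1 (mul_ne_zero hl2 ha) h3
  have k2 : κ * (l2 - l0) = -(l2 * a₁) := by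
    have h3 : μ1 * (κ * (l2 - l0)) = μ1 * (-(l2 * a₁)) := by
      calc μ1 * (κ * (l2 - l0)) = κ * (μ1 * (l2 - l0)) := by ring
        _ = κ * (μ2 * (l1 - l0)) := by rw [e1]
        _ = μ2 * (κ * (l1 - l0)) := by ring
        _ = μ2 * (l1 * a₁) := by rw [k1]
        _ = μ1 * (-(l2 * a₁)) := by rw [e2]; ring
    exact mul_left_cancel₀ hμ1 h3
  have m1 : l1 * (κ - a₁) = κ * l0 := by linear_combination k1
  have m2 : l2 * (κ + a₁) = κ * l0 := by linear_combination k2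
  have n1 : (κ - a₁) * (Φ.τ κ - Φ.τ a₁) = κ * Φ.τ κ := by
    have h3 : (l1 * (κ - a₁)) * Φ.τ (l1 * (κ - a₁)) = (κ * l0) * Φ.τ (κ * l0) := by rw [m1]
    rw [map_mul, map_mul, map_sub] at h3
    linear_combination h3 - (κ - a₁) * (Φ.τ κ - Φ.τ a₁) * h1 + κ * Φ.τ κ * h0
  have n2 : (κ + a₁) * (Φ.τ κ + Φ.τ a₁) = κ * Φ.τ κ := by
    have h3 : (l2 * (κ + a₁)) * Φ.τ (l2 * (κ + a₁)) = (κ * l0) * Φ.τ (κ * l0) := by rw [m2]
    rw [map_mul, map_mul, map_add] at h3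
    linear_combination h3 - (κ + a₁) * (Φ.τ κ + Φ.τ a₁) * h2' + κ * Φ.τ κ * h0
  have n3 : 2 * (a₁ * Φ.τ a₁) = 0 := by linear_combination n1 + n2
  exact mul_ne_zero h2 (mul_ne_zero ha (Φ.tau_ne_zero.2 ha)) n3

theorem ctr3 (hn : finrank K V = 3) (hc : Φ.c = 2) (hodd : Odd (Nat.card K))
    (hs : ∀ u v, Φ.τ (Φ.B u v) = Φ.B v u) (h1 : ∃ a, Φ.τ a ≠ a) (β : Equiv.Perm Φ.Pt)
    (hβ2 : ∀ x, β (β x) = x) (hfree : ∀ x, β x ≠ x)
    (hblk : ∀ x y z : Φ.Pt, x ≠ y → ((β z).1 ≤ (β x).1 ⊔ (β y).1 ↔ z.1 ≤ x.1 ⊔ y.1))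
    {L : Submodule K V} (hL : Φ.Blk L) (hLβ : ∀ x : Φ.Pt, x.1 ≤ L → (β x).1 ≤ L)
    (hall : ∀ y : Φ.Pt, ¬ y.1 ≤ L → Φ.orth L ≤ y.1 ⊔ (β y).1) : False := by
  classical
  have h2 := two_ne3 (K := K) hodd
  obtain ⟨x, x', hx, hx', hxx', hLe⟩ := hL
  have hLnd : Φ.ND L ∧ finrank K L = 2 := by
    rw [hLe]
    exact hyp_nd hx hx' hxx'
  obtain ⟨hND, hfL⟩ := hLnd
  have hxL : x ≤ L := by
    rw [hLe]
    exact le_sup_left
  -- the vector `e₀`
  have hfo : finrank K (Φ.orth L) = 1 := by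
    have := Φ.finrank_orth L
    omega
  obtain ⟨⟨e₀, he₀⟩, he0, -⟩ := finrank_eq_one_iff'.1 hfo
  have he0' : e₀ ≠ 0 := fun h => he0 (Subtype.ext h)
  have hspan : ∀ v ∈ Φ.orth L, ∃ c : K, v = c • e₀ := by
    intro v hv
    obtain ⟨⟨w, hw⟩, hw0, hw1⟩ := finrank_eq_one_iff'.1 hfo
    obtain ⟨c, hc⟩ := hw1 ⟨v, hv⟩
    obtain ⟨d, hd⟩ := hw1 ⟨e₀, he₀⟩
    have hc' : c • w = v := congrArg Subtype.val hc
    have hd' : d • w = e₀ := congrArg Subtype.val hd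
    have hd0 : d ≠ 0 := by
      rintro rfl
      rw [zero_smul] at hd'
      exact he0' hd'.symm
    refine ⟨c * d⁻¹, ?_⟩
    rw [← hd', smul_smul, mul_assoc, inv_mul_cancel₀ hd0, mul_one, hc']
  have hLe0 : ∀ w ∈ L, Φ.B e₀ w = 0 := fun w hw => he₀ w hw
  have hLe0' : ∀ w ∈ L, Φ.B w e₀ = 0 := fun w hw => Φ.refl _ _ (he₀ w hw)
  have hBe : Φ.B e₀ e₀ ≠ 0 := by
    intro h0
    have h3 := hND.orth
    unfold ND at h3
    have h4 : e₀ ∈ Φ.orth L ⊓ Φ.orth (Φ.orth L) := by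
      refine ⟨he₀, fun w hw => ?_⟩
      obtain ⟨c, rfl⟩ := hspan w hw
      rw [Φ.smul_right, h0, mul_zero]
    rw [h3, Submodule.mem_bot] at h4
    exact he0' h4
  have he0L : e₀ ∉ L := fun h => hBe (hLe0 e₀ h)
  -- the point `x`
  obtain ⟨x₀, hx0, hxS, hxe⟩ := hx
  have hx₀x : x₀ ∈ x := by
    rw [hxe]
    exact Submodule.mem_span_singleton_self x₀
  have hx₀L : x₀ ∈ L := hxL hx₀x
  have hxpt : Φ.IsPt x := ⟨x₀, hx0, hxS, hxe⟩
  -- the point `y`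
  obtain ⟨y, hypt, hyL⟩ : ∃ y, Φ.IsPt y ∧ ¬ y ≤ L := by
    by_contra hcon
    push Not at hcon
    have h3 := span_pts (Φ := Φ) Φ.ND_top hxpt le_top
    have h4 : (⊤ : Submodule K V) ≤ L := by
      rw [h3]
      exact sSup_le fun z hz => hcon z hz.1
    have h5 : L = ⊤ := top_le_iff.1 h4
    rw [h5, finrank_top] at hfL
    omega
  obtain ⟨y₀, hy0, hyS, hye⟩ := hypt
  have hy₀L : y₀ ∉ L := by
    intro h
    apply hyL
    rw [hye, Submodule.span_singleton_le_iff_mem]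
    exact h
  obtain ⟨l, hl, m, hm, hlm⟩ : ∃ l ∈ L, ∃ m ∈ Φ.orth L, l + m = y₀ := by
    have h3 : y₀ ∈ L ⊔ Φ.orth L := by
      rw [hND.sup]
      trivial
    exact Submodule.mem_sup.1 h3
  obtain ⟨c, hc'⟩ := hspan m hm
  have hc0 : c ≠ 0 := by
    rintro rfl
    rw [zero_smul] at hc'
    rw [hc', add_zero] at hlm
    exact hy₀L (hlm ▸ hl)
  obtain ⟨u, hu⟩ : ∃ u, u = c⁻¹ • l := ⟨_, rfl⟩
  have huL : u ∈ L := by
    rw [hu]
    exact L.smul_mem _ hl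
  have hyu : y₀ = c • (e₀ + u) := by
    rw [← hlm, hc', hu, smul_add, smul_smul, mul_inv_cancel₀ hc0, one_smul, add_comm]
  have hSu : Φ.S (e₀ + u) := by
    rw [← Φ.S_smul_iff hc0, ← hyu]
    exact hyS
  have heuy : e₀ + u ∈ y := by
    have h3 : e₀ + u = c⁻¹ • y₀ := by
      rw [hyu, smul_smul, inv_mul_cancel₀ hc0, one_smul]
    rw [hye, h3]
    exact Submodule.smul_mem _ _ (Submodule.mem_span_singleton_self y₀)
  have hκ : Φ.B u u = -Φ.B e₀ e₀ := by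
    have h3 := Φ.S_B _ hSu
    rw [Φ.add_left, Φ.add_right, Φ.add_right, hLe0 u huL, hLe0' u huL, add_zero, zero_add] at h3
    linear_combination h3
  have hr : Φ.B u x₀ ≠ 0 := by
    intro h0
    have h3 : u ∈ L ⊓ Φ.orth x := ⟨huL, by rw [hxe]; exact Φ.mem_orth_span.2 h0⟩
    have h4 : x = L ⊓ Φ.orth x := by
      apply Submodule.eq_of_le_of_finrank_eq (le_inf hxL hxpt.self)
      have h5 := hND.finrank_inf_orth hxL
      have h6 := hxpt.finrank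
      omega
    rw [← h4] at h3
    have h5 := Φ.S_B _ (hxpt.S h3)
    rw [hκ, neg_eq_zero] at h5
    exact hBe h5
  have hxx : Φ.B x₀ x₀ = 0 := Φ.S_B x₀ hxS
  have hr' : Φ.B x₀ u = Φ.τ (Φ.B u x₀) := (hs u x₀).symm
  -- the point `β x`
  obtain ⟨z, hz⟩ : ∃ z : Φ.Pt, z = β ⟨x, hxpt⟩ := ⟨_, rfl⟩
  have hzL : z.1 ≤ L := by
    rw [hz]
    exact hLβ ⟨x, hxpt⟩ hxL
  have hzx : z.1 ≠ x := by
    intro h
    apply hfree ⟨x, hxpt⟩
    rw [← hz]
    exact Subtype.ext h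
  have hx₀z : x₀ ∉ z.1 := by
    intro h
    apply hzx
    rw [z.2.eq_span h hx0, hxe]
  obtain ⟨w, hw⟩ : ∃ w : Φ.Pt, w = β ⟨y, ⟨y₀, hy0, hyS, hye⟩⟩ := ⟨_, rfl⟩
  have hxy : x ≠ y := by
    intro h
    exact hyL (h ▸ hxL)
  obtain ⟨M, hM⟩ : ∃ M, M = z.1 ⊔ w.1 := ⟨_, rfl⟩
  have hβL : ∀ v : Φ.Pt, ¬ v.1 ≤ L → ¬ (β v).1 ≤ L := by
    intro v hv h
    apply hv
    have h3 := hLβ (β v) h
    rwa [hβ2] at h3
  have hwL : ¬ w.1 ≤ L := by
    rw [hw]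
    exact hβL _ hyL
  have hML : M ⊓ L = z.1 := by
    symm
    apply Submodule.eq_of_le_of_finrank_le
    · rw [hM]
      exact le_inf le_sup_left hzL
    · rw [z.2.finrank]
      have h3 : finrank K M ≤ 2 := by
        rw [hM]
        have h4 := Submodule.finrank_add_le_finrank_add_finrank z.1 w.1
        rw [z.2.finrank, w.2.finrank] at h4
        exact h4
      have h4 : M ⊓ L < M := by
        refine lt_of_le_of_ne inf_le_left fun h => ?_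
        apply hwL
        have h5 : M ≤ L := by
          rw [← h]
          exact inf_le_right
        refine le_trans ?_ h5
        rw [hM]
        exact le_sup_right
      have h5 := Submodule.finrank_lt_finrank_of_lt h4
      omega
  -- the main step
  have key : ∀ a : K, Φ.τ a * Φ.B u x₀ + a * Φ.B x₀ u = 0 →
      ∃ l : K, l * Φ.τ l = 1 ∧ e₀ + l • (u + a • x₀) ∈ M := by
    intro a ha
    have hwL' : u + a • x₀ ∈ L := L.add_mem huL (L.smul_mem _ hx₀L)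
    obtain ⟨q, hq⟩ : ∃ q, q = u + a • x₀ := ⟨_, rfl⟩
    rw [← hq] at hwL'
    rw [← hq]
    have hBq : Φ.B q q = -Φ.B e₀ e₀ := by
      rw [hq, Φ.add_left, Φ.add_right, Φ.add_right, Φ.smul_left, Φ.smul_left, Φ.smul_right,
        Φ.smul_right, hxx, hκ]
      linear_combination ha
    have hSv : Φ.S (e₀ + q) := by
      apply Φ.S_odd hodd
      rw [Φ.add_left, Φ.add_right, Φ.add_right, hLe0 q hwL', hLe0' q hwL', hBq]
      ring
    have hv0 : e₀ + q ≠ 0 := by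
      intro h
      have h3 : e₀ = -q := eq_neg_of_add_eq_zero_left h
      exact he0L (h3 ▸ L.neg_mem hwL')
    obtain ⟨Y, hY⟩ : ∃ Y : Φ.Pt, Y = ⟨Submodule.span K {e₀ + q}, isPt_span hv0 hSv⟩ := ⟨_, rfl⟩
    have hYmem : e₀ + q ∈ Y.1 := by
      rw [hY]
      exact Submodule.mem_span_singleton_self _
    have hYL : ¬ Y.1 ≤ L := by
      intro h
      have h3 := L.sub_mem (h hYmem) hwL'
      rw [add_sub_cancel_right] at h3
      exact he0L h3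
    have hYle : Y.1 ≤ x ⊔ y := by
      rw [hY]
      change Submodule.span K {e₀ + q} ≤ x ⊔ y
      rw [Submodule.span_singleton_le_iff_mem, hq, ← add_assoc, add_comm]
      exact Submodule.add_mem_sup (x.smul_mem _ hx₀x) heuy
    have hYM : (β Y).1 ≤ M := by
      rw [hM, hz, hw]
      refine (hblk _ _ Y ?_).2 hYle
      intro h
      exact hxy (congrArg Subtype.val h)
    have h3 : e₀ ∈ Y.1 ⊔ (β Y).1 := hall Y hYL he₀
    obtain ⟨p, hp, ζ, hζ, hpz⟩ := Submodule.mem_sup.1 h3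
    obtain ⟨α, hα⟩ : ∃ α : K, p = α • (e₀ + q) := by
      rw [hY] at hp
      obtain ⟨α, hα⟩ := Submodule.mem_span_singleton.1 hp
      exact ⟨α, hα.symm⟩
    have hζe : ζ = (1 - α) • e₀ - α • q := by
      rw [eq_sub_of_add_eq' hpz, hα, sub_smul, one_smul, smul_add]
      abel
    have hζ0 : ζ ≠ 0 := by
      intro h
      rw [h, add_zero, hα] at hpz
      have h4 := Φ.S_B _ (Φ.S_smul α _ hSv)
      rw [hpz] at h4
      exact hBe h4
    have hα1 : 1 - α ≠ 0 := by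
      intro h
      apply hβL Y hYL
      apply (β Y).2.le_of_mem hζ hζ0
      rw [hζe, h, zero_smul, zero_sub]
      exact L.neg_mem (L.smul_mem _ hwL')
    refine ⟨-α / (1 - α), ?_, ?_⟩
    · have h4 : (1 - α)⁻¹ • ζ = e₀ + (-α / (1 - α)) • q := by
        rw [hζe, smul_sub, smul_smul, smul_smul, inv_mul_cancel₀ hα1, one_smul, sub_eq_add_neg,
          ← neg_smul]
        congr 2
        rw [div_eq_inv_mul]
        ring
      have h5 := Φ.S_B _ ((β Y).2.S ((β Y).1.smul_mem (1 - α)⁻¹ hζ))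
      rw [h4] at h5
      obtain ⟨l, hl⟩ : ∃ l, l = -α / (1 - α) := ⟨_, rfl⟩
      rw [← hl] at h5 ⊢
      rw [Φ.add_left, Φ.add_right, Φ.add_right, Φ.smul_right, Φ.smul_left, Φ.smul_left,
        Φ.smul_right, hLe0 q hwL', hLe0' q hwL', hBq] at h5
      have h6 : Φ.B e₀ e₀ * (1 - l * Φ.τ l) = 0 := by linear_combination h5
      have h7 := (mul_eq_zero.1 h6).resolve_left hBe
      linear_combination -h7
    · have h4 : (1 - α)⁻¹ • ζ = e₀ + (-α / (1 - α)) • q := by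
        rw [hζe, smul_sub, smul_smul, smul_smul, inv_mul_cancel₀ hα1, one_smul, sub_eq_add_neg,
          ← neg_smul]
        congr 2
        rw [div_eq_inv_mul]
        ring
      rw [← h4]
      exact hYM ((β Y).1.smul_mem _ hζ)
  -- the scalar `a₁`
  obtain ⟨b, hb⟩ := h1
  obtain ⟨c₀, hc₀⟩ : ∃ c₀, c₀ = b - Φ.τ b := ⟨_, rfl⟩
  have hc₀0 : c₀ ≠ 0 := by
    intro h
    rw [hc₀, sub_eq_zero] at h
    exact hb h.symm
  have hc₀τ : Φ.τ c₀ = -c₀ := by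
    rw [hc₀, map_sub, Φ.tau_tau]
    ring
  obtain ⟨r, hrr⟩ : ∃ r, r = Φ.B u x₀ := ⟨_, rfl⟩
  rw [hr', ← hrr] at key
  rw [← hrr] at hr
  have hτr : Φ.τ r ≠ 0 := Φ.tau_ne_zero.2 hr
  obtain ⟨a₁, ha₁⟩ : ∃ a₁, a₁ = c₀ / Φ.τ r := ⟨_, rfl⟩
  have ha0 : a₁ ≠ 0 := by
    rw [ha₁]
    exact div_ne_zero hc₀0 hτr
  have hτa : Φ.τ a₁ = -c₀ / r := by
    rw [ha₁, map_div₀, Φ.tau_tau, hc₀τ]
  have hk1 : Φ.τ a₁ * r + a₁ * Φ.τ r = 0 := by
    rw [hτa, ha₁, div_mul_cancel₀ _ hr, div_mul_cancel₀ _ hτr]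
    ring
  obtain ⟨l0, n0, m0⟩ := key 0 (by rw [map_zero, zero_mul, zero_mul, add_zero])
  obtain ⟨l1, n1, m1⟩ := key a₁ hk1
  obtain ⟨l2, n2, m2⟩ := key (-a₁) (by rw [map_neg]; linear_combination -hk1)
  rw [zero_smul, add_zero] at m0
  have hl1 : l1 ≠ 0 := by
    rintro rfl
    rw [zero_mul] at n1
    exact zero_ne_one n1
  have hl2 : l2 ≠ 0 := by
    rintro rfl
    rw [zero_mul] at n2
    exact zero_ne_one n2
  have d1 : (l1 - l0) • u + (l1 * a₁) • x₀ ∈ z.1 := by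
    rw [← hML]
    refine ⟨?_, L.add_mem (L.smul_mem _ huL) (L.smul_mem _ hx₀L)⟩
    have h3 := M.sub_mem m1 m0
    have h4 : e₀ + l1 • (u + a₁ • x₀) - (e₀ + l0 • u) = (l1 - l0) • u + (l1 * a₁) • x₀ := by
      rw [smul_add, smul_smul, sub_smul]
      abel
    rwa [h4] at h3
  have d2 : (l2 - l0) • u + (-(l2 * a₁)) • x₀ ∈ z.1 := by
    rw [← hML]
    refine ⟨?_, L.add_mem (L.smul_mem _ huL) (L.smul_mem _ hx₀L)⟩
    have h3 := M.sub_mem m2 m0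
    have h4 : e₀ + l2 • (u + -a₁ • x₀) - (e₀ + l0 • u) =
        (l2 - l0) • u + (-(l2 * a₁)) • x₀ := by
      rw [smul_add, smul_smul, sub_smul, mul_neg]
      abel
    rwa [h4] at h3
  obtain ⟨z₀, hz0, hzS, hze⟩ := z.2
  rw [hze] at d1 d2 hx₀z
  obtain ⟨μ1, hμ1⟩ := Submodule.mem_span_singleton.1 d1
  obtain ⟨μ2, hμ2⟩ := Submodule.mem_span_singleton.1 d2
  have hind : ∀ p q : K, p • u + q • x₀ = 0 → p = 0 ∧ q = 0 := by
    intro p q hpq
    have h3 : Φ.B (p • u + q • x₀) x₀ = 0 := by rw [hpq, Φ.B_zero_left]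
    rw [Φ.add_left, Φ.smul_left, Φ.smul_left, hxx, mul_zero, add_zero, ← hrr] at h3
    have h4 : p = 0 := (mul_eq_zero.1 h3).resolve_right hr
    rw [h4, zero_smul, zero_add] at hpq
    exact ⟨h4, (smul_eq_zero.1 hpq).resolve_right hx0⟩
  have hd : l1 - l0 ≠ 0 := by
    intro h
    apply hx₀z
    rw [h, zero_smul, zero_add] at d1
    have h3 := Submodule.smul_mem _ (l1 * a₁)⁻¹ d1
    rwa [smul_smul, inv_mul_cancel₀ (mul_ne_zero hl1 ha0), one_smul] at h3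
  have hμ10 : μ1 ≠ 0 := by
    rintro rfl
    rw [zero_smul] at hμ1
    exact hd (hind _ _ hμ1.symm).1
  have hcmp : (μ2 * (l1 - l0) - μ1 * (l2 - l0)) • u +
      (μ2 * (l1 * a₁) + μ1 * (l2 * a₁)) • x₀ = 0 := by
    have h3 : μ2 • ((l1 - l0) • u + (l1 * a₁) • x₀) =
        μ1 • ((l2 - l0) • u + (-(l2 * a₁)) • x₀) := by
      rw [← hμ1, ← hμ2, smul_smul, smul_smul, mul_comm]
    rw [smul_add, smul_add, smul_smul, smul_smul, smul_smul, smul_smul] at h3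
    rw [sub_smul, add_smul]
    have h4 : (μ1 * -(l2 * a₁)) • x₀ = -((μ1 * (l2 * a₁)) • x₀) := by
      rw [mul_neg, neg_smul]
    rw [h4] at h3
    have h5 := sub_eq_zero.2 h3
    rw [← h5]
    abel
  obtain ⟨e1, e2⟩ := hind _ _ hcmp
  exact scalar3 (Φ := Φ) h2 ha0 hμ10 n0 n1 n2 (sub_eq_zero.1 e1) (eq_neg_of_add_eq_zero_left e2) hd

end PS

end Pool.Agent.Work.MP_bc729a_al.CG
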