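import Pool.Agent.Work.MP_bc729a_al.CG.Defs

/-! # Module CwA (M): a form of the Chevalley-Warning theorem

PROOF. `Y` and `Z` are finite vector spaces over `ZMod p` (`AddCommGroup.zmodModule`, `hY`, `hZ`), of dimensions `m`, `f`, `|Y| = p ^ m`, `|Z| = p ^ f`, so `m > 2 * f`. Let `e i` (`i : Fin m`) be a basis of `Y`, `π j` (`j : Fin f`) coordinates of `Z`. `b` is bilinear over `ZMod p` (additive maps are), so
`π j (b (∑ c i • e i) (∑ c i • e i)) = ∑ i k, c i * c k * π j (b (e i) (e k))`, the value at `c` of the polynomial `F j = ∑ i k, C (π j (b (e i) (e k))) * X i * X k` of total degree `≤ 2`. The sum of the degrees is `≤ 2 * f < m`, so by Chevalley-Warning (`char_dvd_card_solutions_of_sum_lt`) the number of common zeros is divisible by `p`; `0` is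
one, so there is another one. -/

namespace Pool.Agent.Work.MP_bc729a_al.CG

open Module

universe u v

variable {K : Type u} {V : Type v} [Field K] [AddCommGroup V] [Module K V] [Finite K] [Finite V]

private theorem cw_mod {p : ℕ} [Fact p.Prime] {Y : Type v} {Z : Type u}
    [AddCommGroup Y] [AddCommGroup Z] [Module (ZMod p) Y] [Module (ZMod p) Z]
    [Finite Y] [Finite Z] (b : Y → Y → Z)
    (h1 : ∀ u v w, b (u + v) w = b u w + b v w) (h2 : ∀ u v w, b u (v + w) = b u v + b u w)
    (h : Nat.card Z ^ 2 < Nat.card Y) : ∃ y : Y, y ≠ 0 ∧ b y y = 0 := by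
  classical
  have hp : p.Prime := Fact.out
  let Bl : Y →ₗ[ZMod p] Y →ₗ[ZMod p] Z := LinearMap.mk₂ (ZMod p) b h1
    (fun c u v => ZMod.map_smul (AddMonoidHom.mk' (fun u => b u v) (fun u u' => h1 u u' v)) c u) h2
    (fun c u v => ZMod.map_smul (AddMonoidHom.mk' (b u) (h2 u)) c v)
  have hBl : ∀ u v, Bl u v = b u v := fun _ _ => rfl
  let bY := Module.finBasis (ZMod p) Y
  let bZ := Module.finBasis (ZMod p) Z
  let F : Fin (finrank (ZMod p) Z) → MvPolynomial (Fin (finrank (ZMod p) Y)) (ZMod p) := fun j =>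
    ∑ i, ∑ k, MvPolynomial.C (bZ.coord j (b (bY i) (bY k))) * MvPolynomial.X i * MvPolynomial.X k
  have hb : ∀ c : Fin (finrank (ZMod p) Y) → ZMod p,
      b (∑ i, c i • bY i) (∑ i, c i • bY i) = ∑ i, ∑ k, (c i * c k) • b (bY i) (bY k) := by
    intro c
    rw [← hBl, LinearMap.map_sum₂]
    refine Finset.sum_congr rfl fun i _ => ?_
    rw [LinearMap.map_smul₂, map_sum, Finset.smul_sum]
    refine Finset.sum_congr rfl fun k _ => ?_
    rw [map_smul, smul_smul, hBl]
  have hF : ∀ j c, MvPolynomial.eval c (F j) =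
      bZ.coord j (b (∑ i, c i • bY i) (∑ i, c i • bY i)) := by
    intro j c
    rw [hb]
    simp only [F, map_sum, map_mul, MvPolynomial.eval_C, MvPolynomial.eval_X, map_smul,
      smul_eq_mul]
    refine Finset.sum_congr rfl (fun i _ => Finset.sum_congr rfl (fun k _ => ?_))
    ring
  have hdeg : ∀ j, (F j).totalDegree ≤ 2 := by
    intro j
    refine (MvPolynomial.totalDegree_finsetSum _ _).trans (Finset.sup_le fun i _ => ?_)
    refine (MvPolynomial.totalDegree_finsetSum _ _).trans (Finset.sup_le fun k _ => ?_)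
    refine (MvPolynomial.totalDegree_mul _ _).trans ?_
    have e1 : (MvPolynomial.X k : MvPolynomial (Fin (finrank (ZMod p) Y)) (ZMod p)).totalDegree = 1 :=
      MvPolynomial.totalDegree_X k
    have e2 : (MvPolynomial.X i : MvPolynomial (Fin (finrank (ZMod p) Y)) (ZMod p)).totalDegree = 1 :=
      MvPolynomial.totalDegree_X i
    have e3 := MvPolynomial.totalDegree_mul
      (MvPolynomial.C (bZ.coord j (b (bY i) (bY k))) :
        MvPolynomial (Fin (finrank (ZMod p) Y)) (ZMod p)) (MvPolynomial.X i)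
    rw [MvPolynomial.totalDegree_C, e2] at e3
    omega
  have hcY : Nat.card Y = p ^ finrank (ZMod p) Y := by
    rw [Module.natCard_eq_pow_finrank (K := ZMod p) (V := Y), Nat.card_zmod]
  have hcZ : Nat.card Z = p ^ finrank (ZMod p) Z := by
    rw [Module.natCard_eq_pow_finrank (K := ZMod p) (V := Z), Nat.card_zmod]
  rw [hcY, hcZ, ← pow_mul] at h
  have hlt : finrank (ZMod p) Z * 2 < finrank (ZMod p) Y :=
    (Nat.pow_lt_pow_iff_right hp.one_lt).1 h
  have hsum : (∑ j, (F j).totalDegree) < Fintype.card (Fin (finrank (ZMod p) Y)) := by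
    rw [Fintype.card_fin]
    refine lt_of_le_of_lt (Finset.sum_le_card_nsmul _ _ 2 (fun j _ => hdeg j)) ?_
    rw [Finset.card_univ, Fintype.card_fin, smul_eq_mul]
    exact hlt
  have hdvd := char_dvd_card_solutions_of_fintype_sum_lt p hsum
  rw [Fintype.card_eq_nat_card] at hdvd
  have h0 : ∀ j, MvPolynomial.eval (0 : Fin (finrank (ZMod p) Y) → ZMod p) (F j) = 0 := by
    intro j
    have e := hF j 0
    simp only [Pi.zero_apply, zero_smul, Finset.sum_const_zero] at e
    rw [← hBl, map_zero, map_zero] at e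
    exact e
  by_contra hcon
  push Not at hcon
  have hsub : ∀ x : {x : Fin (finrank (ZMod p) Y) → ZMod p // ∀ j, MvPolynomial.eval x (F j) = 0},
      x = ⟨0, h0⟩ := by
    rintro ⟨x, hx⟩
    apply Subtype.ext
    funext i
    by_contra hi
    refine hcon (∑ i, x i • bY i) ?_ ?_
    · intro hz
      exact hi ((Fintype.linearIndependent_iff.1 bY.linearIndependent) x hz i)
    · apply bZ.ext_elem
      intro j
      have e := hx j
      rw [hF] at e
      rw [map_zero]
      exact e
  have hone : Nat.card {x : Fin (finrank (ZMod p) Y) → ZMod p //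
      ∀ j, MvPolynomial.eval x (F j) = 0} = 1 := by
    rw [Nat.card_eq_one_iff_unique]
    exact ⟨⟨fun x y => (hsub x).trans (hsub y).symm⟩, ⟨⟨0, h0⟩⟩⟩
  rw [hone] at hdvd
  exact hp.one_lt.ne' (Nat.dvd_one.1 hdvd)

theorem cw_add {p : ℕ} [Fact p.Prime] {Y : Type v} {Z : Type u}
    [AddCommGroup Y] [AddCommGroup Z]
    [Finite Y] [Finite Z] (hY : ∀ y : Y, p • y = 0) (hZ : ∀ z : Z, p • z = 0) (b : Y → Y → Z)
    (h1 : ∀ u v w, b (u + v) w = b u w + b v w) (h2 : ∀ u v w, b u (v + w) = b u v + b u w)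
    (h : Nat.card Z ^ 2 < Nat.card Y) : ∃ y : Y, y ≠ 0 ∧ b y y = 0 :=
  @cw_mod p _ Y Z _ _ (AddCommGroup.zmodModule hY) (AddCommGroup.zmodModule hZ) _ _ b h1 h2 h

end Pool.Agent.Work.MP_bc729a_al.CG
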