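import Pool.Agent.Work.MP_bc729a_al.CR.E4
import Pool.Agent.Work.MP_bc729a_al.CR.Inc

/-! # Module Dl (M): automorphisms of the symplectic groups of dimension four

PROOF. `Φ.Pt` and the set of lines are finite of the same size (`lines_eq`; `pn ⊤` is the number of points). For a point `x` the subgroup `(stE D x).map α` has index `(stE D x).index = pn ⊤` (`index_pt`), so it is `stE D y` for a point or `stE D ℓ` for a line (`eq_stE4`). If it is a point stabiliser for one point `x`, then for all: another point is `x.map g`, `g ∈ D` (`trans_pt`, `W = ⊤`),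
`stE D (x.map g) = (stE D x).map (conj (toPG g))` (`stE_conj`), whose image is the conjugate of `stE D y` by `α (toPG g)`. Otherwise let `θ x` be the line with `(stE D x).map α = stE D (θ x)`; it is injective (`Subgroup.map_injective`, `stE_inj`), so bijective. For a line `ℓ` the subgroup `(stE D ℓ).map α` has index `pn ⊤` (`index_ln'`, `lines_eq`), so it is `stE D y` or `stE D m`; in the second case
`m = θ x` for some `x` and `stE D ℓ = stE D x`, contradiction to `stE_pt_ln`. So `η ℓ = y`; injective by `stE_ln_inj`, so bijective. `inc`: `(stE D x ⊓ stE D ℓ).map α = stE D (θ x) ⊓ stE D (η ℓ)` has the same index; `inc_iff` twice. -/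

namespace Pool.Agent.Work.MP_bc729a_al.CG

open Module

universe u v

variable {K : Type u} {V : Type v} [Field K] [AddCommGroup V] [Module K V] [Finite K] [Finite V]

namespace PS

variable {Φ : PS K V}

theorem dual_or {D : Subgroup (V ≃ₗ[K] V)} (hD : Φ.Grp D) [IsSimpleGroup ↥(PG D)] {p : ℕ}
    [Fact p.Prime] [CharP K p] (hn : finrank K V = 4) (hc : Φ.c = 1) (α : MulAut ↥(PG D)) :
    (∀ x, Φ.IsPt x → ∃ y, Φ.IsPt y ∧ (stE D x).map α.toMonoidHom = stE D y) ∨
      ∃ θ η, Φ.Dua D α θ η := by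
  classical
  have hn3 : 3 ≤ finrank K V := by omega
  have hcn : Φ.c + 2 ≤ finrank K V := by omega
  have hNDt : Φ.ND (⊤ : Submodule K V) := by
    unfold ND
    rw [orth_top, inf_bot_eq]
  have hfin : Finite (Submodule K V) :=
    Finite.of_injective (fun W : Submodule K V => (W : Set V)) SetLike.coe_injective
  have hidx : ∀ H : Subgroup ↥(PG D), (H.map α.toMonoidHom).index = H.index := fun H =>
    Subgroup.index_map_of_bijective (f := α.toMonoidHom) α.bijective H
  have hinj : ∀ H H' : Subgroup ↥(PG D), H.map α.toMonoidHom = H'.map α.toMonoidHom → H = H' :=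
    fun H H' h => Subgroup.map_injective (f := α.toMonoidHom) α.injective h
  by_cases h : ∃ x, Φ.IsPt x ∧ ∃ y, Φ.IsPt y ∧ (stE D x).map α.toMonoidHom = stE D y
  · left
    obtain ⟨x, hx, y, hy, hxy⟩ := h
    intro x' hx'
    obtain ⟨g, hg, -, hgx⟩ := trans_pt hD hNDt (Or.inl (by rw [finrank_top]; exact hn3)) hx le_top
      hx' le_top
    have h1 : (toPG hg).1 x = x' := hgx
    obtain ⟨k, hk, hks⟩ := exists_toPG (α (toPG hg))
    have h2 : Φ.IsPt ((α (toPG hg)).1 y) := by
      rw [hks, toPG_apply]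
      exact hy.map (hD.le hk)
    refine ⟨_, h2, ?_⟩
    rw [← stE_conj D (α (toPG hg)) y, ← hxy, ← h1, ← stE_conj D (toPG hg) x, Subgroup.map_map,
      Subgroup.map_map]
    congr 1
    ext r : 1
    change α (toPG hg * r * (toPG hg)⁻¹) = α (toPG hg) * α r * (α (toPG hg))⁻¹
    rw [map_mul, map_mul, map_inv]
  · right
    have hθ : ∀ x : Φ.Pt, ∃ ℓ : {ℓ : Submodule K V // Φ.IsLn ℓ},
        (stE D x.1).map α.toMonoidHom = stE D ℓ.1 := by
      intro x
      rcases eq_stE4 hD (p := p) hn hc (R := (stE D x.1).map α.toMonoidHom)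
        ((hidx _).trans (index_pt hD hn3 x.2)) with ⟨y, hy, h1⟩ | ⟨ℓ, hℓ, h1⟩
      · exact absurd ⟨x.1, x.2, y, hy, h1⟩ h
      · exact ⟨⟨ℓ, hℓ⟩, h1⟩
    choose θ hθ using hθ
    have hcard : Nat.card Φ.Pt = Nat.card {ℓ : Submodule K V // Φ.IsLn ℓ} := by
      rw [lines_eq hn hc]
      exact Nat.card_congr (Equiv.subtypeEquivRight fun z => ⟨fun h => ⟨h, le_top⟩, fun h => h.1⟩)
    have hθi : Function.Injective θ := by
      intro x y hxy
      have h1 : stE D x.1 = stE D y.1 := hinj _ _ (by rw [hθ x, hθ y, hxy])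
      exact Subtype.ext (stE_inj hD hn3 x.2 y.2 h1.le)
    have hθb : Function.Bijective θ :=
      (Nat.bijective_iff_injective_and_card θ).2 ⟨hθi, hcard⟩
    have hη : ∀ ℓ : {ℓ : Submodule K V // Φ.IsLn ℓ}, ∃ y : Φ.Pt,
        (stE D ℓ.1).map α.toMonoidHom = stE D y.1 := by
      intro ℓ
      rcases eq_stE4 hD (p := p) hn hc (R := (stE D ℓ.1).map α.toMonoidHom)
        ((hidx _).trans ((index_ln' hD hcn ℓ.2).trans (lines_eq hn hc))) with
        ⟨y, hy, h1⟩ | ⟨m, hm, h1⟩
      · exact ⟨⟨y, hy⟩, h1⟩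
      · obtain ⟨x, hx⟩ := hθb.2 ⟨m, hm⟩
        have h2 : stE D x.1 = stE D ℓ.1 := hinj _ _ (by rw [hθ x, hx, h1])
        exact absurd h2 (stE_pt_ln hD hn3 x.2 ℓ.2)
    choose η hη using hη
    have hηi : Function.Injective η := by
      intro ℓ m hlm
      have h1 : stE D ℓ.1 = stE D m.1 := hinj _ _ (by rw [hη ℓ, hη m, hlm])
      exact Subtype.ext (stE_ln_inj hD ℓ.2 m.2 h1)
    have hηb : Function.Bijective η :=
      (Nat.bijective_iff_injective_and_card η).2 ⟨hηi, hcard.symm⟩
    refine ⟨Equiv.ofBijective θ hθb, Equiv.ofBijective η hηb, ⟨hθ, hη, ?_⟩⟩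
    intro x ℓ
    change (η ℓ).1 ≤ (θ x).1 ↔ x.1 ≤ ℓ.1
    rw [inc_iff hD (p := p) hcn (η ℓ).2 (θ x).2, inc_iff hD (p := p) hcn x.2 ℓ.2, ← hθ x, ← hη ℓ,
      ← Subgroup.map_inf _ _ _ α.injective, hidx, inf_comm]

end PS

end Pool.Agent.Work.MP_bc729a_al.CG
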