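import Pool.Agent.Work.MP_bc729a_al.CR.Gx
import Pool.Agent.Work.MP_bc729a_al.CR.Gr
import Pool.Agent.Work.MP_bc729a_al.CG.Dsc
import Pool.Agent.Work.MP_bc729a_al.CG.Lns

/-! # Module E4 (M): symplectic spaces of dimension four: points and lines

PROOF. `hr_small`: `ts_dim` with `W = ⊤`. `lines_eq`: `t = |K| = Q` (`typ`). Let `x` be a point, `y` opposite (`exists_opp`), `W = orth (x ⊔ y)`, of dimension `2`. `ℓ ↦ ℓ ⊓ W` and `z ↦ x ⊔ z` are inverse bijections between the lines through `x` and the points of `W` (a line through `x` is `≤ orth x`, `¬ x ≤ orth y`), so there are `pn W = 1 + Q` lines through `x` (`pn_two`, or every `1`-dimensional subspace;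
a point of `W` exists by `exists_pt`). Every line has `1 + Q` points (`pn_ts`). Count the pairs `(x, ℓ)`: `pn ⊤ * (1 + Q) = (number of lines) * (1 + Q)`.
`eq_stE4`: as in CG/Rix: `pn ⊤ ≡ 1 mod p`, `R ≠ ⊤`, `bt` (`R₀ = R`, all points) gives a point `x`, `E`, `TS E`, `x ≤ E`, `R ≤ stE D E`; `finrank E ≤ 2`. If `finrank E = 1` then `E = x`, and `(stE D x).index = pn ⊤ = R.index` (`index_pt`), so `R = stE D x`. If `finrank E = 2` then `E` is a line, `(stE D E).index` is the number of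
lines (`index_ln'`), `= pn ⊤ = R.index`, so `R = stE D E`. -/

namespace Pool.Agent.Work.MP_bc729a_al.CG

open Module

universe u v

variable {K : Type u} {V : Type v} [Field K] [AddCommGroup V] [Module K V] [Finite K] [Finite V]

namespace PS

variable {Φ : PS K V}

omit [Finite K] in
private theorem nd_top4 : Φ.ND (⊤ : Submodule K V) := by
  unfold ND
  rw [orth_top, inf_bot_eq]

theorem hr_small (hn : finrank K V ≤ 5) : ∀ E, Φ.TS E → finrank K E ≤ 2 := by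
  intro E hE
  have h := ts_dim (Φ := Φ) nd_top4 hE le_top
  rw [finrank_top] at h
  omega

private theorem isPt_of_ts {E : Submodule K V} (hE : Φ.TS E) (h : finrank K E = 1) :
    Φ.IsPt E := by
  have h0 : E ≠ ⊥ := by
    intro h1
    rw [h1, finrank_bot] at h
    omega
  obtain ⟨v, hv, hv0⟩ := (Submodule.ne_bot_iff E).1 h0
  refine ⟨v, hv0, hE.1 v hv, ?_⟩
  symm
  apply Submodule.eq_of_le_of_finrank_le
  · rw [Submodule.span_singleton_le_iff_mem]
    exact hv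
  · rw [h, finrank_span_singleton hv0]

private theorem lines_through (hn : finrank K V = 4) (hc : Φ.c = 1) {x : Submodule K V}
    (hx : Φ.IsPt x) :
    Nat.card {ℓ : {ℓ : Submodule K V // Φ.IsLn ℓ} // x ≤ ℓ.1} = 1 + Nat.card K := by
  obtain ⟨y, hy, -, hxy⟩ := exists_opp (Φ := Φ) nd_top4 hx le_top
  have hND : Φ.ND (Φ.orth (x ⊔ y)) := by
    have h := (hyp_nd hx hy hxy).1
    unfold ND at h ⊢
    rw [orth_orth, inf_comm]
    exact h
  have hfr : finrank K ↥(Φ.orth (x ⊔ y)) = 2 := by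
    have h1 := finrank_orth (Φ := Φ) (x ⊔ y)
    rw [(hyp_nd hx hy hxy).2, hn] at h1
    omega
  obtain ⟨z, hz, hzW⟩ := exists_pt (Φ := Φ) (W := Φ.orth (x ⊔ y)) (by rw [hc, hfr]; omega)
  have hpn := pn_two hND hfr hz hzW
  have ht : Φ.t = Nat.card K := by
    rcases Φ.typ with h | h | h
    · omega
    · omega
    · exact h.2
  rw [ht] at hpn
  rw [← hpn]
  have hxo : ∀ u : Submodule K V, u ≤ Φ.orth (x ⊔ y) → u ≤ Φ.orth x ∧ u ≤ Φ.orth y := by
    intro u hu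
    rw [orth_sup] at hu
    exact ⟨hu.trans inf_le_left, hu.trans inf_le_right⟩
  have hln : ∀ ℓ : Submodule K V, Φ.IsLn ℓ → x ≤ ℓ →
      Φ.IsPt (ℓ ⊓ Φ.orth y) ∧ ℓ ⊓ Φ.orth y ≤ Φ.orth (x ⊔ y) ∧ x ⊔ ℓ ⊓ Φ.orth y = ℓ := by
    intro ℓ hℓ hxℓ
    obtain ⟨-, -, h3, h4, h5, h6⟩ := dsc (Φ := Φ) nd_top4 hℓ.1 le_top hx hxℓ hy le_top hxy
    rw [hℓ.2] at h4
    exact ⟨isPt_of_ts h3 (by omega), h5.trans inf_le_right, h6⟩
  have hsup : ∀ w : Submodule K V, Φ.IsPt w → w ≤ Φ.orth (x ⊔ y) → Φ.IsLn (x ⊔ w) := by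
    intro w hw hwW
    refine ⟨TS.sup hx.ts hw.ts (Φ.le_orth_comm.1 (hxo w hwW).1), ?_⟩
    have hxw : x ⊓ w = ⊥ := by
      apply hx.inf_eq_bot
      intro hcon
      have h1 : x ≤ Φ.orth y := hcon.trans (hxo w hwW).2
      exact hxy (Φ.le_orth_comm.1 h1)
    have h2 := Submodule.finrank_sup_add_finrank_inf_eq x w
    rw [hxw, finrank_bot, hx.finrank, hw.finrank] at h2
    omega
  apply Nat.card_congr
  exact
    { toFun := fun ℓ => ⟨ℓ.1.1 ⊓ Φ.orth y, (hln ℓ.1.1 ℓ.1.2 ℓ.2).1, (hln ℓ.1.1 ℓ.1.2 ℓ.2).2.1⟩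
      invFun := fun w => ⟨⟨x ⊔ w.1, hsup w.1 w.2.1 w.2.2⟩, le_sup_left⟩
      left_inv := fun ℓ => Subtype.ext (Subtype.ext (hln ℓ.1.1 ℓ.1.2 ℓ.2).2.2)
      right_inv := fun w => Subtype.ext (by
        have hL := hsup w.1 w.2.1 w.2.2
        obtain ⟨h1, -, -⟩ := hln (x ⊔ w.1) hL le_sup_left
        symm
        apply Submodule.eq_of_le_of_finrank_le
        · exact le_inf le_sup_right (hxo w.1 w.2.2).2
        · rw [h1.finrank, w.2.1.finrank]) }

theorem lines_eq (hn : finrank K V = 4) (hc : Φ.c = 1) :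
    Nat.card {ℓ : Submodule K V // Φ.IsLn ℓ} = Φ.pn ⊤ := by
  classical
  have hfin : Finite (Submodule K V) :=
    Finite.of_injective (fun W : Submodule K V => (W : Set V)) SetLike.coe_injective
  have := Fintype.ofFinite {x : Submodule K V // Φ.IsPt x}
  have := Fintype.ofFinite {ℓ : Submodule K V // Φ.IsLn ℓ}
  have hpn : ∀ ℓ : {ℓ : Submodule K V // Φ.IsLn ℓ},
      Nat.card {x : {x : Submodule K V // Φ.IsPt x} // x.1 ≤ ℓ.1} = 1 + Nat.card K := by
    rintro ⟨ℓ, hℓ⟩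
    have h1 : Nat.card {x : {x : Submodule K V // Φ.IsPt x} // x.1 ≤ ℓ} = Φ.pn ℓ := by
      apply Nat.card_congr
      exact
        { toFun := fun x => ⟨x.1.1, x.1.2, x.2⟩
          invFun := fun x => ⟨⟨x.1, x.2.1⟩, x.2.2⟩
          left_inv := fun _ => rfl
          right_inv := fun _ => rfl }
    rw [h1, pn_ts hℓ.1, hℓ.2]
    simp only [Finset.sum_range_succ, Finset.sum_range_zero, pow_zero, pow_one, zero_add]
  have e : (Σ x : {x : Submodule K V // Φ.IsPt x},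
      {ℓ : {ℓ : Submodule K V // Φ.IsLn ℓ} // x.1 ≤ ℓ.1}) ≃
      (Σ ℓ : {ℓ : Submodule K V // Φ.IsLn ℓ},
        {x : {x : Submodule K V // Φ.IsPt x} // x.1 ≤ ℓ.1}) :=
    { toFun := fun s => ⟨s.2.1, s.1, s.2.2⟩
      invFun := fun s => ⟨s.2.1, s.1, s.2.2⟩
      left_inv := fun _ => rfl
      right_inv := fun _ => rfl }
  have h1 := Nat.card_congr e
  rw [Nat.card_sigma, Nat.card_sigma] at h1
  have h2 : ∑ x : {x : Submodule K V // Φ.IsPt x},
      Nat.card {ℓ : {ℓ : Submodule K V // Φ.IsLn ℓ} // x.1 ≤ ℓ.1} =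
      Nat.card {x : Submodule K V // Φ.IsPt x} * (1 + Nat.card K) := by
    rw [Finset.sum_congr rfl (fun x _ => lines_through hn hc x.2), Finset.sum_const,
      Finset.card_univ, smul_eq_mul, ← Nat.card_eq_fintype_card]
  have h3 : ∑ ℓ : {ℓ : Submodule K V // Φ.IsLn ℓ},
      Nat.card {x : {x : Submodule K V // Φ.IsPt x} // x.1 ≤ ℓ.1} =
      Nat.card {ℓ : Submodule K V // Φ.IsLn ℓ} * (1 + Nat.card K) := by
    rw [Finset.sum_congr rfl (fun ℓ _ => hpn ℓ), Finset.sum_const,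
      Finset.card_univ, smul_eq_mul, ← Nat.card_eq_fintype_card]
  rw [h2, h3] at h1
  have h4 := Nat.eq_of_mul_eq_mul_right (by omega : 0 < 1 + Nat.card K) h1
  rw [← h4]
  exact Nat.card_congr (Equiv.subtypeEquivRight fun x => ⟨fun hx => ⟨hx, le_top⟩, fun hx => hx.1⟩)

theorem eq_stE4 {D : Subgroup (V ≃ₗ[K] V)} (hD : Φ.Grp D) [IsSimpleGroup ↥(PG D)] {p : ℕ}
    [Fact p.Prime] [CharP K p] (hn : finrank K V = 4) (hc : Φ.c = 1) {R : Subgroup ↥(PG D)}
    (hR : R.index = Φ.pn ⊤) :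
    (∃ x, Φ.IsPt x ∧ R = stE D x) ∨ ∃ ℓ, Φ.IsLn ℓ ∧ R = stE D ℓ := by
  have hn3 : 3 ≤ finrank K V := by omega
  have hct : Φ.c ≤ finrank K (⊤ : Submodule K V) := by
    rw [finrank_top]
    omega
  have hfin : Finite (Submodule K V) :=
    Finite.of_injective (fun U : Submodule K V => (U : Set V)) SetLike.coe_injective
  have hmod : Φ.pn ⊤ ≡ 1 [MOD p] := pn_mod hct
  have hprime : p.Prime := Fact.out
  have hp : ¬ p ∣ Φ.pn ⊤ := by
    intro hdvd
    have h1 : Φ.pn ⊤ ≡ 0 [MOD p] := (Nat.modEq_zero_iff_dvd).2 hdvd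
    have h2 : 1 ≡ 0 [MOD p] := hmod.symm.trans h1
    have h3 := (Nat.modEq_zero_iff_dvd).1 h2
    exact hprime.one_lt.ne' (Nat.dvd_one.1 h3)
  have hp0 : Φ.pn ⊤ ≠ 0 := fun h => hp (h ▸ dvd_zero p)
  have hRt : R ≠ ⊤ := by
    intro h
    rw [h, Subgroup.index_top] at hR
    obtain ⟨x, hx, -⟩ := exists_pt hct
    obtain ⟨y, hy, -, hxy⟩ := exists_opp (Φ := Φ) nd_top4 hx le_top
    have h1 : Nat.card {x : Submodule K V // Φ.IsPt x ∧ x ≤ ⊤} = 1 := hR.symm
    have h2 := (Nat.card_eq_one_iff_unique.1 h1).1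
    have h3 := congrArg Subtype.val (h2.elim ⟨x, hx, le_top⟩ ⟨y, hy, le_top⟩)
    have h4 : x = y := h3
    apply hxy
    rw [← h4]
    exact hx.self
  have hcard : Nat.card {z : Submodule K V | Φ.IsPt z} = Φ.pn ⊤ :=
    Nat.card_congr (Equiv.subtypeEquivRight fun z => ⟨fun h => ⟨h, le_top⟩, fun h => h.1⟩)
  obtain ⟨x, hx, E, hE, hxE, hRE⟩ := bt hD hn3 (le_refl R) (by rw [hR]; exact hp) hRt
    (Z := {z : Submodule K V | Φ.IsPt z}) (fun z hz => hz) (by rw [hcard]; exact hp) (by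
      intro s _ z hz
      obtain ⟨g, hg, rfl⟩ := exists_toPG s
      rw [toPG_apply]
      exact IsPt.map (Φ := Φ) hz (hD.le hg))
  have hx' : Φ.IsPt x := hx
  have hE2 : finrank K E ≤ 2 := hr_small (by omega) E hE
  have hE1 : 1 ≤ finrank K E := by
    have h1 := Submodule.finrank_mono hxE
    rw [hx'.finrank] at h1
    exact h1
  have key : ∀ F : Submodule K V, R ≤ stE D F → (stE D F).index = Φ.pn ⊤ → R = stE D F := by
    intro F hRF h4
    refine le_antisymm hRF ?_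
    have h5 := Subgroup.relIndex_mul_index hRF
    rw [h4, hR] at h5
    have h6 : R.relIndex (stE D F) = 1 :=
      Nat.eq_of_mul_eq_mul_right (Nat.pos_of_ne_zero hp0) (by rw [h5, one_mul])
    exact Subgroup.relIndex_eq_one.1 h6
  rcases (by omega : finrank K E = 1 ∨ finrank K E = 2) with h | h
  · left
    have hEp := isPt_of_ts hE h
    exact ⟨E, hEp, key E hRE (index_pt hD hn3 hEp)⟩
  · right
    have hEl : Φ.IsLn E := ⟨hE, h⟩
    refine ⟨E, hEl, key E hRE ?_⟩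
    rw [index_ln' hD (by omega) hEl, lines_eq hn hc]

end PS

end Pool.Agent.Work.MP_bc729a_al.CG
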