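import Pool.Agent.Work.MP_bc729a_al.CG.Defs

/-! # Module KFx (S-M): the fixed field of an involution

PROOF. Let `K₀ = {a | τ a = a}`, `m = |K₀|`, `T a = a + τ a`, `N₀ = {a | T a = 0}`. As in CG/HeA (its proof may be copied): `T` is `K₀`-linear, not zero, onto `K₀`; with `b₁`, `τ b₁ ≠ b₁`, `c₀ = b₁ - τ b₁ ≠ 0`, `a ↦ a * c₀` is a bijection of `K₀` with `N₀`. So `|K| = m * |N₀| = m ^ 2`. (Or: `[K : K₀] = 2` by Artin's theorem.) -/

namespace Pool.Agent.Work.MP_bc729a_al.CG

open Module

universe u v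

variable {K : Type u} {V : Type v} [Field K] [AddCommGroup V] [Module K V] [Finite K] [Finite V]

theorem card_fixed (τ : K →+* K) (h2 : ∀ a, τ (τ a) = a) (h1 : ∃ a, τ a ≠ a) :
    Nat.card {a : K // τ a = a} ^ 2 = Nat.card K := by
  obtain ⟨b, hb⟩ := h1
  let D : K →+ K := (AddMonoidHom.id K) - τ.toAddMonoidHom
  have hD : ∀ a, D a = a - τ a := fun a => rfl
  set c : K := b - τ b with hc
  have hc0 : c ≠ 0 := by
    intro h
    exact hb (sub_eq_zero.1 h).symm
  have hτc : τ c = -c := by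
    rw [hc, map_sub, h2]
    ring
  have e1 : Nat.card K = Nat.card (K ⧸ D.ker) * Nat.card D.ker :=
    AddSubgroup.card_eq_card_quotient_mul_card_addSubgroup D.ker
  have e2 : Nat.card (K ⧸ D.ker) = Nat.card D.range :=
    Nat.card_congr (QuotientAddGroup.quotientKerEquivRange D).toEquiv
  have e3 : Nat.card D.ker = Nat.card {a : K // τ a = a} := by
    refine Nat.card_congr (Equiv.subtypeEquivRight fun a => ?_)
    show D a = 0 ↔ τ a = a
    rw [hD, sub_eq_zero]
    exact eq_comm
  have e4 : Nat.card D.range = Nat.card {a : K // τ a = a} := by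
    refine (Nat.card_congr ?_).symm
    refine
      { toFun := fun a => ⟨a.1 * c, ⟨a.1 * b, ?_⟩⟩
        invFun := fun x => ⟨x.1 / c, ?_⟩
        left_inv := ?_
        right_inv := ?_ }
    · rw [hD, map_mul, a.2, hc]
      ring
    · obtain ⟨y, hy⟩ := x.2
      rw [← hy, hD, map_div₀, map_sub, h2, hτc, div_neg, ← neg_div, neg_sub]
    · intro a
      apply Subtype.ext
      exact mul_div_cancel_right₀ a.1 hc0
    · intro x
      apply Subtype.ext
      exact div_mul_cancel₀ x.1 hc0
  rw [e1, e2, e3, e4, sq]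

end Pool.Agent.Work.MP_bc729a_al.CG
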