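import Pool.Agent.Work.MP_bc729a_al.CR.Defs
import Pool.Agent.Work.MP_bc729a_al.CR.CwA
import Pool.Agent.Work.MP_bc729a_al.CR.KFx

/-! # Module HaU (M): hermitian spaces of dimension at least three

PROOF. Let `p` be the characteristic (odd), `K₀ = {a | τ a = a}`, `|K₀| = t` (`card_fixed`, `ht`; `h1`). `Y₁ = {v ∈ W | A v = v}`, `Y₂ = {v ∈ W | A v = -v}`, additive subgroups. For `v ∈ W`: `A ((2 : K)⁻¹ • v) = (2 : K)⁻¹ • A v` (`A` is additive and `2 A ((2 : K)⁻¹ • v) = A v`), so `v = (2 : K)⁻¹ • (v + A v) + (2 : K)⁻¹ • (v - A v)` is a sum of elements of `Y₁` and `Y₂`, uniquely,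
and `|Y₁| * |Y₂| = |W| = |K| ^ (finrank W) ≥ t ^ 6`. So some `Y = Y₁` or `Y₂` has `|Y| ≥ t ^ 3 > t ^ 2`. `cw_add` with this `Y`, `Z = K₀`, `b u v = (2 : K)⁻¹ * (B u v + B v u)` (fixed by `τ`) gives `w ∈ Y`, `w ≠ 0`, `B w w = 0`, so `S w` (`S_odd`), `A w = w` or `A w = -w`. -/

namespace Pool.Agent.Work.MP_bc729a_al.CG

open Module

universe u v

variable {K : Type u} {V : Type v} [Field K] [AddCommGroup V] [Module K V] [Finite K] [Finite V]

namespace PS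

variable {Φ : PS K V}

private theorem two_ne (hodd : Odd (Nat.card K)) : (2 : K) ≠ 0 := by
  intro h
  obtain ⟨q, hq⟩ := CharP.exists K
  have := hq
  have hqp : q.Prime := CharP.char_is_prime K q
  have h2 : q ∣ 2 := by
    rw [← CharP.cast_eq_zero_iff K q 2]
    exact_mod_cast h
  have hq2 : q = 2 := (Nat.prime_dvd_prime_iff_eq hqp Nat.prime_two).1 h2
  subst hq2
  have : Fact (Nat.Prime 2) := ⟨Nat.prime_two⟩
  have := Fintype.ofFinite K
  obtain ⟨n, hn, hc⟩ := FiniteField.card K 2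
  rw [Nat.card_eq_fintype_card, hc] at hodd
  have h3 : Even (2 ^ (n : ℕ)) := Even.pow_of_ne_zero even_two n.pos.ne'
  exact (Nat.not_even_iff_odd.2 hodd) h3

private theorem sing_of_big (hodd : Odd (Nat.card K)) (ht : Φ.t * Φ.t = Nat.card K)
    (hs : ∀ u v, Φ.τ (Φ.B u v) = Φ.B v u) (h1 : ∃ a, Φ.τ a ≠ a) (Y : AddSubgroup V)
    (hY : Φ.t ^ 2 < Nat.card Y) : ∃ w ∈ Y, w ≠ 0 ∧ Φ.S w := by
  have h2 : (2 : K) ≠ 0 := two_ne hodd
  obtain ⟨q, hq⟩ := CharP.exists K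
  have := hq
  have : Fact q.Prime := ⟨CharP.char_is_prime K q⟩
  let K₀ : AddSubgroup K :=
    { carrier := {a | Φ.τ a = a}
      zero_mem' := map_zero _
      add_mem' := by
        intro a b ha hb
        change Φ.τ (a + b) = a + b
        rw [map_add, show Φ.τ a = a from ha, show Φ.τ b = b from hb]
      neg_mem' := by
        intro a ha
        change Φ.τ (-a) = -a
        rw [map_neg, show Φ.τ a = a from ha] }
  have hK₀ : Nat.card K₀ = Φ.t := by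
    have h3 : Nat.card K₀ ^ 2 = Nat.card K := card_fixed Φ.τ Φ.tau_tau h1
    rw [← ht, ← pow_two] at h3
    exact Nat.pow_left_injective (n := 2) (by norm_num) h3
  let b : Y → Y → K₀ := fun u v => ⟨(2 : K)⁻¹ * (Φ.B u v + Φ.B v u), by
    change Φ.τ _ = _
    rw [map_mul, map_add, hs, hs, map_inv₀, map_ofNat, add_comm]⟩
  obtain ⟨w, hw0, hw⟩ := cw_add (p := q) (Y := Y) (Z := K₀)
    (fun y => by
      apply Subtype.ext
      rw [AddSubgroup.coe_nsmul, AddSubgroup.coe_zero, ← Nat.cast_smul_eq_nsmul K,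
        CharP.cast_eq_zero, zero_smul])
    (fun z => by
      apply Subtype.ext
      rw [AddSubgroup.coe_nsmul, AddSubgroup.coe_zero, nsmul_eq_mul, CharP.cast_eq_zero,
        zero_mul]) b
    (fun u v w => by
      apply Subtype.ext
      change (2 : K)⁻¹ * (Φ.B ((u : V) + v) w + Φ.B w ((u : V) + v)) =
        (2 : K)⁻¹ * (Φ.B u w + Φ.B w u) + (2 : K)⁻¹ * (Φ.B v w + Φ.B w v)
      rw [Φ.add_left, Φ.add_right]
      ring)
    (fun u v w => by
      apply Subtype.ext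
      change (2 : K)⁻¹ * (Φ.B u ((v : V) + w) + Φ.B ((v : V) + w) u) =
        (2 : K)⁻¹ * (Φ.B u v + Φ.B v u) + (2 : K)⁻¹ * (Φ.B u w + Φ.B w u)
      rw [Φ.add_left, Φ.add_right]
      ring)
    (by rw [hK₀]; exact hY)
  refine ⟨w, w.2, fun h => hw0 (Subtype.ext h), Φ.S_odd hodd _ ?_⟩
  have h3 : (2 : K)⁻¹ * (Φ.B w w + Φ.B w w) = 0 := congrArg Subtype.val hw
  have h4 : Φ.B w w = (2 : K)⁻¹ * (Φ.B w w + Φ.B w w) := by
    field_simp
    ring
  rw [h4, h3]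

theorem ha_herm (hodd : Odd (Nat.card K)) (ht : Φ.t * Φ.t = Nat.card K)
    (hs : ∀ u v, Φ.τ (Φ.B u v) = Φ.B v u) (h1 : ∃ a, Φ.τ a ≠ a) {W : Submodule K V}
    (hW : 3 ≤ finrank K W) {A : V → V} (hA : Φ.Inv2 W A) :
    ∃ w ∈ W, w ≠ 0 ∧ Φ.S w ∧ ∃ c : K, A w = c • w := by
  have h2 : (2 : K) ≠ 0 := two_ne hodd
  have hA0 : A 0 = 0 := by
    have h := hA.add 0 W.zero_mem 0 W.zero_mem
    rw [add_zero] at h
    exact left_eq_add.1 h
  have hneg : ∀ v ∈ W, A (-v) = -A v := by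
    intro v hv
    have h := hA.add v hv (-v) (W.neg_mem hv)
    rw [add_neg_cancel, hA0] at h
    exact (neg_eq_of_add_eq_zero_right h.symm).symm
  let Y₁ : AddSubgroup V :=
    { carrier := {v | v ∈ W ∧ A v = v}
      zero_mem' := ⟨W.zero_mem, hA0⟩
      add_mem' := by
        rintro a b ⟨ha, ha'⟩ ⟨hb, hb'⟩
        exact ⟨W.add_mem ha hb, by rw [hA.add a ha b hb, ha', hb']⟩
      neg_mem' := by
        rintro a ⟨ha, ha'⟩
        exact ⟨W.neg_mem ha, by rw [hneg a ha, ha']⟩ }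
  let Y₂ : AddSubgroup V :=
    { carrier := {v | v ∈ W ∧ A v = -v}
      zero_mem' := ⟨W.zero_mem, by rw [hA0, neg_zero]⟩
      add_mem' := by
        rintro a b ⟨ha, ha'⟩ ⟨hb, hb'⟩
        exact ⟨W.add_mem ha hb, by rw [hA.add a ha b hb, ha', hb', neg_add]⟩
      neg_mem' := by
        rintro a ⟨ha, ha'⟩
        exact ⟨W.neg_mem ha, by rw [hneg a ha, ha']⟩ }
  have hhalf : ∀ v ∈ W, A ((2 : K)⁻¹ • v) = (2 : K)⁻¹ • A v := by
    intro v hv
    have hv' : (2 : K)⁻¹ • v ∈ W := W.smul_mem _ hv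
    have h := hA.add _ hv' _ hv'
    have e : (2 : K)⁻¹ • v + (2 : K)⁻¹ • v = v := by
      rw [← two_smul K, smul_smul, mul_inv_cancel₀ h2, one_smul]
    rw [e, ← two_smul K] at h
    rw [h, smul_smul, inv_mul_cancel₀ h2, one_smul]
  have hsurj : Function.Surjective (fun x : Y₁ × Y₂ => (⟨x.1 + x.2, W.add_mem x.1.2.1 x.2.2.1⟩ : W)) := by
    rintro ⟨v, hv⟩
    have hAv := hA.mem v hv
    have m1 : v + A v ∈ W := W.add_mem hv hAv
    have m2 : v - A v ∈ W := W.sub_mem hv hAv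
    have e1 : A (v + A v) = v + A v := by
      rw [hA.add v hv _ hAv, hA.inv v hv, add_comm]
    have e2 : A (v - A v) = -(v - A v) := by
      rw [sub_eq_add_neg, hA.add v hv _ (W.neg_mem hAv), hneg _ hAv, hA.inv v hv]
      abel
    refine ⟨(⟨(2 : K)⁻¹ • (v + A v), W.smul_mem _ m1, by rw [hhalf _ m1, e1]⟩,
      ⟨(2 : K)⁻¹ • (v - A v), W.smul_mem _ m2, by rw [hhalf _ m2, e2, smul_neg]⟩), ?_⟩
    apply Subtype.ext
    change (2 : K)⁻¹ • (v + A v) + (2 : K)⁻¹ • (v - A v) = v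
    rw [← smul_add, show v + A v + (v - A v) = v + v by abel, ← two_smul K, smul_smul,
      inv_mul_cancel₀ h2, one_smul]
  have hcard : Nat.card W ≤ Nat.card Y₁ * Nat.card Y₂ := by
    rw [← Nat.card_prod]
    exact Nat.card_le_card_of_surjective _ hsurj
  have hWc : Nat.card W = Nat.card K ^ finrank K W := Module.natCard_eq_pow_finrank
  have ht2 : 2 ≤ Φ.t := by
    have h3 : 1 < Nat.card K := Finite.one_lt_card
    by_contra hc
    have h4 : Φ.t ≤ 1 := by omega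
    have h5 : Φ.t * Φ.t ≤ 1 * 1 := Nat.mul_le_mul h4 h4
    omega
  have hbig : Φ.t ^ 2 < Nat.card Y₁ ∨ Φ.t ^ 2 < Nat.card Y₂ := by
    by_contra hc
    push Not at hc
    have h3 : Nat.card W ≤ Φ.t ^ 2 * Φ.t ^ 2 := hcard.trans (Nat.mul_le_mul hc.1 hc.2)
    have h4 : Φ.t ^ 6 ≤ Nat.card W := by
      rw [hWc, ← ht, ← pow_two, ← pow_mul]
      exact Nat.pow_le_pow_right (by omega) (by omega)
    have h5 : Φ.t ^ 2 * Φ.t ^ 2 < Φ.t ^ 6 := by
      rw [← pow_add]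
      exact Nat.pow_lt_pow_right (by omega) (by norm_num)
    omega
  rcases hbig with hb | hb
  · obtain ⟨w, hw, hw0, hwS⟩ := sing_of_big hodd ht hs h1 Y₁ hb
    exact ⟨w, hw.1, hw0, hwS, 1, by rw [one_smul]; exact hw.2⟩
  · obtain ⟨w, hw, hw0, hwS⟩ := sing_of_big hodd ht hs h1 Y₂ hb
    exact ⟨w, hw.1, hw0, hwS, -1, by rw [neg_smul, one_smul]; exact hw.2⟩

end PS

end Pool.Agent.Work.MP_bc729a_al.CG
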