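import Pool.Agent.Work.MP_bc729a_al.CR.Defs
import Pool.Agent.Work.MP_bc729a_al.CG.Exq

/-! # Module Hyv (S-M): hyperbolic lines are determined by perpendicularity

PROOF. `hyp_pts`: `A = orth (x ⊔ y)` is nondegenerate (`hyp_nd`, `ND.orth`) of dimension `≥ n - 2 ≥ c`, so it has a point and is the span of its points (`exists_pt`, `span_pts`), and `orth A = x ⊔ y`. `→`: clear. `←`: all points of `A` are `≤ orth z`, so `A ≤ orth z`, `z ≤ orth A = x ⊔ y` (`le_orth_comm`). `hyp_beta`: by `Prp` and bijectivity of `β`.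
`hyp_map`: `s.1 (x ⊔ y) = s.1 x ⊔ s.1 y` (`map_sup`), and `s.1 x`, `s.1 y` are opposite points `x₂, y₂` (`exists_toPG`, `hD.le`). Two hyperbolic lines have dimension `2`, so `x₂ ⊔ y₂ = x₁ ⊔ y₁` iff `x₂ ≤ x₁ ⊔ y₁` and `y₂ ≤ x₁ ⊔ y₁` (`hyp_nd`), and by `hyp_beta` this is equivalent to the same statement for the images under `β`; `(α s).1 (β x) = β x₂`, `(α s).1 (β y) = β y₂` (`hβ.eq`). -/

namespace Pool.Agent.Work.MP_bc729a_al.CG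

open Module

universe u v

variable {K : Type u} {V : Type v} [Field K] [AddCommGroup V] [Module K V] [Finite K] [Finite V]

namespace PS

variable {Φ : PS K V}

theorem hyp_pts (hc : Φ.c + 2 ≤ finrank K V) {x y z : Submodule K V} (hx : Φ.IsPt x)
    (hy : Φ.IsPt y) (h : ¬ y ≤ Φ.orth x) (hz : Φ.IsPt z) :
    z ≤ x ⊔ y ↔ ∀ w, Φ.IsPt w → w ≤ Φ.orth x → w ≤ Φ.orth y → w ≤ Φ.orth z := by
  obtain ⟨hN, hN2⟩ := hyp_nd hx hy h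
  constructor
  · intro hzxy w _ h1 h2
    have h3 : w ≤ Φ.orth (x ⊔ y) := by
      rw [Φ.orth_sup]
      exact le_inf h1 h2
    exact h3.trans (Φ.orth_anti hzxy)
  · intro hw
    have hd := Φ.finrank_orth (x ⊔ y)
    rw [hN2] at hd
    obtain ⟨u, hu, huA⟩ := exists_pt (Φ := Φ) (W := Φ.orth (x ⊔ y)) (by omega)
    have h1 : Φ.orth (x ⊔ y) ≤ Φ.orth z := by
      rw [span_pts hN.orth hu huA]
      refine sSup_le ?_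
      rintro w ⟨hwp, hwA⟩
      rw [Φ.orth_sup] at hwA
      exact hw w hwp (hwA.trans inf_le_left) (hwA.trans inf_le_right)
    have h2 := Φ.le_orth_comm.1 h1
    rwa [Φ.orth_orth] at h2

theorem hyp_beta (hc : Φ.c + 2 ≤ finrank K V) {β : Equiv.Perm Φ.Pt} (hP : Φ.Prp β)
    {x y : Φ.Pt} (h : ¬ y.1 ≤ Φ.orth x.1) (z : Φ.Pt) :
    (β z).1 ≤ (β x).1 ⊔ (β y).1 ↔ z.1 ≤ x.1 ⊔ y.1 := by
  have h' : ¬ (β y).1 ≤ Φ.orth (β x).1 := fun h1 => h ((hP y x).1 h1)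
  rw [hyp_pts hc (β x).2 (β y).2 h' (β z).2, hyp_pts hc x.2 y.2 h z.2]
  constructor
  · intro hw w hwp h1 h2
    exact (hP ⟨w, hwp⟩ z).1 (hw (β ⟨w, hwp⟩).1 (β ⟨w, hwp⟩).2 ((hP ⟨w, hwp⟩ x).2 h1)
      ((hP ⟨w, hwp⟩ y).2 h2))
  · intro hw w hwp h1 h2
    obtain ⟨w', hw'⟩ := β.surjective ⟨w, hwp⟩
    have e : w = (β w').1 := by rw [hw']
    rw [e] at h1 h2 ⊢
    exact (hP w' z).2 (hw w'.1 w'.2 ((hP w' x).1 h1) ((hP w' y).1 h2))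

private theorem sup_eq_iff {x y x₁ y₁ : Submodule K V} (hx : Φ.IsPt x) (hy : Φ.IsPt y)
    (hx₁ : Φ.IsPt x₁) (hy₁ : Φ.IsPt y₁) (h : ¬ y ≤ Φ.orth x) (h₁ : ¬ y₁ ≤ Φ.orth x₁) :
    x ⊔ y = x₁ ⊔ y₁ ↔ x ≤ x₁ ⊔ y₁ ∧ y ≤ x₁ ⊔ y₁ := by
  constructor
  · intro e
    rw [← e]
    exact ⟨le_sup_left, le_sup_right⟩
  · rintro ⟨h2, h3⟩
    apply Submodule.eq_of_le_of_finrank_eq (sup_le h2 h3)
    rw [(hyp_nd hx hy h).2, (hyp_nd hx₁ hy₁ h₁).2]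

theorem hyp_map {D : Subgroup (V ≃ₗ[K] V)} (hD : Φ.Grp D) (hc : Φ.c + 2 ≤ finrank K V)
    {α : MulAut ↥(PG D)} {β : Equiv.Perm Φ.Pt} (hβ : Φ.Bet D α β) (hP : Φ.Prp β)
    {x y x₁ y₁ : Φ.Pt} (h : ¬ y.1 ≤ Φ.orth x.1) (h₁ : ¬ y₁.1 ≤ Φ.orth x₁.1)
    (s : ↥(PG D)) :
    (α s).1 ((β x).1 ⊔ (β y).1) = (β x₁).1 ⊔ (β y₁).1 ↔ s.1 (x.1 ⊔ y.1) = x₁.1 ⊔ y₁.1 := by
  have hs : ∀ u : Φ.Pt, Φ.IsPt (s.1 u.1) := by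
    intro u
    obtain ⟨g, hg, rfl⟩ := exists_toPG s
    exact u.2.map (hD.le hg)
  have hso : ∀ u w : Submodule K V, s.1 u ≤ Φ.orth (s.1 w) ↔ u ≤ Φ.orth w := by
    intro u w
    obtain ⟨g, hg, rfl⟩ := exists_toPG s
    exact map_le_orth_map (hD.le hg)
  obtain ⟨x₂, hx₂⟩ : ∃ x₂ : Φ.Pt, s.1 x.1 = x₂.1 := ⟨⟨_, hs x⟩, rfl⟩
  obtain ⟨y₂, hy₂⟩ : ∃ y₂ : Φ.Pt, s.1 y.1 = y₂.1 := ⟨⟨_, hs y⟩, rfl⟩
  have h₂ : ¬ y₂.1 ≤ Φ.orth x₂.1 := by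
    rw [← hx₂, ← hy₂, hso]
    exact h
  have hβ₂ : ¬ (β y₂).1 ≤ Φ.orth (β x₂).1 := fun h1 => h₂ ((hP y₂ x₂).1 h1)
  have hβ₁ : ¬ (β y₁).1 ≤ Φ.orth (β x₁).1 := fun h1 => h₁ ((hP y₁ x₁).1 h1)
  rw [map_sup, map_sup, hβ.eq s x x₂ hx₂, hβ.eq s y y₂ hy₂, hx₂, hy₂,
    sup_eq_iff (β x₂).2 (β y₂).2 (β x₁).2 (β y₁).2 hβ₂ hβ₁,
    sup_eq_iff x₂.2 y₂.2 x₁.2 y₁.2 h₂ h₁, hyp_beta hc hP h₁ x₂, hyp_beta hc hP h₁ y₂]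

end PS

end Pool.Agent.Work.MP_bc729a_al.CG
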