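import Pool.Agent.Work.MP_bc729a_al.CR.Defs
import Pool.Agent.Work.MP_bc729a_al.CG.Exq
import Pool.Agent.Work.MP_bc729a_al.CG.Tst

/-! # Module Irp (S-M): the stabiliser of a pair of perpendicular hyperbolic lines fixes no totally singular subspace

PROOF of `nn'` (compare CG/Nn, case `t ≥ 2`). `v = span {v₀}`, `w = span {w₀}`, `B v₀ w₀ ≠ 0`. `card_t` for `x = w₀`: there are `t ≥ 2` scalars `a` with `S (v₀ + a • w₀)`, so one with `a ≠ 0`. `Φ.ei w₀ v₀ (v₀ + a • w₀)` gives `g`; `g w₀ = w₀`, `g v₀ = v₀ + a • w₀`, `g u - u ∈ span {w₀}` for `B u w₀ = 0`, `g u = u` for `u ∈ orth A` (`B u w₀ = 0`, `B u (a • w₀) = 0`); `B (g v₀) v₀ = a * B w₀ v₀ ≠ 0`.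
PROOF of `irp`. `W₁ = x ⊔ y`, `W₂ = x' ⊔ y'`, `C = orth (W₁ ⊔ W₂)`, all nondegenerate and `V = W₁ ⊕ W₂ ⊕ C` (`hyp_nd`, `bk_nd`, `ND.sup`). Let `z ≤ E` be a point (`TS.isPt`), `z = span {z₀}`, `z₀ = b₁ + b₂ + c₀`. Let `A` be `W₁` if `b₁ ≠ 0`, `W₂` if `b₁ = 0`, `b₂ ≠ 0`, and `C` if `b₁ = b₂ = 0`. There is a point `w ≤ A` opposite to `z`: in the first two cases as `A` is the span of its points
(`span_pts`) and the component `b ≠ 0` of `z₀` is not in `orth A`; in the third case `exists_opp` in `C`. `nn'` gives `g`, `IsU w g`, fixing the vectors of `orth A`, `¬ z.map g ≤ orth z`. `g ∈ D`; `W₁.map g = W₁`, `W₂.map g = W₂` (one or both of them are `≤ orth A`, the other one is `A = orth (orth A)`, `orth_map`). So `toPG g ∈ stP`, but `E.map g = E` would give `z.map g ≤ E ≤ orth z`. -/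

namespace Pool.Agent.Work.MP_bc729a_al.CG

open Module

universe u v

variable {K : Type u} {V : Type v} [Field K] [AddCommGroup V] [Module K V] [Finite K] [Finite V]

namespace PS

variable {Φ : PS K V}

theorem nn' (ht : 2 ≤ Φ.t) {v w A : Submodule K V} (hv : Φ.IsPt v) (hw : Φ.IsPt w)
    (hwA : w ≤ A) (h : ¬ v ≤ Φ.orth w) :
    ∃ g : V ≃ₗ[K] V, Φ.IsU w g ∧ (∀ u ∈ Φ.orth A, g u = u) ∧
      ¬ v.map (g : V →ₗ[K] V) ≤ Φ.orth v := by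
  obtain ⟨v0, hv0, hvS, rfl⟩ := hv
  obtain ⟨w0, hw0, hwS, rfl⟩ := hw
  rw [Φ.span_le_orth] at h
  have hw0A : w0 ∈ A := hwA (Submodule.mem_span_singleton_self w0)
  have hwv : Φ.B w0 v0 ≠ 0 := fun h1 => h (Φ.refl _ _ h1)
  -- a second singular point
  obtain ⟨a, ha, haS⟩ : ∃ a : K, a ≠ 0 ∧ Φ.S (v0 + a • w0) := by
    have h1 := Φ.card_t w0 v0 hwS h
    have h2 : 1 < Nat.card {a : K // Φ.S (v0 + a • w0)} := by
      rw [h1]
      omega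
    have h3 : Nontrivial {a : K // Φ.S (v0 + a • w0)} := (Finite.one_lt_card_iff_nontrivial).1 h2
    have h0 : Φ.S (v0 + (0 : K) • w0) := by
      rw [zero_smul, add_zero]
      exact hvS
    obtain ⟨⟨a, ha⟩, hne⟩ := exists_ne (⟨0, h0⟩ : {a : K // Φ.S (v0 + a • w0)})
    refine ⟨a, ?_, ha⟩
    rintro rfl
    exact hne rfl
  have hB : Φ.B (v0 + a • w0) w0 = Φ.B v0 w0 := by
    rw [Φ.add_left, Φ.smul_left, Φ.S_B _ hwS, mul_zero, add_zero]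
  obtain ⟨g, hgB, hgS, hgw, hgv, hg1, hg2⟩ := Φ.ei w0 v0 (v0 + a • w0) hwS hvS haS h hB
  refine ⟨g, ⟨⟨hgB, hgS⟩, ?_, ?_⟩, ?_, ?_⟩
  · intro u hu
    obtain ⟨b, rfl⟩ := Submodule.mem_span_singleton.1 hu
    rw [map_smul, hgw]
  · intro u hu
    exact hg1 u (Φ.mem_orth_span.1 hu)
  · intro u hu
    refine hg2 u (hu w0 hw0A) (hu _ ?_)
    rw [add_sub_cancel_left]
    exact A.smul_mem _ hw0A
  · rw [Submodule.map_span, Set.image_singleton]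
    have e : (g : V →ₗ[K] V) v0 = v0 + a • w0 := hgv
    rw [e, Φ.span_le_orth, Φ.add_left, Φ.smul_left, Φ.S_B _ hvS, zero_add]
    exact mul_ne_zero ha hwv

private theorem map_eq_of_fix {U : Submodule K V} {g : V ≃ₗ[K] V} (h : ∀ u ∈ U, g u = u) :
    U.map (g : V →ₗ[K] V) = U := by
  ext v
  constructor
  · rintro ⟨u, hu, rfl⟩
    have e : (g : V →ₗ[K] V) u = u := h u hu
    rw [e]
    exact hu
  · intro hv
    exact ⟨v, hv, h v hv⟩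

private theorem map_eq_of_fix_orth {A : Submodule K V} {g : V ≃ₗ[K] V} (hg : g ∈ Φ.Iso)
    (h : ∀ u ∈ Φ.orth A, g u = u) : A.map (g : V →ₗ[K] V) = A := by
  have h1 : (Φ.orth A).map (g : V →ₗ[K] V) = Φ.orth A := map_eq_of_fix h
  have h2 := orth_map (W := Φ.orth A) hg
  rw [h1, Φ.orth_orth] at h2
  exact h2.symm

theorem irp {D : Subgroup (V ≃ₗ[K] V)} (hD : Φ.Grp D) (ht : 2 ≤ Φ.t)
    {x y x' y' E : Submodule K V} (hq : Φ.Quad x y x' y') (hE : Φ.TS E) (h0 : E ≠ ⊥) :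
    ¬ stP D (x ⊔ y) (x' ⊔ y') ≤ stE D E := by
  intro hle
  obtain ⟨z0, hz0E, hz00⟩ := Submodule.exists_mem_ne_zero_of_ne_bot h0
  have hz := hE.isPt hz0E hz00
  have hzE : Submodule.span K {z0} ≤ E := (Submodule.span_singleton_le_iff_mem z0 E).2 hz0E
  generalize hZ : Submodule.span K {z0} = z at hz hzE
  obtain ⟨hN1, -⟩ := hyp_nd hq.px hq.py hq.xy
  obtain ⟨hN2, -⟩ := hyp_nd hq.px' hq.py' hq.xy'
  obtain ⟨hN, -⟩ := bk_nd hq
  have hperp : x' ⊔ y' ≤ Φ.orth (x ⊔ y) := by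
    rw [Φ.orth_sup]
    exact sup_le (le_inf hq.xx hq.yx) (le_inf hq.xy1 hq.yy)
  have hperp' : x ⊔ y ≤ Φ.orth (x' ⊔ y') := Φ.le_orth_comm.1 hperp
  -- the key: an isometry which preserves both lines but moves the point off its perp
  have key : ∃ g : V ≃ₗ[K] V, g ∈ D ∧ (x ⊔ y).map (g : V →ₗ[K] V) = x ⊔ y ∧
      (x' ⊔ y').map (g : V →ₗ[K] V) = x' ⊔ y' ∧ ¬ z.map (g : V →ₗ[K] V) ≤ Φ.orth z := by
    by_cases c1 : ∃ w, Φ.IsPt w ∧ w ≤ x ⊔ y ∧ ¬ z ≤ Φ.orth w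
    · obtain ⟨w, hw, hwA, hzw⟩ := c1
      obtain ⟨g, hg, hg1, hg2⟩ := nn' ht hz hw hwA hzw
      exact ⟨g, hD.u w hw (Φ.mem_UU.2 hg), map_eq_of_fix_orth hg.1 hg1,
        map_eq_of_fix fun u hu => hg1 u (hperp hu), hg2⟩
    by_cases c2 : ∃ w, Φ.IsPt w ∧ w ≤ x' ⊔ y' ∧ ¬ z ≤ Φ.orth w
    · obtain ⟨w, hw, hwA, hzw⟩ := c2
      obtain ⟨g, hg, hg1, hg2⟩ := nn' ht hz hw hwA hzw
      exact ⟨g, hD.u w hw (Φ.mem_UU.2 hg), map_eq_of_fix fun u hu => hg1 u (hperp' hu),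
        map_eq_of_fix_orth hg.1 hg1, hg2⟩
    push Not at c1 c2
    have hz1 : x ⊔ y ≤ Φ.orth z := by
      rw [span_pts hN1 hq.px le_sup_left]
      refine sSup_le ?_
      rintro w ⟨hw, hwA⟩
      exact Φ.le_orth_comm.1 (c1 w hw hwA)
    have hz2 : x' ⊔ y' ≤ Φ.orth z := by
      rw [span_pts hN2 hq.px' le_sup_left]
      refine sSup_le ?_
      rintro w ⟨hw, hwA⟩
      exact Φ.le_orth_comm.1 (c2 w hw hwA)
    have hzC : z ≤ Φ.orth (bk x y x' y') := Φ.le_orth_comm.1 (sup_le hz1 hz2)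
    obtain ⟨w, hw, hwC, hwz⟩ := exists_opp hN.orth hz hzC
    have hzw : ¬ z ≤ Φ.orth w := fun h => hwz (Φ.le_orth_comm.1 h)
    obtain ⟨g, hg, hg1, hg2⟩ := nn' ht hz hw hwC hzw
    rw [Φ.orth_orth] at hg1
    exact ⟨g, hD.u w hw (Φ.mem_UU.2 hg), map_eq_of_fix fun u hu => hg1 u (le_sup_left (a := x ⊔ y) hu),
      map_eq_of_fix fun u hu => hg1 u (le_sup_right (a := x ⊔ y) hu), hg2⟩
  obtain ⟨g, hgD, hgW, hgW', hgz⟩ := key
  have h1 : toPG hgD ∈ stP D (x ⊔ y) (x' ⊔ y') := Or.inl ⟨hgW, hgW'⟩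
  have h2 : E.map (g : V →ₗ[K] V) = E := hle h1
  apply hgz
  have h3 : z.map (g : V →ₗ[K] V) ≤ E := by
    rw [← h2]
    exact Submodule.map_mono hzE
  exact h3.trans (hE.2.trans (Φ.orth_anti hzE))

end PS

end Pool.Agent.Work.MP_bc729a_al.CG
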