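import Pool.Agent.Work.MP_bc729a_al.CR.Bo
import Pool.Agent.Work.MP_bc729a_al.CR.Hyv
import Pool.Agent.Work.MP_bc729a_al.CR.Irp
import Pool.Agent.Work.MP_bc729a_al.CR.Gf
import Pool.Agent.Work.MP_bc729a_al.CR.Gq
import Pool.Agent.Work.MP_bc729a_al.CG.Bt
import Pool.Agent.Work.MP_bc729a_al.CG.Pts
import Pool.Agent.Work.MP_bc729a_al.CG.StbA
import Pool.Agent.Work.MP_bc729a_al.CG.TrnA

/-! # Module MnE2 (M): even fields, symplectic and unitary groups

PROOF. (Compare CG/PMainB.) `CharP K 2`. Let `x, y, x', y'` be from `exists_quad` (`W = ⊤`, `c + 2 ≤ n`), `H = stP D (x ⊔ y) (x' ⊔ y')`. `H ≠ ⊥` by `irp` (`E = x`). `H ≠ ⊤`: the line `x ⊔ x'` has a point `z ≠ x, x'` (`|K| + 1 ≥ 3` points: `span {x₀ + x₀'}`), which is not `≤ x ⊔ y` and not `≤ x' ⊔ y'`; `trans_pt` (`W = ⊤`): `x.map g = z`, `g ∈ D`; if `toPG g ∈ H` then `z ≤ x ⊔ y` or `z ≤ x' ⊔ y'`.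
For `α`: `β` from `beta_one` (`hcl`), `Prp β` (`Bet.prp`). `Quad` holds for the images. `H.map α = stP D (β x ⊔ β y) (β x' ⊔ β y')` (`hyp_map`, four times), and `trans_quad'` gives `g ∈ D` mapping the quadruple to its image, so this is `MulAut.conj (toPG g) • H` (direct: `s ∈ stP D W₁ W₂ ↔ g s g⁻¹ ∈ stP D (W₁.map g) (W₂.map g)`). So `hX.main` applies: `R ≥ H`, `R ≠ ⊤`.
If `2 ∣ R.index` there is `α ∈ X`, `α ^ 2 = 1`, fixing no conjugate of `H`; `β (β z) = z`; `fixed_quad'` gives a quadruple `x₁, y₁, x₁', y₁'` permuted by `β`; `β` maps opposite points to opposite points, so it permutes the two pairs `{x₁, y₁}`, `{x₁', y₁'}` (`x₁` is opposite only to `y₁` in the set), so `stP D (β x₁ ⊔ β y₁) (β x₁' ⊔ β y₁') = stP D (x₁ ⊔ y₁) (x₁' ⊔ y₁')` (`stP` is symmetric in the pair),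
and this is the image under `α`: contradiction (`trans_quad'`). If `¬ 2 ∣ R.index`: `bt` (`R₀ = R`, `Z` all points, `pn_mod`) gives `E`, `TS E`, `E ≠ ⊥`, `H ≤ R ≤ stE D E`, contradiction to `irp`. -/

namespace Pool.Agent.Work.MP_bc729a_al.CG

open Module

universe u v

variable {K : Type u} {V : Type v} [Field K] [AddCommGroup V] [Module K V] [Finite K] [Finite V]

namespace PS

variable {Φ : PS K V}

omit [Finite K] [Finite V] in
private theorem e2_symm (D : Subgroup (V ≃ₗ[K] V)) (A B : Submodule K V) :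
    stP D A B = stP D B A := by
  ext s
  rw [mem_stP, mem_stP]
  constructor
  · rintro (⟨h1, h2⟩ | ⟨h1, h2⟩)
    · exact Or.inl ⟨h2, h1⟩
    · exact Or.inr ⟨h2, h1⟩
  · rintro (⟨h1, h2⟩ | ⟨h1, h2⟩)
    · exact Or.inl ⟨h2, h1⟩
    · exact Or.inr ⟨h2, h1⟩

private theorem e2_map {G : Type v} [Group G] (α : MulAut G) (H H' : Subgroup G)
    (h : ∀ s, α s ∈ H' ↔ s ∈ H) : H.map α.toMonoidHom = H' := by
  ext t
  constructor
  · rintro ⟨s, hs, rfl⟩
    exact (h s).2 hs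
  · intro ht
    refine ⟨α.symm t, ?_, α.apply_symm_apply t⟩
    apply (h _).1
    rw [α.apply_symm_apply]
    exact ht

omit [Finite K] [Finite V] in
private theorem e2_c {D : Subgroup (V ≃ₗ[K] V)} (a s : ↥(PG D)) (A B : Submodule K V) :
    (MulAut.conj a s).1 (a.1 A) = a.1 B ↔ s.1 A = B := by
  have h1 : (MulAut.conj a s).1 (a.1 A) = a.1 (s.1 A) := by
    have h2 : (MulAut.conj a s).1 (a.1 A) = a.1 (s.1 ((a⁻¹).1 (a.1 A))) := rfl
    have h3 : (a⁻¹).1 (a.1 A) = A := a.1.symm_apply_apply A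
    rw [h2, h3]
  rw [h1]
  exact a.1.injective.eq_iff

omit [Finite K] [Finite V] in
private theorem e2_conj (D : Subgroup (V ≃ₗ[K] V)) {g : V ≃ₗ[K] V} (hg : g ∈ D)
    (A B : Submodule K V) :
    (stP D A B).map (MulAut.conj (toPG hg)).toMonoidHom =
      stP D (A.map (g : V →ₗ[K] V)) (B.map (g : V →ₗ[K] V)) := by
  apply e2_map
  intro s
  rw [mem_stP, mem_stP, ← toPG_apply hg, ← toPG_apply hg, e2_c, e2_c, e2_c, e2_c]

omit [Finite K] [Finite V] in
private theorem e2_conjq (D : Subgroup (V ≃ₗ[K] V)) {g : V ≃ₗ[K] V} (hg : g ∈ D)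
    {x y x' y' x₁ y₁ x₁' y₁' : Submodule K V} (e1 : x.map (g : V →ₗ[K] V) = x₁)
    (e2 : y.map (g : V →ₗ[K] V) = y₁) (e3 : x'.map (g : V →ₗ[K] V) = x₁')
    (e4 : y'.map (g : V →ₗ[K] V) = y₁') :
    (stP D (x ⊔ y) (x' ⊔ y')).map (MulAut.conj (toPG hg)).toMonoidHom =
      stP D (x₁ ⊔ y₁) (x₁' ⊔ y₁') := by
  rw [e2_conj, Submodule.map_sup, Submodule.map_sup, e1, e2, e3, e4]

private theorem e2_alpha {D : Subgroup (V ≃ₗ[K] V)} (hD : Φ.Grp D)
    (hc : Φ.c + 2 ≤ finrank K V) {α : MulAut ↥(PG D)} {β : Equiv.Perm Φ.Pt}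
    (hβ : Φ.Bet D α β) (hP : Φ.Prp β)
    {x y x' y' : Φ.Pt} (h : ¬ y.1 ≤ Φ.orth x.1) (h' : ¬ y'.1 ≤ Φ.orth x'.1) :
    (stP D (x.1 ⊔ y.1) (x'.1 ⊔ y'.1)).map α.toMonoidHom =
      stP D ((β x).1 ⊔ (β y).1) ((β x').1 ⊔ (β y').1) := by
  apply e2_map
  intro s
  rw [mem_stP, mem_stP, hyp_map hD hc hβ hP h h, hyp_map hD hc hβ hP h' h',
    hyp_map hD hc hβ hP h h', hyp_map hD hc hβ hP h' h]

omit [Finite K] [Finite V] in
private theorem e2_quad {β : Equiv.Perm Φ.Pt} (hP : Φ.Prp β) {x y x' y' : Φ.Pt}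
    (h : Φ.Quad x.1 y.1 x'.1 y'.1) : Φ.Quad (β x).1 (β y).1 (β x').1 (β y').1 where
  px := (β x).2
  py := (β y).2
  px' := (β x').2
  py' := (β y').2
  xy := fun hh => h.xy ((hP y x).1 hh)
  xy' := fun hh => h.xy' ((hP y' x').1 hh)
  xx := (hP x' x).2 h.xx
  yx := (hP x' y).2 h.yx
  xy1 := (hP y' x).2 h.xy1
  yy := (hP y' y).2 h.yy

omit [Finite K] [Finite V] in
private theorem e2_bot {W x : Submodule K V} (hW : Φ.ND W) (hx : Φ.IsPt x) (h : x ≤ W)
    (h' : x ≤ Φ.orth W) : False := by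
  apply hx.ne_bot
  rw [eq_bot_iff, ← hW]
  exact le_inf h h'

private theorem e2_ne {x y x' y' : Submodule K V} (h : Φ.Quad x y x' y') :
    x ⊔ y ≠ x' ⊔ y' := by
  intro e
  have h1 : x' ≤ Φ.orth (x ⊔ y) := by
    rw [Φ.orth_sup]
    exact le_inf h.xx h.yx
  exact e2_bot (hyp_nd h.px h.py h.xy).1 h.px' (by rw [e]; exact le_sup_left) h1

omit [Finite K] [Finite V] in
/-- `β` permutes the two lines of an invariant quadruple. -/
private theorem e2_two {β : Equiv.Perm Φ.Pt} (hP : Φ.Prp β) {x y x' y' : Φ.Pt}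
    (h : Φ.Quad x.1 y.1 x'.1 y'.1)
    (hperm : ∀ z ∈ ({x, y, x', y'} : Set Φ.Pt), β z ∈ ({x, y, x', y'} : Set Φ.Pt))
    {a b : Φ.Pt} (ha : a ∈ ({x, y, x', y'} : Set Φ.Pt)) (hb : b ∈ ({x, y, x', y'} : Set Φ.Pt))
    (hab : ¬ b.1 ≤ Φ.orth a.1) :
    (β a).1 ⊔ (β b).1 = x.1 ⊔ y.1 ∨ (β a).1 ⊔ (β b).1 = x'.1 ⊔ y'.1 := by
  have h1 : ¬ (β b).1 ≤ Φ.orth (β a).1 := fun hh => hab ((hP b a).1 hh)
  have ha' := hperm a ha
  have hb' := hperm b hb
  simp only [Set.mem_insert_iff, Set.mem_singleton_iff] at ha' hb'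
  have cm : ∀ {u v : Submodule K V}, u ≤ Φ.orth v → v ≤ Φ.orth u := fun hh => Φ.le_orth_comm.1 hh
  rcases ha' with e | e | e | e
  · rw [e] at h1 ⊢
    left
    rcases hb' with f | f | f | f
    · rw [f] at h1
      exact absurd x.2.self h1
    · rw [f]
    · rw [f] at h1
      exact absurd h.xx h1
    · rw [f] at h1
      exact absurd h.xy1 h1
  · rw [e] at h1 ⊢
    left
    rcases hb' with f | f | f | f
    · rw [f, sup_comm]
    · rw [f] at h1
      exact absurd y.2.self h1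
    · rw [f] at h1
      exact absurd h.yx h1
    · rw [f] at h1
      exact absurd h.yy h1
  · rw [e] at h1 ⊢
    right
    rcases hb' with f | f | f | f
    · rw [f] at h1
      exact absurd (cm h.xx) h1
    · rw [f] at h1
      exact absurd (cm h.yx) h1
    · rw [f] at h1
      exact absurd x'.2.self h1
    · rw [f]
  · rw [e] at h1 ⊢
    right
    rcases hb' with f | f | f | f
    · rw [f] at h1
      exact absurd (cm h.xy1) h1
    · rw [f] at h1
      exact absurd (cm h.yy) h1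
    · rw [f, sup_comm]
    · rw [f] at h1
      exact absurd y'.2.self h1

open scoped Pointwise in
private theorem e2_smul {G : Type v} [Group G] (a : G) (H : Subgroup G) :
    MulAut.conj a • H = H.map (MulAut.conj a).toMonoidHom := rfl

open scoped Pointwise in
private theorem e2_exists {D : Subgroup (V ≃ₗ[K] V)} (hD : Φ.Grp D)
    [Fact (Nat.Prime 2)] [CharP K 2]
    (hc : Φ.c + 2 ≤ finrank K V)
    (hcl : ∀ α : MulAut ↥(PG D), ∀ x, Φ.IsPt x → ∃ y, Φ.IsPt y ∧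
      (stE D x).map α.toMonoidHom = stE D y)
    {x y x' y' : Submodule K V} (hq : Φ.Quad x y x' y') (α : MulAut ↥(PG D)) :
    ∃ a : ↥(PG D), (stP D (x ⊔ y) (x' ⊔ y')).map α.toMonoidHom =
      MulAut.conj a • stP D (x ⊔ y) (x' ⊔ y') := by
  have hc1 := Φ.one_le_c
  obtain ⟨β, hβ⟩ := beta_one hD (by omega) α (hcl α)
  have hP := hβ.prp hD (p := 2) hc
  have hq0 : Φ.Quad (Subtype.mk x hq.px : Φ.Pt).1 (Subtype.mk y hq.py : Φ.Pt).1
      (Subtype.mk x' hq.px' : Φ.Pt).1 (Subtype.mk y' hq.py' : Φ.Pt).1 := hq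
  have hb := e2_quad hP hq0
  obtain ⟨g, hg, e1, e2, e3, e4⟩ := trans_quad' hD hc hq hb
  refine ⟨toPG hg, ?_⟩
  rw [e2_smul, e2_conjq D hg e1 e2 e3 e4]
  exact e2_alpha hD hc hβ hP (x := ⟨x, hq.px⟩) (y := ⟨y, hq.py⟩)
    (x' := ⟨x', hq.px'⟩) (y' := ⟨y', hq.py'⟩) hq.xy hq.xy'

theorem main_even2 {D : Subgroup (V ≃ₗ[K] V)} (hD : Φ.Grp D) [IsSimpleGroup ↥(PG D)]
    (hc : Φ.c + 2 ≤ finrank K V) (ht : 2 ≤ Φ.t) (heven : Even (Nat.card K))
    (hcl : ∀ α : MulAut ↥(PG D), ∀ x, Φ.IsPt x → ∃ y, Φ.IsPt y ∧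
      (stE D x).map α.toMonoidHom = stE D y)
    {X : Subgroup (MulAut ↥(PG D))} (hX : LA.Red ↥(PG D) X) : False := by
  have hc1 := Φ.one_le_c
  have hn3 : 3 ≤ finrank K V := by omega
  have hF2 : Fact (Nat.Prime 2) := ⟨Nat.prime_two⟩
  have hch : CharP K 2 := by
    have := Fintype.ofFinite K
    rw [Nat.card_eq_fintype_card] at heven
    have h : ringChar K = 2 := FiniteField.even_card_iff_char_two.2 (Nat.even_iff.1 heven)
    rw [← h]
    exact ringChar.charP K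
  obtain ⟨x, y, x', y', hq, -⟩ := exists_quad (Φ := Φ) (W := ⊤) ND_top
    (by rw [finrank_top]; omega)
  have hbot : stP D (x ⊔ y) (x' ⊔ y') ≠ ⊥ := by
    intro h
    apply irp hD ht hq hq.px.ts hq.px.ne_bot
    rw [h]
    exact bot_le
  have htop : stP D (x ⊔ y) (x' ⊔ y') ≠ ⊤ := by
    intro h
    obtain ⟨a, ha, ha0⟩ := hq.px.exists
    obtain ⟨b, hb, hb0⟩ := hq.px'.exists
    have hab : Φ.B b a = 0 := hq.xx hb a ha
    have hS : Φ.S (b + a) := Φ.S_add b a (hq.px'.S hb) (hq.px.S ha) hab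
    have h1 : ∀ c ∈ x ⊔ y, c + b ∉ x ⊔ y := by
      intro c hc' hcb
      have h2 : b ∈ x ⊔ y := by
        have h3 := (x ⊔ y).sub_mem hcb hc'
        rwa [add_sub_cancel_left] at h3
      have h3 : x' ≤ x ⊔ y := hq.px'.le_of_mem hb hb0 h2
      have h4 : x' ≤ Φ.orth (x ⊔ y) := by
        rw [Φ.orth_sup]
        exact le_inf hq.xx hq.yx
      exact e2_bot (hyp_nd hq.px hq.py hq.xy).1 hq.px' h3 h4
    have h1' : ∀ c ∈ x' ⊔ y', c + a ∉ x' ⊔ y' := by
      intro c hc' hca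
      have h2 : a ∈ x' ⊔ y' := by
        have h3 := (x' ⊔ y').sub_mem hca hc'
        rwa [add_sub_cancel_left] at h3
      have h3 : x ≤ x' ⊔ y' := hq.px.le_of_mem ha ha0 h2
      have h4 : x ≤ Φ.orth (x' ⊔ y') := by
        rw [Φ.orth_sup]
        exact le_inf (Φ.le_orth_comm.1 hq.xx) (Φ.le_orth_comm.1 hq.xy1)
      exact e2_bot (hyp_nd hq.px' hq.py' hq.xy').1 hq.px h3 h4
    have ha1 : a ∈ x ⊔ y := (le_sup_left : x ≤ x ⊔ y) ha
    have hb1 : b ∈ x' ⊔ y' := (le_sup_left : x' ≤ x' ⊔ y') hb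
    have hne : b + a ≠ 0 := by
      intro h0
      apply h1' b hb1
      rw [h0]
      exact Submodule.zero_mem _
    have hz : Φ.IsPt (Submodule.span K {b + a}) := isPt_span hne hS
    have hmem : b + a ∈ Submodule.span K {b + a} := Submodule.mem_span_singleton_self _
    obtain ⟨g, hg, -, e⟩ := trans_pt hD (W := ⊤) ND_top
      (Or.inl (by rw [finrank_top]; omega)) hq.px le_top hz le_top
    have h2 : toPG hg ∈ stP D (x ⊔ y) (x' ⊔ y') := by
      rw [h]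
      exact Subgroup.mem_top _
    have h3 : Submodule.span K {b + a} ≤ (x ⊔ y).map (g : V →ₗ[K] V) := by
      rw [← e]
      exact Submodule.map_mono le_sup_left
    rw [mem_stP, toPG_apply, toPG_apply] at h2
    rcases h2 with ⟨h2, -⟩ | ⟨h2, -⟩
    · rw [h2] at h3
      apply h1 a ha1
      rw [add_comm]
      exact h3 hmem
    · rw [h2] at h3
      exact h1' b hb1 (h3 hmem)
  obtain ⟨R, T, -, hHR, hRt, -, -, -, -, hp⟩ := hX.main _ htop hbot
    (fun α _ => e2_exists hD hc hcl hq α)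
  by_cases h2 : 2 ∣ R.index
  · obtain ⟨α, -, hα2, hno⟩ := hp 2 Nat.prime_two h2
    obtain ⟨β, hβ⟩ := beta_one hD hn3 α (hcl α)
    have hP := hβ.prp hD (p := 2) hc
    have hββ : ∀ z, β (β z) = z := by
      intro z
      apply Subtype.ext
      apply stE_inj hD hn3 (β (β z)).2 z.2
      rw [← hβ.st, ← hβ.st, Subgroup.map_map]
      rintro _ ⟨s, hs, rfl⟩
      have h4 : (α.toMonoidHom.comp α.toMonoidHom) s = s := by
        have h5 : (α ^ 2) s = s := by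
          rw [hα2]
          rfl
        rw [pow_two] at h5
        exact h5
      rw [h4]
      exact hs
    obtain ⟨x₁, y₁, x₁', y₁', hq₁, hperm⟩ := fixed_quad' hc β hP hββ
    have hq₂ := e2_quad hP hq₁
    have hL := e2_two hP hq₁ hperm (a := x₁) (b := y₁) (by simp) (by simp) hq₁.xy
    have hL' := e2_two hP hq₁ hperm (a := x₁') (b := y₁') (by simp) (by simp) hq₁.xy'
    have hne := e2_ne hq₂
    have heq : stP D ((β x₁).1 ⊔ (β y₁).1) ((β x₁').1 ⊔ (β y₁').1) =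
        stP D (x₁.1 ⊔ y₁.1) (x₁'.1 ⊔ y₁'.1) := by
      rcases hL with e | e
      · rcases hL' with f | f
        · exact absurd (e.trans f.symm) hne
        · rw [e, f]
      · rcases hL' with f | f
        · rw [e, f, e2_symm]
        · exact absurd (e.trans f.symm) hne
    have e := e2_alpha hD hc hβ hP hq₁.xy hq₁.xy'
    rw [heq] at e
    obtain ⟨g, hg, e1, e2, e3, e4⟩ := trans_quad' hD hc hq hq₁
    apply hno (toPG hg)
    rw [e2_smul, e2_conjq D hg e1 e2 e3 e4]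
    exact e
  · have hcard : Nat.card {z : Submodule K V | Φ.IsPt z} = Φ.pn ⊤ := by
      apply Nat.card_congr
      exact Equiv.subtypeEquivRight fun z => ⟨fun h => ⟨h, le_top⟩, fun h => h.1⟩
    obtain ⟨z, hz, E, hE, hzE, hRE⟩ := bt hD hn3 (p := 2)
      (le_refl R) h2 hRt (Z := {z | Φ.IsPt z}) (fun z hz => hz) (by
        rw [hcard]
        have h3 := pn_mod (Φ := Φ) (p := 2) (W := ⊤) (by rw [finrank_top]; omega)
        intro h4
        have h5 := (Nat.modEq_zero_iff_dvd.2 h4).symm.trans h3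
        exact absurd h5 (by decide)) (by
        intro s _ z hz
        obtain ⟨g, hg, rfl⟩ := exists_toPG s
        exact IsPt.map hz (hD.le hg))
    apply irp hD ht hq hE _ (hHR.trans hRE)
    rintro rfl
    exact (IsPt.ne_bot hz) (le_bot_iff.1 hzE)

end PS

end Pool.Agent.Work.MP_bc729a_al.CG
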