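import Pool.Agent.Work.MP_bc729a_al.CR.Defs
import Pool.Agent.Work.MP_bc729a_al.CG.Exq
import Pool.Agent.Work.MP_bc729a_al.CG.Sig

/-! # Module Grd (M): quadratic forms: the space spanned by two perpendicular hyperbolic lines is determined by perpendicularity

Let `x = span {x₀}` etc. `U = bk x y x' y' = ℓ ⊕ m`, `ℓ = x ⊔ x'`, `m = y ⊔ y'`, both totally singular.
PROOF of `grid_pts`. `←` clear. `→`: `z = span {z₀}`, `z₀ = a + b`, `a ∈ ℓ`, `b ∈ m`. If `b = 0`: `u = z`, `u' = y` or `y'` or another point of `m` perpendicular to `u` (`m ⊓ orth u ≠ ⊥`, as `finrank m = 2`; `TS.isPt`). If `a = 0` similarly. Otherwise `a`, `b` are singular, `S (b + 1 • a)`, `S (b + 0 • a)`; if `B b a ≠ 0` then `card_t` (`x = a`, `v = b`) says that exactly `t = 1` scalar `c` has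
`S (b + c • a)`, contradiction. So `B b a = 0` and `u = span {a}`, `u' = span {b}` work.
PROOF of `bk_beta2`. `Quad` for the images: `Prp`. For a totally singular space `E` and a point `z`: `z ≤ E` iff all points `w ≤ orth E` are `≤ orth z` (`le_iff_perp`); for `E = x ⊔ x'` a point `w` is `≤ orth E` iff it is perpendicular to `x` and `x'`, so `u ≤ x ⊔ x' ↔ β u ≤ β x ⊔ β x'`; the same for `y ⊔ y'` and for `u ⊔ u'` (`u ≤ orth u'`, totally singular by `TS.sup`). So the right hand side of `grid_pts` is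
preserved by `β` (in both directions, `β` is bijective). -/

namespace Pool.Agent.Work.MP_bc729a_al.CG

open Module

universe u v

variable {K : Type u} {V : Type v} [Field K] [AddCommGroup V] [Module K V] [Finite K] [Finite V]

namespace PS

variable {Φ : PS K V}

private theorem orth_pt {x y x' y' z : Submodule K V} (hq : Φ.Quad x y x' y') (hz : Φ.IsPt z) :
    ∃ u', Φ.IsPt u' ∧ u' ≤ y ⊔ y' ∧ z ≤ Φ.orth u' := by
  obtain ⟨z₀, hz0, hSz, rfl⟩ := hz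
  obtain ⟨y₀, hy0, hSy, hy⟩ := hq.py
  obtain ⟨y₁, hy1, hSy', hy'⟩ := hq.py'
  have hTS : Φ.TS (y ⊔ y') := hq.py.ts.sup hq.py'.ts (Φ.le_orth_comm.1 hq.yy)
  have hm0 : y₀ ∈ y := by
    rw [hy]
    exact Submodule.mem_span_singleton_self y₀
  have hm1 : y₁ ∈ y' := by
    rw [hy']
    exact Submodule.mem_span_singleton_self y₁
  by_cases hB : Φ.B y₀ z₀ = 0
  · refine ⟨y, hq.py, le_sup_left, ?_⟩
    rw [hy, Φ.span_le_orth]
    exact Φ.refl _ _ hB
  · set w : V := Φ.B y₁ z₀ • y₀ - Φ.B y₀ z₀ • y₁ with hw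
    have hwm : w ∈ y ⊔ y' :=
      Submodule.sub_mem _ (Submodule.smul_mem _ _ (Submodule.mem_sup_left hm0))
        (Submodule.smul_mem _ _ (Submodule.mem_sup_right hm1))
    have hw0 : w ≠ 0 := by
      intro h
      have h1 : Φ.B y₀ z₀ • y₁ = Φ.B y₁ z₀ • y₀ := (sub_eq_zero.1 h).symm
      have h2 : y₁ ∈ y := by
        have h3 : y₁ = (Φ.B y₀ z₀)⁻¹ • (Φ.B y₁ z₀ • y₀) := by
          rw [← h1, smul_smul, inv_mul_cancel₀ hB, one_smul]
        rw [h3]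
        exact Submodule.smul_mem _ _ (Submodule.smul_mem _ _ hm0)
      have h4 : y' ≤ y := hq.py'.le_of_mem hm1 hy1 h2
      exact hq.xy' (h4.trans (Φ.le_orth_comm.1 hq.yx))
    refine ⟨Submodule.span K {w}, hTS.isPt hwm hw0,
      (Submodule.span_singleton_le_iff_mem w _).2 hwm, ?_⟩
    rw [Φ.span_le_orth]
    apply Φ.refl
    rw [hw, Φ.B_sub_left, Φ.smul_left, Φ.smul_left, mul_comm, sub_self]

private theorem quad_swap {x y x' y' : Submodule K V} (hq : Φ.Quad x y x' y') :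
    Φ.Quad y x y' x' :=
  ⟨hq.py, hq.px, hq.py', hq.px', fun h => hq.xy (Φ.le_orth_comm.1 h),
    fun h => hq.xy' (Φ.le_orth_comm.1 h), hq.yy, hq.xy1, hq.yx, hq.xx⟩

private theorem beta_sup {β : Equiv.Perm Φ.Pt} (hP : Φ.Prp β) {p q : Φ.Pt}
    (hpq : q.1 ≤ Φ.orth p.1) (w : Φ.Pt) :
    (β w).1 ≤ (β p).1 ⊔ (β q).1 ↔ w.1 ≤ p.1 ⊔ q.1 := by
  have hTS : Φ.TS (p.1 ⊔ q.1) := p.2.ts.sup q.2.ts (Φ.le_orth_comm.1 hpq)
  have hTS' : Φ.TS ((β p).1 ⊔ (β q).1) :=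
    (β p).2.ts.sup (β q).2.ts (Φ.le_orth_comm.1 ((hP q p).2 hpq))
  rw [le_iff_perp hTS' (β w).2, le_iff_perp hTS w.2]
  constructor
  · intro h v hv hvo
    rw [Φ.orth_sup] at hvo
    have h1 := h (β ⟨v, hv⟩).1 (β ⟨v, hv⟩).2 (by
      rw [Φ.orth_sup]
      exact le_inf ((hP ⟨v, hv⟩ p).2 (hvo.trans inf_le_left))
        ((hP ⟨v, hv⟩ q).2 (hvo.trans inf_le_right)))
    exact (hP ⟨v, hv⟩ w).1 h1
  · intro h v hv hvo
    rw [Φ.orth_sup] at hvo
    obtain ⟨u, hu⟩ := β.surjective ⟨v, hv⟩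
    have hu' : v = (β u).1 := (congrArg Subtype.val hu).symm
    rw [hu'] at hvo ⊢
    rw [hP u w]
    apply h u.1 u.2
    rw [Φ.orth_sup]
    exact le_inf ((hP u p).1 (hvo.trans inf_le_left)) ((hP u q).1 (hvo.trans inf_le_right))

theorem grid_pts (ht : Φ.t = 1) {x y x' y' z : Submodule K V} (hq : Φ.Quad x y x' y')
    (hz : Φ.IsPt z) :
    z ≤ bk x y x' y' ↔ ∃ u u', Φ.IsPt u ∧ Φ.IsPt u' ∧ u ≤ x ⊔ x' ∧ u' ≤ y ⊔ y' ∧
      u ≤ Φ.orth u' ∧ z ≤ u ⊔ u' := by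
  constructor
  · intro hzb
    have hTSl : Φ.TS (x ⊔ x') := hq.px.ts.sup hq.px'.ts (Φ.le_orth_comm.1 hq.xx)
    have hTSm : Φ.TS (y ⊔ y') := hq.py.ts.sup hq.py'.ts (Φ.le_orth_comm.1 hq.yy)
    obtain ⟨z₀, hz0, hSz, hzz⟩ := hz
    have hzm : z₀ ∈ bk x y x' y' := by
      apply hzb
      rw [hzz]
      exact Submodule.mem_span_singleton_self z₀
    obtain ⟨v1, hv1, v2, hv2, h12⟩ := Submodule.mem_sup.1 hzm
    obtain ⟨p, hp, q, hq', hpq⟩ := Submodule.mem_sup.1 hv1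
    obtain ⟨p', hp', q', hq'', hpq'⟩ := Submodule.mem_sup.1 hv2
    obtain ⟨a, ha⟩ : ∃ a, a = p + p' := ⟨_, rfl⟩
    obtain ⟨b, hb⟩ : ∃ b, b = q + q' := ⟨_, rfl⟩
    have hal : a ∈ x ⊔ x' := by
      rw [ha]
      exact Submodule.add_mem _ (Submodule.mem_sup_left hp) (Submodule.mem_sup_right hp')
    have hbm : b ∈ y ⊔ y' := by
      rw [hb]
      exact Submodule.add_mem _ (Submodule.mem_sup_left hq') (Submodule.mem_sup_right hq'')
    have hzab : z₀ = b + a := by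
      rw [← h12, ← hpq, ← hpq', ha, hb]
      abel
    by_cases hb0 : b = 0
    · have hzl : z ≤ x ⊔ x' := by
        rw [hzz, Submodule.span_singleton_le_iff_mem, hzab, hb0, zero_add]
        exact hal
      have hzpt : Φ.IsPt z := ⟨z₀, hz0, hSz, hzz⟩
      obtain ⟨u', hu', hu'm, huo⟩ := orth_pt hq hzpt
      exact ⟨z, u', hzpt, hu', hzl, hu'm, huo, le_sup_left⟩
    by_cases ha0 : a = 0
    · have hzl : z ≤ y ⊔ y' := by
        rw [hzz, Submodule.span_singleton_le_iff_mem, hzab, ha0, add_zero]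
        exact hbm
      have hzpt : Φ.IsPt z := ⟨z₀, hz0, hSz, hzz⟩
      obtain ⟨u, hu, hul, huo⟩ := orth_pt (quad_swap hq) hzpt
      exact ⟨u, z, hu, hzpt, hul, hzl, Φ.le_orth_comm.1 huo, le_sup_right⟩
    have hSa : Φ.S a := hTSl.1 a hal
    have hSb : Φ.S b := hTSm.1 b hbm
    have hB : Φ.B b a = 0 := by
      by_contra hne
      have hc := Φ.card_t a b hSa hne
      rw [ht] at hc
      obtain ⟨hsub, -⟩ := Nat.card_eq_one_iff_unique.1 hc
      have h0 : Φ.S (b + (0 : K) • a) := by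
        rw [zero_smul, add_zero]
        exact hSb
      have h1 : Φ.S (b + (1 : K) • a) := by
        rw [one_smul, ← hzab]
        exact hSz
      have h2 := congrArg Subtype.val
        (Subsingleton.elim (⟨0, h0⟩ : {c : K // Φ.S (b + c • a)}) ⟨1, h1⟩)
      exact zero_ne_one h2
    refine ⟨Submodule.span K {a}, Submodule.span K {b}, hTSl.isPt hal ha0, hTSm.isPt hbm hb0,
      (Submodule.span_singleton_le_iff_mem a _).2 hal,
      (Submodule.span_singleton_le_iff_mem b _).2 hbm, ?_, ?_⟩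
    · rw [Φ.span_le_orth]
      exact Φ.refl _ _ hB
    · rw [hzz, Submodule.span_singleton_le_iff_mem, hzab]
      exact Submodule.add_mem _
        (Submodule.mem_sup_right (Submodule.mem_span_singleton_self b))
        (Submodule.mem_sup_left (Submodule.mem_span_singleton_self a))
  · rintro ⟨u, u', -, -, hu, hu', -, hzu⟩
    refine hzu.trans (sup_le (hu.trans ?_) (hu'.trans ?_))
    · exact sup_le (le_sup_left.trans le_sup_left) (le_sup_left.trans le_sup_right)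
    · exact sup_le (le_sup_right.trans le_sup_left) (le_sup_right.trans le_sup_right)

theorem bk_beta2 (ht : Φ.t = 1) {β : Equiv.Perm Φ.Pt} (hP : Φ.Prp β) {x y x' y' : Φ.Pt}
    (h : Φ.Quad x.1 y.1 x'.1 y'.1) :
    Φ.Quad (β x).1 (β y).1 (β x').1 (β y').1 ∧
      ∀ z : Φ.Pt, (β z).1 ≤ bk (β x).1 (β y).1 (β x').1 (β y').1 ↔
        z.1 ≤ bk x.1 y.1 x'.1 y'.1 := by
  have hQ : Φ.Quad (β x).1 (β y).1 (β x').1 (β y').1 :=
    ⟨(β x).2, (β y).2, (β x').2, (β y').2, fun h1 => h.xy ((hP y x).1 h1),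
      fun h1 => h.xy' ((hP y' x').1 h1), (hP x' x).2 h.xx, (hP x' y).2 h.yx,
      (hP y' x).2 h.xy1, (hP y' y).2 h.yy⟩
  refine ⟨hQ, fun z => ?_⟩
  rw [grid_pts ht hQ (β z).2, grid_pts ht h z.2]
  constructor
  · rintro ⟨u, u', hu, hu', h1, h2, h3, h4⟩
    obtain ⟨w, hw⟩ := β.surjective ⟨u, hu⟩
    obtain ⟨w', hw'⟩ := β.surjective ⟨u', hu'⟩
    have e : u = (β w).1 := (congrArg Subtype.val hw).symm
    have e' : u' = (β w').1 := (congrArg Subtype.val hw').symm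
    rw [e] at h1 h3 h4
    rw [e'] at h2 h3 h4
    have h5 : w.1 ≤ Φ.orth w'.1 := (hP w w').1 h3
    exact ⟨w.1, w'.1, w.2, w'.2, (beta_sup hP h.xx w).1 h1, (beta_sup hP h.yy w').1 h2, h5,
      (beta_sup hP (Φ.le_orth_comm.1 h5) z).1 h4⟩
  · rintro ⟨u, u', hu, hu', h1, h2, h3, h4⟩
    have h5 : (β ⟨u, hu⟩).1 ≤ Φ.orth (β ⟨u', hu'⟩).1 := (hP ⟨u, hu⟩ ⟨u', hu'⟩).2 h3
    exact ⟨(β ⟨u, hu⟩).1, (β ⟨u', hu'⟩).1, (β ⟨u, hu⟩).2, (β ⟨u', hu'⟩).2,
      (beta_sup hP h.xx ⟨u, hu⟩).2 h1, (beta_sup hP h.yy ⟨u', hu'⟩).2 h2, h5,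
      (beta_sup (p := ⟨u, hu⟩) (q := ⟨u', hu'⟩) hP (Φ.le_orth_comm.1 h3) z).2 h4⟩

end PS

end Pool.Agent.Work.MP_bc729a_al.CG
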