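import Pool.Agent.Work.MP_bc729a_al.CR.Bo
import Pool.Agent.Work.MP_bc729a_al.CR.Grd
import Pool.Agent.Work.MP_bc729a_al.CR.Gf
import Pool.Agent.Work.MP_bc729a_al.CR.Gq
import Pool.Agent.Work.MP_bc729a_al.CG.Bt
import Pool.Agent.Work.MP_bc729a_al.CG.Pts
import Pool.Agent.Work.MP_bc729a_al.CG.StbA
import Pool.Agent.Work.MP_bc729a_al.CG.TrnA
import Pool.Agent.Work.MP_bc729a_al.CG.Nn
import Pool.Agent.Work.MP_bc729a_al.CG.Mst
import Pool.Agent.Work.MP_bc729a_al.CG.Idxp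

/-! # Module MnEO (M): rank two, even fields, quadratic forms

PROOF of `irq2` (compare CG/Irq). `U = bk x y x' y'`, `A = orth U`, `V = U ⊕ A`. Let `z ≤ E` be a point, `z = span {z₀}`, `z₀ = b + a`. If `b = 0` then `z ≤ orth U`, so `z` is perpendicular to the line `x ⊔ x'` and not contained in it (`z ≤ x ⊔ x' ≤ U` and `z ≤ orth U`, `U` nondegenerate), so `(x ⊔ x') ⊔ z` is totally singular of dimension `3`, excluded. So `b ≠ 0`; `U` is the span of its points, so there is a point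
`w ≤ U` opposite to `z`, and `nn` with the space `U` (`c = 3 ≤ 4`, `typ`) gives `g`, `IsU w g`, fixing the vectors of `orth U` (so `U.map g = U`), `¬ z.map g ≤ orth z`; `toPG g` is in `stE D U` and not in `stE D E`.
PROOF of `main_evenO` (compare CG/PMainB, with `irq2`, `bk_beta2`, `fixed_quad'`, `trans_quad'` instead of `irq`, `bk_beta`, `fixed_quad`, `trans_quad`, and `β` from `beta_one`, `Bet.prp`). `H = stE D U`; `H ≠ ⊥` (`irq2`), `H ≠ ⊤` (`finrank U = 4 < n`, transitivity, `span_pts`). Invariance: `bk_beta2`, `map_stE` with `span_pts` (`bk_nd`), `trans_quad'`, `stE_conj`. `2 ∣ R.index`: `fixed_quad'`, so `bk` of the quadruple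
is mapped to itself (dimension `4`). Otherwise `bt` and `irq2`. -/

namespace Pool.Agent.Work.MP_bc729a_al.CG

open Module

universe u v

variable {K : Type u} {V : Type v} [Field K] [AddCommGroup V] [Module K V] [Finite K] [Finite V]

namespace PS

variable {Φ : PS K V}

omit [Finite K] [Finite V] in
private theorem irq_fix {W : Submodule K V} {g : V ≃ₗ[K] V} (h : ∀ u ∈ W, g u = u) :
    W.map (g : V →ₗ[K] V) = W := by
  ext v
  constructor
  · rintro ⟨w, hw, rfl⟩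
    have h1 : (g : V →ₗ[K] V) w = w := h w hw
    rw [h1]
    exact hw
  · intro hv
    exact ⟨v, hv, h v hv⟩

private theorem no_pt {x y x' y' z : Submodule K V} (hr : ∀ E, Φ.TS E → finrank K E ≤ 2)
    (hq : Φ.Quad x y x' y') (hz : Φ.IsPt z) (hzA : z ≤ Φ.orth (bk x y x' y')) : False := by
  obtain ⟨hU, -⟩ := bk_nd hq
  have hxU : x ≤ bk x y x' y' := le_sup_of_le_left le_sup_left
  have hxU' : x' ≤ bk x y x' y' := le_sup_of_le_right le_sup_left
  have hle : x ⊔ x' ≤ bk x y x' y' := sup_le hxU hxU'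
  have h1 : Φ.TS (x ⊔ x') := TS.sup hq.px.ts hq.px'.ts (Φ.le_orth_comm.1 hq.xx)
  have h2 : x ⊓ x' = ⊥ := hq.px.inf_eq_bot (fun h => by
    have h3 := hq.px.eq_of_le hq.px' h
    apply hq.xy
    rw [h3]
    exact Φ.le_orth_comm.1 hq.yx)
  have h3 : z ⊓ (x ⊔ x') = ⊥ := hz.inf_eq_bot (fun h => by
    apply hz.ne_bot
    rw [eq_bot_iff, ← hU]
    exact le_inf (h.trans hle) hzA)
  have h4 : Φ.TS (z ⊔ (x ⊔ x')) := TS.sup hz.ts h1 (hzA.trans (Φ.orth_anti hle))
  have h5 := hr _ h4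
  have h6 := Submodule.finrank_sup_add_finrank_inf_eq x x'
  have h7 := Submodule.finrank_sup_add_finrank_inf_eq z (x ⊔ x')
  rw [h2, finrank_bot, hq.px.finrank, hq.px'.finrank] at h6
  rw [h3, finrank_bot, hz.finrank] at h7
  omega

theorem irq2 {D : Subgroup (V ≃ₗ[K] V)} (hD : Φ.Grp D) (ht : Φ.t = 1)
    (hr : ∀ E, Φ.TS E → finrank K E ≤ 2) {x y x' y' E : Submodule K V}
    (hq : Φ.Quad x y x' y') (hE : Φ.TS E) (h0 : E ≠ ⊥) :
    ¬ stE D (bk x y x' y') ≤ stE D E := by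
  intro hle
  obtain ⟨hU, hU4⟩ := bk_nd hq
  obtain ⟨U, hUdef⟩ : ∃ U, U = bk x y x' y' := ⟨_, rfl⟩
  rw [← hUdef] at hle hU hU4
  have hoo : Φ.orth (Φ.orth U) = U := orth_orth U
  obtain ⟨z₀, hz₀, hz0⟩ := (Submodule.ne_bot_iff E).1 h0
  obtain ⟨z, hzdef⟩ : ∃ z, z = Submodule.span K {z₀} := ⟨_, rfl⟩
  have hz : Φ.IsPt z := by
    rw [hzdef]
    exact hE.isPt hz₀ hz0
  have hzE : z ≤ E := by
    rw [hzdef, Submodule.span_singleton_le_iff_mem]
    exact hz₀
  have key : ∃ g : V ≃ₗ[K] V, g ∈ D ∧ U.map (g : V →ₗ[K] V) = U ∧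
      ¬ z.map (g : V →ₗ[K] V) ≤ Φ.orth z := by
    have htop : z₀ ∈ U ⊔ Φ.orth U := by
      rw [hU.sup]
      trivial
    obtain ⟨b, hb, a, ha, hab⟩ := Submodule.mem_sup.1 htop
    by_cases hb0 : b = 0
    · exfalso
      rw [hb0, zero_add] at hab
      have hzA : z ≤ Φ.orth U := by
        rw [hzdef, Submodule.span_singleton_le_iff_mem, ← hab]
        exact ha
      rw [hUdef] at hzA
      exact no_pt hr hq hz hzA
    · obtain ⟨u, huU, hub⟩ := hU.exists_ne hb hb0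
      have hex : ∃ w, Φ.IsPt w ∧ w ≤ U ∧ ¬ z ≤ Φ.orth w := by
        by_contra hcon
        push Not at hcon
        have hxU : x ≤ U := by
          rw [hUdef]
          exact le_sup_of_le_left le_sup_left
        have h1 : U ≤ Φ.orth z := by
          rw [span_pts hU hq.px hxU]
          apply sSup_le
          rintro w ⟨hw, hwU⟩
          exact Φ.le_orth_comm.1 (hcon w hw hwU)
        have h2 : Φ.B u z₀ = 0 := h1 huU z₀ (by
          rw [hzdef]
          exact Submodule.mem_span_singleton_self z₀)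
        have h3 : Φ.B u a = 0 := Φ.refl _ _ (ha u huU)
        rw [← hab, Φ.add_right, h3, add_zero] at h2
        exact hub h2
      obtain ⟨w, hw, hwU, hzw⟩ := hex
      have hc3 := Φ.c_le
      obtain ⟨g, hg, hgf, hgz⟩ := nn hz hw hU hwU hzw (by omega)
      refine ⟨g, hD.u w hw hg, ?_, hgz⟩
      have h4 := orth_map (W := Φ.orth U) hg.1
      rw [irq_fix hgf, hoo] at h4
      exact h4.symm
  obtain ⟨g, hg, hgU, hgz⟩ := key
  have h1 : toPG hg ∈ stE D U := by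
    rw [mem_stE, toPG_apply]
    exact hgU
  have h2 := hle h1
  rw [mem_stE, toPG_apply] at h2
  apply hgz
  calc z.map (g : V →ₗ[K] V) ≤ E.map (g : V →ₗ[K] V) := Submodule.map_mono hzE
    _ = E := h2
    _ ≤ Φ.orth E := hE.2
    _ ≤ Φ.orth z := Φ.orth_anti hzE

omit [Finite K] [Finite V] in
private theorem bk_map_aux (x y x' y' : Submodule K V) (g : V ≃ₗ[K] V) :
    (bk x y x' y').map (g : V →ₗ[K] V) =
      bk (x.map (g : V →ₗ[K] V)) (y.map (g : V →ₗ[K] V)) (x'.map (g : V →ₗ[K] V))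
        (y'.map (g : V →ₗ[K] V)) := by
  simp only [bk, Submodule.map_sup]

private theorem map_bk_aux {D : Subgroup (V ≃ₗ[K] V)} (hD : Φ.Grp D) (ht : Φ.t = 1)
    (α : MulAut ↥(PG D)) (β : Equiv.Perm Φ.Pt) (h1 : Φ.Prp β)
    (h3 : ∀ (s : ↥(PG D)) (x y : Φ.Pt), s.1 x.1 = y.1 → (α s).1 (β x).1 = (β y).1)
    {x y x' y' : Φ.Pt} (h : Φ.Quad x.1 y.1 x'.1 y'.1) :
    (stE D (bk x.1 y.1 x'.1 y'.1)).map α.toMonoidHom =
      stE D (bk (β x).1 (β y).1 (β x').1 (β y').1) := by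
  obtain ⟨hq', hb⟩ := bk_beta2 ht h1 h
  have e1 := span_pts (bk_nd h).1 x.2 (le_sup_of_le_left le_sup_left)
  have e2 := span_pts (bk_nd hq').1 (β x).2 (le_sup_of_le_left le_sup_left)
  exact map_stE hD α β h3 e1 e2 hb

omit [Finite K] [Finite V] in
private theorem conj_bk_aux (D : Subgroup (V ≃ₗ[K] V)) {g : V ≃ₗ[K] V} (hg : g ∈ D)
    {x y x' y' x₁ y₁ x₁' y₁' : Submodule K V} (e1 : x.map (g : V →ₗ[K] V) = x₁)
    (e2 : y.map (g : V →ₗ[K] V) = y₁) (e3 : x'.map (g : V →ₗ[K] V) = x₁')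
    (e4 : y'.map (g : V →ₗ[K] V) = y₁') :
    stE D (bk x₁ y₁ x₁' y₁') =
      (stE D (bk x y x' y')).map (MulAut.conj (toPG hg)).toMonoidHom := by
  rw [stE_conj, toPG_apply, bk_map_aux, e1, e2, e3, e4]

open scoped Pointwise in
private theorem smul_eq_map_aux {G : Type v} [Group G] (a : G) (H : Subgroup G) :
    MulAut.conj a • H = H.map (MulAut.conj a).toMonoidHom := rfl

open scoped Pointwise in
private theorem exists_conj_aux {D : Subgroup (V ≃ₗ[K] V)} (hD : Φ.Grp D)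
    [Fact (Nat.Prime 2)] [CharP K 2] (ht : Φ.t = 1)
    (hc : Φ.c + 2 ≤ finrank K V)
    (hcl : ∀ α : MulAut ↥(PG D), ∀ x, Φ.IsPt x → ∃ y, Φ.IsPt y ∧
      (stE D x).map α.toMonoidHom = stE D y)
    {x y x' y' : Submodule K V} (hq : Φ.Quad x y x' y') (α : MulAut ↥(PG D)) :
    ∃ a : ↥(PG D), (stE D (bk x y x' y')).map α.toMonoidHom =
      MulAut.conj a • stE D (bk x y x' y') := by
  have hc1 := Φ.one_le_c
  obtain ⟨β, hβ⟩ := beta_one hD (by omega) α (hcl α)
  have h1 : Φ.Prp β := Bet.prp hD (p := 2) hc hβ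
  have hq0 : Φ.Quad (Subtype.mk x hq.px : Φ.Pt).1 (Subtype.mk y hq.py : Φ.Pt).1
      (Subtype.mk x' hq.px' : Φ.Pt).1 (Subtype.mk y' hq.py' : Φ.Pt).1 := hq
  have hb := bk_beta2 ht h1 hq0
  obtain ⟨g, hg, e1, e2, e3, e4⟩ := trans_quad' hD hc hq hb.1
  refine ⟨toPG hg, ?_⟩
  rw [smul_eq_map_aux, ← conj_bk_aux D hg e1 e2 e3 e4]
  have e := map_bk_aux hD ht α β h1 hβ.eq (x := ⟨x, hq.px⟩) (y := ⟨y, hq.py⟩)
    (x' := ⟨x', hq.px'⟩) (y' := ⟨y', hq.py'⟩) hq0
  exact e

theorem main_evenO {D : Subgroup (V ≃ₗ[K] V)} (hD : Φ.Grp D) [IsSimpleGroup ↥(PG D)]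
    (hc : Φ.c + 2 ≤ finrank K V) (ht : Φ.t = 1) (hr : ∀ E, Φ.TS E → finrank K E ≤ 2)
    (heven : Even (Nat.card K))
    (hcl : ∀ α : MulAut ↥(PG D), ∀ x, Φ.IsPt x → ∃ y, Φ.IsPt y ∧
      (stE D x).map α.toMonoidHom = stE D y)
    {X : Subgroup (MulAut ↥(PG D))} (hX : LA.Red ↥(PG D) X) : False := by
  have hQ : 1 < Nat.card K := Finite.one_lt_card
  have hc3 : Φ.c = 3 := by
    rcases Φ.typ with ⟨h, -⟩ | ⟨-, h⟩ | ⟨-, h⟩
    · exact h
    · rw [ht] at h
      omega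
    · rw [ht] at h
      omega
  have hF2 : Fact (Nat.Prime 2) := ⟨Nat.prime_two⟩
  have hch : CharP K 2 := by
    have := Fintype.ofFinite K
    rw [Nat.card_eq_fintype_card] at heven
    have h : ringChar K = 2 := FiniteField.even_card_iff_char_two.2 (Nat.even_iff.1 heven)
    rw [← h]
    exact ringChar.charP K
  obtain ⟨x, y, x', y', hq, -⟩ := exists_quad (Φ := Φ) (W := ⊤) ND_top
    (by rw [finrank_top]; omega)
  have hbot : stE D (bk x y x' y') ≠ ⊥ := by
    intro h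
    apply irq2 hD ht hr hq hq.px.ts hq.px.ne_bot
    rw [h]
    exact bot_le
  have htop : stE D (bk x y x' y') ≠ ⊤ := by
    intro h
    have h1 : ∀ z, Φ.IsPt z → z ≤ bk x y x' y' := by
      intro z hz
      obtain ⟨g, hg, -, e⟩ := trans_pt hD (W := ⊤) ND_top
        (Or.inl (by rw [finrank_top]; omega)) hq.px le_top hz le_top
      have h2 : toPG hg ∈ stE D (bk x y x' y') := by
        rw [h]
        exact Subgroup.mem_top _
      rw [mem_stE, toPG_apply] at h2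
      rw [← e, ← h2]
      exact Submodule.map_mono (le_sup_of_le_left le_sup_left)
    have h2 := span_pts (W := ⊤) ND_top hq.px le_top
    have h3 : (⊤ : Submodule K V) ≤ bk x y x' y' := by
      rw [h2]
      exact sSup_le fun z hz => h1 z hz.1
    have h4 := (bk_nd hq).2
    rw [top_le_iff.1 h3, finrank_top] at h4
    omega
  obtain ⟨R, T, -, hHR, hRt, -, -, -, -, hp⟩ := hX.main _ htop hbot
    (fun α _ => exists_conj_aux hD ht hc hcl hq α)
  by_cases h2 : 2 ∣ R.index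
  · obtain ⟨α, -, hα2, hno⟩ := hp 2 Nat.prime_two h2
    obtain ⟨β, hβ⟩ := beta_one hD (by omega) α (hcl α)
    have h1 : Φ.Prp β := Bet.prp hD (p := 2) hc hβ
    have hββ : ∀ z, β (β z) = z := by
      intro z
      apply Subtype.ext
      apply stE_inj hD (by omega) (β (β z)).2 z.2
      rw [← hβ.st, ← hβ.st, Subgroup.map_map]
      rintro _ ⟨s, hs, rfl⟩
      have h4 : (α.toMonoidHom.comp α.toMonoidHom) s = s := by
        have h5 : (α ^ 2) s = s := by
          rw [hα2]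
          rfl
        rw [pow_two] at h5
        exact h5
      rw [h4]
      exact hs
    obtain ⟨x₁, y₁, x₁', y₁', hq₁, hperm⟩ := fixed_quad' hc β h1 hββ
    obtain ⟨hq₂, -⟩ := bk_beta2 ht h1 hq₁
    have hmem : ∀ z ∈ ({x₁, y₁, x₁', y₁'} : Set Φ.Pt),
        z.1 ≤ bk x₁.1 y₁.1 x₁'.1 y₁'.1 := by
      intro z hz
      simp only [Set.mem_insert_iff, Set.mem_singleton_iff] at hz
      rcases hz with rfl | rfl | rfl | rfl
      · exact le_sup_of_le_left le_sup_left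
      · exact le_sup_of_le_left le_sup_right
      · exact le_sup_of_le_right le_sup_left
      · exact le_sup_of_le_right le_sup_right
    have hle : bk (β x₁).1 (β y₁).1 (β x₁').1 (β y₁').1 ≤ bk x₁.1 y₁.1 x₁'.1 y₁'.1 := by
      refine sup_le (sup_le (hmem _ (hperm _ ?_)) (hmem _ (hperm _ ?_)))
        (sup_le (hmem _ (hperm _ ?_)) (hmem _ (hperm _ ?_))) <;>
      simp
    have heq := Submodule.eq_of_le_of_finrank_eq hle (by rw [(bk_nd hq₂).2, (bk_nd hq₁).2])
    have e := map_bk_aux hD ht α β h1 hβ.eq hq₁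
    rw [heq] at e
    obtain ⟨g, hg, e1, e2, e3, e4⟩ := trans_quad' hD hc hq hq₁
    apply hno (toPG hg)
    rw [smul_eq_map_aux, ← conj_bk_aux D hg e1 e2 e3 e4]
    exact e
  · have hcard : Nat.card {z : Submodule K V | Φ.IsPt z} = Φ.pn ⊤ := by
      apply Nat.card_congr
      exact Equiv.subtypeEquivRight fun z => ⟨fun h => ⟨h, le_top⟩, fun h => h.1⟩
    obtain ⟨z, hz, E, hE, hzE, hRE⟩ := bt hD (by omega : 3 ≤ finrank K V) (p := 2)
      (le_refl R) h2 hRt (Z := {z | Φ.IsPt z}) (fun z hz => hz) (by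
        rw [hcard]
        have h3 := pn_mod (Φ := Φ) (p := 2) (W := ⊤) (by rw [finrank_top]; omega)
        intro h4
        have h5 := (Nat.modEq_zero_iff_dvd.2 h4).symm.trans h3
        exact absurd h5 (by decide)) (by
        intro s _ z hz
        obtain ⟨g, hg, rfl⟩ := exists_toPG s
        exact IsPt.map hz (hD.le hg))
    apply irq2 hD ht hr hq hE _ (hHR.trans hRE)
    rintro rfl
    exact (IsPt.ne_bot hz) (le_bot_iff.1 hzE)

end PS

end Pool.Agent.Work.MP_bc729a_al.CG
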