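import Pool.Agent.Work.MP_bc729a_al.CR.Defs
import Pool.Agent.Work.MP_bc729a_al.CG.Tst

/-! # Module Tht (M): coordinates on the unipotent radical

PROOF. `x = span {x₀}`, `z = span {z₀}`, `b = B x₀ z₀ ≠ 0`, `W = orth (x ⊔ z)`, `V = x ⊕ z ⊕ W` (`hyp_nd`, `ND.sup`, `ND.orth`), `orth x = x ⊕ W`. For `IsU x g` the vector `g z₀ - z₀` is in `orth x` (`B (g z₀) x₀ = B (g z₀) (g x₀) = B z₀ x₀`), so `g z₀ = z₀ + w + a • x₀` with unique `w ∈ W`, `a`; put `θ g = w` (and `θ g = 0` if not `IsU x g`).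
For `v ∈ orth x` `g v = v + λ • x₀` and `B v z₀ = B (g v) (g z₀) = B v z₀ + B v w + λ * b` (`B v x₀ = 0`, `B x₀ w = 0`, `B x₀ x₀ = 0`), so `λ = - B v w / b`. Products: `g (g' z₀) = g z₀ + g (θ g') + a' • x₀ = z₀ + θ g + θ g' + (..) • x₀`. Surjectivity: let `w ∈ W`; `B (z₀ + w) x₀ = B z₀ x₀ ≠ 0`, so `S (z₀ + w + a • x₀)` for some `a`
(`exists_S`); `Φ.ei x₀ z₀ (z₀ + w + a • x₀)` gives `g`, `IsU x g`, `θ g = w`. -/

namespace Pool.Agent.Work.MP_bc729a_al.CG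

open Module

universe u v

variable {K : Type u} {V : Type v} [Field K] [AddCommGroup V] [Module K V] [Finite K] [Finite V]

namespace PS

variable {Φ : PS K V}

theorem exists_theta {x z : Submodule K V} (hx : Φ.IsPt x) (hz : Φ.IsPt z)
    (h : ¬ z ≤ Φ.orth x) {x₀ z₀ : V} (hx₀ : x₀ ∈ x) (hx1 : x₀ ≠ 0) (hz₀ : z₀ ∈ z)
    (hz1 : z₀ ≠ 0) :
    ∃ θ : (V ≃ₗ[K] V) → V,
      (∀ g, Φ.IsU x g → θ g ∈ Φ.orth (x ⊔ z) ∧ (∃ a : K, g z₀ = z₀ + θ g + a • x₀) ∧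
        ∀ v ∈ Φ.orth x, g v = v - (Φ.B v (θ g) / Φ.B x₀ z₀) • x₀) ∧
      (∀ g g', Φ.IsU x g → Φ.IsU x g' → θ (g * g') = θ g + θ g') ∧
      ∀ w ∈ Φ.orth (x ⊔ z), ∃ g, Φ.IsU x g ∧ θ g = w := by
  classical
  have hxs : x = Submodule.span K {x₀} := hx.eq_span hx₀ hx1
  have hzs : z = Submodule.span K {z₀} := hz.eq_span hz₀ hz1
  have hSx : Φ.S x₀ := hx.S hx₀
  have hSz : Φ.S z₀ := hz.S hz₀
  have hxx : Φ.B x₀ x₀ = 0 := Φ.S_B x₀ hSx
  have hzx : Φ.B z₀ x₀ ≠ 0 := by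
    intro h0
    apply h
    rw [hzs, hxs, Φ.span_le_orth]
    exact h0
  have hxz : Φ.B x₀ z₀ ≠ 0 := fun h0 => hzx (Φ.refl _ _ h0)
  have hnd := (hyp_nd hx hz h).1
  have hmem : ∀ w, w ∈ Φ.orth (x ⊔ z) ↔ Φ.B w x₀ = 0 ∧ Φ.B w z₀ = 0 := by
    intro w
    rw [Φ.orth_sup, Submodule.mem_inf, hxs, hzs, Φ.mem_orth_span, Φ.mem_orth_span]
  have hox : ∀ v, v ∈ Φ.orth x ↔ Φ.B v x₀ = 0 := by
    intro v
    rw [hxs, Φ.mem_orth_span]
  -- decomposition of the vectors perpendicular to `x`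
  have hdec : ∀ u, Φ.B u x₀ = 0 → ∃ w ∈ Φ.orth (x ⊔ z), ∃ a : K, u = w + a • x₀ := by
    intro u hu
    have hu1 : u ∈ (x ⊔ z) ⊔ Φ.orth (x ⊔ z) := by
      rw [hnd.sup]
      exact Submodule.mem_top
    obtain ⟨l, hl, m, hm, rfl⟩ := Submodule.mem_sup.1 hu1
    obtain ⟨a', ha', b', hb', rfl⟩ := Submodule.mem_sup.1 hl
    rw [hxs] at ha'
    rw [hzs] at hb'
    obtain ⟨a, rfl⟩ := Submodule.mem_span_singleton.1 ha'
    obtain ⟨b, rfl⟩ := Submodule.mem_span_singleton.1 hb'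
    have hm1 := ((hmem m).1 hm).1
    rw [Φ.add_left, Φ.add_left, Φ.smul_left, Φ.smul_left, hxx, hm1, mul_zero, zero_add,
      add_zero] at hu
    have hb0 : b = 0 := (mul_eq_zero.1 hu).resolve_right hzx
    refine ⟨m, hm, a, ?_⟩
    rw [hb0, zero_smul, add_zero, add_comm]
  -- uniqueness
  have huniq : ∀ w ∈ Φ.orth (x ⊔ z), ∀ w' ∈ Φ.orth (x ⊔ z), ∀ a a' : K,
      w + a • x₀ = w' + a' • x₀ → w = w' := by
    intro w hw w' hw' a a' he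
    have h1 : w - w' = (a' - a) • x₀ := by
      rw [sub_smul, sub_eq_sub_iff_add_eq_add, he, add_comm]
    have h2 : w - w' ∈ (x ⊔ z) ⊓ Φ.orth (x ⊔ z) := by
      refine ⟨?_, (Φ.orth (x ⊔ z)).sub_mem hw hw'⟩
      rw [h1]
      exact Submodule.mem_sup_left (x.smul_mem _ hx₀)
    have h3 : (x ⊔ z) ⊓ Φ.orth (x ⊔ z) = ⊥ := hnd
    rw [h3, Submodule.mem_bot] at h2
    exact sub_eq_zero.1 h2
  have hex : ∀ g, Φ.IsU x g → ∃ w ∈ Φ.orth (x ⊔ z), ∃ a : K, g z₀ = z₀ + w + a • x₀ := by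
    intro g hg
    have h1 : Φ.B (g z₀ - z₀) x₀ = 0 := by
      rw [Φ.B_sub_left]
      have h2 := hg.1.1 z₀ x₀
      rw [hg.2.1 x₀ hx₀] at h2
      rw [h2, sub_self]
    obtain ⟨w, hw, a, ha⟩ := hdec _ h1
    refine ⟨w, hw, a, ?_⟩
    rw [add_assoc, ← ha, add_sub_cancel]
  have hspec : ∀ g, Φ.IsU x g → ∀ w ∈ Φ.orth (x ⊔ z), (∃ a : K, g z₀ = z₀ + w + a • x₀) →
      ∀ v ∈ Φ.orth x, g v = v - (Φ.B v w / Φ.B x₀ z₀) • x₀ := by
    rintro g hg w hw ⟨a, ha⟩ v hv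
    have h1 : g v - v ∈ x := hg.2.2 v hv
    rw [hxs] at h1
    obtain ⟨l, hl⟩ := Submodule.mem_span_singleton.1 h1
    have hgv : g v = v + l • x₀ := by rw [hl, add_sub_cancel]
    have h2 := hg.1.1 v z₀
    have hvx : Φ.B v x₀ = 0 := (hox v).1 hv
    have hxw : Φ.B x₀ w = 0 := Φ.refl _ _ ((hmem w).1 hw).1
    rw [hgv, ha] at h2
    simp only [Φ.add_left, Φ.add_right, Φ.smul_left, Φ.smul_right, hvx, hxw, hxx, mul_zero,
      add_zero] at h2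
    have h3 : l * Φ.B x₀ z₀ = -Φ.B v w := by
      have h4 : Φ.B v z₀ + Φ.B v w + l * Φ.B x₀ z₀ = Φ.B v z₀ := h2
      have h5 : Φ.B v z₀ + (Φ.B v w + l * Φ.B x₀ z₀) = Φ.B v z₀ + 0 := by
        rw [← add_assoc, h4, add_zero]
      have h6 := add_left_cancel h5
      exact eq_neg_of_add_eq_zero_right h6
    have h7 : l = -(Φ.B v w / Φ.B x₀ z₀) := by
      rw [← neg_div, eq_div_iff hxz, h3]
    rw [hgv, h7, neg_smul, ← sub_eq_add_neg]
  refine ⟨fun g => if hg : Φ.IsU x g then (hex g hg).choose else 0, ?_, ?_, ?_⟩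
  · intro g hg
    simp only [dif_pos hg]
    exact ⟨(hex g hg).choose_spec.1, (hex g hg).choose_spec.2,
      hspec g hg _ (hex g hg).choose_spec.1 (hex g hg).choose_spec.2⟩
  · intro g g' hg hg'
    have hgg : Φ.IsU x (g * g') := (Φ.UU x).mul_mem hg hg'
    simp only [dif_pos hg, dif_pos hg', dif_pos hgg]
    obtain ⟨hw, a, ha⟩ := (hex g hg).choose_spec
    obtain ⟨hw', a', ha'⟩ := (hex g' hg').choose_spec
    obtain ⟨hw2, a2, ha2⟩ := (hex _ hgg).choose_spec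
    have hsp := hspec g hg _ hw ⟨a, ha⟩
    generalize (hex g hg).choose = w at hw ha hsp ⊢
    generalize (hex g' hg').choose = w' at hw' ha' ⊢
    generalize (hex _ hgg).choose = w2 at hw2 ha2 ⊢
    have hw'x : w' ∈ Φ.orth x := (hox w').2 ((hmem w').1 hw').1
    have h1 : (g * g') z₀ = z₀ + (w + w') +
        (a - Φ.B w' w / Φ.B x₀ z₀ + a') • x₀ := by
      change g (g' z₀) = _
      rw [ha', map_add, map_add, map_smul, hg.2.1 x₀ hx₀, ha, hsp w' hw'x, add_smul, sub_smul]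
      abel
    rw [h1] at ha2
    have h2 : (w + w') + (a - Φ.B w' w / Φ.B x₀ z₀ + a') • x₀ = w2 + a2 • x₀ := by
      have h3 : z₀ + ((w + w') + (a - Φ.B w' w / Φ.B x₀ z₀ + a') • x₀) =
          z₀ + (w2 + a2 • x₀) := by
        rw [← add_assoc, ha2, add_assoc]
      exact add_left_cancel h3
    exact (huniq _ ((Φ.orth (x ⊔ z)).add_mem hw hw') _ hw2 _ _ h2).symm
  · intro w hw
    have hwx : Φ.B w x₀ = 0 := ((hmem w).1 hw).1
    have h1 : Φ.B (z₀ + w) x₀ ≠ 0 := by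
      rw [Φ.add_left, hwx, add_zero]
      exact hzx
    obtain ⟨a, ha⟩ := Φ.exists_S hSx h1
    have h2 : Φ.B (z₀ + w + a • x₀) x₀ = Φ.B z₀ x₀ := by
      rw [Φ.add_left, Φ.add_left, Φ.smul_left, hwx, hxx, mul_zero, add_zero, add_zero]
    obtain ⟨g, hgB, hgS, hgx, hgz, hg1, -⟩ := Φ.ei x₀ z₀ _ hSx hSz ha hzx h2
    have hg : Φ.IsU x g := by
      refine ⟨⟨hgB, hgS⟩, ?_, ?_⟩
      · intro v hv
        rw [hxs] at hv
        obtain ⟨b, rfl⟩ := Submodule.mem_span_singleton.1 hv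
        rw [map_smul, hgx]
      · intro v hv
        rw [hxs]
        exact hg1 v ((hox v).1 hv)
    refine ⟨g, hg, ?_⟩
    simp only [dif_pos hg]
    obtain ⟨hw', a', ha'⟩ := (hex g hg).choose_spec
    generalize (hex g hg).choose = w' at hw' ha' ⊢
    rw [hgz] at ha'
    have h3 : w + a • x₀ = w' + a' • x₀ := by
      have h4 : z₀ + (w + a • x₀) = z₀ + (w' + a' • x₀) := by
        rw [← add_assoc, ha', add_assoc]
      exact add_left_cancel h4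
    exact (huniq _ hw _ hw' _ _ h3).symm

end PS

end Pool.Agent.Work.MP_bc729a_al.CG
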