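import Pool.Agent.Work.MP_bc729a_al.CR.AlU
import Pool.Agent.Work.MP_bc729a_al.CR.Tht
import Pool.Agent.Work.MP_bc729a_al.CG.Sig

/-! # Module Fxl (M-L): rank two, odd fields: a line through a fixed point

Let `x = span {x₀}`, `z = span {z₀}`, `W = orth (x ⊔ z)`, `θ` from `exists_theta`. By `alU` and `β x = x`: for `IsU x g` there is `a g` with `IsU x (a g)` and `α (toPG g) = toPG (a g)`, i.e. `(α s).1 = lat (a g)` for the `s` with `s.1 = lat g`; `a g` is unique: if `IsU x g`, `IsU x g'`, `lat g = lat g'` then `g⁻¹ g'` is a scalar (`lat_eq_one`)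
fixing `x₀`, so `g = g'`. So `a` is multiplicative on `UU x`, and `a (a g) = g` (`hα`).
(1) For `IsU x g` and a point `v ≤ orth x`: `v.map g = v ↔ v ≤ orth (span {θ g})` or `v = x` (formula for `g v`; `x ≤ orth (span {θ g})` anyway). So `F g = {v | v point, v ≤ orth x, v ≤ orth (span {θ g})}` is the set of the points of `orth x` fixed by `g`, and `β` maps `F g` onto `F (a g)` (`hβ.eq`, `Prp`, `β x = x`).
(2) `θ g = 0 ↔` all points of `orth x` are in `F g` (`W` is spanned by its points: `span_pts`, `exists_pt`, dimension `≥ c`; `θ g ∈ W ⊓ orth W = ⊥`). So `θ g = 0 ↔ θ (a g) = 0`, so `θ g = θ g' → θ (a g) = θ (a g')`, and there is `A : V → V` with `A (θ g) = θ (a g)` (`A v = 0` outside `W`), additive on `W`, `A (A v) = v`: `mem`, `add`, `inv`.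
(3) Let `u = θ g ∈ W`, `u ≠ 0`, `S u`, `ℓ = x ⊔ span {u}`, a line; `F g` is the set of the points of `orth ℓ`, and these are the points of `ℓ` (a point `v ≤ orth ℓ`, `¬ v ≤ ℓ` gives the totally singular space `ℓ ⊔ v` of dimension `3`, excluded by `hr`): pairwise perpendicular, at least two. So `F (a g)` has these properties (`Prp`). Let `u' = A u`. If `¬ S u'` then
`B u' u' ≠ 0` (`S_odd`), so `W' = W ⊓ orth (span {u'})` is nondegenerate; a point of `W'` would have an opposite point in `W'` (`exists_opp`), both in `F (a g)`: excluded; so `W'` has no point, and a point `span {w + b • x₀} ∈ F (a g)` (`w ∈ W`) has `S w`, `w ∈ W'`, so `w = 0`: `F (a g) = {x}`, excluded. So `S u'` (`sing`).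
`smul`: for `c ≠ 0`, `c • u = θ g'`, `F g' = F g`, so `F (a g') = F (a g)`, which is the set of the points of `x ⊔ span {A u}` and of `x ⊔ span {A (c • u)}`, so these two lines agree (`ts_ext`) and `A (c • u) ∈ (x ⊔ span {A u}) ⊓ W = span {A u}`. `perp`: for `v = θ g`, `u ∈ W` singular, `y = span {u}`: `B u v = 0 ↔ y.map g = y ↔ (β y).map (a g) = β y ↔
B y' (A v) = 0` with `β y = span {y'}`; `β y ≤ x ⊔ span {A u}` (`β` maps the points of `x ⊔ span {u}`, the set `F g'` for `θ g' = u`, onto the points of `x ⊔ span {A u}`), `β y ≠ x`, so `y' = d • A u + e • x₀`, `d ≠ 0`, and the condition is `B (A u) (A v) = 0`.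
(4) `hA` gives `w ∈ W`, `w ≠ 0`, `S w`, `A w = c • w` (`c ≠ 0`). `ℓ = x ⊔ span {w}`; with `w = θ g`: `F g = F (a g)` is the set of the points of `orth ℓ`, so `β` preserves the points of `orth ℓ`, and by `le_iff_perp` the points of `ℓ`: for a point `y ≤ ℓ`, every point `v ≤ orth ℓ` is `β v'`, `v' ≤ orth ℓ ≤ orth y`, so `v ≤ orth (β y)`. -/

namespace Pool.Agent.Work.MP_bc729a_al.CG

open Module

universe u v

variable {K : Type u} {V : Type v} [Field K] [AddCommGroup V] [Module K V] [Finite K] [Finite V]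

namespace PS

variable {Φ : PS K V}

set_option linter.unusedSectionVars false

private theorem finrank_sup_pt {E y : Submodule K V} (hy : Φ.IsPt y) (h : ¬ y ≤ E) :
    finrank K ↥(E ⊔ y) = finrank K E + 1 := by
  have h1 := Submodule.finrank_sup_add_finrank_inf_eq E y
  rw [inf_comm, hy.inf_eq_bot h, finrank_bot, hy.finrank, add_zero] at h1
  exact h1

/-- data at the point `x` -/
private structure Fx (Φ : PS K V) (x z : Submodule K V) (x₀ z₀ : V) : Prop where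
  px : Φ.IsPt x
  pz : Φ.IsPt z
  ex : x = Submodule.span K {x₀}
  ez : z = Submodule.span K {z₀}
  x0 : x₀ ≠ 0
  z0 : z₀ ≠ 0
  xz : ¬ z ≤ Φ.orth x
  b : Φ.B x₀ z₀ ≠ 0
  r : ∀ E, Φ.TS E → finrank K E ≤ 2

private theorem Fx.mem_W {x z : Submodule K V} {x₀ z₀ : V} (h : Fx Φ x z x₀ z₀) {v : V} :
    v ∈ Φ.orth (x ⊔ z) ↔ Φ.B v x₀ = 0 ∧ Φ.B v z₀ = 0 := by
  rw [Φ.orth_sup, Submodule.mem_inf, h.ex, h.ez, Φ.mem_orth_span, Φ.mem_orth_span]

private theorem Fx.mem_ox {x z : Submodule K V} {x₀ z₀ : V} (h : Fx Φ x z x₀ z₀) {v : V} :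
    v ∈ Φ.orth x ↔ Φ.B v x₀ = 0 := by
  rw [h.ex, Φ.mem_orth_span]

private theorem Fx.W_le {x z : Submodule K V} {x₀ z₀ : V} (_h : Fx Φ x z x₀ z₀) :
    Φ.orth (x ⊔ z) ≤ Φ.orth x := Φ.orth_anti le_sup_left

private theorem Fx.Sx {x z : Submodule K V} {x₀ z₀ : V} (h : Fx Φ x z x₀ z₀) : Φ.S x₀ := by
  apply h.px.S
  rw [h.ex]
  exact Submodule.mem_span_singleton_self _

private theorem Fx.xW {x z : Submodule K V} {x₀ z₀ : V} (h : Fx Φ x z x₀ z₀) {a : K}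
    (ha : a • x₀ ∈ Φ.orth (x ⊔ z)) : a = 0 := by
  have h1 := (h.mem_W.1 ha).2
  rw [Φ.smul_left] at h1
  exact (mul_eq_zero.1 h1).resolve_right h.b

private theorem Fx.dec {x z : Submodule K V} {x₀ z₀ : V} (h : Fx Φ x z x₀ z₀) {v : V}
    (hv : v ∈ Φ.orth x) : ∃ w ∈ Φ.orth (x ⊔ z), ∃ a : K, v = w + a • x₀ := by
  refine ⟨v - (Φ.B v z₀ / Φ.B x₀ z₀) • x₀, h.mem_W.2 ⟨?_, ?_⟩, Φ.B v z₀ / Φ.B x₀ z₀, by abel⟩
  · rw [Φ.B_sub_left, Φ.smul_left, h.mem_ox.1 hv, Φ.S_B _ h.Sx, mul_zero, sub_zero]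
  · rw [Φ.B_sub_left, Φ.smul_left, div_mul_cancel₀ _ h.b, sub_self]

private theorem Fx.ln {x z : Submodule K V} {x₀ z₀ : V} (h : Fx Φ x z x₀ z₀) {u : V}
    (hu : u ∈ Φ.orth (x ⊔ z)) (h0 : u ≠ 0) (hS : Φ.S u) :
    Φ.IsLn (x ⊔ Submodule.span K {u}) ∧ ¬ Submodule.span K {u} ≤ x := by
  have hp : Φ.IsPt (Submodule.span K {u}) := isPt_span h0 hS
  have hnot : ¬ Submodule.span K {u} ≤ x := by
    intro hle
    rw [Submodule.span_singleton_le_iff_mem, h.ex, Submodule.mem_span_singleton] at hle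
    obtain ⟨a, rfl⟩ := hle
    rw [h.xW hu, zero_smul] at h0
    exact h0 rfl
  refine ⟨⟨h.px.ts.sup hp.ts ?_, ?_⟩, hnot⟩
  · rw [Φ.le_orth_comm, Submodule.span_singleton_le_iff_mem]
    exact h.W_le hu
  · rw [finrank_sup_pt hp hnot, h.px.finrank]

private theorem Fx.lin {x z : Submodule K V} {x₀ z₀ : V} (h : Fx Φ x z x₀ z₀) {u : V}
    (hu : u ∈ Φ.orth (x ⊔ z)) (h0 : u ≠ 0) (hS : Φ.S u) {y : Submodule K V} (hy : Φ.IsPt y) :
    y ≤ x ⊔ Submodule.span K {u} ↔ y ≤ Φ.orth x ∧ y ≤ Φ.orth (Submodule.span K {u}) := by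
  obtain ⟨⟨hT, hf⟩, -⟩ := h.ln hu h0 hS
  constructor
  · intro hle
    have h1 := hle.trans hT.2
    rw [Φ.orth_sup] at h1
    exact le_inf_iff.1 h1
  · rintro ⟨h1, h2⟩
    by_contra hcon
    have h3 : y ≤ Φ.orth (x ⊔ Submodule.span K {u}) := by
      rw [Φ.orth_sup]
      exact le_inf h1 h2
    have h4 := h.r _ (hT.sup hy.ts (by rw [Φ.le_orth_comm]; exact h3))
    rw [finrank_sup_pt hy hcon, hf] at h4
    omega

private theorem Fx.nd {x z : Submodule K V} {x₀ z₀ : V} (h : Fx Φ x z x₀ z₀) :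
    Φ.ND (Φ.orth (x ⊔ z)) := (hyp_nd h.px h.pz h.xz).1.orth

private theorem Fx.fix {x z : Submodule K V} {x₀ z₀ : V} (h : Fx Φ x z x₀ z₀) {g : V ≃ₗ[K] V}
    {t : V} (ht : t ∈ Φ.orth (x ⊔ z))
    (hg : ∀ v ∈ Φ.orth x, g v = v - (Φ.B v t / Φ.B x₀ z₀) • x₀) {y : Submodule K V}
    (hy : Φ.IsPt y) (hyx : y ≤ Φ.orth x) :
    y.map (g : V →ₗ[K] V) = y ↔ y ≤ Φ.orth (Submodule.span K {t}) := by
  obtain ⟨v, hv, h0⟩ := hy.exists
  have ey := hy.eq_span hv h0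
  have hvx : v ∈ Φ.orth x := hyx hv
  have hgv := hg v hvx
  rw [ey, Φ.span_le_orth]
  constructor
  · intro hm
    have h1 : g v ∈ Submodule.span K {v} := by
      rw [← hm]
      exact Submodule.mem_map_of_mem (Submodule.mem_span_singleton_self v)
    have h2 : (Φ.B v t / Φ.B x₀ z₀) • x₀ ∈ Submodule.span K {v} := by
      have h3 : (Φ.B v t / Φ.B x₀ z₀) • x₀ = v - g v := by
        rw [hgv]
        abel
      rw [h3]
      exact Submodule.sub_mem _ (Submodule.mem_span_singleton_self v) h1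
    by_contra hne
    have h3 : Φ.B v t / Φ.B x₀ z₀ ≠ 0 := div_ne_zero hne h.b
    obtain ⟨a, ha⟩ := Submodule.mem_span_singleton.1 h2
    have ha0 : a ≠ 0 := by
      rintro rfl
      rw [zero_smul] at ha
      exact (smul_ne_zero h3 h.x0) ha.symm
    have h4 : v = (a⁻¹ * (Φ.B v t / Φ.B x₀ z₀)) • x₀ := by
      rw [mul_smul, ← ha, smul_smul, inv_mul_cancel₀ ha0, one_smul]
    apply hne
    have h5 : Φ.B x₀ t = 0 := Φ.refl _ _ (h.mem_W.1 ht).1
    rw [h4, Φ.smul_left, h5, mul_zero]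
  · intro hB
    have h1 : g v = v := by rw [hgv, hB, zero_div, zero_smul, sub_zero]
    rw [Submodule.map_span, Set.image_singleton]
    exact congrArg (fun w => Submodule.span K {w}) h1

theorem fixed_ln {D : Subgroup (V ≃ₗ[K] V)} (hD : Φ.Grp D) {p : ℕ} [Fact p.Prime] [CharP K p]
    (hodd : Odd (Nat.card K)) (hc : Φ.c + 2 ≤ finrank K V)
    (hr : ∀ E, Φ.TS E → finrank K E ≤ 2) {α : MulAut ↥(PG D)} (hα : ∀ s, α (α s) = s)
    {β : Equiv.Perm Φ.Pt} (hβ : Φ.Bet D α β) (hP : Φ.Prp β) {x : Φ.Pt} (hx : β x = x)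
    {z : Submodule K V} (hz : Φ.IsPt z) (hxz : ¬ z ≤ Φ.orth x.1)
    (hA : ∀ A : V → V, Φ.Inv2 (Φ.orth (x.1 ⊔ z)) A →
      ∃ w ∈ Φ.orth (x.1 ⊔ z), w ≠ 0 ∧ Φ.S w ∧ ∃ c : K, A w = c • w) :
    ∃ ℓ, Φ.IsLn ℓ ∧ x.1 ≤ ℓ ∧ ∀ y : Φ.Pt, y.1 ≤ ℓ → (β y).1 ≤ ℓ := by
  classical
  obtain ⟨x₀, hx₀, hx1⟩ := x.2.exists
  obtain ⟨z₀, hz₀, hz1⟩ := hz.exists
  have ex := x.2.eq_span hx₀ hx1
  have ez := hz.eq_span hz₀ hz1
  have hb : Φ.B x₀ z₀ ≠ 0 := by
    intro h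
    apply hxz
    rw [ex, ez, Φ.span_le_orth]
    exact Φ.refl _ _ h
  have F : Fx Φ x.1 z x₀ z₀ := ⟨x.2, hz, ex, ez, hx1, hz1, hxz, hb, hr⟩
  obtain ⟨θ, hθ1, hθ2, hθ3⟩ := exists_theta x.2 hz hxz hx₀ hx1 hz₀ hz1
  set W := Φ.orth (x.1 ⊔ z) with hW
  have hWnd : Φ.ND W := F.nd
  have hWc : Φ.c ≤ finrank K W := by
    have h1 := (hyp_nd x.2 hz hxz).2
    have h2 := Φ.finrank_orth (x.1 ⊔ z)
    rw [h1] at h2
    rw [hW]
    omega
  -- pairs
  let Pr : (V ≃ₗ[K] V) → (V ≃ₗ[K] V) → Prop := fun g g' =>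
    Φ.IsU x.1 g ∧ Φ.IsU x.1 g' ∧ ∃ s : ↥(PG D), s.1 = lat K V g ∧ (α s).1 = lat K V g'
  have hPex : ∀ g, Φ.IsU x.1 g → ∃ g', Pr g g' := by
    intro g hg
    have hgD : g ∈ D := hD.u x.1 x.2 hg
    have h1 : α (toPG hgD) ∈ Φ.UP D x.1 := by
      have h2 := alU hD (p := p) hc hβ hP x
      rw [hx] at h2
      rw [← h2]
      exact Subgroup.mem_map_of_mem _ (show toPG hgD ∈ Φ.UP D x.1 from ⟨g, hg, rfl⟩)
    obtain ⟨g', hg', e⟩ := h1
    exact ⟨g', hg, hg', toPG hgD, rfl, e⟩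
  have hPmul : ∀ g g' h h', Pr g g' → Pr h h' → Pr (g * h) (g' * h') := by
    rintro g g' h h' ⟨a1, a2, s, a3, a4⟩ ⟨b1, b2, t, b3, b4⟩
    refine ⟨(Φ.UU x.1).mul_mem a1 b1, (Φ.UU x.1).mul_mem a2 b2, s * t, ?_, ?_⟩
    · rw [map_mul, ← a3, ← b3]
      rfl
    · rw [map_mul, map_mul, ← a4, ← b4]
      rfl
  have hPinv : ∀ g g', Pr g g' → Pr g⁻¹ g'⁻¹ := by
    rintro g g' ⟨a1, a2, s, a3, a4⟩
    refine ⟨(Φ.UU x.1).inv_mem a1, (Φ.UU x.1).inv_mem a2, s⁻¹, ?_, ?_⟩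
    · rw [map_inv, ← a3]
      rfl
    · rw [map_inv, map_inv, ← a4]
      rfl
  have hPsymm : ∀ g g', Pr g g' → Pr g' g := by
    rintro g g' ⟨a1, a2, s, a3, a4⟩
    exact ⟨a2, a1, α s, a4, by rw [hα, a3]⟩
  have hPfix : ∀ g g', Pr g g' → ∀ y : Φ.Pt,
      y.1.map (g : V →ₗ[K] V) = y.1 ↔ (β y).1.map (g' : V →ₗ[K] V) = (β y).1 := by
    rintro g g' ⟨a1, a2, s, a3, a4⟩ y
    let y2 : Φ.Pt := ⟨y.1.map (g : V →ₗ[K] V), y.2.map a1.1⟩
    have h1 : s.1 y.1 = y2.1 := by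
      rw [a3]
      rfl
    have h2 := hβ.eq s y y2 h1
    have h3 : (β y).1.map (g' : V →ₗ[K] V) = (β y2).1 := by
      rw [← h2, a4]
      rfl
    constructor
    · intro h
      have h4 : y2 = y := Subtype.ext h
      rw [h3, h4]
    · intro h
      rw [h3] at h
      have h4 : y2 = y := β.injective (Subtype.ext h)
      exact congrArg Subtype.val h4
  have hox : ∀ y : Φ.Pt, y.1 ≤ Φ.orth x.1 ↔ (β y).1 ≤ Φ.orth x.1 := by
    intro y
    have h := hP y x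
    rw [hx] at h
    exact h.symm
  have hFF : ∀ g g', Pr g g' → ∀ y : Φ.Pt,
      (y.1 ≤ Φ.orth x.1 ∧ y.1 ≤ Φ.orth (Submodule.span K {θ g})) ↔
        ((β y).1 ≤ Φ.orth x.1 ∧ (β y).1 ≤ Φ.orth (Submodule.span K {θ g'})) := by
    intro g g' h y
    obtain ⟨t1, -, t2⟩ := hθ1 g h.1
    obtain ⟨t3, -, t4⟩ := hθ1 g' h.2.1
    constructor
    · rintro ⟨h1, h2⟩
      have h3 := (hox y).1 h1
      exact ⟨h3, (F.fix t3 t4 (β y).2 h3).1 ((hPfix g g' h y).1 ((F.fix t1 t2 y.2 h1).2 h2))⟩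
    · rintro ⟨h1, h2⟩
      have h3 := (hox y).2 h1
      exact ⟨h3, (F.fix t1 t2 y.2 h3).1 ((hPfix g g' h y).2 ((F.fix t3 t4 (β y).2 h1).2 h2))⟩
  have hzero : ∀ g g', Pr g g' → θ g = 0 → θ g' = 0 := by
    intro g g' h h0
    obtain ⟨t3, -, -⟩ := hθ1 g' h.2.1
    have hall : ∀ y : Submodule K V, Φ.IsPt y → y ≤ W → y ≤ Φ.orth (Submodule.span K {θ g'}) := by
      intro y hy hyW
      obtain ⟨y1, hy1⟩ := β.surjective ⟨y, hy⟩
      have h1 : (β y1).1 ≤ Φ.orth x.1 := by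
        rw [hy1]
        exact hyW.trans F.W_le
      have h2 := (hox y1).2 h1
      have h3 := ((hFF g g' h y1).1 ⟨h2, by
        rw [h0]
        intro v _
        rw [Φ.mem_orth_span, Φ.B_zero_right]⟩).2
      rw [hy1] at h3
      exact h3
    obtain ⟨w, hw, hwW⟩ := exists_pt hWc
    have h4 : W ≤ Φ.orth (Submodule.span K {θ g'}) := by
      rw [span_pts hWnd hw hwW]
      apply sSup_le
      rintro y ⟨hy, hyW⟩
      exact hall y hy hyW
    have h5 : θ g' ∈ W ⊓ Φ.orth W := by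
      refine ⟨t3, ?_⟩
      rw [Φ.le_orth_comm, Submodule.span_singleton_le_iff_mem] at h4
      exact h4
    rw [show W ⊓ Φ.orth W = ⊥ from hWnd] at h5
    exact (Submodule.mem_bot K).1 h5
  have hθone : θ 1 = 0 := by
    have h := hθ2 1 1 (Φ.UU x.1).one_mem (Φ.UU x.1).one_mem
    rw [mul_one] at h
    exact left_eq_add.1 h
  have hθinv : ∀ g, Φ.IsU x.1 g → θ g⁻¹ = -θ g := by
    intro g hg
    have h := hθ2 g g⁻¹ hg ((Φ.UU x.1).inv_mem hg)
    rw [mul_inv_cancel, hθone] at h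
    exact (neg_eq_of_add_eq_zero_right h.symm).symm
  have hwd : ∀ g g' h h', Pr g g' → Pr h h' → θ g = θ h → θ g' = θ h' := by
    intro g g' h h' hg hh e
    have h1 := hzero _ _ (hPmul _ _ _ _ hg (hPinv _ _ hh)) (by
      rw [hθ2 _ _ hg.1 (hPinv _ _ hh).1, hθinv _ hh.1, e, add_neg_cancel])
    rw [hθ2 _ _ hg.2.1 (hPinv _ _ hh).2.1, hθinv _ hh.2.1] at h1
    exact add_neg_eq_zero.1 h1
  have hch : ∀ w : V, ∃ w' : V, w ∈ W → ∃ g g', Pr g g' ∧ θ g = w ∧ θ g' = w' := by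
    intro w
    by_cases hw : w ∈ W
    · obtain ⟨g, hg, e⟩ := hθ3 w hw
      obtain ⟨g', hg'⟩ := hPex g hg
      exact ⟨θ g', fun _ => ⟨g, g', hg', e, rfl⟩⟩
    · exact ⟨0, fun h => absurd h hw⟩
  choose A hAx using hch
  have hAd : ∀ g g', Pr g g' → A (θ g) = θ g' := by
    intro g g' h
    obtain ⟨k, k', hk, e1, e2⟩ := hAx (θ g) (hθ1 g h.1).1
    rw [← e2]
    exact hwd _ _ _ _ hk h e1
  have hAmem : ∀ v ∈ W, A v ∈ W := by
    intro v hv
    obtain ⟨k, k', hk, -, e2⟩ := hAx v hv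
    rw [← e2]
    exact (hθ1 k' hk.2.1).1
  have hAadd : ∀ u ∈ W, ∀ v ∈ W, A (u + v) = A u + A v := by
    intro u hu v hv
    obtain ⟨g, g', hg, e1, e2⟩ := hAx u hu
    obtain ⟨h, h', hh, e3, e4⟩ := hAx v hv
    have h1 := hAd _ _ (hPmul _ _ _ _ hg hh)
    rw [hθ2 _ _ hg.1 hh.1, hθ2 _ _ hg.2.1 hh.2.1, e1, e2, e3, e4] at h1
    exact h1
  have hAinv : ∀ v ∈ W, A (A v) = v := by
    intro v hv
    obtain ⟨g, g', hg, e1, e2⟩ := hAx v hv
    rw [← e2, hAd _ _ (hPsymm _ _ hg), e1]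
  have hA0 : A 0 = 0 := by
    have h := hAadd 0 W.zero_mem 0 W.zero_mem
    rw [add_zero] at h
    exact left_eq_add.1 h
  have hAne : ∀ v ∈ W, v ≠ 0 → A v ≠ 0 := by
    intro v hv h0 h1
    have h2 := hAinv v hv
    rw [h1, hA0] at h2
    exact h0 h2.symm
  have hAF : ∀ u ∈ W, ∀ y : Φ.Pt,
      (y.1 ≤ Φ.orth x.1 ∧ y.1 ≤ Φ.orth (Submodule.span K {u})) ↔
        ((β y).1 ≤ Φ.orth x.1 ∧ (β y).1 ≤ Φ.orth (Submodule.span K {A u})) := by
    intro u hu y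
    obtain ⟨g, g', hg, e1, e2⟩ := hAx u hu
    have h := hFF g g' hg y
    rw [e1, e2] at h
    exact h
  have hAS : ∀ u ∈ W, Φ.S u → Φ.S (A u) := by
    intro u hu hS
    by_cases h0 : u = 0
    · rw [h0, hA0]
      exact Φ.S_zero
    by_contra hns
    have hB : Φ.B (A u) (A u) ≠ 0 := fun h => hns (Φ.S_odd hodd _ h)
    have hlin : ∀ y : Φ.Pt, y.1 ≤ x.1 ⊔ Submodule.span K {u} ↔
        ((β y).1 ≤ Φ.orth x.1 ∧ (β y).1 ≤ Φ.orth (Submodule.span K {A u})) := fun y =>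
      (F.lin hu h0 hS y.2).trans (hAF u hu y)
    have hTS := (F.ln hu h0 hS).1.1
    have hL : Φ.ND (Submodule.span K {A u}) := by
      rw [PS.ND, eq_bot_iff]
      rintro v ⟨hv1, hv2⟩
      obtain ⟨a, rfl⟩ := Submodule.mem_span_singleton.1 hv1
      have h1 := Φ.mem_orth_span.1 hv2
      rw [Φ.smul_left] at h1
      rw [(mul_eq_zero.1 h1).resolve_right hB, zero_smul]
      exact Submodule.zero_mem _
    have hW' : Φ.ND (W ⊓ Φ.orth (Submodule.span K {A u})) :=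
      hWnd.inf_orth hL (by
        rw [Submodule.span_singleton_le_iff_mem]
        exact hAmem u hu)
    have hno : ∀ y : Submodule K V, Φ.IsPt y → ¬ y ≤ W ⊓ Φ.orth (Submodule.span K {A u}) := by
      intro y hy hyW
      obtain ⟨w, hw, hwW, hwy⟩ := exists_opp hW' hy hyW
      obtain ⟨y1, hy1⟩ := β.surjective ⟨y, hy⟩
      obtain ⟨w1, hw1⟩ := β.surjective ⟨w, hw⟩
      have h1 : y1.1 ≤ x.1 ⊔ Submodule.span K {u} := by
        rw [hlin, hy1]
        exact ⟨(hyW.trans inf_le_left).trans F.W_le, hyW.trans inf_le_right⟩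
      have h2 : w1.1 ≤ x.1 ⊔ Submodule.span K {u} := by
        rw [hlin, hw1]
        exact ⟨(hwW.trans inf_le_left).trans F.W_le, hwW.trans inf_le_right⟩
      have h3 : w1.1 ≤ Φ.orth y1.1 := h2.trans (hTS.2.trans (Φ.orth_anti h1))
      have h4 := (hP w1 y1).2 h3
      rw [hy1, hw1] at h4
      exact hwy h4
    have honly : ∀ y : Φ.Pt, y.1 ≤ x.1 ⊔ Submodule.span K {u} → β y = x := by
      intro y hy
      obtain ⟨h1, h2⟩ := (hlin y).1 hy
      obtain ⟨v, hv, hv0⟩ := (β y).2.exists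
      obtain ⟨w, hw, a, e⟩ := F.dec (h1 hv)
      have hvS := (β y).2.S hv
      have hwe : w = v - a • x₀ := by rw [e]; abel
      have hBv : Φ.B v x₀ = 0 := F.mem_ox.1 (h1 hv)
      have hwS : Φ.S w := by
        rw [hwe]
        apply Φ.S_sub hvS (Φ.S_smul a _ F.Sx)
        rw [Φ.smul_right, hBv, mul_zero]
      have hBx : Φ.B x₀ (A u) = 0 := Φ.refl _ _ (F.mem_W.1 (hAmem u hu)).1
      have hwB : Φ.B w (A u) = 0 := by
        rw [hwe, Φ.B_sub_left, Φ.smul_left, hBx, mul_zero, sub_zero]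
        exact Φ.mem_orth_span.1 (h2 hv)
      have hw0 : w = 0 := by
        by_contra hw0
        apply hno _ (isPt_span hw0 hwS)
        rw [Submodule.span_singleton_le_iff_mem]
        exact ⟨hw, Φ.mem_orth_span.2 hwB⟩
      rw [hw0, zero_add] at e
      apply Subtype.ext
      apply (β y).2.eq_of_le x.2
      rw [(β y).2.eq_span hv hv0, Submodule.span_singleton_le_iff_mem, e]
      exact Submodule.smul_mem _ _ hx₀
    have h5 := honly ⟨_, isPt_span h0 hS⟩ le_sup_right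
    have h6 : (⟨_, isPt_span h0 hS⟩ : Φ.Pt) = x := β.injective (h5.trans hx.symm)
    exact (F.ln hu h0 hS).2 (le_of_eq (congrArg Subtype.val h6))
  have hAlin : ∀ u ∈ W, u ≠ 0 → Φ.S u → ∀ y : Φ.Pt, y.1 ≤ x.1 ⊔ Submodule.span K {u} ↔
      (β y).1 ≤ x.1 ⊔ Submodule.span K {A u} := by
    intro u hu h0 hS y
    rw [F.lin hu h0 hS y.2, F.lin (hAmem u hu) (hAne u hu h0) (hAS u hu hS) (β y).2]
    exact hAF u hu y
  have hAsm : ∀ u ∈ W, Φ.S u → ∀ c : K, ∃ d : K, A (c • u) = d • A u := by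
    intro u hu hS c
    by_cases h0 : u = 0
    · exact ⟨0, by rw [h0, smul_zero, hA0, zero_smul]⟩
    by_cases hc0 : c = 0
    · exact ⟨0, by rw [hc0, zero_smul, hA0, zero_smul]⟩
    have hcu : c • u ∈ W := W.smul_mem c hu
    have hcu0 : c • u ≠ 0 := smul_ne_zero hc0 h0
    have hcuS : Φ.S (c • u) := Φ.S_smul c u hS
    have e1 : Submodule.span K {c • u} = Submodule.span K {u} :=
      Submodule.span_singleton_smul_eq (IsUnit.mk0 c hc0) u
    have e2 : x.1 ⊔ Submodule.span K {A u} = x.1 ⊔ Submodule.span K {A (c • u)} := by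
      apply ts_ext (F.ln (hAmem u hu) (hAne u hu h0) (hAS u hu hS)).1.1
        (F.ln (hAmem _ hcu) (hAne _ hcu hcu0) (hAS _ hcu hcuS)).1.1
      intro v
      obtain ⟨y, rfl⟩ := β.surjective v
      rw [← hAlin u hu h0 hS y, ← hAlin _ hcu hcu0 hcuS y, e1]
    have h1 : A (c • u) ∈ x.1 ⊔ Submodule.span K {A u} := by
      rw [e2]
      exact Submodule.mem_sup_right (Submodule.mem_span_singleton_self _)
    obtain ⟨a, ha, b', hb', e3⟩ := Submodule.mem_sup.1 h1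
    rw [ex] at ha
    obtain ⟨r, rfl⟩ := Submodule.mem_span_singleton.1 ha
    obtain ⟨d, rfl⟩ := Submodule.mem_span_singleton.1 hb'
    have h2 : r • x₀ ∈ W := by
      have h3 : r • x₀ = A (c • u) - d • A u := by rw [← e3]; abel
      rw [h3]
      exact W.sub_mem (hAmem _ hcu) (W.smul_mem d (hAmem u hu))
    rw [F.xW h2, zero_smul, zero_add] at e3
    exact ⟨d, e3.symm⟩
  have hAperp : ∀ u ∈ W, ∀ v ∈ W, Φ.S u → (Φ.B v u = 0 ↔ Φ.B (A v) (A u) = 0) := by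
    intro u hu v hv hS
    by_cases h0 : u = 0
    · rw [h0, hA0, Φ.B_zero_right, Φ.B_zero_right]
    have hy : Φ.IsPt (Submodule.span K {u}) := isPt_span h0 hS
    have hyx : Submodule.span K {u} ≤ Φ.orth x.1 := by
      rw [Submodule.span_singleton_le_iff_mem]
      exact F.W_le hu
    have h1 := hAF v hv ⟨_, hy⟩
    have h2 : (β ⟨_, hy⟩).1 ≤ Φ.orth x.1 := (hox ⟨_, hy⟩).1 hyx
    have h3 : (β ⟨_, hy⟩).1 ≤ x.1 ⊔ Submodule.span K {A u} :=
      (hAlin u hu h0 hS ⟨_, hy⟩).1 le_sup_right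
    obtain ⟨w, hw, hw0⟩ := (β ⟨_, hy⟩).2.exists
    obtain ⟨a, ha, b', hb', e3⟩ := Submodule.mem_sup.1 (h3 hw)
    rw [ex] at ha
    obtain ⟨r, rfl⟩ := Submodule.mem_span_singleton.1 ha
    obtain ⟨d, rfl⟩ := Submodule.mem_span_singleton.1 hb'
    have hd : d ≠ 0 := by
      rintro rfl
      rw [zero_smul, add_zero] at e3
      have h4 : (β ⟨_, hy⟩).1 = x.1 := by
        apply (β ⟨_, hy⟩).2.eq_of_le x.2
        rw [(β ⟨_, hy⟩).2.eq_span hw hw0, Submodule.span_singleton_le_iff_mem, ← e3]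
        exact Submodule.smul_mem _ _ hx₀
      have h5 : β ⟨_, hy⟩ = β x := (Subtype.ext h4).trans hx.symm
      exact (F.ln hu h0 hS).2 (le_of_eq (congrArg Subtype.val (β.injective h5)))
    have hBx : Φ.B x₀ (A v) = 0 := Φ.refl _ _ (F.mem_W.1 (hAmem v hv)).1
    have h6 : (β ⟨_, hy⟩).1 ≤ Φ.orth (Submodule.span K {A v}) ↔ Φ.B (A u) (A v) = 0 := by
      rw [(β ⟨_, hy⟩).2.eq_span hw hw0, Φ.span_le_orth, ← e3, Φ.add_left, Φ.smul_left,
        Φ.smul_left, hBx, mul_zero, zero_add, mul_eq_zero]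
      exact ⟨fun h => h.resolve_left hd, Or.inr⟩
    have h7 : Submodule.span K {u} ≤ Φ.orth (Submodule.span K {v}) ↔ Φ.B u v = 0 :=
      Φ.span_le_orth
    rw [Φ.B_comm_zero, ← h7, Φ.B_comm_zero (u := A v), ← h6]
    constructor
    · intro h
      exact (h1.1 ⟨hyx, h⟩).2
    · intro h
      exact (h1.2 ⟨h2, h⟩).2
  obtain ⟨w, hwW, hw0, hwS, c, hwc⟩ := hA A ⟨hAmem, hAadd, hAinv, hAS, hAsm, hAperp⟩
  have hc0 : c ≠ 0 := by
    rintro rfl
    rw [zero_smul] at hwc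
    exact hAne w hwW hw0 hwc
  refine ⟨x.1 ⊔ Submodule.span K {w}, (F.ln hwW hw0 hwS).1, le_sup_left, fun y hy => ?_⟩
  have h1 := (hAlin w hwW hw0 hwS y).1 hy
  rw [hwc, Submodule.span_singleton_smul_eq (IsUnit.mk0 c hc0) w] at h1
  exact h1

end PS

end Pool.Agent.Work.MP_bc729a_al.CG
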