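import Pool.Agent.Work.MP_bc729a_al.CR.Gl
import Pool.Agent.Work.MP_bc729a_al.CR.Gx
import Pool.Agent.Work.MP_bc729a_al.CG.Bt
import Pool.Agent.Work.MP_bc729a_al.CG.Sig
import Pool.Agent.Work.MP_bc729a_al.CG.Mst

/-! # Module Mx2 (S-M): rank two: the stabiliser of a line is maximal

PROOF. `(stE D ℓ).index` is the number of all lines (`index_ln'`), `≡ 1 mod p` (`card_lines_mod'`). `bt` with `R₀ = stE D ℓ`, `Z` the set of the points of `ℓ` (`Nat.card Z = pn ℓ = 1 + |K|`, `pn_ts`, prime to `p`) gives a point `x ≤ ℓ` and `E`, `TS E`, `x ≤ E`, `R ≤ stE D E`. Every point `x' ≤ ℓ` is `x.map g` with `g ∈ D`, `ℓ.map g = ℓ` (`trans_ln_pt'`), `toPG g ∈ stE D ℓ ≤ R ≤ stE D E`, so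
`x' ≤ E`; so `ℓ ≤ E` (`ts_pts`), and `finrank E ≤ 2`: `E = ℓ`, `R ≤ stE D ℓ`. (Compare CG/Maxl.) -/

namespace Pool.Agent.Work.MP_bc729a_al.CG

open Module

universe u v

variable {K : Type u} {V : Type v} [Field K] [AddCommGroup V] [Module K V] [Finite K] [Finite V]

namespace PS

variable {Φ : PS K V}

theorem eq_stE_line2 {D : Subgroup (V ≃ₗ[K] V)} (hD : Φ.Grp D) [IsSimpleGroup ↥(PG D)] {p : ℕ}
    [Fact p.Prime] [CharP K p] (hc : Φ.c + 2 ≤ finrank K V)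
    (hr : ∀ E, Φ.TS E → finrank K E ≤ 2) {ℓ : Submodule K V} (hℓ : Φ.IsLn ℓ)
    {R : Subgroup ↥(PG D)} (h : stE D ℓ ≤ R) (hR : R ≠ ⊤) : R = stE D ℓ := by
  have hn : 3 ≤ finrank K V := hd3 hc
  have hpp : p.Prime := Fact.out
  have h1p : ∀ n : ℕ, n ≡ 1 [MOD p] → ¬ p ∣ n := by
    intro n hn hd
    have h1 : n ≡ 0 [MOD p] := (Nat.modEq_zero_iff_dvd).2 hd
    have h2 : 1 ≡ 0 [MOD p] := hn.symm.trans h1
    have h3 : p ∣ 1 := (Nat.modEq_zero_iff_dvd).1 h2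
    exact hpp.one_lt.ne' (Nat.dvd_one.1 h3)
  have hidx : ¬ p ∣ (stE D ℓ).index := by
    rw [index_ln' hD hc hℓ]
    exact h1p _ (card_lines_mod' hc)
  obtain ⟨Z, hZ⟩ : ∃ Z : Set (Submodule K V), Z = {x | Φ.IsPt x ∧ x ≤ ℓ} := ⟨_, rfl⟩
  have hmemZ : ∀ z, z ∈ Z ↔ Φ.IsPt z ∧ z ≤ ℓ := fun z => by rw [hZ]; exact Iff.rfl
  have hZc : ¬ p ∣ Nat.card Z := by
    have h1 : Nat.card Z = Φ.pn ℓ := by rw [hZ]; rfl
    have hQ : Nat.card K ≡ 0 [MOD p] := by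
      rw [Nat.modEq_zero_iff_dvd]
      have := Fintype.ofFinite K
      rw [Nat.card_eq_fintype_card, ← CharP.cast_eq_zero_iff K p]
      exact Nat.cast_card_eq_zero K
    rw [h1, pn_ts hℓ.1, hℓ.2]
    apply h1p
    simp only [Finset.sum_range_succ, Finset.sum_range_zero, pow_zero, pow_one, zero_add]
    have h2 := Nat.ModEq.add_left 1 hQ
    simpa using h2
  have hZR : ∀ s ∈ stE D ℓ, ∀ z ∈ Z, s.1 z ∈ Z := by
    intro s hs z hz
    rw [hmemZ] at hz ⊢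
    constructor
    · obtain ⟨g, hg, rfl⟩ := exists_toPG s
      rw [toPG_apply]
      exact hz.1.map (hD.le hg)
    · calc s.1 z ≤ s.1 ℓ := s.1.monotone hz.2
        _ = ℓ := hs
  obtain ⟨x, hxZ, E, hE, hxE, hRE⟩ := bt hD hn h hidx hR (Z := Z) (fun z hz => ((hmemZ z).1 hz).1)
    hZc hZR
  rw [hmemZ] at hxZ
  have hle : ℓ ≤ E := by
    rw [ts_pts hℓ.1]
    apply sSup_le
    rintro z ⟨hz, hzℓ⟩
    obtain ⟨g, hg, hg1, hg2⟩ := trans_ln_pt' hD hc hxZ.1 hℓ hxZ.2 hz hℓ hzℓ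
    have h1 : toPG hg ∈ stE D ℓ := by
      rw [mem_stE, toPG_apply]
      exact hg2
    have h2 : toPG hg ∈ stE D E := hRE (h h1)
    rw [mem_stE, toPG_apply] at h2
    rw [← hg1, ← h2]
    exact Submodule.map_mono hxE
  have heq : ℓ = E := by
    have hfin : Module.Finite K V := inferInstance
    apply Submodule.eq_of_le_of_finrank_eq hle
    apply le_antisymm (Submodule.finrank_mono hle)
    rw [hℓ.2]
    exact hr E hE
  apply le_antisymm _ h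
  rw [heq]
  exact hRE

end PS

end Pool.Agent.Work.MP_bc729a_al.CG
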