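import Pool.Agent.Work.MP_bc729a_al.CR.Bo
import Pool.Agent.Work.MP_bc729a_al.CR.Fxl
import Pool.Agent.Work.MP_bc729a_al.CR.Mx2
import Pool.Agent.Work.MP_bc729a_al.CG.Par
import Pool.Agent.Work.MP_bc729a_al.CG.Trl
import Pool.Agent.Work.MP_bc729a_al.CG.Pts
import Pool.Agent.Work.MP_bc729a_al.CG.Mst
import Pool.Agent.Work.MP_bc729a_al.CG.StbA

/-! # Module MnO2 (M): rank two, odd fields

PROOF. (Compare CG/PMainA.) Let `p` be the characteristic, `ℓ` a line (`exists_line`), `H = stE D ℓ`. `H.index` is the number of all lines (`index_ln'`), even by `even_lines` (`W = ⊤`); `H ≠ ⊤`; `H ≠ ⊥`: a nontrivial element of a unipotent radical (`exists_move`, `IsU.map_line`). For `α : MulAut (PG D)`: `β` from `beta_one` (`hcl α`), `Prp β` (`Bet.prp`), `exists_image`, `map_stE`, `trans_ln'`: `H.map α` is a conjugate of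
`H`. So `hX.main` applies: `R ≥ H`, `R ≠ ⊤`, `R = H` (`eq_stE_line2`), and as `2 ∣ R.index` there is `α ∈ X`, `α ^ 2 = 1`, which fixes no conjugate of `H`, i.e. no `stE D ℓ'`, `ℓ'` a line (`trans_ln'`). Its `β` satisfies `β (β x) = x` (`stE_inj`). `trace_lemma` for the points with `r x y := x.1 ≤ orth y.1` (`{z | r x z ∧ r y z}` are the points of `orth (x ⊔ y)`, of dimension `≥ n - 2 ≥ c`: `≡ 1` by `pn_mod`)
gives `x` with `x ≤ orth (β x)`. If `β x ≠ x` then `ℓ' = x ⊔ β x` is a line, and `exists_image` gives a line containing `β x` and `x`, so `ℓ'` is mapped to itself; otherwise `β x = x` and `fixed_ln` (`z` opposite to `x`, `exists_opp`; `hA`) gives a line `ℓ'` with `y ≤ ℓ' → β y ≤ ℓ'`. In both cases `(stE D ℓ').map α = stE D ℓ'` (`map_stE`, `ts_pts`; `β` is an involution). Contradiction. -/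

namespace Pool.Agent.Work.MP_bc729a_al.CG

open Module
open scoped Pointwise

universe u v

variable {K : Type u} {V : Type v} [Field K] [AddCommGroup V] [Module K V] [Finite K] [Finite V]

namespace PS

variable {Φ : PS K V}

private theorem conj_smul_eq2 {G : Type*} [Group G] (a : G) (H : Subgroup G) :
    MulAut.conj a • H = H.map (MulAut.conj a).toMonoidHom := rfl

private theorem line_conj2 {D : Subgroup (V ≃ₗ[K] V)} (hD : Φ.Grp D)
    (hc : Φ.c + 2 ≤ finrank K V) {ℓ ℓ' : Submodule K V} (hℓ : Φ.IsLn ℓ) (hℓ' : Φ.IsLn ℓ') :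
    ∃ a : ↥(PG D), stE D ℓ' = MulAut.conj a • stE D ℓ := by
  obtain ⟨g, hg, h⟩ := trans_ln' hD hc hℓ hℓ'
  refine ⟨toPG hg, ?_⟩
  rw [conj_smul_eq2, stE_conj, toPG_apply, h]

theorem main_odd2 {D : Subgroup (V ≃ₗ[K] V)} (hD : Φ.Grp D) [IsSimpleGroup ↥(PG D)]
    (hc : Φ.c + 2 ≤ finrank K V) (hr : ∀ E, Φ.TS E → finrank K E ≤ 2)
    (hodd : Odd (Nat.card K))
    (hcl : ∀ α : MulAut ↥(PG D), ∀ x, Φ.IsPt x → ∃ y, Φ.IsPt y ∧
      (stE D x).map α.toMonoidHom = stE D y)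
    (hA : ∀ x z, Φ.IsPt x → Φ.IsPt z → ¬ z ≤ Φ.orth x → ∀ A : V → V,
      Φ.Inv2 (Φ.orth (x ⊔ z)) A →
      ∃ w ∈ Φ.orth (x ⊔ z), w ≠ 0 ∧ Φ.S w ∧ ∃ c : K, A w = c • w)
    {X : Subgroup (MulAut ↥(PG D))} (hX : LA.Red ↥(PG D) X) : False := by
  classical
  have hfK := Fintype.ofFinite K
  obtain ⟨p, hp⟩ := CharP.exists K
  obtain ⟨k, hpp, -⟩ := FiniteField.card K p
  have : Fact p.Prime := ⟨hpp⟩
  have hn3 : 3 ≤ finrank K V := hd3 hc
  obtain ⟨ℓ, hℓ⟩ := exists_line (Φ := Φ) hc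
  have hidx : (stE D ℓ).index = Nat.card {ℓ : Submodule K V // Φ.IsLn ℓ} :=
    index_ln' hD hc hℓ
  have heven : Even (stE D ℓ).index := by
    have h1 := even_lines (Φ := Φ) hodd ND_top
    have h2 : Nat.card {ℓ : Submodule K V // Φ.IsLn ℓ ∧ ℓ ≤ ⊤} =
        Nat.card {ℓ : Submodule K V // Φ.IsLn ℓ} :=
      Nat.card_congr (Equiv.subtypeEquivRight fun E => and_iff_left le_top)
    rw [hidx, ← h2]
    exact h1
  have hT : stE D ℓ ≠ ⊤ := by
    intro h
    rw [h, Subgroup.index_top] at heven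
    exact absurd heven (by decide)
  have hB : stE D ℓ ≠ ⊥ := by
    intro h
    have hne : ℓ ≠ ⊥ := by
      intro h0
      have h1 := hℓ.2
      rw [h0, finrank_bot] at h1
      omega
    obtain ⟨v, hv, hv0⟩ := Submodule.exists_mem_ne_zero_of_ne_bot hne
    have hx := hℓ.1.isPt hv hv0
    have hxℓ : Submodule.span K {v} ≤ ℓ := (Submodule.span_singleton_le_iff_mem v ℓ).2 hv
    obtain ⟨y, hy, -, hxy⟩ := exists_opp (Φ := Φ) ND_top hx le_top
    have hne' : Submodule.span K {v} ≠ y := by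
      intro e
      apply hxy
      rw [← e]
      exact hx.self
    obtain ⟨g, hg, hgy⟩ := exists_move hn3 hx hy hne'
    have hgD : g ∈ D := hD.u _ hx (Φ.mem_UU.2 hg)
    have h1 : toPG hgD ∈ stE D ℓ := by
      rw [mem_stE, toPG_apply]
      exact hg.map_line hxℓ (hℓ.1.2.trans (Φ.orth_anti hxℓ))
    rw [h, Subgroup.mem_bot] at h1
    apply hgy
    have h2 := toPG_apply hgD y
    rw [h1] at h2
    exact h2.symm
  have hinv : ∀ α ∈ X, ∃ a : ↥(PG D),
      (stE D ℓ).map α.toMonoidHom = MulAut.conj a • stE D ℓ := by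
    intro α _
    obtain ⟨β, hβ⟩ := beta_one hD hn3 α (hcl α)
    have hP : Φ.Prp β := Bet.prp (p := p) hD hc hβ
    obtain ⟨E', hE', hd, hE''⟩ := exists_image β hP hℓ.1
    have h1 := map_stE hD α β hβ.eq (ts_pts hℓ.1) (ts_pts hE') hE''
    rw [h1]
    exact line_conj2 hD hc hℓ ⟨hE', hd.trans hℓ.2⟩
  obtain ⟨R, T, -, hHR, hRT, -, -, -, -, hlast⟩ := hX.main _ hT hB hinv
  have hRH : R = stE D ℓ := eq_stE_line2 (p := p) hD hc hr hℓ hHR hRT
  subst hRH
  obtain ⟨α, -, hα2, hαne⟩ := hlast 2 Nat.prime_two (even_iff_two_dvd.1 heven)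
  obtain ⟨β, hβ⟩ := beta_one hD hn3 α (hcl α)
  have hP : Φ.Prp β := Bet.prp (p := p) hD hc hβ
  have hα : ∀ s, α (α s) = s := by
    intro s
    have h3 : (α ^ 2) s = s := by rw [hα2]; rfl
    rw [pow_two] at h3
    exact h3
  have hββ : ∀ x, β (β x) = x := by
    intro x
    have h1 : stE D (β (β x)).1 = stE D x.1 := by
      rw [← hβ.st, ← hβ.st, Subgroup.map_map]
      have h2 : α.toMonoidHom.comp α.toMonoidHom = MonoidHom.id _ :=
        MonoidHom.ext fun s => hα s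
      rw [h2, Subgroup.map_id]
    exact Subtype.ext (stE_inj hD hn3 (β (β x)).2 x.2 (le_of_eq h1))
  -- a line mapped to itself
  have hfin : Finite (Submodule K V) :=
    Finite.of_injective (fun U : Submodule K V => (U : Set V)) SetLike.coe_injective
  obtain ⟨E, hE, hEβ⟩ : ∃ E, Φ.IsLn E ∧ ∀ x : Φ.Pt, x.1 ≤ E → (β x).1 ≤ E := by
    have hne : Nonempty Φ.Pt := by
      obtain ⟨x, hx, -⟩ := exists_pt (Φ := Φ) (W := ⊤) (by rw [finrank_top]; omega)
      exact ⟨⟨x, hx⟩⟩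
    have hcount : ∀ x y : Φ.Pt,
        Nat.card {z : Φ.Pt // x.1 ≤ Φ.orth z.1 ∧ y.1 ≤ Φ.orth z.1} ≡ 1 [MOD p] := by
      intro x y
      have h1 : Φ.c ≤ finrank K ↥(Φ.orth (x.1 ⊔ y.1)) := by
        have h2 := Φ.finrank_orth (x.1 ⊔ y.1)
        have h3 := Submodule.finrank_add_le_finrank_add_finrank x.1 y.1
        rw [x.2.finrank, y.2.finrank] at h3
        omega
      have h2 := pn_mod (Φ := Φ) (p := p) h1
      have h3 : Nat.card {z : Φ.Pt // x.1 ≤ Φ.orth z.1 ∧ y.1 ≤ Φ.orth z.1} =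
          Φ.pn (Φ.orth (x.1 ⊔ y.1)) := by
        unfold pn
        refine Nat.card_congr ⟨fun z => ⟨z.1.1, z.1.2, ?_⟩, fun z => ⟨⟨z.1, z.2.1⟩, ?_⟩,
          fun z => rfl, fun z => rfl⟩
        · rw [Φ.orth_sup]
          exact le_inf (Φ.le_orth_comm.1 z.2.1) (Φ.le_orth_comm.1 z.2.2)
        · exact ⟨Φ.le_orth_comm.1 (z.2.2.trans (Φ.orth_anti le_sup_left)),
            Φ.le_orth_comm.1 (z.2.2.trans (Φ.orth_anti le_sup_right))⟩
      rw [h3]
      exact h2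
    obtain ⟨x, hx⟩ := trace_lemma (P := Φ.Pt) (p := p) (fun x y => x.1 ≤ Φ.orth y.1)
      (fun x y h => Φ.le_orth_comm.1 h) hcount β hββ (fun x y h => (hP x y).2 h)
    by_cases hxx : β x = x
    · obtain ⟨z, hz, -, hxz⟩ := exists_opp (Φ := Φ) ND_top x.2 le_top
      obtain ⟨E, hE, -, hEβ⟩ := fixed_ln (p := p) hD hodd hc hr hα hβ hP hxx hz hxz
        (hA x.1 z x.2 hz hxz)
      exact ⟨E, hE, hEβ⟩
    · have hTS : Φ.TS (x.1 ⊔ (β x).1) := x.2.ts.sup (β x).2.ts hx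
      have hne1 : ¬ x.1 ≤ (β x).1 := by
        intro h
        exact hxx (Subtype.ext (x.2.eq_of_le (β x).2 h)).symm
      have hdim : finrank K ↥(x.1 ⊔ (β x).1) = 2 := by
        have h1 := Submodule.finrank_sup_add_finrank_inf_eq x.1 (β x).1
        rw [x.2.inf_eq_bot hne1, finrank_bot, x.2.finrank, (β x).2.finrank] at h1
        omega
      obtain ⟨E', hE', hd, hE''⟩ := exists_image β hP hTS
      have h1 : (β x).1 ≤ E' := (hE'' x).2 le_sup_left
      have h2 : x.1 ≤ E' := by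
        have h3 := (hE'' (β x)).2 le_sup_right
        rwa [hββ] at h3
      have h3 : x.1 ⊔ (β x).1 = E' :=
        Submodule.eq_of_le_of_finrank_eq (sup_le h2 h1) hd.symm
      refine ⟨x.1 ⊔ (β x).1, ⟨hTS, hdim⟩, fun y hy => ?_⟩
      rw [h3]
      exact (hE'' y).2 hy
  have hE' : ∀ x : Φ.Pt, (β x).1 ≤ E ↔ x.1 ≤ E := by
    intro x
    refine ⟨fun h => ?_, hEβ x⟩
    have h1 := hEβ _ h
    rwa [hββ] at h1
  have h5 := map_stE hD α β hβ.eq (ts_pts hE.1) (ts_pts hE.1) hE'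
  obtain ⟨a, ha⟩ := line_conj2 hD hc hℓ hE
  rw [ha] at h5
  exact hαne a h5

end PS

end Pool.Agent.Work.MP_bc729a_al.CG
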