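import Pool.Agent.Work.MP_bc729a_al.CR.Defs
import Pool.Agent.Work.MP_bc729a_al.CG.Exq

/-! # Module Pol (M): polarities fix an apartment

`finrank V = 4`, all vectors are singular; a totally singular space has dimension `≤ 2` (`orth E` has dimension `4 - dim E ≥ dim E`); `orth ℓ = ℓ` for a line `ℓ`. A point `x` is absolute if `x ≤ θ x`.
(1) Every line `ℓ` has an absolute point: `ℓ = θ u`. If `u ≤ θ u`, take `u`. Otherwise there is a point `v ≤ ℓ ⊓ orth u` (dimension `≥ 1`), unique, as `¬ ℓ ≤ orth u` (`u ≤ orth ℓ = ℓ` otherwise), `v ≠ u`. `u ⊔ v` is a line, `= θ w`. `u ≤ θ w`, `v ≤ θ w` give (`hθ`) `w ≤ θ u = ℓ`, `w ≤ θ v`; `v ≤ θ u` gives `u ≤ θ v`. So `u, w ≤ θ v` are perpendicular, `w ≤ ℓ ⊓ orth u`, so `w = v ≤ θ v`.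
(2) Two different absolute points `x, y` are opposite: otherwise `x ⊔ y = θ w` is a line, `w ≤ θ x`, `w ≤ θ y`. If `w = x`: `θ x = x ⊔ y ≥ y`, so `x ≤ θ y`, and `y ≤ θ y`, so `θ y = x ⊔ y = θ x`, `x = y`. So `w ≠ x`, in the same way `w ≠ y`. `w` is perpendicular to `x` (both `≤ θ x`) and `y`, so `w ≤ x ⊔ y` (dimension `≤ 2` of `w ⊔ x ⊔ y`), so `θ x = w ⊔ x = x ⊔ y = θ w`, `w = x`, contradiction.
(3) There are two absolute points: one, `x`, and one on a line not through `x` (which exists: the third point `y` of a hyperbolic line or an opposite point lies on a line; a line through an opposite point of `x` in `orth` of another point; e.g. `exists_quad`-like: if all lines contained `x` then all points would be perpendicular to `x`).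
(4) Let `x, y` be two absolute points, `y' ≤ θ x ⊓ orth y` and `x' ≤ θ y ⊓ orth x` points. `x, y'` are perpendicular, also `y, x'`; `y ≠ x'`, `x ≠ y'` (opposite). `x', y'` are opposite: otherwise `x' ≤ x ⊔ y' = θ x` (`x, x', y'` pairwise perpendicular), so `y` is perpendicular to `x'` and `y'`, which span `θ x` (`x' ≠ y'`: else `x'` is perpendicular to `x, y`..., in each case `y ≤ orth (θ x) = θ x` or `x' = y'`
and then `θ x`, `θ y` meet in `x'`, `x' = θ⁻¹ (x ⊔ x')`...). In detail for `x' = y'`: `x' ≤ θ x`, `x' ≤ θ y`, so `x ≤ θ x'`, `y ≤ θ x'`, so `x`, `y` are perpendicular, contradiction. So `Quad x y x' y'`. `θ x = x ⊔ y'`, `θ y = y ⊔ x'` (dimension `2`). `y ⊔ y' = θ w`: `w ≤ θ y`, `w ≤ θ y'`; `y' ≤ θ x` gives `x ≤ θ y'`, so `w` is perpendicular to `x`, `w ≤ θ y ⊓ orth x = x'`: `θ x' = y ⊔ y'`, and by symmetry `θ y' = x ⊔ x'`. -/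

namespace Pool.Agent.Work.MP_bc729a_al.CG

open Module

universe u v

variable {K : Type u} {V : Type v} [Field K] [AddCommGroup V] [Module K V] [Finite K] [Finite V]

namespace PS

variable {Φ : PS K V}

private theorem pol_perp {ℓ x z : Submodule K V} (h : Φ.IsLn ℓ) (hx : x ≤ ℓ) (hz : z ≤ ℓ) :
    x ≤ Φ.orth z := hx.trans (h.1.2.trans (Φ.orth_anti hz))

private theorem pol_line_orth (hn : finrank K V = 4) {ℓ : Submodule K V} (h : Φ.IsLn ℓ) :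
    Φ.orth ℓ = ℓ := by
  have h1 := finrank_orth (Φ := Φ) ℓ
  have h2 : ℓ ≤ Φ.orth ℓ := h.1.2
  symm
  apply Submodule.eq_of_le_of_finrank_eq h2
  have h3 := h.2
  omega

private theorem pol_mk {x z : Submodule K V} (hx : Φ.IsPt x) (hz : Φ.IsPt z) (hne : x ≠ z)
    (hp : x ≤ Φ.orth z) : Φ.IsLn (x ⊔ z) := by
  refine ⟨TS.sup hx.ts hz.ts hp, ?_⟩
  have h1 := Submodule.finrank_sup_add_finrank_inf_eq x z
  have h2 : x ⊓ z = ⊥ := hx.inf_eq_bot (fun h => hne (hx.eq_of_le hz h))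
  rw [h2, finrank_bot, hx.finrank, hz.finrank] at h1
  omega

private theorem pol_eq {ℓ x z : Submodule K V} (h : Φ.IsLn ℓ) (hx : Φ.IsPt x) (hz : Φ.IsPt z)
    (hne : x ≠ z) (hxl : x ≤ ℓ) (hzl : z ≤ ℓ) : ℓ = x ⊔ z := by
  have h1 := pol_mk hx hz hne (pol_perp h hxl hzl)
  symm
  apply Submodule.eq_of_le_of_finrank_eq (sup_le hxl hzl)
  rw [h1.2, h.2]

private theorem pol_in (hn : finrank K V = 4) {x z w : Submodule K V} (hx : Φ.IsPt x)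
    (hz : Φ.IsPt z) (hne : x ≠ z) (hp : x ≤ Φ.orth z) (h1 : w ≤ Φ.orth x) (h2 : w ≤ Φ.orth z) :
    w ≤ x ⊔ z := by
  have h3 := pol_line_orth hn (pol_mk hx hz hne hp)
  rw [← h3, Φ.orth_sup]
  exact le_inf h1 h2

private theorem pol_ex (hn : finrank K V = 4) (hS : ∀ v, Φ.S v) {ℓ u : Submodule K V}
    (h : Φ.IsLn ℓ) (hu : Φ.IsPt u) : ∃ v : Φ.Pt, v.1 ≤ ℓ ∧ v.1 ≤ Φ.orth u := by
  have h1 := Submodule.finrank_sup_add_finrank_inf_eq ℓ (Φ.orth u)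
  have h2 := finrank_orth (Φ := Φ) u
  have h3 : finrank K ↥(ℓ ⊔ Φ.orth u) ≤ finrank K V := Submodule.finrank_le _
  have h4 := h.2
  have h5 := hu.finrank
  have h6 : ℓ ⊓ Φ.orth u ≠ ⊥ := by
    intro h0
    rw [h0, finrank_bot] at h1
    omega
  obtain ⟨v, hv, hv0⟩ := (Submodule.ne_bot_iff _).1 h6
  refine ⟨⟨Submodule.span K {v}, isPt_span hv0 (hS v)⟩, ?_, ?_⟩
  · change Submodule.span K {v} ≤ ℓ
    rw [Submodule.span_singleton_le_iff_mem]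
    exact hv.1
  · change Submodule.span K {v} ≤ Φ.orth u
    rw [Submodule.span_singleton_le_iff_mem]
    exact hv.2

private theorem pol_ne {x y : Φ.Pt} (h : x ≠ y) : x.1 ≠ y.1 := fun h' => h (Subtype.ext h')

private theorem pol_abs (hn : finrank K V = 4) (hS : ∀ v, Φ.S v)
    (θ : Φ.Pt ≃ {ℓ : Submodule K V // Φ.IsLn ℓ})
    (hθ : ∀ x z : Φ.Pt, x.1 ≤ (θ z).1 ↔ z.1 ≤ (θ x).1) {ℓ : Submodule K V} (h : Φ.IsLn ℓ) :
    ∃ v : Φ.Pt, v.1 ≤ ℓ ∧ v.1 ≤ (θ v).1 := by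
  obtain ⟨u, hu⟩ := θ.surjective ⟨ℓ, h⟩
  have hu' : (θ u).1 = ℓ := by rw [hu]
  by_cases hau : u.1 ≤ (θ u).1
  · exact ⟨u, hu' ▸ hau, hau⟩
  obtain ⟨v, hvl, hvu⟩ := pol_ex hn hS h u.2
  rw [hu'] at hau
  have hvne : u ≠ v := by
    rintro rfl
    exact hau hvl
  have huv : u.1 ≤ Φ.orth v.1 := Φ.le_orth_comm.1 hvu
  have hL := pol_mk u.2 v.2 (pol_ne hvne) huv
  obtain ⟨w, hw⟩ := θ.surjective ⟨u.1 ⊔ v.1, hL⟩
  have hw' : (θ w).1 = u.1 ⊔ v.1 := by rw [hw]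
  have h1 : w.1 ≤ (θ u).1 := (hθ u w).1 (by rw [hw']; exact le_sup_left)
  have h2 : w.1 ≤ (θ v).1 := (hθ v w).1 (by rw [hw']; exact le_sup_right)
  have h3 : u.1 ≤ (θ v).1 := (hθ v u).1 (by rw [hu']; exact hvl)
  have h4 : w.1 ≤ Φ.orth u.1 := pol_perp (θ v).2 h2 h3
  rw [hu'] at h1
  have hwv : w = v := by
    by_contra hne
    have h5 : u.1 ≤ w.1 ⊔ v.1 := pol_in hn w.2 v.2 (pol_ne hne) (pol_perp h h1 hvl)
      (Φ.le_orth_comm.1 h4) huv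
    exact hau (h5.trans (sup_le h1 hvl))
  rw [hwv] at h2
  exact ⟨v, hvl, h2⟩

private theorem pol_opp (hn : finrank K V = 4)
    (θ : Φ.Pt ≃ {ℓ : Submodule K V // Φ.IsLn ℓ})
    (hθ : ∀ x z : Φ.Pt, x.1 ≤ (θ z).1 ↔ z.1 ≤ (θ x).1) {x y : Φ.Pt} (hx : x.1 ≤ (θ x).1)
    (hy : y.1 ≤ (θ y).1) (hne : x ≠ y) : ¬ y.1 ≤ Φ.orth x.1 := by
  intro hp
  have hp' : x.1 ≤ Φ.orth y.1 := Φ.le_orth_comm.1 hp
  have hL := pol_mk x.2 y.2 (pol_ne hne) hp'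
  obtain ⟨w, hw⟩ := θ.surjective ⟨x.1 ⊔ y.1, hL⟩
  have hw' : (θ w).1 = x.1 ⊔ y.1 := by rw [hw]
  have h1 : w.1 ≤ (θ x).1 := (hθ x w).1 (by rw [hw']; exact le_sup_left)
  have h2 : w.1 ≤ (θ y).1 := (hθ y w).1 (by rw [hw']; exact le_sup_right)
  by_cases hwx : w = x
  · subst hwx
    have h3 : w.1 ≤ (θ y).1 := h2
    have h4 := pol_eq (θ y).2 w.2 y.2 (pol_ne hne) h3 hy
    exact hne (θ.injective (Subtype.ext (hw'.trans h4.symm)))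
  · have h3 : w.1 ≤ x.1 ⊔ y.1 := pol_in hn x.2 y.2 (pol_ne hne) hp'
      (pol_perp (θ x).2 h1 hx) (pol_perp (θ y).2 h2 hy)
    have h4 := pol_eq (θ x).2 w.2 x.2 (pol_ne hwx) h1 hx
    have h5 := pol_eq hL w.2 x.2 (pol_ne hwx) h3 le_sup_left
    exact hwx (θ.injective (Subtype.ext (hw'.trans (h5.trans h4.symm))))

private theorem pol_four (hn : finrank K V = 4)
    (θ : Φ.Pt ≃ {ℓ : Submodule K V // Φ.IsLn ℓ})
    (hθ : ∀ x z : Φ.Pt, x.1 ≤ (θ z).1 ↔ z.1 ≤ (θ x).1) {x y x' y' : Φ.Pt}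
    (hy : y.1 ≤ (θ y).1) (hop : ¬ y.1 ≤ Φ.orth x.1)
    (h1 : y'.1 ≤ (θ x).1) (h2 : y'.1 ≤ Φ.orth y.1) (h3 : x'.1 ≤ (θ y).1)
    (h4 : x'.1 ≤ Φ.orth x.1) (h5 : y'.1 ≤ Φ.orth x.1) : (θ x').1 = y.1 ⊔ y'.1 := by
  have hne : y ≠ y' := by
    rintro rfl
    exact hop h5
  have hL := pol_mk y.2 y'.2 (pol_ne hne) (Φ.le_orth_comm.1 h2)
  obtain ⟨w, hw⟩ := θ.surjective ⟨y.1 ⊔ y'.1, hL⟩
  have hw' : (θ w).1 = y.1 ⊔ y'.1 := by rw [hw]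
  have h6 : w.1 ≤ (θ y).1 := (hθ y w).1 (by rw [hw']; exact le_sup_left)
  have h7 : w.1 ≤ (θ y').1 := (hθ y' w).1 (by rw [hw']; exact le_sup_right)
  have h8 : x.1 ≤ (θ y').1 := (hθ y' x).1 h1
  have h9 : w.1 ≤ Φ.orth x.1 := pol_perp (θ y').2 h7 h8
  have hwx : w = x' := by
    by_contra hne2
    have h10 : x.1 ≤ w.1 ⊔ x'.1 := pol_in hn w.2 x'.2 (pol_ne hne2) (pol_perp (θ y).2 h6 h3)
      (Φ.le_orth_comm.1 h9) (Φ.le_orth_comm.1 h4)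
    have h11 : x.1 ≤ (θ y).1 := h10.trans (sup_le h6 h3)
    exact hop (pol_perp (θ y).2 hy h11)
  rw [← hwx, hw']

theorem polar_apt (hn : finrank K V = 4) (hS : ∀ v, Φ.S v)
    (θ : Φ.Pt ≃ {ℓ : Submodule K V // Φ.IsLn ℓ})
    (hθ : ∀ x z : Φ.Pt, x.1 ≤ (θ z).1 ↔ z.1 ≤ (θ x).1) :
    ∃ x y x' y' : Φ.Pt, Φ.Quad x.1 y.1 x'.1 y'.1 ∧ (θ x).1 = x.1 ⊔ y'.1 ∧
      (θ y).1 = y.1 ⊔ x'.1 ∧ (θ x').1 = y.1 ⊔ y'.1 ∧ (θ y').1 = x.1 ⊔ x'.1 := by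
  -- a point and a line
  have hpt : ∃ v : V, v ≠ 0 := by
    by_contra hcon
    push Not at hcon
    have : Subsingleton V := ⟨fun a b => (hcon a).trans (hcon b).symm⟩
    rw [finrank_zero_of_subsingleton] at hn
    omega
  obtain ⟨v, hv⟩ := hpt
  let p : Φ.Pt := ⟨Submodule.span K {v}, isPt_span hv (hS v)⟩
  obtain ⟨x, -, hx⟩ := pol_abs hn hS θ hθ (θ p).2
  -- a second absolute point
  obtain ⟨z, hz, -, hxz⟩ := exists_opp (Φ := Φ) ND_top x.2 le_top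
  obtain ⟨ℓ, hℓ, hzℓ⟩ : ∃ ℓ, Φ.IsLn ℓ ∧ z ≤ ℓ := by
    obtain ⟨u, hu1, hu2⟩ := pol_ex hn hS (θ p).2 hz
    by_cases huz : u.1 = z
    · exact ⟨_, (θ p).2, huz ▸ hu1⟩
    · exact ⟨_, pol_mk u.2 hz huz hu2, le_sup_right⟩
  obtain ⟨y, hyℓ, hy⟩ := pol_abs hn hS θ hθ hℓ
  have hne : x ≠ y := by
    rintro rfl
    exact hxz (pol_perp hℓ hzℓ hyℓ)
  have hop : ¬ y.1 ≤ Φ.orth x.1 := pol_opp hn θ hθ hx hy hne
  have hop' : ¬ x.1 ≤ Φ.orth y.1 := fun h => hop (Φ.le_orth_comm.1 h)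
  obtain ⟨y', h1, h2⟩ := pol_ex hn hS (θ x).2 y.2
  obtain ⟨x', h3, h4⟩ := pol_ex hn hS (θ y).2 x.2
  have h5 : y'.1 ≤ Φ.orth x.1 := pol_perp (θ x).2 h1 hx
  have h6 : x'.1 ≤ Φ.orth y.1 := pol_perp (θ y).2 h3 hy
  have hxy' : x ≠ y' := by
    rintro rfl
    exact hop' h2
  have hyx' : y ≠ x' := by
    rintro rfl
    exact hop h4
  have h7 := pol_eq (θ x).2 x.2 y'.2 (pol_ne hxy') hx h1
  have h8 := pol_eq (θ y).2 y.2 x'.2 (pol_ne hyx') hy h3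
  have hopp : ¬ y'.1 ≤ Φ.orth x'.1 := by
    intro h
    have h9 : x'.1 ≤ x.1 ⊔ y'.1 := pol_in hn x.2 y'.2 (pol_ne hxy') (Φ.le_orth_comm.1 h5) h4
      (Φ.le_orth_comm.1 h)
    rw [← h7] at h9
    have h10 : x.1 ≤ (θ x').1 := (hθ x' x).1 h9
    have h11 : y.1 ≤ (θ x').1 := (hθ x' y).1 h3
    exact hop (pol_perp (θ x').2 h11 h10)
  exact ⟨x, y, x', y', ⟨x.2, y.2, x'.2, y'.2, hop, hopp, h4, h6, h5, h2⟩, h7, h8,
    pol_four hn θ hθ hy hop h1 h2 h3 h4 h5, pol_four hn θ hθ hx hop' h3 h4 h1 h2 h6⟩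

end PS

end Pool.Agent.Work.MP_bc729a_al.CG
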