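import Pool.Agent.Work.MP_bc729a_al.CR.Bo
import Pool.Agent.Work.MP_bc729a_al.CR.Dl
import Pool.Agent.Work.MP_bc729a_al.CR.ApD
import Pool.Agent.Work.MP_bc729a_al.CR.Pol
import Pool.Agent.Work.MP_bc729a_al.CR.Gf
import Pool.Agent.Work.MP_bc729a_al.CR.Gq
import Pool.Agent.Work.MP_bc729a_al.CG.Bt
import Pool.Agent.Work.MP_bc729a_al.CG.Pts

/-! # Module MnS (M): symplectic groups of dimension four, even fields

PROOF. (Compare CG/PMainB.) `c + 2 ≤ 4`, `CharP K 2`. Let `x, y, x', y'` be from `exists_quad` (`W = ⊤`), `H = stS D {x, y, x', y'}`. `H ≠ ⊥` by `ira` (`E = x`). `H ≠ ⊤`: `trans_pt` maps `x` to a fifth point (the line `x ⊔ x'` has `|K| + 1 ≥ 3` points, `span {x₀ + x₀'}` is not among the four). For `α : MulAut (PG D)` use `dual_or`: in the first case `β` from `beta_one`, `Prp β` (`Bet.prp`), `map_stS`: `H.map α` is `stS` of the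
image quadruple (`Quad` by `Prp`); in the second case `map_stS_dual`, `quad_dual` (the four joins are lines: `TS.sup`). In both cases `trans_quad'` shows that `H.map α` is `MulAut.conj (toPG g) • H` (`s ∈ stS D Z ↔ g s g⁻¹ ∈ stS D (g '' Z)`). So `hX.main` applies: `R ≥ H`, `R ≠ ⊤`.
If `2 ∣ R.index` there is `α ∈ X`, `α ^ 2 = 1`, fixing no conjugate of `H`, i.e. no `stS` of a quadruple. First case of `dual_or`: `β (β z) = z` (`stE_inj`), `fixed_quad'` and `map_stS` (the set of the four points is mapped to itself): contradiction. Second case: `stE D (η (θ x)) = ((stE D x).map α).map α = stE D x`, so `η (θ x) = x` (`stE_inj`), and `hδ.inc x (θ z)`: `z ≤ θ x ↔ x ≤ θ z`. `polar_apt` gives `x, y, x', y'` with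
`η (y ⊔ x') = y`, `η (x ⊔ x') = y'`, `η (y ⊔ y') = x'`, `η (y' ⊔ x) = x`, so by `map_stS_dual` the subgroup `stS D {x, y, x', y'}` is mapped to itself: contradiction.
If `¬ 2 ∣ R.index`: `bt` (`R₀ = R`, `Z` all points, `pn_mod`) gives `E`, `TS E`, `E ≠ ⊥`, `H ≤ R ≤ stE D E`, contradiction to `ira`. -/

namespace Pool.Agent.Work.MP_bc729a_al.CG

open Module

universe u v

variable {K : Type u} {V : Type v} [Field K] [AddCommGroup V] [Module K V] [Finite K] [Finite V]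

namespace PS

variable {Φ : PS K V}

omit [Finite K] [Finite V] in
private theorem stS_conj_aux (D : Subgroup (V ≃ₗ[K] V)) (s : ↥(PG D))
    (x y x' y' : Submodule K V) :
    (stS D {x, y, x', y'}).map (MulAut.conj s).toMonoidHom =
      stS D {s.1 x, s.1 y, s.1 x', s.1 y'} := by
  have hmem : ∀ z : Submodule K V, s.1 z ∈ ({s.1 x, s.1 y, s.1 x', s.1 y'} : Set (Submodule K V)) ↔
      z ∈ ({x, y, x', y'} : Set (Submodule K V)) := by
    intro z
    simp only [Set.mem_insert_iff, Set.mem_singleton_iff, EmbeddingLike.apply_eq_iff_eq]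
  ext r
  rw [Subgroup.mem_map, mem_stS]
  constructor
  · rintro ⟨q, hq, rfl⟩ z
    rw [mem_stS] at hq
    have e : ((MulAut.conj s).toMonoidHom q).1 z = s.1 (q.1 (s.1.symm z)) := rfl
    rw [e, hmem, hq, ← hmem, OrderIso.apply_symm_apply]
  · intro h
    refine ⟨s⁻¹ * r * s, ?_, ?_⟩
    · rw [mem_stS]
      intro z
      have e : (s⁻¹ * r * s).1 z = s.1.symm (r.1 (s.1 z)) := rfl
      rw [e, ← hmem, OrderIso.apply_symm_apply, h, hmem]
    · change s * (s⁻¹ * r * s) * s⁻¹ = r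
      group

open scoped Pointwise in
private theorem smul_eq_map_aux {G : Type v} [Group G] (a : G) (H : Subgroup G) :
    MulAut.conj a • H = H.map (MulAut.conj a).toMonoidHom := rfl

open scoped Pointwise in
private theorem conj_quad_aux {D : Subgroup (V ≃ₗ[K] V)} (hD : Φ.Grp D)
    (hc : Φ.c + 2 ≤ finrank K V)
    {x y x' y' x₁ y₁ x₁' y₁' : Submodule K V} (h : Φ.Quad x y x' y')
    (h₁ : Φ.Quad x₁ y₁ x₁' y₁') :
    ∃ a : ↥(PG D), stS D {x₁, y₁, x₁', y₁'} = MulAut.conj a • stS D {x, y, x', y'} := by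
  obtain ⟨g, hg, e1, e2, e3, e4⟩ := trans_quad' hD hc h h₁
  refine ⟨toPG hg, ?_⟩
  rw [smul_eq_map_aux, stS_conj_aux]
  simp only [toPG_apply, e1, e2, e3, e4]

omit [Finite K] in
private theorem ln_aux {x z : Submodule K V} (hx : Φ.IsPt x) (hz : Φ.IsPt z)
    (h : z ≤ Φ.orth x) (hne : x ≠ z) : Φ.IsLn (x ⊔ z) := by
  refine ⟨hx.ts.sup hz.ts (Φ.le_orth_comm.1 h), ?_⟩
  have h1 : x ⊓ z = ⊥ := hx.inf_eq_bot fun hle => hne (hx.eq_of_le hz hle)
  have h2 := Submodule.finrank_sup_add_finrank_inf_eq x z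
  rw [h1, finrank_bot, hx.finrank, hz.finrank] at h2
  omega

omit [Finite K] [Finite V] in
private theorem quad_ne_aux {x y x' y' : Submodule K V} (hq : Φ.Quad x y x' y') :
    x ≠ x' ∧ x' ≠ y ∧ y ≠ y' ∧ y' ≠ x := by
  refine ⟨?_, ?_, ?_, ?_⟩
  · rintro rfl
    exact hq.xy' hq.xy1
  · rintro rfl
    exact hq.xy' hq.yy
  · rintro rfl
    exact hq.xy' (Φ.le_orth_comm.1 hq.yx)
  · rintro rfl
    exact hq.xy' (Φ.le_orth_comm.1 hq.xx)

omit [Finite K] in
private theorem quad_lns_aux {x y x' y' : Submodule K V} (hq : Φ.Quad x y x' y') :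
    Φ.IsLn (x ⊔ x') ∧ Φ.IsLn (x' ⊔ y) ∧ Φ.IsLn (y ⊔ y') ∧ Φ.IsLn (y' ⊔ x) := by
  obtain ⟨h1, h2, h3, h4⟩ := quad_ne_aux hq
  exact ⟨ln_aux hq.px hq.px' hq.xx h1, ln_aux hq.px' hq.py (Φ.le_orth_comm.1 hq.yx) h2,
    ln_aux hq.py hq.py' hq.yy h3, ln_aux hq.py' hq.px (Φ.le_orth_comm.1 hq.xy1) h4⟩

omit [Finite K] [Finite V] in
private theorem quad_prp_aux {β : Equiv.Perm Φ.Pt} (hβ : Φ.Prp β) {x y x' y' : Φ.Pt}
    (hq : Φ.Quad x.1 y.1 x'.1 y'.1) :
    Φ.Quad (β x).1 (β y).1 (β x').1 (β y').1 where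
  px := (β x).2
  py := (β y).2
  px' := (β x').2
  py' := (β y').2
  xy := fun h => hq.xy ((hβ _ _).1 h)
  xy' := fun h => hq.xy' ((hβ _ _).1 h)
  xx := (hβ _ _).2 hq.xx
  yx := (hβ _ _).2 hq.yx
  xy1 := (hβ _ _).2 hq.xy1
  yy := (hβ _ _).2 hq.yy

open scoped Pointwise in
private theorem exists_conj_aux {D : Subgroup (V ≃ₗ[K] V)} (hD : Φ.Grp D)
    [IsSimpleGroup ↥(PG D)] [Fact (Nat.Prime 2)] [CharP K 2]
    (hn : finrank K V = 4) (hc : Φ.c = 1)
    {x y x' y' : Submodule K V} (hq : Φ.Quad x y x' y') (α : MulAut ↥(PG D)) :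
    ∃ a : ↥(PG D), (stS D {x, y, x', y'}).map α.toMonoidHom =
      MulAut.conj a • stS D {x, y, x', y'} := by
  have hc2 : Φ.c + 2 ≤ finrank K V := by omega
  rcases dual_or hD (p := 2) hn hc α with h | ⟨θ, η, hδ⟩
  · obtain ⟨β, hβ⟩ := beta_one hD (by omega) α h
    have hp := hβ.prp hD (p := 2) hc2
    have hq0 : Φ.Quad (Subtype.mk x hq.px : Φ.Pt).1 (Subtype.mk y hq.py : Φ.Pt).1
      (Subtype.mk x' hq.px' : Φ.Pt).1 (Subtype.mk y' hq.py' : Φ.Pt).1 := hq
    obtain ⟨a, ha⟩ := conj_quad_aux hD hc2 hq (quad_prp_aux hp hq0)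
    refine ⟨a, ?_⟩
    rw [← ha]
    exact map_stS hD hβ ⟨x, hq.px⟩ ⟨y, hq.py⟩ ⟨x', hq.px'⟩ ⟨y', hq.py'⟩
  · obtain ⟨h1, h2, h3, h4⟩ := quad_lns_aux hq
    obtain ⟨a, ha⟩ := conj_quad_aux hD hc2 hq (quad_dual hδ hq h1 h2 h3 h4)
    refine ⟨a, ?_⟩
    rw [← ha]
    exact map_stS_dual hD (by omega) hδ hq h1 h2 h3 h4

omit [Finite K] [Finite V] in
private theorem fifth_aux (hS : ∀ v, Φ.S v) {x y x' y' : Submodule K V}
    (hq : Φ.Quad x y x' y') :
    ∃ z, Φ.IsPt z ∧ z ∉ ({x, y, x', y'} : Set (Submodule K V)) := by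
  obtain ⟨a, ha, ha0⟩ := hq.px.exists
  obtain ⟨b, hb, hb0⟩ := hq.px'.exists
  have e1 := hq.px.eq_span ha ha0
  have e2 := hq.px'.eq_span hb hb0
  have hax : a ∈ Φ.orth x := hq.px.self ha
  have hbx : b ∈ Φ.orth x := hq.xx hb
  have hax' : a ∈ Φ.orth x' := (Φ.le_orth_comm.1 hq.xx) ha
  have hbx' : b ∈ Φ.orth x' := hq.px'.self hb
  have hz1 : Submodule.span K {a + b} ≤ Φ.orth x := by
    rw [Submodule.span_singleton_le_iff_mem]
    exact (Φ.orth x).add_mem hax hbx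
  have hz2 : Submodule.span K {a + b} ≤ Φ.orth x' := by
    rw [Submodule.span_singleton_le_iff_mem]
    exact (Φ.orth x').add_mem hax' hbx'
  have hy1 : ¬ y ≤ Φ.orth (Submodule.span K {a + b}) := by
    intro h
    apply hq.xy
    intro v hv
    have h1 : Φ.B v (a + b) = 0 := Φ.mem_orth_span.1 (h hv)
    have h2 : Φ.B v b = 0 := (Φ.le_orth_comm.1 hq.yx) hv b hb
    rw [Φ.add_right, h2, add_zero] at h1
    rw [e1, Φ.mem_orth_span]
    exact h1
  have hy2 : ¬ y' ≤ Φ.orth (Submodule.span K {a + b}) := by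
    intro h
    apply hq.xy'
    intro v hv
    have h1 : Φ.B v (a + b) = 0 := Φ.mem_orth_span.1 (h hv)
    have h2 : Φ.B v a = 0 := hq.xy1 hv a ha
    rw [Φ.add_right, h2, zero_add] at h1
    rw [e2, Φ.mem_orth_span]
    exact h1
  have h0 : a + b ≠ 0 := by
    intro h
    apply hy1
    rw [h]
    intro v _
    rw [Φ.mem_orth_span, Φ.B_zero_right]
  refine ⟨Submodule.span K {a + b}, isPt_span h0 (hS _), ?_⟩
  rintro (h | h | h | h)
  · rw [h] at hy2
    exact hy2 hq.xy1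
  · rw [h] at hz1
    exact hq.xy hz1
  · rw [h] at hy1
    exact hy1 (Φ.le_orth_comm.1 hq.yx)
  · rw [Set.mem_singleton_iff] at h
    rw [h] at hz2
    exact hq.xy' hz2

theorem main_sp4 {D : Subgroup (V ≃ₗ[K] V)} (hD : Φ.Grp D) [IsSimpleGroup ↥(PG D)]
    (hI : Φ.Iso ≤ D) (hn : finrank K V = 4) (hc : Φ.c = 1) (hS : ∀ v, Φ.S v)
    (heven : Even (Nat.card K)) (h4 : 4 ≤ Nat.card K)
    {X : Subgroup (MulAut ↥(PG D))} (hX : LA.Red ↥(PG D) X) : False := by
  have hc2 : Φ.c + 2 ≤ finrank K V := by omega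
  have hF2 : Fact (Nat.Prime 2) := ⟨Nat.prime_two⟩
  have hch : CharP K 2 := by
    have := Fintype.ofFinite K
    rw [Nat.card_eq_fintype_card] at heven
    have h : ringChar K = 2 := FiniteField.even_card_iff_char_two.2 (Nat.even_iff.1 heven)
    rw [← h]
    exact ringChar.charP K
  obtain ⟨x, y, x', y', hq, -⟩ := exists_quad (Φ := Φ) (W := ⊤) ND_top
    (by rw [finrank_top]; omega)
  have hbot : stS D {x, y, x', y'} ≠ ⊥ := by
    intro h
    apply ira hD hI hn hS heven h4 hq hq.px.ts hq.px.ne_bot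
    rw [h]
    exact bot_le
  have htop : stS D {x, y, x', y'} ≠ ⊤ := by
    intro h
    obtain ⟨z, hz, hz'⟩ := fifth_aux hS hq
    obtain ⟨g, hg, -, e⟩ := trans_pt hD (W := ⊤) ND_top
      (Or.inl (by rw [finrank_top]; omega)) hq.px le_top hz le_top
    have h2 : toPG hg ∈ stS D {x, y, x', y'} := by
      rw [h]
      exact Subgroup.mem_top _
    have h3 := (h2 x).2 (Set.mem_insert _ _)
    rw [toPG_apply, e] at h3
    exact hz' h3
  obtain ⟨R, T, -, hHR, hRt, -, -, -, -, hp⟩ := hX.main _ htop hbot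
    (fun α _ => exists_conj_aux hD hn hc hq α)
  by_cases h2 : 2 ∣ R.index
  · obtain ⟨α, -, hα2, hno⟩ := hp 2 Nat.prime_two h2
    have hαα : ∀ H : Subgroup ↥(PG D), (H.map α.toMonoidHom).map α.toMonoidHom = H := by
      intro H
      have h5 : α.toMonoidHom.comp α.toMonoidHom = MonoidHom.id ↥(PG D) := by
        ext1 s
        have h6 : (α ^ 2) s = s := by
          rw [hα2]
          rfl
        rw [pow_two] at h6
        exact h6
      rw [Subgroup.map_map, h5, Subgroup.map_id]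
    have hcon : ∀ x₁ y₁ x₁' y₁' : Submodule K V, Φ.Quad x₁ y₁ x₁' y₁' →
        (stS D {x₁, y₁, x₁', y₁'}).map α.toMonoidHom ≠ stS D {x₁, y₁, x₁', y₁'} := by
      intro x₁ y₁ x₁' y₁' hq₁ he
      obtain ⟨a, ha⟩ := conj_quad_aux hD hc2 hq hq₁
      rw [ha] at he
      exact hno a he
    rcases dual_or hD (p := 2) hn hc α with h | ⟨θ, η, hδ⟩
    · obtain ⟨β, hβ⟩ := beta_one hD (by omega) α h
      have hpr := hβ.prp hD (p := 2) hc2
      have hββ : ∀ z, β (β z) = z := by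
        intro z
        apply Subtype.ext
        apply stE_inj hD (by omega) (β (β z)).2 z.2
        rw [← hβ.st, ← hβ.st, hαα]
      obtain ⟨x₁, y₁, x₁', y₁', hq₁, hperm⟩ := fixed_quad' hc2 β hpr hββ
      apply hcon x₁.1 y₁.1 x₁'.1 y₁'.1 hq₁
      rw [map_stS hD hβ]
      congr 1
      have hset : ({β x₁, β y₁, β x₁', β y₁'} : Set Φ.Pt) = {x₁, y₁, x₁', y₁'} := by
        apply Set.Subset.antisymm
        · rintro z (rfl | rfl | rfl | rfl)
          · exact hperm _ (by simp)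
          · exact hperm _ (by simp)
          · exact hperm _ (by simp)
          · exact hperm _ (by simp)
        · intro z hz
          have hz1 := hperm z hz
          rw [← hββ z]
          rcases hz1 with h | h | h | h
          · rw [h]; simp
          · rw [h]; simp
          · rw [h]; simp
          · rw [Set.mem_singleton_iff] at h
            rw [h]; simp
      have h6 := congrArg (fun S : Set Φ.Pt => Subtype.val '' S) hset
      simpa only [Set.image_insert_eq, Set.image_singleton] using h6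
    · have hηθ : ∀ z : Φ.Pt, η (θ z) = z := by
        intro z
        apply Subtype.ext
        apply stE_inj hD (by omega) (η (θ z)).2 z.2
        rw [← hδ.ln, ← hδ.pt, hαα]
      have hθ : ∀ u z : Φ.Pt, u.1 ≤ (θ z).1 ↔ z.1 ≤ (θ u).1 := by
        intro u z
        have h5 := hδ.inc u (θ z)
        rw [hηθ] at h5
        exact h5.symm
      obtain ⟨x₁, y₁, x₁', y₁', hq₁, g1, g2, g3, g4⟩ := polar_apt hn hS θ hθ
      obtain ⟨k1, k2, k3, k4⟩ := quad_lns_aux hq₁
      apply hcon x₁.1 y₁.1 x₁'.1 y₁'.1 hq₁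
      rw [map_stS_dual hD (by omega) hδ hq₁ k1 k2 k3 k4]
      have m1 : η ⟨x₁.1 ⊔ x₁'.1, k1⟩ = y₁' :=
        (congrArg η (Subtype.ext g4.symm)).trans (hηθ y₁')
      have m2 : η ⟨y₁.1 ⊔ y₁'.1, k3⟩ = x₁' :=
        (congrArg η (Subtype.ext g3.symm)).trans (hηθ x₁')
      have m3 : η ⟨x₁'.1 ⊔ y₁.1, k2⟩ = y₁ :=
        (congrArg η (Subtype.ext ((sup_comm _ _).trans g2.symm))).trans (hηθ y₁)
      have m4 : η ⟨y₁'.1 ⊔ x₁.1, k4⟩ = x₁ :=
        (congrArg η (Subtype.ext ((sup_comm _ _).trans g1.symm))).trans (hηθ x₁)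
      rw [m1, m2, m3, m4]
      congr 1
      ext z
      simp only [Set.mem_insert_iff, Set.mem_singleton_iff]
      tauto
  · have hcard : Nat.card {z : Submodule K V | Φ.IsPt z} = Φ.pn ⊤ := by
      apply Nat.card_congr
      exact Equiv.subtypeEquivRight fun z => ⟨fun h => ⟨h, le_top⟩, fun h => h.1⟩
    obtain ⟨z, hz, E, hE, hzE, hRE⟩ := bt hD (by omega : 3 ≤ finrank K V) (p := 2)
      (le_refl R) h2 hRt (Z := {z | Φ.IsPt z}) (fun z hz => hz) (by
        rw [hcard]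
        have h3 := pn_mod (Φ := Φ) (p := 2) (W := ⊤) (by rw [finrank_top]; omega)
        intro h4
        have h5 := (Nat.modEq_zero_iff_dvd.2 h4).symm.trans h3
        exact absurd h5 (by decide)) (by
        intro s _ z hz
        obtain ⟨g, hg, rfl⟩ := exists_toPG s
        exact IsPt.map hz (hD.le hg))
    apply ira hD hI hn hS heven h4 hq hE _ (hHR.trans hRE)
    rintro rfl
    exact (IsPt.ne_bot hz) (le_bot_iff.1 hzE)

end PS

end Pool.Agent.Work.MP_bc729a_al.CG
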