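import Pool.Agent.Work.MP_bc729a_al.CR.Bo
import Pool.Agent.Work.MP_bc729a_al.CR.Blk
import Pool.Agent.Work.MP_bc729a_al.CR.Irp
import Pool.Agent.Work.MP_bc729a_al.CG.Bt
import Pool.Agent.Work.MP_bc729a_al.CG.Pts
import Pool.Agent.Work.MP_bc729a_al.CG.StbA
import Pool.Agent.Work.MP_bc729a_al.CG.TrnA
import Pool.Agent.Work.MP_bc729a_al.CG.Idxp

/-! # Module MnUa (M): unitary groups of dimension three, even fields

`2 ≤ t` (`typ`: `c = 2`, `t * t = |K|`). Two different points are opposite (`opp3`); for two pairs of different points `x ≠ y`, `x₁ ≠ y₁` there is `g ∈ D`, `x.map g = x₁`, `y.map g = y₁` (`trans_pt`, `u_trans` with `W = ⊤`, `IsU.map_eq`).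
PROOF. Let `x ≠ y` be points (`exists_pt`, `exists_opp`), `L = x ⊔ y`, `H = stE D L`. (a) For every point `v` there is `g ∈ D` with `L.map g = L`, `v.map g ≠ v`: choose a point `w ≤ L`, `w ≠ v` (`x` or `y`); `nn'` with `v, w`, `A = L` gives `g`, `IsU w g`, fixing the vectors of `orth L`, so `L.map g = L` (`L = orth (orth L)`, `orth_map`), `¬ v.map g ≤ orth v`. So `H ≠ ⊥`. `H ≠ ⊤`: `⊤` is the span of its
points (`span_pts`), so there is a point `z`, `¬ z ≤ L`, and `z = x.map g`, `g ∈ D`. For `α`: `β` from `beta_one` (`hcl`), `blk_st`, and two-transitivity: `H.map α` is conjugate to `H` (`stE_conj`). So `hX.main` applies: `R ≥ H`, `R ≠ ⊤`. If `2 ∣ R.index` there is `α ∈ X`, `α ^ 2 = 1`, fixing no `stE D (x₁ ⊔ y₁)`, `x₁ ≠ y₁`; `β (β z) = z` (`stE_inj`). If `β z ≠ z` for some `z` take `x₁ = z`, `y₁ = β z`, otherwise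
any two points: `blk_st` gives a contradiction. If `¬ 2 ∣ R.index`: `bt` (`R₀ = R`, `Z` all points) gives a point `v` and `E`, `TS E`, `v ≤ E`, `H ≤ R ≤ stE D E`; `finrank E = 1` (`opp3` or dimensions), `E = v`, contradiction to (a). -/

namespace Pool.Agent.Work.MP_bc729a_al.CG

open Module

universe u v

variable {K : Type u} {V : Type v} [Field K] [AddCommGroup V] [Module K V] [Finite K] [Finite V]

namespace PS

variable {Φ : PS K V}

private theorem ua_nd_top : Φ.ND (⊤ : Submodule K V) := by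
  show ⊤ ⊓ Φ.orth ⊤ = ⊥
  rw [orth_top, inf_bot_eq]

/-- two-transitivity on points -/
private theorem ua_two {D : Subgroup (V ≃ₗ[K] V)} (hD : Φ.Grp D) (hn : finrank K V = 3)
    {x y x₁ y₁ : Submodule K V} (hx : Φ.IsPt x) (hy : Φ.IsPt y) (hx₁ : Φ.IsPt x₁)
    (hy₁ : Φ.IsPt y₁) (hxy : x ≠ y) (hxy₁ : x₁ ≠ y₁) :
    ∃ g ∈ D, x.map (g : V →ₗ[K] V) = x₁ ∧ y.map (g : V →ₗ[K] V) = y₁ := by
  have hd : 3 ≤ finrank K ↥(⊤ : Submodule K V) := by
    rw [finrank_top, hn]
  obtain ⟨g₁, hg₁, -, hgx⟩ := trans_pt hD ua_nd_top (Or.inl hd) hx le_top hx₁ le_top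
  have hy' : Φ.IsPt (y.map (g₁ : V →ₗ[K] V)) := hy.map (hD.le hg₁)
  have hne : x₁ ≠ y.map (g₁ : V →ₗ[K] V) := by
    rw [← hgx]
    intro he
    exact hxy (Submodule.map_injective_of_injective (f := (g₁ : V →ₗ[K] V)) g₁.injective he)
  obtain ⟨g₂, hg₂, -, hgy⟩ := u_trans (W := ⊤) hx₁ le_top hy' le_top hy₁ le_top
    (opp3 hn hx₁ hy' hne) (opp3 hn hx₁ hy₁ hxy₁)
  refine ⟨g₂ * g₁, D.mul_mem (hD.u x₁ hx₁ hg₂) hg₁, ?_, ?_⟩
  · have h : x.map ((g₂ * g₁ : V ≃ₗ[K] V) : V →ₗ[K] V) =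
        (x.map (g₁ : V →ₗ[K] V)).map (g₂ : V →ₗ[K] V) := Submodule.map_comp _ _ _
    rw [h, hgx, hg₂.map_eq]
  · have h : y.map ((g₂ * g₁ : V ≃ₗ[K] V) : V →ₗ[K] V) =
        (y.map (g₁ : V →ₗ[K] V)).map (g₂ : V →ₗ[K] V) := Submodule.map_comp _ _ _
    rw [h, hgy]

open scoped Pointwise in
private theorem ua_conj (D : Subgroup (V ≃ₗ[K] V)) (s : ↥(PG D)) (E : Submodule K V) :
    MulAut.conj s • stE D E = stE D (s.1 E) := by
  rw [← stE_conj]
  rfl

open scoped Pointwise in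
/-- the stabilisers of two hyperbolic lines are conjugate -/
private theorem ua_cl {D : Subgroup (V ≃ₗ[K] V)} (hD : Φ.Grp D) (hn : finrank K V = 3)
    {x y x₁ y₁ : Submodule K V} (hx : Φ.IsPt x) (hy : Φ.IsPt y) (hx₁ : Φ.IsPt x₁)
    (hy₁ : Φ.IsPt y₁) (hxy : x ≠ y) (hxy₁ : x₁ ≠ y₁) :
    ∃ a : ↥(PG D), stE D (x₁ ⊔ y₁) = MulAut.conj a • stE D (x ⊔ y) := by
  obtain ⟨g, hg, h1, h2⟩ := ua_two hD hn hx hy hx₁ hy₁ hxy hxy₁
  refine ⟨toPG hg, ?_⟩
  rw [ua_conj, toPG_apply, Submodule.map_sup, h1, h2]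

theorem main_u3_even {D : Subgroup (V ≃ₗ[K] V)} (hD : Φ.Grp D) [IsSimpleGroup ↥(PG D)]
    (hn : finrank K V = 3) (hc : Φ.c = 2) (h1 : ∃ a, Φ.τ a ≠ a) (heven : Even (Nat.card K))
    (hcl : ∀ α : MulAut ↥(PG D), ∀ x, Φ.IsPt x → ∃ y, Φ.IsPt y ∧
      (stE D x).map α.toMonoidHom = stE D y)
    {X : Subgroup (MulAut ↥(PG D))} (hX : LA.Red ↥(PG D) X) : False := by
  classical
  haveI : Fintype K := Fintype.ofFinite K
  have hcardK : 2 ≤ Nat.card K := by
    rw [Nat.card_eq_fintype_card]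
    exact Fintype.one_lt_card
  have ht : 2 ≤ Φ.t := by
    rcases Φ.typ with ⟨h, -⟩ | ⟨-, h⟩ | ⟨h, -⟩
    · omega
    · by_contra hlt
      have : Φ.t = 0 ∨ Φ.t = 1 := by omega
      rcases this with h' | h' <;> rw [h'] at h <;> omega
    · omega
  have h2 : Fact (Nat.Prime 2) := ⟨Nat.prime_two⟩
  haveI hchar : CharP K 2 := by
    have he : Fintype.card K % 2 = 0 := by
      rw [← Nat.card_eq_fintype_card]
      exact Nat.even_iff.1 heven
    exact ringChar.of_eq (FiniteField.even_card_iff_char_two.2 he)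
  have hn3 : 3 ≤ finrank K V := hn.ge
  have hND : Φ.ND (⊤ : Submodule K V) := ua_nd_top
  have hfr : finrank K ↥(⊤ : Submodule K V) = 3 := by rw [finrank_top, hn]
  obtain ⟨x, hx, -⟩ := exists_pt (Φ := Φ) (W := ⊤) (by rw [hfr, hc]; norm_num)
  obtain ⟨y, hy, -, hxy0⟩ := exists_opp hND hx le_top
  have hxy : x ≠ y := by
    rintro rfl
    exact hxy0 hx.self
  -- (a)
  have ha : ∀ v, Φ.IsPt v → ∃ g ∈ D, (x ⊔ y).map (g : V →ₗ[K] V) = x ⊔ y ∧
      v.map (g : V →ₗ[K] V) ≠ v := by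
    intro v hv
    obtain ⟨w, hw, hwL, hwv⟩ : ∃ w, Φ.IsPt w ∧ w ≤ x ⊔ y ∧ w ≠ v := by
      by_cases hxv : x = v
      · exact ⟨y, hy, le_sup_right, fun he => hxy (hxv.trans he.symm)⟩
      · exact ⟨x, hx, le_sup_left, hxv⟩
    obtain ⟨g, hg, hfix, hgv⟩ := nn' ht hv hw hwL (opp3 hn hw hv hwv)
    refine ⟨g, hD.u w hw hg, ?_, fun he => hgv ?_⟩
    · have h3 : (Φ.orth (x ⊔ y)).map (g : V →ₗ[K] V) = Φ.orth (x ⊔ y) := by
        ext u
        constructor
        · rintro ⟨u', hu', rfl⟩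
          have : (g : V →ₗ[K] V) u' = u' := hfix u' hu'
          rw [this]
          exact hu'
        · intro hu
          exact ⟨u, hu, hfix u hu⟩
      have h4 : Φ.orth ((x ⊔ y).map (g : V →ₗ[K] V)) = Φ.orth (x ⊔ y) := by
        rw [orth_map (hD.le (hD.u w hw hg)), h3]
      rw [← orth_orth (Φ := Φ) ((x ⊔ y).map (g : V →ₗ[K] V)), h4, orth_orth]
    · rw [he]
      exact hv.self
  -- H is a proper subgroup
  have hHbot : stE D (x ⊔ y) ≠ ⊥ := by
    intro hb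
    obtain ⟨g, hg, hgL, hgv⟩ := ha x hx
    have h3 : toPG hg ∈ stE D (x ⊔ y) := by
      rw [mem_stE, toPG_apply]
      exact hgL
    rw [hb, Subgroup.mem_bot] at h3
    apply hgv
    rw [← toPG_apply hg, h3]
    rfl
  have hHtop : stE D (x ⊔ y) ≠ ⊤ := by
    intro htop
    obtain ⟨z, hz, hzL⟩ : ∃ z, Φ.IsPt z ∧ ¬ z ≤ x ⊔ y := by
      by_contra hcon
      push Not at hcon
      have h3 : (⊤ : Submodule K V) ≤ x ⊔ y := by
        rw [span_pts hND hx le_top]
        exact sSup_le (fun z hz => hcon z hz.1)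
      have h4 := (hyp_nd hx hy hxy0).2
      rw [top_le_iff.1 h3, hfr] at h4
      omega
    obtain ⟨g, hg, -, hgx⟩ := trans_pt hD hND (Or.inl hfr.ge) hx le_top hz le_top
    have h3 : toPG hg ∈ stE D (x ⊔ y) := by
      rw [htop]
      exact Subgroup.mem_top _
    rw [mem_stE, toPG_apply] at h3
    apply hzL
    rw [← hgx]
    exact (Submodule.map_mono le_sup_left).trans h3.le
  -- the automorphisms
  have hbet : ∀ α : MulAut ↥(PG D), ∃ β : Equiv.Perm Φ.Pt, Φ.Bet D α β := fun α =>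
    beta_one hD hn3 α (hcl α)
  obtain ⟨R, T, -, hHR, hRt, -, -, -, -, hfree⟩ := hX.main _ hHtop hHbot (by
    intro α _
    obtain ⟨β, hβ⟩ := hbet α
    have hne : (⟨x, hx⟩ : Φ.Pt) ≠ ⟨y, hy⟩ := fun he => hxy (congrArg Subtype.val he)
    have h3 := blk_st hD hn h1 hβ hne
    rw [h3]
    exact ua_cl hD hn hx hy (β ⟨x, hx⟩).2 (β ⟨y, hy⟩).2 hxy
      (fun he => hne (β.injective (Subtype.ext he))))
  by_cases hdvd : 2 ∣ R.index
  · obtain ⟨α, hα, hα2, hαf⟩ := hfree 2 Nat.prime_two hdvd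
    obtain ⟨β, hβ⟩ := hbet α
    have hinv : ∀ z, β (β z) = z := by
      intro z
      have h3 := hβ.st (β z)
      rw [← hβ.st z, Subgroup.map_map] at h3
      have h4 : (α.toMonoidHom.comp α.toMonoidHom : ↥(PG D) →* ↥(PG D)) = MonoidHom.id _ := by
        ext s : 1
        have h5 : (α ^ 2) s = s := by rw [hα2]; rfl
        rw [pow_two] at h5
        exact h5
      rw [h4, Subgroup.map_id] at h3
      exact Subtype.ext (stE_inj hD hn3 (β (β z)).2 z.2 h3.ge)
    by_cases hall : ∀ z, β z = z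
    · have hne : (⟨x, hx⟩ : Φ.Pt) ≠ ⟨y, hy⟩ := fun he => hxy (congrArg Subtype.val he)
      have h3 := blk_st hD hn h1 hβ hne
      rw [hall, hall] at h3
      refine hαf 1 ?_
      rw [map_one, one_smul]
      exact h3
    · push Not at hall
      obtain ⟨z, hz⟩ := hall
      have h3 := blk_st hD hn h1 hβ hz
      rw [hinv] at h3
      obtain ⟨a, ha'⟩ := ua_cl hD hn hx hy (β z).2 z.2 hxy
        (fun he => hz (Subtype.ext he))
      refine hαf a ?_
      rw [← ha', h3, sup_comm]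
  · obtain ⟨v, hv, E, hE, hvE, hRE⟩ := bt hD hn3 (p := 2) (R₀ := R) (R := R) le_rfl hdvd hRt
      (Z := {z | Φ.IsPt z}) (fun z hz => hz) (by
        have h3 : Nat.card ↥{z : Submodule K V | Φ.IsPt z} = Φ.pn ⊤ := by
          apply Nat.card_congr
          exact Equiv.subtypeEquivRight (fun z => ⟨fun h => ⟨h, le_top⟩, fun h => h.1⟩)
        rw [h3]
        have h4 := pn_mod (Φ := Φ) (p := 2) (W := ⊤) (by rw [hfr, hc]; norm_num)
        intro h5
        have h6 : Φ.pn ⊤ % 2 = 1 % 2 := h4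
        omega) (by
        intro s _ z hz
        obtain ⟨g, hg, rfl⟩ := exists_toPG s
        rw [toPG_apply]
        exact IsPt.map hz (hD.le hg))
    have hv' : Φ.IsPt v := hv
    have hEv : E = v := by
      apply le_antisymm _ hvE
      intro u hu
      by_cases hu0 : u = 0
      · rw [hu0]
        exact v.zero_mem
      have hpt := hE.isPt hu hu0
      by_contra hcon
      have hne : v ≠ Submodule.span K {u} := by
        rintro he
        apply hcon
        rw [he]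
        exact Submodule.mem_span_singleton_self u
      apply opp3 hn hv' hpt hne
      refine le_trans ?_ (hE.2.trans (Φ.orth_anti hvE))
      rw [Submodule.span_singleton_le_iff_mem]
      exact hu
    obtain ⟨g, hg, hgL, hgv⟩ := ha v hv'
    apply hgv
    have h3 : toPG hg ∈ stE D (x ⊔ y) := by
      rw [mem_stE, toPG_apply]
      exact hgL
    have h4 := hRE (hHR h3)
    rw [hEv, mem_stE, toPG_apply] at h4
    exact h4

end PS

end Pool.Agent.Work.MP_bc729a_al.CG
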