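import Pool.Agent.Work.MP_bc729a_al.CG.Trl

/-! # Module Frd (M): the friendship theorem

PROOF. Let `d x = Nat.card {z // r x z}`. If `P` has one element `c`, take it. (1) If `x ≠ y` and `¬ r x y` then `d x = d y`: for `z` with `r x z` (`z ≠ y`) let `f z` be the common neighbour of `z` and `y`; `f : N(x) → N(y)` is injective: if `f z = f z' = w`, `z ≠ z'`, then `x` and `w` are two common neighbours of `z, z'`, so `x = w`, but `r w y` and `¬ r x y`. By symmetry `d x = d y`.
(2) Suppose `d` is constant, `d x = k`. If `k ≤ 1`: for two different points `x, y` the common neighbour `z` has at least the two neighbours `x`, `y`, so `k ≥ 2`; so `P` has one element. If `k = 2`: fix `c`; any `x ≠ c` with `¬ r c x`: the neighbours of `c` are `a, b`; the common neighbour of `c` and `x` is `a` or `b`, say `a`, and the common neighbour of `a` and `c` is a third neighbour...: `a` has the neighbours `c`, `x`,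
and the common neighbour of `a` and `c`, which is different from `c` and from `x` (`x` is not a neighbour of `c`), so `k ≥ 3`, contradiction; so all `x ≠ c` are neighbours of `c`. If `k ≥ 3` let `p` be a prime divisor of `k - 1`; `Nat.card {z // r x z ∧ r y z}` is `k ≡ 1` for `x = y` and `1` otherwise, so `trace_lemma` with `σ = id` gives `x` with `r x x`, contradiction.
(3) Suppose `d x ≠ d y`. Then `r x y` by (1). Let `c` be the common neighbour of `x, y`; `d c ≠ d x` or `d c ≠ d y`; by symmetry let `d c ≠ d x`. Every `z ≠ x` with `d z = d x` satisfies `r z y` (as `d z ≠ d y`, `z ≠ y`) and `r z c` (`d z ≠ d c`), so `x` and `z` are both common neighbours of `y` and `c` (`y ≠ c`), so `z = x`. So all `z ≠ x` have `d z ≠ d x` and `r x z` by (1): `c := x` is as required. -/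

namespace Pool.Agent.Work.MP_bc729a_al.CG

open Module

universe u v

variable {K : Type u} {V : Type v} [Field K] [AddCommGroup V] [Module K V] [Finite K] [Finite V]

private theorem fr_deg_le {P : Type v} [Finite P] (r : P → P → Prop)
    (hs : ∀ x y, r x y → r y x)
    (h : ∀ x y, x ≠ y → ∃! z, r x z ∧ r y z) {x y : P} (hn : ¬ r x y) :
    Nat.card {z // r x z} ≤ Nat.card {z // r y z} := by
  classical
  have hne : ∀ z : {z // r x z}, (z : P) ≠ y := by
    rintro ⟨z, hz⟩ he
    simp only at he
    rw [he] at hz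
    exact hn hz
  choose f hf using fun z : {z // r x z} => (h (z : P) y (hne z)).exists
  let g : {z // r x z} → {z // r y z} := fun z => ⟨f z, (hf z).2⟩
  apply Nat.card_le_card_of_injective g
  intro z z' hg
  have hw : f z = f z' := congrArg Subtype.val hg
  by_contra hzz
  have hzz' : (z : P) ≠ (z' : P) := fun he => hzz (Subtype.ext he)
  have h1 : x = f z := (h (z : P) (z' : P) hzz').unique ⟨hs _ _ z.2, hs _ _ z'.2⟩
    ⟨(hf z).1, by rw [hw]; exact (hf z').1⟩
  have h2 := (hf z).2
  rw [← h1] at h2
  exact hn (hs _ _ h2)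

private theorem fr_aux {P : Type v} [Finite P] (r : P → P → Prop)
    (hs : ∀ x y, r x y → r y x) (hi : ∀ x, ¬ r x x)
    (h : ∀ x y, x ≠ y → ∃! z, r x z ∧ r y z)
    (h1 : ∀ x y, Nat.card {z // r x z} ≠ Nat.card {z // r y z} → r x y)
    {x y c : P} (hxy : Nat.card {z // r x z} ≠ Nat.card {z // r y z})
    (hxc : r x c) (hyc : r y c)
    (hcx : Nat.card {z // r c z} ≠ Nat.card {z // r x z}) : ∀ z, z ≠ x → r x z := by
  intro z hz
  apply h1
  intro he
  have h2 : r z y := h1 _ _ (by rw [← he]; exact hxy)
  have h3 : r z c := h1 _ _ (by rw [← he]; exact fun h' => hcx h'.symm)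
  have hyc' : y ≠ c := by
    rintro rfl
    exact hi _ hyc
  exact hz ((h y c hyc').unique ⟨hs _ _ h2, hs _ _ h3⟩
    ⟨hs _ _ (h1 _ _ hxy), hs _ _ hxc⟩)

theorem friendship {P : Type v} [Finite P] [Nonempty P] (r : P → P → Prop)
    (hs : ∀ x y, r x y → r y x) (hi : ∀ x, ¬ r x x)
    (h : ∀ x y, x ≠ y → ∃! z, r x z ∧ r y z) : ∃ c, ∀ x, x ≠ c → r c x := by
  classical
  have h1 : ∀ x y, Nat.card {z // r x z} ≠ Nat.card {z // r y z} → r x y := by
    intro x y hd
    by_contra hn
    exact hd (le_antisymm (fr_deg_le r hs h hn)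
      (fr_deg_le r hs h (fun h' => hn (hs _ _ h'))))
  by_cases hcst : ∀ x y, Nat.card {z // r x z} = Nat.card {z // r y z}
  · obtain ⟨c⟩ := ‹Nonempty P›
    by_contra hcon
    push Not at hcon
    obtain ⟨x, hxc, hrx⟩ := hcon c
    obtain ⟨a, ⟨hca, hxa⟩, -⟩ := h c x hxc.symm
    have hac : a ≠ c := by
      rintro rfl
      exact hi _ hca
    obtain ⟨b, ⟨hab, hcb⟩, -⟩ := h a c hac
    have hbc : b ≠ c := by
      rintro rfl
      exact hi _ hcb
    have hbx : b ≠ x := by
      rintro rfl
      exact hrx hcb
    have hk : 3 ≤ Nat.card {z // r a z} := by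
      haveI : Fintype P := Fintype.ofFinite P
      rw [Nat.card_eq_fintype_card, Fintype.card_subtype]
      have hsub : ({c, x, b} : Finset P) ⊆ Finset.univ.filter (fun z => r a z) := by
        intro z hz
        simp only [Finset.mem_insert, Finset.mem_singleton] at hz
        rw [Finset.mem_filter]
        refine ⟨Finset.mem_univ _, ?_⟩
        rcases hz with rfl | rfl | rfl
        · exact hs _ _ hca
        · exact hs _ _ hxa
        · exact hab
      have h3 : ({c, x, b} : Finset P).card = 3 := by
        rw [Finset.card_insert_of_notMem, Finset.card_insert_of_notMem, Finset.card_singleton]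
        · simpa using hbx.symm
        · simp only [Finset.mem_insert, Finset.mem_singleton, not_or]
          exact ⟨hxc.symm, hbc.symm⟩
      calc 3 = ({c, x, b} : Finset P).card := h3.symm
        _ ≤ _ := Finset.card_le_card hsub
    set k := Nat.card {z // r a z} with hkdef
    have hk1 : k - 1 ≠ 1 := by omega
    obtain ⟨p, hp, hpk⟩ := Nat.exists_prime_and_dvd hk1
    haveI : Fact p.Prime := ⟨hp⟩
    haveI : Nonempty P := ⟨c⟩
    have hmod : k ≡ 1 [MOD p] := by
      have : 1 ≡ k [MOD p] := (Nat.modEq_iff_dvd' (by omega)).2 hpk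
      exact this.symm
    obtain ⟨y, hy⟩ := trace_lemma (p := p) r hs (by
      intro u w
      by_cases huw : u = w
      · subst huw
        have : Nat.card {z : P // r u z ∧ r u z} = k := by
          rw [hkdef, hcst a u]
          exact Nat.card_congr (Equiv.subtypeEquivRight (fun z => by simp))
        rw [this]
        exact hmod
      · have : Nat.card {z : P // r u z ∧ r w z} = 1 := by
          obtain ⟨z, hz, huniq⟩ := h u w huw
          rw [Nat.card_eq_one_iff_unique]
          exact ⟨⟨fun s t => Subtype.ext ((huniq _ s.2).trans (huniq _ t.2).symm)⟩, ⟨⟨z, hz⟩⟩⟩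
        rw [this]) id (fun _ => rfl) (fun _ _ h' => h')
    exact hi _ hy
  · push Not at hcst
    obtain ⟨x, y, hxy⟩ := hcst
    have hne : x ≠ y := by
      rintro rfl
      exact hxy rfl
    obtain ⟨c, ⟨hxc, hyc⟩, -⟩ := h x y hne
    by_cases hcx : Nat.card {z // r c z} = Nat.card {z // r x z}
    · exact ⟨y, fr_aux r hs hi h h1 (Ne.symm hxy) hyc hxc (by rw [hcx]; exact hxy)⟩
    · exact ⟨x, fr_aux r hs hi h h1 hxy hxc hyc hcx⟩

end Pool.Agent.Work.MP_bc729a_al.CG
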