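import Pool.Agent.Work.MP_bc729a_al.CR.Zen
import Pool.Agent.Work.MP_bc729a_al.CG.Pts
import Pool.Agent.Work.MP_bc729a_al.CG.Hyp

/-! # Module Rf3 (M): unitary groups of dimension three: homologies

Let `L₁` be a hyperbolic line: nondegenerate of dimension `2` (`hyp_nd`), `P₁ = orth L₁`, of dimension `1`, `V = L₁ ⊕ P₁` (`ND.sup`).
PROOF of `ref3`. `→`: let `g = -1` on `L₁` and `1` on `P₁`: `B (g u) (g v) = B u v`, `S (g v) ↔ S v` (`S v ↔ B v v = 0` by `S_B`, `S_odd`), `det g = (-1) ^ 2 = 1` (e.g. in a basis adapted to `V = L₁ ⊕ P₁`), so `g ∈ D` by `hdet`, and `toPG g` fixes all points of `L₁`. So `L₂.map g = L₂`. As `L₂ ≠ L₁` (both of dimension `2`) there is `v = a + b ∈ L₂`, `a ∈ L₁`, `b ∈ P₁`, `b ≠ 0`; `g v = - a + b ∈ L₂`, so `2 b ∈ L₂`, `P₁ = span {b} ≤ L₂`.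
`←`: `P₁ ≤ L₂`; if `L₂ = L₁` then `P₁ ≤ L₁ ⊓ orth L₁ = ⊥`, contradiction. Let `s = toPG g` fix all points of `L₁`, `g ∈ D ≤ Iso`. `L₁` has at least three points (`x = span {x₀}`, `y = span {y₀}` and a point `span {y₀ + a • x₀}`, `a ≠ 0`: `card_t`, `t ≥ 2`), so `g` is a scalar on `L₁`: every subspace of `L₁` is fixed. `P₁.map g = P₁` (`orth_map`). `L₂ = P₁ ⊔ (L₂ ⊓ L₁)` (`finrank (L₁ ⊓ L₂) ≥ 1`, `P₁ ⊓ L₁ = ⊥`), so `L₂.map g = L₂`.
`blk_inf`: for two different hyperbolic lines `L₁, L₂`: `orth (L₁ ⊓ L₂) = orth L₁ ⊔ orth L₂` has dimension `2`, `L₁ ⊓ L₂` dimension `1`; if it is not a point it is spanned by `v` with `¬ S v`, so `B v v ≠ 0` (`S_odd`), `orth (L₁ ⊓ L₂)` is nondegenerate of dimension `2 ≥ c` and contains a point (`exists_pt`) and an opposite one (`exists_opp`): it is a hyperbolic line. -/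

namespace Pool.Agent.Work.MP_bc729a_al.CG

open Module

universe u v

variable {K : Type u} {V : Type v} [Field K] [AddCommGroup V] [Module K V] [Finite K] [Finite V]

namespace PS

variable {Φ : PS K V}

private theorem rf_two_ne (hodd : Odd (Nat.card K)) : (2 : K) ≠ 0 := by
  intro h
  obtain ⟨k, hk⟩ := hodd
  haveI := Fintype.ofFinite K
  have h1 : ((Nat.card K : ℕ) : K) = 0 := by
    rw [Nat.card_eq_fintype_card]
    exact Nat.cast_card_eq_zero K
  rw [hk] at h1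
  push_cast at h1
  rw [h, zero_mul, zero_add] at h1
  exact one_ne_zero h1

private theorem rf_blk_nd {L : Submodule K V} (h : Φ.Blk L) : Φ.ND L ∧ finrank K L = 2 := by
  obtain ⟨x, y, hx, hy, hxy, rfl⟩ := h
  exact hyp_nd hx hy hxy

private theorem rf_scalar {L : Submodule K V} (h : Φ.Blk L) (ht : 2 ≤ Φ.t) {g : V ≃ₗ[K] V}
    (hg : ∀ z, Φ.IsPt z → z ≤ L → z.map (g : V →ₗ[K] V) = z) : ∃ c : K, ∀ v ∈ L, g v = c • v := by
  obtain ⟨x, y, ⟨x₀, hx0, hxS, rfl⟩, ⟨y₀, hy0, hyS, rfl⟩, hxy, rfl⟩ := h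
  have hyx : Φ.B y₀ x₀ ≠ 0 := fun h => hxy (Φ.span_le_orth.2 h)
  have hxy' : Φ.B x₀ y₀ ≠ 0 := fun h => hyx (Φ.refl _ _ h)
  have hx1 : x₀ ∈ Submodule.span K {x₀} ⊔ Submodule.span K {y₀} :=
    Submodule.mem_sup_left (Submodule.mem_span_singleton_self x₀)
  have hy1 : y₀ ∈ Submodule.span K {x₀} ⊔ Submodule.span K {y₀} :=
    Submodule.mem_sup_right (Submodule.mem_span_singleton_self y₀)
  have key : ∀ v : V, v ≠ 0 → Φ.S v → v ∈ Submodule.span K {x₀} ⊔ Submodule.span K {y₀} →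
      ∃ c : K, g v = c • v := by
    intro v hv0 hvS hvL
    have h1 := hg _ (isPt_span hv0 hvS) (by
      rw [Submodule.span_singleton_le_iff_mem]
      exact hvL)
    have h2 : g v ∈ (Submodule.span K {v}).map (g : V →ₗ[K] V) :=
      ⟨v, Submodule.mem_span_singleton_self v, rfl⟩
    rw [h1] at h2
    obtain ⟨c, hc⟩ := Submodule.mem_span_singleton.1 h2
    exact ⟨c, hc.symm⟩
  obtain ⟨a, ha0, haS⟩ : ∃ a : K, a ≠ 0 ∧ Φ.S (y₀ + a • x₀) := by
    have h1 := Φ.card_t x₀ y₀ hxS hyx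
    have h2 : 1 < Nat.card {a : K // Φ.S (y₀ + a • x₀)} := by omega
    haveI : Nontrivial {a : K // Φ.S (y₀ + a • x₀)} := Finite.one_lt_card_iff_nontrivial.1 h2
    obtain ⟨⟨a, ha⟩, hne⟩ := exists_ne (⟨0, by rw [zero_smul, add_zero]; exact hyS⟩ :
      {a : K // Φ.S (y₀ + a • x₀)})
    exact ⟨a, fun h => hne (Subtype.ext h), ha⟩
  have hne : y₀ + a • x₀ ≠ 0 := by
    intro h
    apply hyx
    have h1 := congrArg (fun v => Φ.B v x₀) h
    simp only [Φ.add_left, Φ.smul_left, Φ.S_B x₀ hxS, mul_zero, add_zero, Φ.B_zero_left] at h1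
    exact h1
  obtain ⟨α, hα⟩ := key x₀ hx0 hxS hx1
  obtain ⟨β, hβ⟩ := key y₀ hy0 hyS hy1
  obtain ⟨γ, hγ⟩ := key (y₀ + a • x₀) hne haS
    (Submodule.add_mem _ hy1 (Submodule.smul_mem _ a hx1))
  rw [map_add, map_smul, hα, hβ] at hγ
  have e1 := congrArg (fun v => Φ.B v x₀) hγ
  have e2 := congrArg (fun v => Φ.B v y₀) hγ
  simp only [Φ.add_left, Φ.smul_left, Φ.S_B x₀ hxS, Φ.S_B y₀ hyS, mul_zero, add_zero,
    zero_add] at e1 e2
  have e3 : β = γ := mul_right_cancel₀ hyx e1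
  have e4 : α = γ := by
    have h1 : α * (a * Φ.B x₀ y₀) = γ * (a * Φ.B x₀ y₀) := by
      rw [← e2]
      ring
    exact mul_right_cancel₀ (mul_ne_zero ha0 hxy') h1
  refine ⟨γ, ?_⟩
  intro v hv
  obtain ⟨p, hp, q, hq, rfl⟩ := Submodule.mem_sup.1 hv
  obtain ⟨r, rfl⟩ := Submodule.mem_span_singleton.1 hp
  obtain ⟨s, rfl⟩ := Submodule.mem_span_singleton.1 hq
  rw [map_add, map_smul, map_smul, hα, hβ, e3, e4, smul_add, smul_comm r, smul_comm s]

omit [Finite K] in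
private theorem rf_det (hn : finrank K V = 3) {f : V ≃ₗ[K] V} {x₀ y₀ w : V}
    (hli : LinearIndependent K ![x₀, y₀, w]) (h1 : f x₀ = -x₀) (h2 : f y₀ = -y₀) (h3 : f w = w) :
    LinearEquiv.det f = 1 := by
  classical
  let b := basisOfLinearIndependentOfCardEqFinrank hli (by rw [hn]; simp)
  have hb : ∀ i, b i = ![x₀, y₀, w] i := fun i => by
    rw [coe_basisOfLinearIndependentOfCardEqFinrank]
  apply Units.ext
  rw [LinearEquiv.coe_det, Units.val_one, ← LinearMap.det_toMatrix b]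
  have hM : LinearMap.toMatrix b b (f : V →ₗ[K] V) =
      Matrix.diagonal (![-1, -1, 1] : Fin 3 → K) := by
    ext i j
    rw [LinearMap.toMatrix_apply]
    have hf : (f : V →ₗ[K] V) (b j) = (![-1, -1, 1] : Fin 3 → K) j • b j := by
      rw [hb]
      fin_cases j
      · simpa using h1
      · simpa using h2
      · simpa using h3
    rw [hf, map_smul, b.repr_self, Finsupp.smul_apply, Matrix.diagonal_apply,
      Finsupp.single_apply]
    by_cases hij : i = j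
    · rw [if_pos hij.symm, if_pos hij, smul_eq_mul, mul_one, hij]
    · rw [if_neg (Ne.symm hij), if_neg hij, smul_zero]
  rw [hM, Matrix.det_diagonal, Fin.prod_univ_three]
  simp

private theorem rf_neg (hn : finrank K V = 3) (hodd : Odd (Nat.card K)) {L : Submodule K V}
    (h : Φ.Blk L) :
    ∃ g : V ≃ₗ[K] V, g ∈ Φ.Iso ∧ LinearEquiv.det g = 1 ∧ (∀ v ∈ L, g v = -v) ∧
      ∀ v ∈ Φ.orth L, g v = v := by
  have hnd := rf_blk_nd h
  obtain ⟨x, y, ⟨x₀, hx0, hxS, rfl⟩, ⟨y₀, hy0, hyS, rfl⟩, hxy, rfl⟩ := h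
  have hyx : Φ.B y₀ x₀ ≠ 0 := fun h => hxy (Φ.span_le_orth.2 h)
  have hxy' : Φ.B x₀ y₀ ≠ 0 := fun h => hyx (Φ.refl _ _ h)
  set L : Submodule K V := Submodule.span K {x₀} ⊔ Submodule.span K {y₀} with hL
  have hx1 : x₀ ∈ L := Submodule.mem_sup_left (Submodule.mem_span_singleton_self x₀)
  have hy1 : y₀ ∈ L := Submodule.mem_sup_right (Submodule.mem_span_singleton_self y₀)
  let N : V →ₗ[K] V :=
    { toFun := fun v => (Φ.B v y₀ / Φ.B x₀ y₀) • x₀ + (Φ.B v x₀ / Φ.B y₀ x₀) • y₀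
      map_add' := by
        intro u v
        simp only [Φ.add_left, add_div, add_smul]
        abel
      map_smul' := by
        intro a v
        simp only [Φ.smul_left, mul_div_assoc, mul_smul, smul_add, RingHom.id_apply] }
  have hN : ∀ v, N v = (Φ.B v y₀ / Φ.B x₀ y₀) • x₀ + (Φ.B v x₀ / Φ.B y₀ x₀) • y₀ := fun _ => rfl
  have hNL : ∀ v ∈ L, N v = v := by
    intro v hv
    obtain ⟨p, hp, q, hq, rfl⟩ := Submodule.mem_sup.1 hv
    obtain ⟨r, rfl⟩ := Submodule.mem_span_singleton.1 hp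
    obtain ⟨s, rfl⟩ := Submodule.mem_span_singleton.1 hq
    rw [hN]
    simp only [Φ.add_left, Φ.smul_left, Φ.S_B x₀ hxS, Φ.S_B y₀ hyS, mul_zero, add_zero, zero_add]
    rw [mul_div_cancel_right₀ _ hxy', mul_div_cancel_right₀ _ hyx]
  have hNO : ∀ v ∈ Φ.orth L, N v = 0 := by
    intro v hv
    rw [hN, hv x₀ hx1, hv y₀ hy1, zero_div, zero_div, zero_smul, zero_smul, add_zero]
  let f : V →ₗ[K] V := LinearMap.id - (2 : K) • N
  have hf : ∀ v, f v = v - (2 : K) • N v := fun _ => rfl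
  have hfL : ∀ v ∈ L, f v = -v := by
    intro v hv
    rw [hf, hNL v hv, two_smul]
    abel
  have hfO : ∀ v ∈ Φ.orth L, f v = v := by
    intro v hv
    rw [hf, hNO v hv, smul_zero, sub_zero]
  have hdec : ∀ v : V, ∃ a ∈ L, ∃ b ∈ Φ.orth L, a + b = v := by
    intro v
    apply Submodule.mem_sup.1
    rw [hnd.1.sup]
    exact Submodule.mem_top
  have hff : Function.Involutive f := by
    intro v
    obtain ⟨a, ha, b, hb, rfl⟩ := hdec v
    rw [map_add, hfL a ha, hfO b hb, map_add, map_neg, hfL a ha, hfO b hb, neg_neg]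
  have hB : ∀ u v, Φ.B (f u) (f v) = Φ.B u v := by
    intro u v
    obtain ⟨a, ha, b, hb, rfl⟩ := hdec u
    obtain ⟨a', ha', b', hb', rfl⟩ := hdec v
    rw [map_add, map_add, hfL a ha, hfO b hb, hfL a' ha', hfO b' hb']
    have e1 : Φ.B b a' = 0 := hb a' ha'
    have e2 : Φ.B a b' = 0 := Φ.refl _ _ (hb' a ha)
    simp only [Φ.add_left, Φ.add_right, Φ.B_neg_left, Φ.B_neg_right, e1, e2]
    ring
  have hS : ∀ v, Φ.S v ↔ Φ.B v v = 0 := fun v => ⟨Φ.S_B v, Φ.S_odd hodd v⟩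
  refine ⟨LinearEquiv.ofInvolutive f hff, ⟨hB, fun v => ?_⟩, ?_, hfL, hfO⟩
  · show Φ.S (f v) ↔ Φ.S v
    rw [hS, hS, hB]
  · have h1 : finrank K ↥(Φ.orth L) = 1 := by
      have h3 := finrank_orth (Φ := Φ) L
      rw [hnd.2, hn] at h3
      omega
    obtain ⟨⟨w, hw⟩, hw0⟩ : ∃ w : Φ.orth L, w ≠ 0 := by
      haveI : Nontrivial (Φ.orth L) := Module.nontrivial_of_finrank_pos (R := K) (by omega)
      exact exists_ne 0
    have hw1 : w ≠ 0 := fun h3 => hw0 (Subtype.ext h3)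
    have hli : LinearIndependent K ![x₀, y₀, w] := by
      rw [Fintype.linearIndependent_iff]
      intro c hc
      rw [Fin.sum_univ_three] at hc
      simp only [Matrix.cons_val_zero, Matrix.cons_val_one, Matrix.cons_val] at hc
      have e1 := congrArg (fun v => Φ.B v x₀) hc
      have e2 := congrArg (fun v => Φ.B v y₀) hc
      simp only [Φ.add_left, Φ.smul_left, Φ.S_B x₀ hxS, Φ.S_B y₀ hyS, mul_zero, add_zero,
        zero_add, Φ.B_zero_left, hw x₀ hx1, hw y₀ hy1] at e1 e2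
      have c1 : c 1 = 0 := (mul_eq_zero.1 e1).resolve_right hyx
      have c0 : c 0 = 0 := (mul_eq_zero.1 e2).resolve_right hxy'
      rw [c0, c1, zero_smul, zero_smul, zero_add, zero_add] at hc
      have c2 : c 2 = 0 := (smul_eq_zero.1 hc).resolve_right hw1
      intro i
      fin_cases i
      · exact c0
      · exact c1
      · exact c2
    exact rf_det hn hli (hfL x₀ hx1) (hfL y₀ hy1) (hfO w hw)

theorem ref3 {D : Subgroup (V ≃ₗ[K] V)} (hD : Φ.Grp D)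
    (hdet : ∀ g ∈ Φ.Iso, LinearEquiv.det g = 1 → g ∈ D) (hn : finrank K V = 3)
    (hc : Φ.c = 2) (hodd : Odd (Nat.card K)) {L₁ L₂ : Submodule K V} (h₁ : Φ.Blk L₁)
    (h₂ : Φ.Blk L₂) :
    (L₂ ≠ L₁ ∧ ∀ s : ↥(PG D), (∀ z, Φ.IsPt z → z ≤ L₁ → s.1 z = z) → s.1 L₂ = L₂) ↔
      Φ.orth L₁ ≤ L₂ := by
  have hnd := rf_blk_nd h₁
  have hnd2 := rf_blk_nd h₂
  have h2 : (2 : K) ≠ 0 := rf_two_ne hodd
  have hfo : finrank K ↥(Φ.orth L₁) = 1 := by
    have h3 := finrank_orth (Φ := Φ) L₁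
    rw [hnd.2, hn] at h3
    omega
  constructor
  · rintro ⟨hne, hfix⟩
    obtain ⟨g, hg, hgd, hgL, hgO⟩ := rf_neg hn hodd h₁
    have hs := hfix (toPG (hdet g hg hgd)) (by
      intro z _ hzL
      rw [toPG_apply]
      apply le_antisymm
      · rintro _ ⟨v, hv, rfl⟩
        have e : (g : V →ₗ[K] V) v = -v := hgL v (hzL hv)
        rw [e]
        exact z.neg_mem hv
      · intro v hv
        refine ⟨-v, z.neg_mem hv, ?_⟩
        have e : (g : V →ₗ[K] V) (-v) = - -v := hgL (-v) (hzL (z.neg_mem hv))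
        rw [e, neg_neg])
    rw [toPG_apply] at hs
    have hnle : ¬ L₂ ≤ L₁ := by
      intro h3
      exact hne (Submodule.eq_of_le_of_finrank_eq h3 (by rw [hnd.2, hnd2.2]))
    obtain ⟨v, hv, hv1⟩ := SetLike.not_le_iff_exists.1 hnle
    obtain ⟨a, ha, b, hb, rfl⟩ : ∃ a ∈ L₁, ∃ b ∈ Φ.orth L₁, a + b = v := by
      apply Submodule.mem_sup.1
      rw [hnd.1.sup]
      exact Submodule.mem_top
    have hb0 : b ≠ 0 := by
      rintro rfl
      rw [add_zero] at hv1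
      exact hv1 ha
    have hgv : -a + b ∈ L₂ := by
      have h3 : g (a + b) ∈ L₂.map (g : V →ₗ[K] V) := ⟨a + b, hv, rfl⟩
      rw [hs, map_add, hgL a ha, hgO b hb] at h3
      exact h3
    have hbL : b ∈ L₂ := by
      have h3 := L₂.add_mem hv hgv
      have h4 : (a + b) + (-a + b) = (2 : K) • b := by
        rw [two_smul]
        abel
      rw [h4] at h3
      have h5 := L₂.smul_mem (2 : K)⁻¹ h3
      rwa [smul_smul, inv_mul_cancel₀ h2, one_smul] at h5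
    intro w hw
    have hne' : (⟨b, hb⟩ : Φ.orth L₁) ≠ 0 := fun h3 => hb0 (congrArg Subtype.val h3)
    obtain ⟨d, hd⟩ := (finrank_eq_one_iff_of_nonzero' _ hne').1 hfo ⟨w, hw⟩
    have hd' : d • b = w := congrArg Subtype.val hd
    rw [← hd']
    exact L₂.smul_mem d hbL
  · intro hP
    refine ⟨?_, ?_⟩
    · intro h
      rw [h] at hP
      have h3 : Φ.orth L₁ ≤ L₁ ⊓ Φ.orth L₁ := le_inf hP le_rfl
      have h5 : L₁ ⊓ Φ.orth L₁ = ⊥ := hnd.1
      rw [h5] at h3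
      have h4 := Submodule.finrank_mono h3
      rw [finrank_bot, hfo] at h4
      omega
    · intro s hs
      obtain ⟨g, hg, rfl⟩ := exists_toPG s
      have ht : 2 ≤ Φ.t := by
        have h3 : 1 < Nat.card K := Finite.one_lt_card
        rcases Φ.typ with ⟨h4, -⟩ | ⟨-, h4⟩ | ⟨h4, -⟩
        · omega
        · by_contra h5
          have h6 : Φ.t = 0 ∨ Φ.t = 1 := by omega
          rcases h6 with h6 | h6
          · rw [h6] at h4
            omega
          · rw [h6] at h4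
            omega
        · omega
      obtain ⟨c, hc⟩ := rf_scalar h₁ ht (g := g) (fun z hz hzL => hs z hz hzL)
      have hc0 : c ≠ 0 := by
        rintro rfl
        obtain ⟨x, y, hx, hy, hxy, rfl⟩ := h₁
        obtain ⟨x₀, hx₀, hx1⟩ := hx.exists
        have h3 := hc x₀ (Submodule.mem_sup_left hx₀)
        rw [zero_smul] at h3
        exact hx1 ((LinearEquiv.map_eq_zero_iff g).1 h3)
      have hsub : ∀ W : Submodule K V, W ≤ L₁ → W.map (g : V →ₗ[K] V) = W := by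
        intro W hW
        apply le_antisymm
        · rintro _ ⟨v, hv, rfl⟩
          have e : (g : V →ₗ[K] V) v = c • v := hc v (hW hv)
          rw [e]
          exact W.smul_mem c hv
        · intro v hv
          refine ⟨c⁻¹ • v, W.smul_mem _ hv, ?_⟩
          have e : (g : V →ₗ[K] V) (c⁻¹ • v) = c • c⁻¹ • v := hc _ (hW (W.smul_mem _ hv))
          rw [e, smul_smul, mul_inv_cancel₀ hc0, one_smul]
      have hPg : (Φ.orth L₁).map (g : V →ₗ[K] V) = Φ.orth L₁ := by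
        rw [← orth_map (hD.le hg), hsub L₁ le_rfl]
      have hL : L₂ = Φ.orth L₁ ⊔ L₁ ⊓ L₂ := by
        rw [← sup_inf_assoc_of_le _ hP, sup_comm, hnd.1.sup, top_inf_eq]
      rw [toPG_apply]
      have e : (Φ.orth L₁ ⊔ L₁ ⊓ L₂).map (g : V →ₗ[K] V) = Φ.orth L₁ ⊔ L₁ ⊓ L₂ := by
        rw [Submodule.map_sup, hPg, hsub _ inf_le_left]
      rw [← hL] at e
      exact e

theorem blk_inf (hn : finrank K V = 3) (hc : Φ.c = 2) (hodd : Odd (Nat.card K))
    {L₁ L₂ : Submodule K V} (h₁ : Φ.Blk L₁) (h₂ : Φ.Blk L₂) (h : L₁ ≠ L₂) :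
    finrank K ↥(L₁ ⊓ L₂) = 1 ∧ finrank K ↥(Φ.orth L₁ ⊔ Φ.orth L₂) = 2 ∧
      (Φ.IsPt (L₁ ⊓ L₂) ∨ Φ.Blk (Φ.orth L₁ ⊔ Φ.orth L₂)) := by
  have hnd1 := rf_blk_nd h₁
  have hnd2 := rf_blk_nd h₂
  have hs := Submodule.finrank_sup_add_finrank_inf_eq L₁ L₂
  rw [hnd1.2, hnd2.2] at hs
  have hs3 : finrank K ↥(L₁ ⊔ L₂) ≤ 3 := by
    rw [← hn]
    exact Submodule.finrank_le _
  have hs2 : 2 < finrank K ↥(L₁ ⊔ L₂) := by
    have h1 : L₁ < L₁ ⊔ L₂ := by
      refine lt_of_le_of_ne le_sup_left ?_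
      intro h3
      have h4 : L₂ ≤ L₁ := by
        rw [h3]
        exact le_sup_right
      exact h (Submodule.eq_of_le_of_finrank_eq h4 (by rw [hnd1.2, hnd2.2])).symm
    have h5 := Submodule.finrank_lt_finrank_of_lt h1
    rw [hnd1.2] at h5
    exact h5
  have h1 : finrank K ↥(L₁ ⊓ L₂) = 1 := by omega
  have h2 : finrank K ↥(Φ.orth L₁ ⊔ Φ.orth L₂) = 2 := by
    rw [← orth_inf]
    have h3 := finrank_orth (Φ := Φ) (L₁ ⊓ L₂)
    rw [h1, hn] at h3
    omega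
  refine ⟨h1, h2, ?_⟩
  obtain ⟨⟨v, hv⟩, hv0⟩ : ∃ v : ↥(L₁ ⊓ L₂), v ≠ 0 := by
    haveI : Nontrivial ↥(L₁ ⊓ L₂) := Module.nontrivial_of_finrank_pos (R := K) (by omega)
    exact exists_ne 0
  have hv1 : v ≠ 0 := fun h3 => hv0 (Subtype.ext h3)
  have hsp : L₁ ⊓ L₂ = Submodule.span K {v} := by
    symm
    apply Submodule.eq_of_le_of_finrank_eq
    · rw [Submodule.span_singleton_le_iff_mem]
      exact hv
    · rw [finrank_span_singleton hv1, h1]
  by_cases hS : Φ.S v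
  · left
    rw [hsp]
    exact isPt_span hv1 hS
  · right
    have hvv : Φ.B v v ≠ 0 := fun h3 => hS (Φ.S_odd hodd v h3)
    rw [← orth_inf] at h2 ⊢
    have hND : Φ.ND (Φ.orth (L₁ ⊓ L₂)) := by
      apply ND.orth
      show (L₁ ⊓ L₂) ⊓ Φ.orth (L₁ ⊓ L₂) = ⊥
      rw [hsp, eq_bot_iff]
      rintro w ⟨hw1, hw2⟩
      obtain ⟨a, rfl⟩ := Submodule.mem_span_singleton.1 hw1
      have h3 := Φ.mem_orth_span.1 hw2
      rw [Φ.smul_left] at h3
      rw [(mul_eq_zero.1 h3).resolve_right hvv, zero_smul]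
      exact Submodule.zero_mem _
    obtain ⟨x, hx, hxM⟩ := exists_pt (Φ := Φ) (W := Φ.orth (L₁ ⊓ L₂)) (by rw [h2, hc])
    obtain ⟨y, hy, hyM, hxy⟩ := exists_opp hND hx hxM
    refine ⟨x, y, hx, hy, hxy, ?_⟩
    symm
    apply Submodule.eq_of_le_of_finrank_eq (sup_le hxM hyM)
    rw [(hyp_nd hx hy hxy).2, h2]

end PS

end Pool.Agent.Work.MP_bc729a_al.CG
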