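import Pool.Agent.Work.MP_bc729a_al.CR.Bo
import Pool.Agent.Work.MP_bc729a_al.CR.Blk
import Pool.Agent.Work.MP_bc729a_al.CR.Frd
import Pool.Agent.Work.MP_bc729a_al.CR.Rf3
import Pool.Agent.Work.MP_bc729a_al.CR.Ct3
import Pool.Agent.Work.MP_bc729a_al.CG.Bt
import Pool.Agent.Work.MP_bc729a_al.CG.Pts
import Pool.Agent.Work.MP_bc729a_al.CG.StbA
import Pool.Agent.Work.MP_bc729a_al.CG.TrnA
import Pool.Agent.Work.MP_bc729a_al.CG.Idxp
import Pool.Agent.Work.MP_bc729a_al.CG.Rec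

/-! # Module MnUb (M): unitary groups of dimension three, odd fields

Two different points are opposite (`opp3`); `D` is two-transitive on the points (`trans_pt`, `u_trans`). Write `H = stE D x` for a point `x`.
PROOF. (1) `H.index = pn ⊤` (`index_pt`) `= 1 + t * |K|` (`pn_rec` with `W = ⊤`: `orth (x ⊔ y)` has dimension `1` and no point, as a singular vector of it is in its radical), even (`t`, `|K|` odd). `H ≠ ⊤`; `H ≠ ⊥` (`exists_move`: a nontrivial element of `UP D x ≤ H`). If `R ≥ H`, `R ≠ ⊤` then `R = H`: if `s ∈ R`, `s.1 x = y ≠ x`, then `R` is transitive on the points (`H` is transitive on the points `≠ x`: `u_trans`), so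
`R = ⊤` (`H ≤ R`). The class of `H` is invariant (`hcl`, transitivity, `stE_conj`). So `hX.main` gives `α ∈ X`, `α ^ 2 = 1`, fixing no `stE D v`, `v` a point. Its `β` (`beta_one`) satisfies `β (β v) = v` (`stE_inj`), `β v ≠ v` for all `v`.
(2) Let `P` be the set of the hyperbolic lines `L` (`Blk L`) with `v ≤ L → β v ≤ L` for all points `v`. For every point `v`, `v ⊔ β v ∈ P` (`blk3`, `opp3`); `P` is not empty. Every point `v ≤ L ∈ P` has `L = v ⊔ β v`. For a hyperbolic line `L = v ⊔ w` let `β L = β v ⊔ β w` (well defined and a hyperbolic line: its points are the `β z`, `z ≤ L`, `blk3`). `r L M := orth L ≤ M`. By `ref3` and `hβ.eq` `r L M ↔ r (β L) (β M)` (for `s` and `α s`: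
`s.1 z = z ↔ (α s).1 (β z) = β z`; `s.1 M = M ↔ (α s).1 (β M) = β M` by `blk_st`). `r` is symmetric (`orth L ≤ M ↔ orth M ≤ L`), irreflexive (`L` is nondegenerate, `orth L ≠ ⊥`). Let `L ≠ M` be in `P`. If `L ⊓ M` is a point `v` then `β v ≤ L ⊓ M`, `β v = v`, contradiction. So `N = orth L ⊔ orth M` is a hyperbolic line (`blk_inf`), `r L N`, `r M N`; it is the only hyperbolic line with this property (dimension `2`); `β N` has it as well (`β L = L`, `β M = M`), so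
`β N = N`, `N ∈ P`. So `friendship` applies: there is `L ∈ P` with `r L M` for all `M ∈ P`, `M ≠ L`. For a point `y`, `¬ y ≤ L`: `M = y ⊔ β y ∈ P`, `M ≠ L`, so `orth L ≤ y ⊔ β y`. `ctr3` gives the contradiction. -/

namespace Pool.Agent.Work.MP_bc729a_al.CG

open Module

universe u v

variable {K : Type u} {V : Type v} [Field K] [AddCommGroup V] [Module K V] [Finite K] [Finite V]

namespace PS

variable {Φ : PS K V}

private theorem ub_nd_top : Φ.ND (⊤ : Submodule K V) := by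
  show ⊤ ⊓ Φ.orth ⊤ = ⊥
  rw [orth_top, inf_bot_eq]

open scoped Pointwise in
private theorem ub_conj (D : Subgroup (V ≃ₗ[K] V)) (s : ↥(PG D)) (E : Submodule K V) :
    MulAut.conj s • stE D E = stE D (s.1 E) := by
  rw [← stE_conj]
  rfl

open scoped Pointwise in
/-- the stabilisers of two points are conjugate -/
private theorem ub_cl {D : Subgroup (V ≃ₗ[K] V)} (hD : Φ.Grp D) (hn : finrank K V = 3)
    {x y : Submodule K V} (hx : Φ.IsPt x) (hy : Φ.IsPt y) :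
    ∃ a : ↥(PG D), stE D y = MulAut.conj a • stE D x := by
  have hd : 3 ≤ finrank K ↥(⊤ : Submodule K V) := by
    rw [finrank_top, hn]
  obtain ⟨g, hg, -, h1⟩ := trans_pt hD ub_nd_top (Or.inl hd) hx le_top hy le_top
  refine ⟨toPG hg, ?_⟩
  rw [ub_conj, toPG_apply, h1]

private theorem ub_fr {L : Submodule K V} (hL : Φ.Blk L) : finrank K ↥L = 2 := by
  obtain ⟨x, y, hx, hy, h, rfl⟩ := hL
  exact (hyp_nd hx hy h).2

private theorem ub_nd {L : Submodule K V} (hL : Φ.Blk L) : Φ.ND L := by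
  obtain ⟨x, y, hx, hy, h, rfl⟩ := hL
  exact (hyp_nd hx hy h).1

private theorem ub_blk (hn : finrank K V = 3) {x y : Φ.Pt} (h : x ≠ y) :
    Φ.Blk (x.1 ⊔ y.1) :=
  ⟨x.1, y.1, x.2, y.2, opp3 hn x.2 y.2 (fun he => h (Subtype.ext he)), rfl⟩

private theorem ub_pts {L : Submodule K V} (hL : Φ.Blk L) :
    ∃ x y : Φ.Pt, x ≠ y ∧ L = x.1 ⊔ y.1 := by
  obtain ⟨x, y, hx, hy, h, rfl⟩ := hL
  refine ⟨⟨x, hx⟩, ⟨y, hy⟩, fun he => ?_, rfl⟩
  have he' : x = y := congrArg Subtype.val he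
  apply h
  rw [← he']
  exact hx.self

private theorem ub_eq {L M : Submodule K V} (hL : finrank K ↥L = 2) (hM : finrank K ↥M = 2)
    (h : L ≤ M) : L = M :=
  Submodule.eq_of_le_of_finrank_eq h (by rw [hL, hM])

/-- `β` preserves the relation `orth L₁ ≤ L₂` of hyperbolic lines -/
private theorem ub_key {D : Subgroup (V ≃ₗ[K] V)} (hD : Φ.Grp D) {p : ℕ} [Fact p.Prime]
    [CharP K p]
    (hdet : ∀ g ∈ Φ.Iso, LinearEquiv.det g = 1 → g ∈ D) (hn : finrank K V = 3)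
    (hc : Φ.c = 2) (h1 : ∃ a, Φ.τ a ≠ a) (hodd : Odd (Nat.card K))
    {α : MulAut ↥(PG D)} {β : Equiv.Perm Φ.Pt} (hβ : Φ.Bet D α β)
    (hα : ∀ s, α (α s) = s) (hβ2 : ∀ z, β (β z) = z) {x y v w : Φ.Pt} (hxy : x ≠ y)
    (hvw : v ≠ w) (h : Φ.orth (x.1 ⊔ y.1) ≤ v.1 ⊔ w.1) :
    Φ.orth ((β x).1 ⊔ (β y).1) ≤ (β v).1 ⊔ (β w).1 := by
  have hxy' : β x ≠ β y := fun he => hxy (β.injective he)
  have hvw' : β v ≠ β w := fun he => hvw (β.injective he)
  obtain ⟨hne, hfix⟩ := (ref3 hD hdet hn hc hodd (ub_blk hn hxy) (ub_blk hn hvw)).2 h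
  refine (ref3 hD hdet hn hc hodd (ub_blk hn hxy') (ub_blk hn hvw')).1 ⟨fun he => hne ?_, ?_⟩
  · apply ub_eq (ub_fr (ub_blk hn hvw)) (ub_fr (ub_blk hn hxy))
    apply sup_le
    · apply (blk3 hD hn h1 hβ hxy v).1
      rw [← he]
      exact le_sup_left
    · apply (blk3 hD hn h1 hβ hxy w).1
      rw [← he]
      exact le_sup_right
  · intro s hsz
    have h3 : (α s).1 (v.1 ⊔ w.1) = v.1 ⊔ w.1 := by
      apply hfix
      intro z hz hzL
      have h4 : s.1 (β ⟨z, hz⟩).1 = (β ⟨z, hz⟩).1 :=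
        hsz _ (β ⟨z, hz⟩).2 ((blk3 hD hn h1 hβ hxy ⟨z, hz⟩).2 hzL)
      have h5 := hβ.eq s _ _ h4
      rw [hβ2] at h5
      exact h5
    have h4 : s ∈ (stE D (v.1 ⊔ w.1)).map α.toMonoidHom := ⟨α s, h3, hα s⟩
    rw [blk_st hD hn h1 hβ hvw] at h4
    exact h4

theorem main_u3_odd {D : Subgroup (V ≃ₗ[K] V)} (hD : Φ.Grp D) [IsSimpleGroup ↥(PG D)]
    (hdet : ∀ g ∈ Φ.Iso, LinearEquiv.det g = 1 → g ∈ D) (hn : finrank K V = 3)
    (hc : Φ.c = 2) (hs : ∀ u v, Φ.τ (Φ.B u v) = Φ.B v u) (h1 : ∃ a, Φ.τ a ≠ a)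
    (hodd : Odd (Nat.card K))
    (hcl : ∀ α : MulAut ↥(PG D), ∀ x, Φ.IsPt x → ∃ y, Φ.IsPt y ∧
      (stE D x).map α.toMonoidHom = stE D y)
    {X : Subgroup (MulAut ↥(PG D))} (hX : LA.Red ↥(PG D) X) : False := by
  classical
  obtain ⟨p, hpc⟩ := CharP.exists K
  haveI : Fact p.Prime := ⟨CharP.char_is_prime K p⟩
  haveI : Fintype K := Fintype.ofFinite K
  have hcardK : 2 ≤ Nat.card K := by
    rw [Nat.card_eq_fintype_card]
    exact Fintype.one_lt_card
  have htt : Φ.t * Φ.t = Nat.card K := by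
    rcases Φ.typ with ⟨h, -⟩ | ⟨-, h⟩ | ⟨h, -⟩
    · omega
    · exact h
    · omega
  have htodd : Odd Φ.t := by
    rw [← htt] at hodd
    exact (Nat.odd_mul.1 hodd).1
  have hn3 : 3 ≤ finrank K V := hn.ge
  have hND : Φ.ND (⊤ : Submodule K V) := ub_nd_top
  have hfr : finrank K ↥(⊤ : Submodule K V) = 3 := by rw [finrank_top, hn]
  obtain ⟨x, hx, -⟩ := exists_pt (Φ := Φ) (W := ⊤) (by rw [hfr, hc]; norm_num)
  obtain ⟨y, hy, -, hxy0⟩ := exists_opp hND hx le_top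
  have hxy : x ≠ y := by
    rintro rfl
    exact hxy0 hx.self
  -- the index
  have hind : (stE D x).index = 1 + Φ.t * Nat.card K := by
    rw [index_pt hD hn3 hx, pn_rec hND hx le_top hy le_top hxy0, hfr, top_inf_eq]
    have h3 : Φ.pn (Φ.orth (x ⊔ y)) = 0 := by
      have hem : IsEmpty {z : Submodule K V // Φ.IsPt z ∧ z ≤ Φ.orth (x ⊔ y)} := by
        refine ⟨fun z => ?_⟩
        obtain ⟨z, hz, hzo⟩ := z
        rw [orth_sup] at hzo
        by_cases hzx : x = z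
        · subst hzx
          exact hxy0 (Φ.le_orth_comm.1 (hzo.trans inf_le_right))
        · exact opp3 hn hx hz hzx (hzo.trans inf_le_left)
      exact Nat.card_of_isEmpty
    rw [h3]
    norm_num
  have hpos : 0 < Φ.t := htodd.pos
  have hHtop : stE D x ≠ ⊤ := by
    intro h
    rw [h, Subgroup.index_top] at hind
    have : 0 < Φ.t * Nat.card K := Nat.mul_pos hpos (by omega)
    omega
  have hHbot : stE D x ≠ ⊥ := by
    intro hb
    obtain ⟨g, hg, hgy⟩ := exists_move hn3 hx hy hxy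
    have h3 : toPG (hD.u x hx hg) ∈ stE D x := by
      rw [mem_stE, toPG_apply]
      exact hg.map_eq
    rw [hb, Subgroup.mem_bot] at h3
    apply hgy
    rw [← toPG_apply (hD.u x hx hg), h3]
    rfl
  obtain ⟨R, T, -, hHR, hRt, -, -, -, -, hfree⟩ := hX.main _ hHtop hHbot (by
    intro α _
    obtain ⟨y', hy', h3⟩ := hcl α x hx
    rw [h3]
    exact ub_cl hD hn hx hy')
  -- `R = H`
  have hRH : R = stE D x := by
    apply le_antisymm _ hHR
    intro s hs'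
    by_contra hcon
    apply hRt
    rw [mem_stE] at hcon
    rw [eq_top_iff]
    intro r _
    have hpt : ∀ r' : ↥(PG D), Φ.IsPt (r'.1 x) := by
      intro r'
      obtain ⟨g, hg, rfl⟩ := exists_toPG r'
      rw [toPG_apply]
      exact hx.map (hD.le hg)
    obtain ⟨s', hs'', h3⟩ : ∃ s' ∈ R, s'.1 x = r.1 x := by
      by_cases hr : r.1 x = x
      · exact ⟨1, R.one_mem, hr.symm⟩
      · obtain ⟨g, hg, -, hgy⟩ := u_trans (W := ⊤) hx le_top (hpt s) le_top (hpt r) le_top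
          (opp3 hn hx (hpt s) (Ne.symm hcon)) (opp3 hn hx (hpt r) (Ne.symm hr))
        have hgH : toPG (hD.u x hx hg) ∈ stE D x := by
          rw [mem_stE, toPG_apply]
          exact hg.map_eq
        refine ⟨toPG (hD.u x hx hg) * s, R.mul_mem (hHR hgH) hs', ?_⟩
        change (toPG (hD.u x hx hg)).1 (s.1 x) = r.1 x
        rw [toPG_apply, hgy]
    have h4 : s'⁻¹ * r ∈ stE D x := by
      rw [mem_stE]
      change s'.1.symm (r.1 x) = x
      rw [← h3]
      exact s'.1.symm_apply_apply x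
    have h5 := R.mul_mem hs'' (hHR h4)
    rwa [mul_inv_cancel_left] at h5
  have hdvd : 2 ∣ R.index := by
    rw [hRH, hind, ← even_iff_two_dvd]
    exact (odd_one).add_odd (htodd.mul hodd)
  obtain ⟨α, hα, hα2, hαf⟩ := hfree 2 Nat.prime_two hdvd
  obtain ⟨β, hβ⟩ := beta_one hD hn3 α (hcl α)
  have hαα : ∀ s, α (α s) = s := by
    intro s
    have h5 : (α ^ 2) s = s := by rw [hα2]; rfl
    rw [pow_two] at h5
    exact h5
  have hβ2 : ∀ z, β (β z) = z := by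
    intro z
    have h3 := hβ.st (β z)
    rw [← hβ.st z, Subgroup.map_map] at h3
    have h4 : (α.toMonoidHom.comp α.toMonoidHom : ↥(PG D) →* ↥(PG D)) = MonoidHom.id _ := by
      ext s : 1
      exact hαα s
    rw [h4, Subgroup.map_id] at h3
    exact Subtype.ext (stE_inj hD hn3 (β (β z)).2 z.2 h3.ge)
  have hfr' : ∀ z, β z ≠ z := by
    intro z hz
    obtain ⟨a, ha⟩ := ub_cl hD hn hx z.2
    refine hαf a ?_
    rw [← ha, hβ.st z, hz]
  -- the set of `β`-invariant hyperbolic lines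
  have hPv : ∀ v : Φ.Pt, Φ.Blk (v.1 ⊔ (β v).1) ∧
      ∀ z : Φ.Pt, z.1 ≤ v.1 ⊔ (β v).1 → (β z).1 ≤ v.1 ⊔ (β v).1 := by
    intro v
    refine ⟨ub_blk hn (hfr' v).symm, fun z hz => ?_⟩
    have h3 := (blk3 hD hn h1 hβ (hfr' v).symm z).2 hz
    rw [hβ2, sup_comm] at h3
    exact h3
  have hPeq : ∀ (L : Submodule K V), Φ.Blk L → (∀ z : Φ.Pt, z.1 ≤ L → (β z).1 ≤ L) →
      ∀ v : Φ.Pt, v.1 ≤ L → L = v.1 ⊔ (β v).1 := by
    intro L hL hLβ v hv
    exact (ub_eq (ub_fr (hPv v).1) (ub_fr hL) (sup_le hv (hLβ v hv))).symm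
  let P : Type v := {L : Submodule K V // Φ.Blk L ∧ ∀ z : Φ.Pt, z.1 ≤ L → (β z).1 ≤ L}
  haveI : Nonempty P := ⟨⟨_, hPv ⟨x, hx⟩⟩⟩
  haveI : Finite (Submodule K V) := inferInstance
  haveI : Finite P := Subtype.finite
  have hinvl : ∀ L : P, ∃ v : Φ.Pt, L.1 = v.1 ⊔ (β v).1 := by
    intro L
    obtain ⟨v, w, -, hL⟩ := ub_pts L.2.1
    exact ⟨v, hPeq L.1 L.2.1 L.2.2 v (by rw [hL]; exact le_sup_left)⟩
  obtain ⟨c, hcc⟩ := friendship (P := P) (fun L M => Φ.orth L.1 ≤ M.1) (by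
      intro L M h3
      rw [← orth_orth (Φ := Φ) M.1] at h3
      have h4 := Φ.le_orth_comm.1 h3
      rwa [orth_orth] at h4) (by
      intro L h3
      have h4 : Φ.orth L.1 = ⊥ := by
        have h5 : L.1 ⊓ Φ.orth L.1 = ⊥ := ub_nd L.2.1
        rwa [inf_eq_right.2 h3] at h5
      have h5 := finrank_orth (Φ := Φ) L.1
      rw [h4, finrank_bot, ub_fr L.2.1] at h5
      omega) (by
      intro L M hLM
      have hLM' : L.1 ≠ M.1 := fun he => hLM (Subtype.ext he)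
      obtain ⟨-, hN2, hN⟩ := blk_inf hn hc hodd L.2.1 M.2.1 hLM'
      have hNB : Φ.Blk (Φ.orth L.1 ⊔ Φ.orth M.1) := by
        rcases hN with hpt | h3
        · exfalso
          have h4 : (β ⟨L.1 ⊓ M.1, hpt⟩).1 ≤ L.1 ⊓ M.1 :=
            le_inf (L.2.2 _ inf_le_left) (M.2.2 _ inf_le_right)
          have h5 := (β ⟨L.1 ⊓ M.1, hpt⟩).2.eq_of_le hpt h4
          exact hfr' _ (Subtype.ext h5)
        · exact h3
      obtain ⟨p₁, q₁, hpq, hNpq⟩ := ub_pts hNB
      have hpq' : β p₁ ≠ β q₁ := fun he => hpq (β.injective he)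
      have hto : ∀ A : P, Φ.orth A.1 ≤ Φ.orth L.1 ⊔ Φ.orth M.1 →
          Φ.orth A.1 ≤ (β p₁).1 ⊔ (β q₁).1 := by
        intro A hA
        obtain ⟨v, hv⟩ := hinvl A
        rw [hNpq, hv] at hA
        have h3 := ub_key hD hdet hn hc h1 hodd hβ hαα hβ2 (hfr' v).symm hpq hA
        rw [hβ2, sup_comm, ← hv] at h3
        exact h3
      have hNe : Φ.orth L.1 ⊔ Φ.orth M.1 = (β p₁).1 ⊔ (β q₁).1 :=
        ub_eq (ub_fr hNB) (ub_fr (ub_blk hn hpq'))
          (sup_le (hto L le_sup_left) (hto M le_sup_right))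
      have hNβ : ∀ z : Φ.Pt, z.1 ≤ Φ.orth L.1 ⊔ Φ.orth M.1 →
          (β z).1 ≤ Φ.orth L.1 ⊔ Φ.orth M.1 := by
        intro z hz
        rw [hNe]
        rw [hNpq] at hz
        exact (blk3 hD hn h1 hβ hpq z).2 hz
      refine ⟨⟨Φ.orth L.1 ⊔ Φ.orth M.1, hNB, hNβ⟩, ⟨le_sup_left, le_sup_right⟩, ?_⟩
      rintro N' ⟨h3, h4⟩
      apply Subtype.ext
      exact (ub_eq (ub_fr hNB) (ub_fr N'.2.1) (sup_le h3 h4)).symm)
  refine ctr3 hn hc hodd hs h1 β hβ2 hfr' (fun u w z huw => blk3 hD hn h1 hβ huw z)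
    c.2.1 c.2.2 ?_
  intro z hz
  have h3 := hcc ⟨_, hPv z⟩ (by
    rintro he
    apply hz
    rw [← he]
    exact le_sup_left)
  exact h3

end PS

end Pool.Agent.Work.MP_bc729a_al.CG
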