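import Pool.Agent.Work.MP_bc729a_al.CR.Defs
import Pool.Agent.Work.MP_bc729a_al.CG.Exq

/-! # Module NoD (M): no dualities in odd characteristic

All vectors are singular: `B v v = 0` (`S_B`), so `B u v = - B v u`. `2 ≠ 0` in `K`. For a line `ℓ`: `orth ℓ = ℓ` (dimension `4`).
PROOF of `reg_odd`: `ℓ, m, k` pairwise disjoint lines such that every line meeting `ℓ` and `m` meets `k`. `V = ℓ ⊕ m`. `k ⊓ m = ⊥`, so for every `u ∈ ℓ` there is a unique `f u ∈ m` with `u + f u ∈ k`, `f` is linear. Let `0 ≠ u ∈ ℓ`; there is `0 ≠ v ∈ m` with `B u v = 0` (dimension of `m`); `n = span {u, v}` is a line meeting `ℓ` and `m`, so there is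
`0 ≠ a u + b v ∈ k`; `a ≠ 0` as `k ⊓ m = ⊥`, and `f u = (b / a) v`, so `B u (f u) = 0` for all `u ∈ ℓ`, hence `B u (f u') + B u' (f u) = 0`. As `k` is totally singular: `0 = B (u + f u) (u' + f u') = B u (f u') + B (f u) u' = B u (f u') - B u' (f u) = 2 B u (f u')`. So `f u' ∈ m ⊓ orth ℓ = m ⊓ ℓ = ⊥`, `f = 0`, `k = ℓ`, contradiction.
PROOF of `no_dual`. Two points `x ≠ y` are perpendicular iff some line contains both iff (`inc`, `η` bijective) some point is `≤ θ x` and `≤ θ y`. Let `x = span {x₀}`, `y = span {y₀}` be opposite, `z = span {x₀ + y₀}` (a point); `x, y, z` are pairwise opposite, so `θ x, θ y, θ z` are pairwise disjoint lines (two lines with a common vector `≠ 0` have a common point). Every line is `θ w`; if it meets `θ x` and `θ y`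
(and is different from them) then `w` is perpendicular to `x` and `y`, so to `z`, so `θ w` meets `θ z` (if `w = x` then `θ w` does not meet `θ y`). `reg_odd` gives a contradiction. -/

namespace Pool.Agent.Work.MP_bc729a_al.CG

open Module

universe u v

variable {K : Type u} {V : Type v} [Field K] [AddCommGroup V] [Module K V] [Finite K] [Finite V]

namespace PS

variable {Φ : PS K V}

private theorem nod_antisymm (hS : ∀ v, Φ.S v) (u v : V) : Φ.B u v = -Φ.B v u := by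
  have h := Φ.S_B _ (hS (u + v))
  rw [Φ.add_left, Φ.add_right, Φ.add_right, Φ.S_B _ (hS u), Φ.S_B _ (hS v)] at h
  linear_combination h

omit [Finite K] in
private theorem nod_two (hodd : Odd (Nat.card K)) : (2 : K) ≠ 0 := by
  intro h2
  have h1 : addOrderOf (1 : K) = 2 := by
    apply addOrderOf_eq_prime
    · rw [nsmul_one]
      exact_mod_cast h2
    · exact one_ne_zero
  have h3 := addOrderOf_dvd_natCard (1 : K)
  rw [h1] at h3
  exact (Nat.not_even_iff_odd.2 hodd) (even_iff_two_dvd.2 h3)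

private theorem nod_line {x y : Submodule K V} (hx : Φ.IsPt x) (hy : Φ.IsPt y) (hne : ¬ x ≤ y)
    (h : x ≤ Φ.orth y) : Φ.IsLn (x ⊔ y) := by
  refine ⟨hx.ts.sup hy.ts h, ?_⟩
  have h1 := Submodule.finrank_sup_add_finrank_inf_eq x y
  rw [hx.inf_eq_bot hne, finrank_bot, hx.finrank, hy.finrank] at h1
  omega

private theorem nod_top (hn : finrank K V = 4) {a b : Submodule K V} (ha : finrank K a = 2)
    (hb : finrank K b = 2) (h : a ⊓ b = ⊥) : a ⊔ b = ⊤ := by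
  apply Submodule.eq_top_of_finrank_eq
  have h1 := Submodule.finrank_sup_add_finrank_inf_eq a b
  rw [h, finrank_bot] at h1
  omega

/-- the two components of a vector of `k` are perpendicular -/
private theorem nod_perp (hn : finrank K V = 4) (hS : ∀ v, Φ.S v)
    {ℓ m k : Submodule K V} (hℓ : Φ.IsLn ℓ) (hm : Φ.IsLn m) (h1 : ℓ ⊓ m = ⊥)
    (h3 : m ⊓ k = ⊥)
    (h : ∀ n, Φ.IsLn n → n ⊓ ℓ ≠ ⊥ → n ⊓ m ≠ ⊥ → n ⊓ k ≠ ⊥) {u v : V} (hu : u ∈ ℓ)
    (hv : v ∈ m) (huv : u + v ∈ k) : Φ.B u v = 0 := by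
  by_cases hu0 : u = 0
  · rw [hu0, Φ.B_zero_left]
  obtain ⟨v₁, hv₁, hv₁0⟩ : ∃ v₁ ∈ m ⊓ Φ.orth (Submodule.span K {u}), v₁ ≠ 0 := by
    apply Submodule.exists_mem_ne_zero_of_ne_bot
    intro hbot
    have e1 := Submodule.finrank_sup_add_finrank_inf_eq m (Φ.orth (Submodule.span K {u}))
    rw [hbot, finrank_bot, hm.2] at e1
    have e2 := Φ.finrank_orth (Submodule.span K {u})
    rw [finrank_span_singleton hu0, hn] at e2
    have e3 := Submodule.finrank_le (m ⊔ Φ.orth (Submodule.span K {u}))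
    omega
  obtain ⟨hv₁m, hv₁o⟩ := hv₁
  have hB : Φ.B v₁ u = 0 := (Φ.mem_orth_span).1 hv₁o
  have hpu : Φ.IsPt (Submodule.span K {u}) := isPt_span hu0 (hS u)
  have hpv : Φ.IsPt (Submodule.span K {v₁}) := isPt_span hv₁0 (hS v₁)
  have hln : Φ.IsLn (Submodule.span K {v₁} ⊔ Submodule.span K {u}) := by
    apply nod_line hpv hpu
    · intro hle
      have hmem : v₁ ∈ ℓ := by
        apply (Submodule.span_singleton_le_iff_mem u ℓ).2 hu
        exact hle (Submodule.mem_span_singleton_self v₁)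
      have : v₁ ∈ ℓ ⊓ m := ⟨hmem, hv₁m⟩
      rw [h1] at this
      exact hv₁0 ((Submodule.mem_bot K).1 this)
    · exact Φ.span_le_orth.2 hB
  have hne := h _ hln (by
    intro hbot
    have : u ∈ (Submodule.span K {v₁} ⊔ Submodule.span K {u}) ⊓ ℓ :=
      ⟨Submodule.mem_sup_right (Submodule.mem_span_singleton_self u), hu⟩
    rw [hbot] at this
    exact hu0 ((Submodule.mem_bot K).1 this)) (by
    intro hbot
    have : v₁ ∈ (Submodule.span K {v₁} ⊔ Submodule.span K {u}) ⊓ m :=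
      ⟨Submodule.mem_sup_left (Submodule.mem_span_singleton_self v₁), hv₁m⟩
    rw [hbot] at this
    exact hv₁0 ((Submodule.mem_bot K).1 this))
  obtain ⟨z, ⟨hzn, hzk⟩, hz0⟩ := Submodule.exists_mem_ne_zero_of_ne_bot hne
  obtain ⟨p, hp, q, hq, hpq⟩ := Submodule.mem_sup.1 hzn
  obtain ⟨b, rfl⟩ := Submodule.mem_span_singleton.1 hp
  obtain ⟨a, rfl⟩ := Submodule.mem_span_singleton.1 hq
  have ha : a ≠ 0 := by
    rintro rfl
    rw [zero_smul, add_zero] at hpq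
    have : z ∈ m ⊓ k := ⟨by rw [← hpq]; exact m.smul_mem b hv₁m, hzk⟩
    rw [h3] at this
    exact hz0 ((Submodule.mem_bot K).1 this)
  have hd : v - (a⁻¹ * b) • v₁ ∈ m ⊓ k := by
    refine ⟨m.sub_mem hv (m.smul_mem _ hv₁m), ?_⟩
    have e : v - (a⁻¹ * b) • v₁ = (u + v) - a⁻¹ • z := by
      rw [← hpq, smul_add, smul_smul, smul_smul, inv_mul_cancel₀ ha, one_smul]
      abel
    rw [e]
    exact k.sub_mem huv (k.smul_mem _ hzk)
  rw [h3, Submodule.mem_bot, sub_eq_zero] at hd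
  rw [hd, Φ.smul_right, Φ.refl _ _ hB, mul_zero]

theorem reg_odd (hn : finrank K V = 4) (hS : ∀ v, Φ.S v) (hodd : Odd (Nat.card K))
    {ℓ m k : Submodule K V} (hℓ : Φ.IsLn ℓ) (hm : Φ.IsLn m) (hk : Φ.IsLn k) (h1 : ℓ ⊓ m = ⊥)
    (h2 : ℓ ⊓ k = ⊥) (h3 : m ⊓ k = ⊥)
    (h : ∀ n, Φ.IsLn n → n ⊓ ℓ ≠ ⊥ → n ⊓ m ≠ ⊥ → n ⊓ k ≠ ⊥) : False := by
  have h20 := nod_two hodd
  have hLM := nod_top hn hℓ.2 hm.2 h1
  have hMK := nod_top hn hm.2 hk.2 h3
  have key : ∀ u ∈ ℓ, ∀ v ∈ m, u + v ∈ k → ∀ u' ∈ ℓ, ∀ v' ∈ m, u' + v' ∈ k → Φ.B u v' = 0 := by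
    intro u hu v hv huv u' hu' v' hv' huv'
    have e1 := nod_perp hn hS hℓ hm h1 h3 h hu hv huv
    have e2 := nod_perp hn hS hℓ hm h1 h3 h hu' hv' huv'
    have e3 := nod_perp hn hS hℓ hm h1 h3 h (ℓ.add_mem hu hu') (m.add_mem hv hv') (by
      have : u + u' + (v + v') = (u + v) + (u' + v') := by abel
      rw [this]
      exact k.add_mem huv huv')
    rw [Φ.add_left, Φ.add_right, Φ.add_right, e1, e2] at e3
    have e4 : Φ.B (u + v) (u' + v') = 0 := hk.1.2 huv _ huv'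
    rw [Φ.add_left, Φ.add_right, Φ.add_right] at e4
    have e5 : Φ.B u u' = 0 := hℓ.1.2 hu _ hu'
    have e6 : Φ.B v v' = 0 := hm.1.2 hv _ hv'
    have e7 := nod_antisymm hS v u'
    rw [e5, e6, e7] at e4
    have e8 : 2 * Φ.B u v' = 0 := by linear_combination e3 + e4
    exact (mul_eq_zero.1 e8).resolve_left h20
  have hkb : k = ⊥ := by
    rw [eq_bot_iff]
    intro w' hw'
    obtain ⟨u', hu', v', hv', rfl⟩ := Submodule.mem_sup.1
      (show w' ∈ ℓ ⊔ m from hLM ▸ Submodule.mem_top)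
    have hv'o : v' ∈ Φ.orth ℓ := by
      intro u hu
      obtain ⟨q, hq, w, hw, hqw⟩ := Submodule.mem_sup.1
        (show u ∈ m ⊔ k from hMK ▸ Submodule.mem_top)
      have hw2 : u + (-q) ∈ k := by
        have : u + (-q) = w := by rw [← hqw]; abel
        rw [this]
        exact hw
      exact Φ.refl _ _ (key u hu (-q) (m.neg_mem hq) hw2 u' hu' v' hv' hw')
    have hol : ℓ = Φ.orth ℓ := by
      apply Submodule.eq_of_le_of_finrank_eq hℓ.1.2
      have := Φ.finrank_orth ℓ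
      rw [hℓ.2, hn] at this
      rw [hℓ.2]
      omega
    rw [← hol] at hv'o
    have hz : v' ∈ ℓ ⊓ m := ⟨hv'o, hv'⟩
    rw [h1, Submodule.mem_bot] at hz
    subst hz
    rw [add_zero] at hw' ⊢
    rw [← h2]
    exact ⟨hu', hw'⟩
  have := hk.2
  rw [hkb, finrank_bot] at this
  omega

theorem no_dual {D : Subgroup (V ≃ₗ[K] V)} (hn : finrank K V = 4) (hS : ∀ v, Φ.S v)
    (hodd : Odd (Nat.card K)) {α : MulAut ↥(PG D)}
    {θ : Φ.Pt ≃ {ℓ : Submodule K V // Φ.IsLn ℓ}} {η : {ℓ : Submodule K V // Φ.IsLn ℓ} ≃ Φ.Pt}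
    (h : Φ.Dua D α θ η) : False := by
  have hcol : ∀ x y : Φ.Pt, (θ x).1 ⊓ (θ y).1 ≠ ⊥ →
      ∃ ℓ : {ℓ : Submodule K V // Φ.IsLn ℓ}, x.1 ≤ ℓ.1 ∧ y.1 ≤ ℓ.1 := by
    intro x y hxy
    obtain ⟨v, ⟨hv1, hv2⟩, hv0⟩ := Submodule.exists_mem_ne_zero_of_ne_bot hxy
    obtain ⟨ℓ, hℓ⟩ := η.surjective ⟨Submodule.span K {v}, isPt_span hv0 (hS v)⟩
    have hval : (η ℓ).1 = Submodule.span K {v} := by rw [hℓ]
    refine ⟨ℓ, (h.inc x ℓ).1 ?_, (h.inc y ℓ).1 ?_⟩
    · rw [hval]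
      exact (Submodule.span_singleton_le_iff_mem _ _).2 hv1
    · rw [hval]
      exact (Submodule.span_singleton_le_iff_mem _ _).2 hv2
  have hperp : ∀ x y : Φ.Pt, (θ x).1 ⊓ (θ y).1 ≠ ⊥ → x.1 ≤ Φ.orth y.1 := by
    intro x y hxy
    obtain ⟨ℓ, h1, h2⟩ := hcol x y hxy
    exact h1.trans (ℓ.2.1.2.trans (Φ.orth_anti h2))
  have hback : ∀ x y : Φ.Pt, ¬ x.1 ≤ y.1 → x.1 ≤ Φ.orth y.1 → (θ x).1 ⊓ (θ y).1 ≠ ⊥ := by
    intro x y hne hxy hbot
    have hln := nod_line x.2 y.2 hne hxy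
    have h1 := (h.inc x ⟨_, hln⟩).2 le_sup_left
    have h2 := (h.inc y ⟨_, hln⟩).2 le_sup_right
    have h3 := le_inf h1 h2
    rw [hbot] at h3
    exact (η ⟨_, hln⟩).2.ne_bot (le_bot_iff.1 h3)
  obtain ⟨x, hx, -⟩ := exists_pt (Φ := Φ) (W := ⊤) (by
    rw [finrank_top, hn]
    have := Φ.c_le
    omega)
  obtain ⟨y, hy, -, hxy⟩ := exists_opp ND_top hx le_top
  obtain ⟨x₀, hx₀, hSx, rfl⟩ := hx
  obtain ⟨y₀, hy₀, hSy, rfl⟩ := hy
  rw [Φ.span_le_orth] at hxy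
  have hxy' : Φ.B x₀ y₀ ≠ 0 := fun e => hxy (Φ.refl _ _ e)
  have hz0 : x₀ + y₀ ≠ 0 := by
    intro e
    have e1 := Φ.add_left x₀ y₀ x₀
    rw [e, Φ.B_zero_left, Φ.S_B _ hSx, zero_add] at e1
    exact hxy e1.symm
  have hzx : Φ.B (x₀ + y₀) x₀ ≠ 0 := by
    rw [Φ.add_left, Φ.S_B _ hSx, zero_add]
    exact hxy
  have hzy : Φ.B (x₀ + y₀) y₀ ≠ 0 := by
    rw [Φ.add_left, Φ.S_B _ hSy, add_zero]
    exact hxy'
  let x : Φ.Pt := ⟨Submodule.span K {x₀}, isPt_span hx₀ hSx⟩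
  let y : Φ.Pt := ⟨Submodule.span K {y₀}, isPt_span hy₀ hSy⟩
  let z : Φ.Pt := ⟨Submodule.span K {x₀ + y₀}, isPt_span hz0 (hS _)⟩
  apply reg_odd hn hS hodd (θ x).2 (θ y).2 (θ z).2
  · by_contra hne
    exact hxy' (Φ.span_le_orth.1 (hperp x y hne))
  · by_contra hne
    exact hzx (Φ.refl _ _ (Φ.span_le_orth.1 (hperp x z hne)))
  · by_contra hne
    exact hzy (Φ.refl _ _ (Φ.span_le_orth.1 (hperp y z hne)))
  · intro n hn1 hnx hny
    obtain ⟨w, hw⟩ := θ.surjective ⟨n, hn1⟩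
    have hval : (θ w).1 = n := by rw [hw]
    rw [← hval] at hnx hny ⊢
    have p1 := hperp w x hnx
    have p2 := hperp w y hny
    have p3 : w.1 ≤ Φ.orth z.1 := by
      intro v hv
      have q1 : Φ.B v x₀ = 0 := Φ.mem_orth_span.1 (p1 hv)
      have q2 : Φ.B v y₀ = 0 := Φ.mem_orth_span.1 (p2 hv)
      apply Φ.mem_orth_span.2
      rw [Φ.add_right, q1, q2, add_zero]
    apply hback w z _ p3
    intro hle
    have e := w.2.eq_of_le z.2 hle
    rw [e] at p1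
    exact hzx (Φ.span_le_orth.1 p1)

end PS

end Pool.Agent.Work.MP_bc729a_al.CG
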