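import Pool.Agent.Work.MP_bc729a_al.CR.Defs
import Pool.Agent.Work.MP_bc729a_al.CG.Nd

/-! # Module Ql3 (S-M): two perpendicular anisotropic planes

PROOF. `|K|` is odd, `2 ≠ 0`, `S v ↔ B v v = 0` (`S_B`, `S_odd`). Let `0 ≠ v ∈ P₁`; `B v v ≠ 0`. There is `0 ≠ v' ∈ P₁` with `B v v' = 0` (dimension `2`), `B v' v' ≠ 0`. In `P₂` choose a basis `e, e'` with `B e e' = 0`, `B e e ≠ 0`, `B e' e' ≠ 0` in the same way. There are `a, b` with `a ^ 2 * B e e + b ^ 2 * B e' e' = - B v v` (`FiniteField.exists_root_sum_quadratic`, or the pigeonhole principle);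
`w = a • e + b • e' ∈ P₂`, `B w w = - B v v ≠ 0`, and `0 ≠ w' ∈ P₂` with `B w w' = 0`, `B w' w' ≠ 0`. For `x, y` not both `0`, `x ^ 2 * B v v + y ^ 2 * B v' v' = B (x v + y v') (x v + y v') ≠ 0`, so `- B v v * B v' v'` is not a square (if `= s ^ 2` take `x = s`, `y = B v v`). In the same way `- B w w * B w' w'` is not a square. The product of two non-squares of the finite
field `K` is a square, so `B v v * B v' v' * B w w * B w' w' = - (B v v) ^ 2 * B v' v' * B w' w'` is a square, so `- B v' v' * B w' w' = s ^ 2`, and with `k = s / B w' w'`: `B v' v' + k ^ 2 * B w' w' = 0`. Then `v + w` and `v' + k • w'` are singular, perpendicular, linearly independent: `E` is their span. -/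

namespace Pool.Agent.Work.MP_bc729a_al.CG

open Module

universe u v

variable {K : Type u} {V : Type v} [Field K] [AddCommGroup V] [Module K V] [Finite K] [Finite V]

namespace PS

variable {Φ : PS K V}

private theorem ql3_perp (hsym : ∀ u v, Φ.B u v = Φ.B v u) {P : Submodule K V}
    (h2 : finrank K P = 2) {v : V} (hv : v ∈ P) (h0 : Φ.B v v ≠ 0) :
    ∃ v' ∈ P, v' ≠ 0 ∧ Φ.B v v' = 0 := by
  have hle : Submodule.span K {v} ≤ P := by
    rw [Submodule.span_singleton_le_iff_mem]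
    exact hv
  have hne : ¬ P ≤ Submodule.span K {v} := by
    intro h
    have h1 := Submodule.finrank_mono h
    have h3 : finrank K (Submodule.span K {v}) ≤ 1 := by
      have := finrank_span_le_card (R := K) ({v} : Set V)
      simpa using this
    omega
  obtain ⟨w, hw, hw'⟩ := Set.not_subset.1 hne
  refine ⟨w - (Φ.B w v / Φ.B v v) • v, P.sub_mem hw (P.smul_mem _ hv), ?_, ?_⟩
  · intro h
    apply hw'
    rw [sub_eq_zero] at h
    rw [h]
    exact Submodule.smul_mem _ _ (Submodule.mem_span_singleton_self v)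
  · rw [hsym, Φ.B_sub_left, Φ.smul_left, div_mul_cancel₀ _ h0, sub_self]

private theorem ql3_nsq (hτ : ∀ a, Φ.τ a = a) (hsym : ∀ u v, Φ.B u v = Φ.B v u)
    {P : Submodule K V} (ha : ∀ v ∈ P, Φ.B v v = 0 → v = 0) {v v' : V} (hv : v ∈ P)
    (hv' : v' ∈ P) (h0 : Φ.B v v ≠ 0) (h0' : Φ.B v' v' ≠ 0) (hp : Φ.B v v' = 0) :
    ¬ IsSquare (-Φ.B v v * Φ.B v' v') := by
  rintro ⟨s, hs⟩
  have hp' : Φ.B v' v = 0 := by rw [hsym, hp]
  have hz : Φ.B (s • v + Φ.B v v • v') (s • v + Φ.B v v • v') = 0 := by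
    simp only [Φ.add_left, Φ.add_right, Φ.smul_left, Φ.smul_right, hτ, hp, hp']
    linear_combination (-Φ.B v v) * hs
  have h1 := ha _ (P.add_mem (P.smul_mem _ hv) (P.smul_mem _ hv')) hz
  have h2 : Φ.B (s • v + Φ.B v v • v') v' = 0 := by rw [h1, Φ.B_zero_left]
  rw [Φ.add_left, Φ.smul_left, Φ.smul_left, hp, mul_zero, zero_add] at h2
  exact mul_ne_zero h0 h0' h2

theorem ts_plane (hodd : Odd (Nat.card K)) (hτ : ∀ a, Φ.τ a = a)
    (hsym : ∀ u v, Φ.B u v = Φ.B v u) {P₁ P₂ : Submodule K V} (h1 : finrank K P₁ = 2)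
    (h2 : finrank K P₂ = 2) (hp : ∀ u ∈ P₁, ∀ v ∈ P₂, Φ.B u v = 0)
    (ha1 : ∀ v ∈ P₁, Φ.S v → v = 0) (ha2 : ∀ v ∈ P₂, Φ.S v → v = 0) :
    ∃ E, Φ.TS E ∧ E ≤ P₁ ⊔ P₂ ∧ finrank K E = 2 := by
  classical
  have hft : Fintype K := Fintype.ofFinite K
  have hcard : Fintype.card K % 2 = 1 := by
    rw [← Nat.card_eq_fintype_card]
    exact Nat.odd_iff.1 hodd
  have ha1' : ∀ v ∈ P₁, Φ.B v v = 0 → v = 0 := fun v hv h => ha1 v hv (Φ.S_odd hodd v h)
  have ha2' : ∀ v ∈ P₂, Φ.B v v = 0 → v = 0 := fun v hv h => ha2 v hv (Φ.S_odd hodd v h)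
  have hex : ∀ P : Submodule K V, finrank K P = 2 → ∃ v ∈ P, v ≠ 0 := by
    intro P hP
    have hb : P ≠ ⊥ := by
      rintro rfl
      rw [finrank_bot] at hP
      omega
    obtain ⟨v, hv, h0⟩ := Submodule.exists_mem_ne_zero_of_ne_bot hb
    exact ⟨v, hv, h0⟩
  obtain ⟨v, hv, hv0⟩ := hex P₁ h1
  have hq : Φ.B v v ≠ 0 := fun h => hv0 (ha1' v hv h)
  obtain ⟨v', hv', hv0', hvv⟩ := ql3_perp hsym h1 hv hq
  have hq' : Φ.B v' v' ≠ 0 := fun h => hv0' (ha1' v' hv' h)
  obtain ⟨e, he, he0⟩ := hex P₂ h2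
  have hqe : Φ.B e e ≠ 0 := fun h => he0 (ha2' e he h)
  obtain ⟨e', he', he0', hee⟩ := ql3_perp hsym h2 he hqe
  have hqe' : Φ.B e' e' ≠ 0 := fun h => he0' (ha2' e' he' h)
  obtain ⟨a, b, hab⟩ : ∃ a b : K, a ^ 2 * Φ.B e e + b ^ 2 * Φ.B e' e' = -Φ.B v v := by
    obtain ⟨a, b, h⟩ := FiniteField.exists_root_sum_quadratic (R := K)
      (f := Polynomial.C (Φ.B e e) * Polynomial.X ^ 2 + Polynomial.C 0 * Polynomial.X +
        Polynomial.C (Φ.B v v))
      (g := Polynomial.C (Φ.B e' e') * Polynomial.X ^ 2 + Polynomial.C 0 * Polynomial.X +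
        Polynomial.C 0)
      (Polynomial.degree_quadratic hqe) (Polynomial.degree_quadratic hqe') hcard
    refine ⟨a, b, ?_⟩
    simp only [Polynomial.eval_add, Polynomial.eval_mul, Polynomial.eval_C, Polynomial.eval_pow,
      Polynomial.eval_X] at h
    linear_combination h
  have hee' : Φ.B e' e = 0 := by rw [hsym, hee]
  have hw : a • e + b • e' ∈ P₂ := P₂.add_mem (P₂.smul_mem _ he) (P₂.smul_mem _ he')
  have hww : Φ.B (a • e + b • e') (a • e + b • e') = -Φ.B v v := by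
    simp only [Φ.add_left, Φ.add_right, Φ.smul_left, Φ.smul_right, hτ, hee, hee']
    linear_combination hab
  generalize a • e + b • e' = w at hw hww
  have hqw : Φ.B w w ≠ 0 := by
    rw [hww]
    exact neg_ne_zero.2 hq
  obtain ⟨w', hw', hw0', hwp⟩ := ql3_perp hsym h2 hw hqw
  have hqw' : Φ.B w' w' ≠ 0 := fun h => hw0' (ha2' w' hw' h)
  have n1 := ql3_nsq hτ hsym ha1' hv hv' hq hq' hvv
  have n2 := ql3_nsq hτ hsym ha2' hw hw' hqw hqw' hwp
  have hchar : ringChar K ≠ 2 := by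
    intro h
    have h3 := FiniteField.even_card_of_char_two h
    omega
  have hsq : IsSquare ((-Φ.B v v * Φ.B v' v') * (-Φ.B w w * Φ.B w' w')) := by
    have h0 : (-Φ.B v v * Φ.B v' v') * (-Φ.B w w * Φ.B w' w') ≠ 0 :=
      mul_ne_zero (mul_ne_zero (neg_ne_zero.2 hq) hq') (mul_ne_zero (neg_ne_zero.2 hqw) hqw')
    rw [← quadraticChar_one_iff_isSquare h0, map_mul,
      quadraticChar_neg_one_iff_not_isSquare.2 n1, quadraticChar_neg_one_iff_not_isSquare.2 n2]
    norm_num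
  obtain ⟨r, hr⟩ := hsq
  rw [hww] at hr
  obtain ⟨k, hk⟩ : ∃ k : K, Φ.B v' v' + k ^ 2 * Φ.B w' w' = 0 := by
    refine ⟨r / Φ.B v v / Φ.B w' w', ?_⟩
    have h5 : (r / Φ.B v v / Φ.B w' w') ^ 2 * Φ.B w' w' =
        (r * r) / (Φ.B v v ^ 2 * Φ.B w' w') := by
      field_simp
    rw [h5, ← hr]
    field_simp
    ring
  have hvw : Φ.B v w = 0 := hp v hv w hw
  have hvw' : Φ.B v w' = 0 := hp v hv w' hw'
  have hv'w : Φ.B v' w = 0 := hp v' hv' w hw
  have hv'w' : Φ.B v' w' = 0 := hp v' hv' w' hw'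
  have hwv : Φ.B w v = 0 := by rw [hsym, hvw]
  have hw'v : Φ.B w' v = 0 := by rw [hsym, hvw']
  have hwv' : Φ.B w v' = 0 := by rw [hsym, hv'w]
  have hw'v' : Φ.B w' v' = 0 := by rw [hsym, hv'w']
  have hvv' : Φ.B v' v = 0 := by rw [hsym, hvv]
  have hwp' : Φ.B w' w = 0 := by rw [hsym, hwp]
  have hB : ∀ z ∈ Submodule.span K {v + w, v' + k • w'},
      ∀ z' ∈ Submodule.span K {v + w, v' + k • w'}, Φ.B z z' = 0 := by
    intro z hz z' hz'
    obtain ⟨x, y, rfl⟩ := Submodule.mem_span_pair.1 hz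
    obtain ⟨x', y', rfl⟩ := Submodule.mem_span_pair.1 hz'
    simp only [Φ.add_left, Φ.add_right, Φ.smul_left, Φ.smul_right, hτ, hvw, hvw', hv'w, hv'w',
      hwv, hw'v, hwv', hw'v', hvv, hvv', hwp, hwp', hww]
    linear_combination (y * y') * hk
  refine ⟨Submodule.span K {v + w, v' + k • w'}, ⟨?_, ?_⟩, ?_, ?_⟩
  · intro z hz
    exact Φ.S_odd hodd z (hB z hz z hz)
  · intro z hz z' hz'
    exact hB z hz z' hz'
  · rw [Submodule.span_le]
    rintro z (rfl | rfl)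
    · exact Submodule.add_mem_sup hv hw
    · exact Submodule.add_mem_sup hv' (P₂.smul_mem k hw')
  · have hli : LinearIndependent K ![v + w, v' + k • w'] := by
      rw [LinearIndependent.pair_iff]
      intro x y hxy
      have e1 : Φ.B (x • (v + w) + y • (v' + k • w')) v = 0 := by rw [hxy, Φ.B_zero_left]
      have e2 : Φ.B (x • (v + w) + y • (v' + k • w')) v' = 0 := by rw [hxy, Φ.B_zero_left]
      simp only [Φ.add_left, Φ.smul_left, hwv, hvv', hw'v, mul_zero, add_zero] at e1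
      simp only [Φ.add_left, Φ.smul_left, hwv', hvv, hw'v', mul_zero, add_zero, zero_add] at e2
      exact ⟨(mul_eq_zero.1 e1).resolve_right hq, (mul_eq_zero.1 e2).resolve_right hq'⟩
    have hr : Set.range ![v + w, v' + k • w'] = {v + w, v' + k • w'} := by
      rw [Matrix.range_cons, Matrix.range_cons, Matrix.range_empty, Set.union_empty]
      rfl
    have h6 := finrank_span_eq_card hli
    rw [hr] at h6
    simpa using h6

end PS

end Pool.Agent.Work.MP_bc729a_al.CG
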