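import Pool.Agent.Work.MP_bc729a_al.CR.Ql1
import Pool.Agent.Work.MP_bc729a_al.CR.Ql3
import Pool.Agent.Work.MP_bc729a_al.CR.CwA
import Pool.Agent.Work.MP_bc729a_al.CR.KFx

/-! # Module Ql2 (M): elliptic quadrics, involutions

PROOF. `φ, μ` from `ql_semi`. `A (A v) = v` gives `φ (φ c) = c`. Suppose there is no such `w`: for `w ∈ W`, `w ≠ 0`, `S w` we have `A w ∉ span {w}`. `2 ≠ 0`; `Y₁ = {v ∈ W | A v = v}`, `Y₂ = {v ∈ W | A v = -v}`, additive subgroups with `|Y₁| * |Y₂| = |W| = |K| ^ 4` (as in HaU: `v = (2 : K)⁻¹ • (v + A v) + (2 : K)⁻¹ • (v - A v)`); all their nonzero elements are nonsingular.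
Case `φ ≠ id`. `K₁ = {c | μ * φ c = c}` is an additive subgroup of `K`; if `0 ≠ c₁ ∈ K₁` then `c ↦ c / c₁` maps `K₁` injectively to `{a | φ a = a}`, of size `m`, `m ^ 2 = |K|` (`card_fixed`); so `|K₁| ^ 2 ≤ |K|`. For `u, v ∈ Y₁` (or both in `Y₂`) `B u v = B (A u) (A v) = μ * φ (B u v)`, so `B u v ∈ K₁`. One of `Y₁, Y₂` has at least `|K| ^ 2 > |K| ≥ |K₁| ^ 2` elements, so
`cw_add` (`Z = K₁`, `b = B`) gives `0 ≠ y`, `B y y = 0`, so `S y` (`S_odd`): contradiction.
Case `φ = id`: `A` is linear on `W`, `Y₁, Y₂` are subspaces, `dim Y₁ + dim Y₂ = 4`. `B v w = B (A (A v)) (A (A w)) = μ ^ 2 * B v w` and `W` is nondegenerate, so `μ = 1` or `μ = -1`. If `μ = -1`: for `v` in `Y₁` or `Y₂`, `B v v = - B v v`, so `B v v = 0`, `v = 0`: `Y₁ = Y₂ = 0`, contradiction. If `μ = 1`: for `u ∈ Y₁`, `v ∈ Y₂`: `B u v = - B u v`, so `B u v = 0`. A subspace of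
dimension `≥ 3` has a singular vector `≠ 0` (`Φ.ex`, `c = 3` by `typ`, `ht`), so `dim Y₁ = dim Y₂ = 2`, and `ts_plane` contradicts `hr`. -/

namespace Pool.Agent.Work.MP_bc729a_al.CG

open Module

universe u v

variable {K : Type u} {V : Type v} [Field K] [AddCommGroup V] [Module K V] [Finite K] [Finite V]

namespace PS

variable {Φ : PS K V}

omit [Finite V] in
private theorem two_ne (hodd : Odd (Nat.card K)) : (2 : K) ≠ 0 := by
  intro h
  have : CharP K 2 := CharTwo.of_one_ne_zero_of_two_eq_zero one_ne_zero h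
  have hp : 2 ∣ Nat.card K := by
    have := Fintype.ofFinite K
    rw [Nat.card_eq_fintype_card, ← CharP.cast_eq_zero_iff K 2]
    exact Nat.cast_card_eq_zero K
  exact (Nat.not_even_iff_odd.2 hodd) (even_iff_two_dvd.2 hp)

/-- the eigenvectors of `A` in `W` for the sign `e` -/
private def eig (W : Submodule K V) (A : V → V) (e : K)
    (hadd : ∀ u ∈ W, ∀ v ∈ W, A (u + v) = A u + A v) (h0 : A 0 = 0)
    (hneg : ∀ v ∈ W, A (-v) = - A v) : AddSubgroup V where
  carrier := {v | v ∈ W ∧ A v = e • v}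
  zero_mem' := ⟨W.zero_mem, by rw [h0, smul_zero]⟩
  add_mem' := by
    rintro a b ⟨ha, ha'⟩ ⟨hb, hb'⟩
    exact ⟨W.add_mem ha hb, by rw [hadd a ha b hb, ha', hb', smul_add]⟩
  neg_mem' := by
    rintro a ⟨ha, ha'⟩
    exact ⟨W.neg_mem ha, by rw [hneg a ha, ha', smul_neg]⟩

theorem ha_orth (hodd : Odd (Nat.card K)) (ht : Φ.t = 1) (hτ : ∀ a, Φ.τ a = a)
    (hsym : ∀ u v, Φ.B u v = Φ.B v u) {W : Submodule K V} (hW : Φ.ND W)
    (h4 : finrank K W = 4) (hr : ∀ E, Φ.TS E → E ≤ W → finrank K E ≤ 1)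
    (hpt : ∃ y, Φ.IsPt y ∧ y ≤ W) {A : V → V} (hA : Φ.Inv2 W A) :
    ∃ w ∈ W, w ≠ 0 ∧ Φ.S w ∧ ∃ c : K, A w = c • w := by
  classical
  by_contra hcon
  have hno : ∀ w ∈ W, Φ.S w → ∀ c : K, A w = c • w → w = 0 := by
    intro w hw hS c hc
    by_contra h0
    exact hcon ⟨w, hw, h0, hS, c, hc⟩
  have hQ : 1 < Nat.card K := Finite.one_lt_card
  have hc3 : Φ.c = 3 := by
    rcases Φ.typ with ⟨h, -⟩ | ⟨-, h⟩ | ⟨-, h⟩
    · exact h
    · rw [ht] at h
      omega
    · rw [ht] at h
      omega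
  obtain ⟨φ, μ, hμ, hφ, hB⟩ := ql_semi hodd ht hτ hsym hW h4 hr hpt hA
  have h2 : (2 : K) ≠ 0 := two_ne hodd
  have hWne : ∃ v ∈ W, v ≠ 0 := by
    obtain ⟨v, hv, h0, -⟩ := Φ.ex W (by rw [hc3, h4]; norm_num)
    exact ⟨v, hv, h0⟩
  have hA0 : A 0 = 0 := by
    have h := hA.add 0 W.zero_mem 0 W.zero_mem
    rw [add_zero] at h
    exact left_eq_add.1 h
  have hAneg : ∀ v ∈ W, A (-v) = - A v := by
    intro v hv
    have h := hA.add v hv (-v) (W.neg_mem hv)
    rw [add_neg_cancel, hA0] at h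
    exact (neg_eq_of_add_eq_zero_right h.symm).symm
  have hφφ : ∀ c, φ (φ c) = c := by
    intro c
    obtain ⟨v, hv, h0⟩ := hWne
    have h1 := hA.inv (c • v) (W.smul_mem c hv)
    rw [hφ v hv c, hφ (A v) (hA.mem v hv) (φ c), hA.inv v hv] at h1
    exact smul_left_injective K h0 h1
  obtain ⟨p, hp⟩ := CharP.exists K
  have hpp : Fact p.Prime := by
    rcases CharP.char_is_prime_or_zero K p with h | h
    · exact ⟨h⟩
    · exfalso
      subst h
      have : CharZero K := CharP.charP_to_charZero K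
      exact not_finite K
  have hpK : ∀ a : K, p • a = 0 := by
    intro a
    rw [nsmul_eq_mul, CharP.cast_eq_zero, zero_mul]
  have hpV : ∀ v : V, p • v = 0 := by
    intro v
    rw [← Nat.cast_smul_eq_nsmul K, CharP.cast_eq_zero, zero_smul]
  -- the two eigenspaces
  obtain ⟨Y, hY⟩ : ∃ Y : K → AddSubgroup V, ∀ e v, v ∈ Y e ↔ (v ∈ W ∧ A v = e • v) :=
    ⟨fun e => eig W A e hA.add hA0 hAneg, fun e v => Iff.rfl⟩
  have hhalf : ∀ v ∈ W, A ((2 : K)⁻¹ • v) = (2 : K)⁻¹ • A v := by
    intro v hv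
    rw [hφ v hv, map_inv₀, map_ofNat]
  have hcard : Nat.card (Y 1) * Nat.card (Y (-1)) = Nat.card K ^ 4 := by
    rw [← h4, ← Module.natCard_eq_pow_finrank (K := K) (V := W), ← Nat.card_prod]
    refine Nat.card_eq_of_bijective
      (fun x : Y 1 × Y (-1) => (⟨x.1.1 + x.2.1, W.add_mem ((hY _ _).1 x.1.2).1
        ((hY _ _).1 x.2.2).1⟩ : W)) ⟨?_, ?_⟩
    · rintro ⟨⟨a, ha⟩, ⟨b, hb⟩⟩ ⟨⟨a', ha'⟩, ⟨b', hb'⟩⟩ h
      have h1 : a + b = a' + b' := congrArg Subtype.val h
      obtain ⟨haW, haA⟩ := (hY _ _).1 ha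
      obtain ⟨hbW, hbA⟩ := (hY _ _).1 hb
      obtain ⟨haW', haA'⟩ := (hY _ _).1 ha'
      obtain ⟨hbW', hbA'⟩ := (hY _ _).1 hb'
      have h3 : a - b = a' - b' := by
        have h4 := congrArg A h1
        rw [hA.add a haW b hbW, hA.add a' haW' b' hbW', haA, hbA, haA', hbA'] at h4
        simp only [one_smul, neg_smul] at h4
        rw [sub_eq_add_neg, sub_eq_add_neg]
        exact h4
      have h5 : a = a' := by
        have h6 : (2 : K) • a = (2 : K) • a' := by
          rw [two_smul, two_smul]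
          have e1 : a + a = (a + b) + (a - b) := by abel
          have e2 : a' + a' = (a' + b') + (a' - b') := by abel
          rw [e1, e2, h1, h3]
        exact smul_right_injective V h2 h6
      have h7 : b = b' := by
        rw [h5] at h1
        exact add_left_cancel h1
      subst h5
      subst h7
      rfl
    · rintro ⟨v, hv⟩
      have hAv := hA.mem v hv
      refine ⟨(⟨(2 : K)⁻¹ • (v + A v), (hY _ _).2 ⟨W.smul_mem _ (W.add_mem hv hAv), ?_⟩⟩,
        ⟨(2 : K)⁻¹ • (v - A v), (hY _ _).2 ⟨W.smul_mem _ (W.sub_mem hv hAv), ?_⟩⟩), ?_⟩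
      · rw [hhalf _ (W.add_mem hv hAv), hA.add v hv _ hAv, hA.inv v hv, one_smul, add_comm]
      · rw [hhalf _ (W.sub_mem hv hAv), sub_eq_add_neg, hA.add v hv _ (W.neg_mem hAv),
          hAneg _ hAv, hA.inv v hv, neg_smul, one_smul, ← smul_neg]
        congr 1
        abel
      · apply Subtype.ext
        change (2 : K)⁻¹ • (v + A v) + (2 : K)⁻¹ • (v - A v) = v
        rw [← smul_add]
        have e : (v + A v) + (v - A v) = (2 : K) • v := by
          rw [two_smul]
          abel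
        rw [e, smul_smul, inv_mul_cancel₀ h2, one_smul]
  by_cases hid : ∃ a, φ a ≠ a
  · -- the semilinear case
    have hm := card_fixed (φ : K →+* K) hφφ hid
    obtain ⟨K₁, hK₁⟩ : ∃ K₁ : AddSubgroup K, ∀ c, c ∈ K₁ ↔ μ * φ c = c := by
      refine ⟨{ carrier := {c | μ * φ c = c}
                zero_mem' := by
                  change μ * φ 0 = 0
                  rw [map_zero, mul_zero]
                add_mem' := ?_
                neg_mem' := ?_ }, fun c => Iff.rfl⟩
      · intro a b ha hb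
        change μ * φ (a + b) = a + b
        change μ * φ a = a at ha
        change μ * φ b = b at hb
        rw [map_add, mul_add, ha, hb]
      · intro a ha
        change μ * φ (-a) = -a
        change μ * φ a = a at ha
        rw [map_neg, mul_neg, ha]
    have hK₁card : Nat.card K₁ ^ 2 ≤ Nat.card K := by
      rw [← hm]
      apply Nat.pow_le_pow_left
      by_cases hex : ∃ c₁ ∈ K₁, c₁ ≠ 0
      · obtain ⟨c₁, hc₁, hc₁0⟩ := hex
        refine Nat.card_le_card_of_injective
          (fun c : K₁ => (⟨c.1 / c₁, ?_⟩ : {a : K // (φ : K →+* K) a = a})) ?_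
        · change φ (c.1 / c₁) = c.1 / c₁
          have e1 := (hK₁ _).1 c.2
          have e2 := (hK₁ _).1 hc₁
          rw [map_div₀]
          have e3 : φ c₁ ≠ 0 := by
            intro h
            rw [h, mul_zero] at e2
            exact hc₁0 e2.symm
          rw [div_eq_div_iff e3 hc₁0]
          have e4 : φ c.1 * c₁ = φ c.1 * (μ * φ c₁) := by rw [e2]
          have e5 : c.1 * φ c₁ = (μ * φ c.1) * φ c₁ := by rw [e1]
          rw [e4, e5]
          ring
        · intro a b h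
          have h1 : a.1 / c₁ = b.1 / c₁ := congrArg Subtype.val h
          exact Subtype.ext ((div_left_inj' hc₁0).1 h1)
      · push Not at hex
        have h1 : Nat.card K₁ ≤ 1 := by
          have : Subsingleton K₁ := ⟨fun a b => Subtype.ext (by rw [hex a.1 a.2, hex b.1 b.2])⟩
          exact Finite.card_le_one_iff_subsingleton.2 this
        have h2 : 0 < Nat.card {a : K // (φ : K →+* K) a = a} := by
          have : Nonempty {a : K // (φ : K →+* K) a = a} := ⟨⟨0, map_zero _⟩⟩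
          exact Nat.card_pos
        omega
    have key : ∀ e : K, e * e = 1 → Nat.card K ^ 2 ≤ Nat.card (Y e) → False := by
      intro e he hcY
      have hBK : ∀ u ∈ Y e, ∀ v ∈ Y e, Φ.B u v ∈ K₁ := by
        intro u hu v hv
        obtain ⟨huW, huA⟩ := (hY _ _).1 hu
        obtain ⟨hvW, hvA⟩ := (hY _ _).1 hv
        rw [hK₁, ← hB u huW v hvW, huA, hvA, Φ.smul_left, Φ.smul_right, hτ, ← mul_assoc, he,
          one_mul]
      have hlt : Nat.card K₁ ^ 2 < Nat.card (Y e) := by
        refine lt_of_le_of_lt hK₁card (lt_of_lt_of_le ?_ hcY)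
        rw [pow_two]
        nlinarith
      obtain ⟨y, hy0, hyB⟩ := cw_add (p := p) (Y := Y e) (Z := K₁)
        (fun y => Subtype.ext (by
          change ((p • y : Y e) : V) = 0
          rw [AddSubgroup.coe_nsmul]
          exact hpV y.1))
        (fun z => Subtype.ext (by
          change ((p • z : K₁) : K) = 0
          rw [AddSubgroup.coe_nsmul]
          exact hpK z.1))
        (fun u v => ⟨Φ.B u.1 v.1, hBK u.1 u.2 v.1 v.2⟩)
        (fun u v w => Subtype.ext (Φ.add_left _ _ _))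
        (fun u v w => Subtype.ext (Φ.add_right _ _ _)) hlt
      have h1 : Φ.B y.1 y.1 = 0 := congrArg Subtype.val hyB
      obtain ⟨hyW, hyA⟩ := (hY _ _).1 y.2
      exact hy0 (Subtype.ext (hno y.1 hyW (Φ.S_odd hodd _ h1) e hyA))
    rcases Nat.lt_or_ge (Nat.card (Y 1)) (Nat.card K ^ 2) with h | h
    · rcases Nat.lt_or_ge (Nat.card (Y (-1))) (Nat.card K ^ 2) with h' | h'
      · have h5 : Nat.card (Y 1) * Nat.card (Y (-1)) < Nat.card K ^ 2 * Nat.card K ^ 2 :=
          Nat.mul_lt_mul'' h h'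
        rw [hcard, ← pow_add] at h5
        exact lt_irrefl _ h5
      · exact key (-1) (by ring) h'
    · exact key 1 (by ring) h
  · -- the linear case
    push Not at hid
    have hlin : ∀ v ∈ W, ∀ c : K, A (c • v) = c • A v := by
      intro v hv c
      rw [hφ v hv c, hid]
    obtain ⟨Z, hZ⟩ : ∃ Z : K → Submodule K V, ∀ e v, v ∈ Z e ↔ (v ∈ W ∧ A v = e • v) := by
      refine ⟨fun e => { (Y e) with
        smul_mem' := ?_ }, fun e v => hY e v⟩
      intro c v hv
      obtain ⟨hvW, hvA⟩ := (hY _ _).1 hv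
      exact (hY _ _).2 ⟨W.smul_mem c hvW, by rw [hlin v hvW, hvA, smul_comm]⟩
    have hZY : ∀ e, Nat.card (Y e) = Nat.card K ^ finrank K (Z e) := by
      intro e
      rw [← Module.natCard_eq_pow_finrank (K := K) (V := Z e)]
      exact Nat.card_congr (Equiv.subtypeEquivRight fun v => by
        change v ∈ Y e ↔ v ∈ Z e
        rw [hY, hZ])
    have hdim : finrank K (Z 1) + finrank K (Z (-1)) = 4 := by
      rw [hZY, hZY, ← pow_add] at hcard
      exact Nat.pow_right_injective hQ hcard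
    have hμ2 : μ * μ = 1 := by
      obtain ⟨v, hv, h0⟩ := hWne
      obtain ⟨u, hu, hne⟩ := hW.exists_ne hv h0
      have h1 := hB (A u) (hA.mem u hu) (A v) (hA.mem v hv)
      rw [hA.inv u hu, hA.inv v hv, hid, hB u hu v hv, hid] at h1
      have h3 : (μ * μ - 1) * Φ.B u v = 0 := by linear_combination -h1
      rcases mul_eq_zero.1 h3 with h | h
      · exact sub_eq_zero.1 h
      · exact absurd h hne
    have hBl : ∀ u ∈ W, ∀ v ∈ W, Φ.B (A u) (A v) = μ * Φ.B u v := by
      intro u hu v hv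
      rw [hB u hu v hv, hid]
    have hμ1 : μ = 1 ∨ μ = -1 := mul_self_eq_one_iff.1 hμ2
    rcases hμ1 with rfl | rfl
    · -- `μ = 1`
      have hle : ∀ e, finrank K (Z e) ≤ 2 := by
        intro e
        by_contra h
        push Not at h
        obtain ⟨v, hv, h0, hS⟩ := Φ.ex (Z e) (by omega)
        obtain ⟨hvW, hvA⟩ := (hZ _ _).1 hv
        exact h0 (hno v hvW hS e hvA)
      have hd1 := hle 1
      have hd2 := hle (-1)
      have hperp : ∀ u ∈ Z 1, ∀ v ∈ Z (-1), Φ.B u v = 0 := by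
        intro u hu v hv
        obtain ⟨huW, huA⟩ := (hZ _ _).1 hu
        obtain ⟨hvW, hvA⟩ := (hZ _ _).1 hv
        have h1 := hBl u huW v hvW
        rw [huA, hvA, one_smul, neg_smul, one_smul, Φ.B_neg_right, one_mul] at h1
        have h3 : (2 : K) * Φ.B u v = 0 := by linear_combination -h1
        exact (mul_eq_zero.1 h3).resolve_left h2
      obtain ⟨E, hE, hEle, hE2⟩ := ts_plane hodd hτ hsym (P₁ := Z 1) (P₂ := Z (-1)) (by omega)
        (by omega) hperp
        (fun v hv hS => by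
          obtain ⟨hvW, hvA⟩ := (hZ _ _).1 hv
          exact hno v hvW hS _ hvA)
        (fun v hv hS => by
          obtain ⟨hvW, hvA⟩ := (hZ _ _).1 hv
          exact hno v hvW hS _ hvA)
      have hEW : E ≤ W := hEle.trans (sup_le (fun v hv => ((hZ _ _).1 hv).1)
        (fun v hv => ((hZ _ _).1 hv).1))
      have := hr E hE hEW
      omega
    · -- `μ = -1`
      have hbot : ∀ e : K, e * e = 1 → Z e = ⊥ := by
        intro e he
        rw [eq_bot_iff]
        intro v hv
        obtain ⟨hvW, hvA⟩ := (hZ _ _).1 hv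
        have h1 := hBl v hvW v hvW
        rw [hvA, Φ.smul_left, Φ.smul_right, hτ, ← mul_assoc, he] at h1
        have h3 : (2 : K) * Φ.B v v = 0 := by linear_combination h1
        have h4 := (mul_eq_zero.1 h3).resolve_left h2
        rw [Submodule.mem_bot]
        exact hno v hvW (Φ.S_odd hodd _ h4) e hvA
      rw [hbot 1 (by ring), hbot (-1) (by ring), finrank_bot] at hdim
      omega

end PS

end Pool.Agent.Work.MP_bc729a_al.CG
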