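import Pool.Agent.Work.MP_bc729a_al.CR.Hcl
import Pool.Agent.Work.MP_bc729a_al.CR.MnO2
import Pool.Agent.Work.MP_bc729a_al.CR.MnE2
import Pool.Agent.Work.MP_bc729a_al.CR.MnEO
import Pool.Agent.Work.MP_bc729a_al.CR.MnS
import Pool.Agent.Work.MP_bc729a_al.CR.MnUa
import Pool.Agent.Work.MP_bc729a_al.CR.MnUb
import Pool.Agent.Work.MP_bc729a_al.CR.NoD
import Pool.Agent.Work.MP_bc729a_al.CR.HaU
import Pool.Agent.Work.MP_bc729a_al.CR.Ql2
import Pool.Agent.Work.MP_bc729a_al.CR.Bd2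

/-! # Small rank: the four families -/

namespace Pool.Agent.Work.MP_bc729a_al.CG

open Module

universe u v w

variable {K : Type u} {V : Type v} [Field K] [AddCommGroup V] [Module K V] [Finite K] [Finite V]

namespace PS

variable {Φ : PS K V}

theorem sp4_false {D : Subgroup (V ≃ₗ[K] V)} (hD : Φ.Grp D) [IsSimpleGroup ↥(PG D)]
    (hI : Φ.Iso ≤ D) (hn : finrank K V = 4) (hc : Φ.c = 1) (hS : ∀ v, Φ.S v)
    (h2 : 2 < Nat.card K) {X : Subgroup (MulAut ↥(PG D))} (hX : LA.Red ↥(PG D) X) :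
    False := by
  rcases Nat.even_or_odd (Nat.card K) with h | h
  · refine main_sp4 hD hI hn hc hS h ?_ hX
    obtain ⟨k, hk⟩ := h
    omega
  · obtain ⟨p, hp⟩ := CharP.exists K
    have hp' : Fact p.Prime := ⟨CharP.char_is_prime K p⟩
    refine main_odd2 hD (by omega) (hr_small (by omega)) h ?_ ?_ hX
    · intro α
      rcases dual_or (p := p) hD hn hc α with h1 | ⟨θ, η, h1⟩
      · exact h1
      · exact (no_dual hn hS h h1).elim
    · intro x z hx hz hxz A hA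
      refine ha_sp hS ?_ hA
      intro h0
      have h3 := finrank_orth (Φ := Φ) (x ⊔ z)
      have h4 := (hyp_nd hx hz hxz).2
      rw [h0, finrank_bot] at h3
      omega

theorem u5_false {D : Subgroup (V ≃ₗ[K] V)} (hD : Φ.Grp D) [IsSimpleGroup ↥(PG D)]
    (hn : finrank K V = 5) (hc : Φ.c = 2) (ht : Φ.t * Φ.t = Nat.card K)
    (hs : ∀ u v, Φ.τ (Φ.B u v) = Φ.B v u) (h1 : ∃ a, Φ.τ a ≠ a)
    {X : Subgroup (MulAut ↥(PG D))} (hX : LA.Red ↥(PG D) X) : False := by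
  have hK : 1 < Nat.card K := Finite.one_lt_card
  have ht2 : 2 ≤ Φ.t := by
    by_contra hlt
    have : Φ.t = 0 ∨ Φ.t = 1 := by omega
    rcases this with h | h <;> rw [h] at ht <;> omega
  have hr := hr_small (Φ := Φ) (by omega : finrank K V ≤ 5)
  have hI : ∀ E, Φ.TS E → 2 ≤ finrank K E → Φ.pn ⊤ < Φ.bn D ⊤ E := by
    refine idx_bound2 hD (Or.inl (by omega)) hr ?_ (by omega)
    intro x y hx hy hxy
    rw [pn_w3 hn (by omega) hx hy hxy]
    nlinarith
  have hcl := hcl_of_hI hD (by omega) (by omega) hI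
  rcases Nat.even_or_odd (Nat.card K) with h | h
  · exact main_even2 hD (by omega) ht2 h hcl hX
  · refine main_odd2 hD (by omega) hr h hcl ?_ hX
    intro x z hx hz hxz A hA
    refine ha_herm h ht hs h1 ?_ hA
    have h3 := finrank_orth (Φ := Φ) (x ⊔ z)
    have h4 := (hyp_nd hx hz hxz).2
    omega

theorem u3_false {D : Subgroup (V ≃ₗ[K] V)} (hD : Φ.Grp D) [IsSimpleGroup ↥(PG D)]
    (hdet : ∀ g ∈ Φ.Iso, LinearEquiv.det g = 1 → g ∈ D)
    (hn : finrank K V = 3) (hc : Φ.c = 2)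
    (hs : ∀ u v, Φ.τ (Φ.B u v) = Φ.B v u) (h1 : ∃ a, Φ.τ a ≠ a)
    {X : Subgroup (MulAut ↥(PG D))} (hX : LA.Red ↥(PG D) X) : False := by
  have hI : ∀ E, Φ.TS E → 2 ≤ finrank K E → Φ.pn ⊤ < Φ.bn D ⊤ E := by
    intro E hE h2
    have h3 := ts_dim (Φ := Φ) ND_top hE le_top
    rw [finrank_top] at h3
    omega
  have hcl := hcl_of_hI hD (by omega) (by omega) hI
  rcases Nat.even_or_odd (Nat.card K) with h | h
  · exact main_u3_even hD hn hc h1 h hcl hX
  · exact main_u3_odd hD hdet hn hc hs h1 h hcl hX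

theorem o6_false {D : Subgroup (V ≃ₗ[K] V)} (hD : Φ.Grp D) [IsSimpleGroup ↥(PG D)]
    (hn : finrank K V = 6) (hc : Φ.c = 3) (ht : Φ.t = 1) (hτ : ∀ a, Φ.τ a = a)
    (hsym : ∀ u v, Φ.B u v = Φ.B v u) (hr : ∀ E, Φ.TS E → finrank K E ≤ 2)
    {X : Subgroup (MulAut ↥(PG D))} (hX : LA.Red ↥(PG D) X) : False := by
  have hK : 1 < Nat.card K := Finite.one_lt_card
  have hI : ∀ E, Φ.TS E → 2 ≤ finrank K E → Φ.pn ⊤ < Φ.bn D ⊤ E := by
    refine idx_bound2 hD (Or.inl (by omega)) hr ?_ (by omega)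
    intro x y hx hy hxy
    rw [pn_w4 hn hr (by omega) hx hy hxy, ht, one_mul]
    nlinarith
  have hcl := hcl_of_hI hD (by omega) (by omega) hI
  rcases Nat.even_or_odd (Nat.card K) with h | h
  · exact main_evenO hD (by omega) ht hr h hcl hX
  · refine main_odd2 hD (by omega) hr h hcl ?_ hX
    intro x z hx hz hxz A hA
    have h3 := finrank_orth (Φ := Φ) (x ⊔ z)
    have h4 := hyp_nd hx hz hxz
    refine ha_orth h ht hτ hsym h4.1.orth (by omega) ?_ ?_ hA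
    · intro E hE hEW
      have hxE : Φ.TS (x ⊔ E) :=
        hx.ts.sup hE (Φ.le_orth_comm.1 (hEW.trans (Φ.orth_anti le_sup_left)))
      have h5 := hr _ hxE
      have h6 : x ⊓ E = ⊥ := by
        have h7 : x ⊓ E ≤ (x ⊔ z) ⊓ Φ.orth (x ⊔ z) := inf_le_inf le_sup_left hEW
        rw [eq_bot_iff]
        exact h7.trans (le_of_eq h4.1)
      have h8 := Submodule.finrank_sup_add_finrank_inf_eq x E
      rw [h6, finrank_bot, hx.finrank] at h8
      omega
    · obtain ⟨y, hy, hyW⟩ := exists_pt (Φ := Φ) (W := Φ.orth (x ⊔ z)) (by omega)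
      exact ⟨y, hy, hyW⟩

end PS

end Pool.Agent.Work.MP_bc729a_al.CG
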