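import Pool.Agent.Work.MP_bc729a_al.CG.Bas

/-! # Dimensions in rank at least two -/

namespace Pool.Agent.Work.MP_bc729a_al.CG

open Module

universe u v

variable {K : Type u} {V : Type v} [Field K] [AddCommGroup V] [Module K V] [Finite K] [Finite V]

namespace PS

variable {Φ : PS K V}

theorem hdW (hc : Φ.c + 2 ≤ finrank K V) : 5 ≤ finrank K V ∨ 2 ≤ Φ.t := by
  have h : 1 < Nat.card K := Finite.one_lt_card
  rcases Φ.typ with ⟨h1, h2⟩ | ⟨h1, h2⟩ | ⟨h1, h2⟩
  · left
    omega
  · right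
    by_contra h3
    have h4 : Φ.t * Φ.t ≤ 1 * 1 := Nat.mul_le_mul (by omega) (by omega)
    omega
  · right
    omega

theorem hd3 (hc : Φ.c + 2 ≤ finrank K V) : 3 ≤ finrank K V := by
  have h := Φ.one_le_c
  omega

theorem hdW' (hc : Φ.c + 2 ≤ finrank K V) {W : Submodule K V} (hW : finrank K V ≤ finrank K W + 2) :
    3 ≤ finrank K W ∨ 2 ≤ Φ.t := by
  rcases hdW hc with h | h
  · left
    omega
  · exact Or.inr h

end PS

end Pool.Agent.Work.MP_bc729a_al.CG
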