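import Pool.Agent.Work.MP_bc729a_al.CR.Defs
import Pool.Agent.Work.MP_bc729a_al.CG.Hyp
import Pool.Agent.Work.MP_bc729a_al.CG.Pts

/-! # Module Ql1 (M-L): additive maps of an elliptic quadric are semilinear similitudes

`B` is bilinear and symmetric (`hτ`, `hsym`), `W` nondegenerate of dimension `4`, the points of `W` are pairwise opposite (`hr`: two perpendicular different points would span a totally singular space of dimension `2`). `A` is bijective on `W` (`inv`), `A 0 = 0`, `A (-v) = - A v`, and for singular `u`: `S (A u)`, `A (c • u) ∈ span {A u}`; as `A` is an involution `S (A u) ↔ S u` for `u ∈ W`.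
(1) For nonsingular `v ∈ W` (`B v v ≠ 0` by `S_odd`) the space `W ⊓ orth (span {v})` is nondegenerate of dimension `3`, so it is the span of its points (`Φ.ex` or `exists_pt` with `typ`: `c = 3`; `span_pts`). So for `w ∈ W`: `w ∈ span {v}` iff `B w u = 0` for all singular `u ∈ W` with `B v u = 0`
(`w ∈ W ⊓ orth (W ⊓ orth (span {v})) = span {v}`). By `perp` (for `u` and `A u`; every singular `u' ∈ W` is `A u`) `A (c • v) ∈ span {A v}`. With `smul`: for all `v ∈ W`, `c`, there is `φ v c` with `A (c • v) = φ v c • A v`.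
(2) For linearly independent `v, w ∈ W` the vectors `A v, A w` are linearly independent (if `A w = d • A v`, `d • A v = A (e • v)` for some `e`: the map `c ↦ φ v c` is injective, so bijective on the finite `K`), and `φ (v + w) c • (A v + A w) = φ v c • A v + φ w c • A w`, so `φ v c = φ w c`. So `φ` does not depend on `v ≠ 0` (dimension `4`), is additive, multiplicative, `φ 1 = 1`, injective: an
automorphism of the finite field `K`.
(3) For a singular `u ≠ 0` in `W` the map `v ↦ φ⁻¹ (B (A v) (A u))` is linear on `W` and vanishes exactly where `B v u` does (`perp`), so it is `κ u * B v u` for some `κ u ≠ 0`. For opposite singular `u, u'`: `κ u * B u' u = φ⁻¹ (B (A u') (A u)) = κ u' * B u u'`, so `κ u = κ u'`; for `u' = c • u` also `κ u' = κ u` (compute). Any two singular vectors `≠ 0` of `W` are opposite or proportional, so `κ` is constant.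
`W` is the span of its singular vectors (`span_pts`, `hpt`), so `B (A v) (A u) = φ κ * φ (B v u)` for all `u, v ∈ W`. -/

namespace Pool.Agent.Work.MP_bc729a_al.CG

open Module

universe u v

variable {K : Type u} {V : Type v} [Field K] [AddCommGroup V] [Module K V] [Finite K] [Finite V]

namespace PS

variable {Φ : PS K V}

private theorem A_zero {W : Submodule K V} {A : V → V} (hA : Φ.Inv2 W A) : A 0 = 0 := by
  have h := hA.add 0 W.zero_mem 0 W.zero_mem
  rw [add_zero] at h
  have h1 : A 0 + A 0 = A 0 + 0 := by rw [add_zero]; exact h.symm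
  exact add_left_cancel h1

private theorem A_sub {W : Submodule K V} {A : V → V} (hA : Φ.Inv2 W A) {u v : V} (hu : u ∈ W)
    (hv : v ∈ W) : A (u - v) = A u - A v := by
  have h := hA.add (u - v) (W.sub_mem hu hv) v hv
  rw [sub_add_cancel] at h
  rw [h, add_sub_cancel_right]

private theorem A_inj {W : Submodule K V} {A : V → V} (hA : Φ.Inv2 W A) {u v : V} (hu : u ∈ W)
    (hv : v ∈ W) (h : A u = A v) : u = v := by
  rw [← hA.inv u hu, h, hA.inv v hv]

private theorem A_ne {W : Submodule K V} {A : V → V} (hA : Φ.Inv2 W A) {v : V}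
    (hv : v ∈ W) (h : v ≠ 0) : A v ≠ 0 := by
  intro h0
  apply h
  apply A_inj hA hv W.zero_mem
  rw [h0, A_zero hA]

private theorem in_span (hodd : Odd (Nat.card K)) (hc : Φ.c = 3) {W : Submodule K V}
    (hW : Φ.ND W) (h4 : finrank K W = 4) {v w : V} (hv : v ∈ W) (hw : w ∈ W) (hvS : ¬ Φ.S v)
    (h : ∀ u ∈ W, Φ.S u → Φ.B v u = 0 → Φ.B w u = 0) : w ∈ Submodule.span K {v} := by
  have hvv : Φ.B v v ≠ 0 := fun h0 => hvS (Φ.S_odd hodd v h0)
  have hv0 : v ≠ 0 := by
    rintro rfl
    exact hvS Φ.S_zero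
  have hle : Submodule.span K {v} ≤ W := by
    rw [Submodule.span_singleton_le_iff_mem]
    exact hv
  have hL : Φ.ND (Submodule.span K {v}) := by
    unfold ND
    rw [eq_bot_iff]
    rintro x ⟨hx1, hx2⟩
    obtain ⟨a, rfl⟩ := Submodule.mem_span_singleton.1 hx1
    have h1 := Φ.mem_orth_span.1 hx2
    rw [Φ.smul_left] at h1
    have ha : a = 0 := (mul_eq_zero.1 h1).resolve_right hvv
    rw [ha, zero_smul]
    exact Submodule.zero_mem _
  have hN := hW.inf_orth hL hle
  have hf := hW.finrank_inf_orth hle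
  rw [finrank_span_singleton hv0, h4] at hf
  obtain ⟨x, hx, hxN⟩ := exists_pt (Φ := Φ) (W := W ⊓ Φ.orth (Submodule.span K {v})) (by omega)
  have hsp := span_pts hN hx hxN
  have hle2 : W ⊓ Φ.orth (Submodule.span K {v}) ≤ Φ.orth (Submodule.span K {w}) := by
    rw [hsp]
    apply sSup_le
    rintro z ⟨hz, hzN⟩
    obtain ⟨z₀, hz0, hzS, rfl⟩ := hz
    have hz₀ := hzN (Submodule.mem_span_singleton_self z₀)
    rw [Φ.span_le_orth]
    apply Φ.refl
    apply h z₀ hz₀.1 hzS
    apply Φ.refl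
    exact Φ.mem_orth_span.1 hz₀.2
  have hw' : w ∈ Φ.orth (W ⊓ Φ.orth (Submodule.span K {v})) := by
    intro u hu
    exact Φ.refl _ _ (Φ.mem_orth_span.1 (hle2 hu))
  rw [Φ.orth_inf, Φ.orth_orth] at hw'
  obtain ⟨a, ha, e, he, hae⟩ := Submodule.mem_sup.1 hw'
  have haW : a ∈ W := by
    have h2 := W.sub_mem hw (hle he)
    rwa [← hae, add_sub_cancel_right] at h2
  have ha0 : a ∈ W ⊓ Φ.orth W := ⟨haW, ha⟩
  unfold ND at hW
  rw [hW, Submodule.mem_bot] at ha0
  rw [ha0, zero_add] at hae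
  rw [← hae]
  exact he

private theorem smul_ex (hodd : Odd (Nat.card K)) (hc : Φ.c = 3) {W : Submodule K V}
    (hW : Φ.ND W) (h4 : finrank K W = 4) {A : V → V} (hA : Φ.Inv2 W A) (v : V) (hv : v ∈ W)
    (c : K) : ∃ d : K, A (c • v) = d • A v := by
  by_cases hS : Φ.S v
  · exact hA.smul v hv hS c
  · have hS' : ¬ Φ.S (A v) := by
      intro h
      apply hS
      have h1 := hA.sing _ (hA.mem v hv) h
      rwa [hA.inv v hv] at h1
    have hcv : c • v ∈ W := W.smul_mem c hv
    have h1 := in_span hodd hc hW h4 (hA.mem v hv) (hA.mem _ hcv) hS' (by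
      intro u hu huS h0
      have hu' := hA.mem u hu
      have huS' := hA.sing u hu huS
      have h2 : Φ.B v (A u) = 0 := by
        rw [hA.perp (A u) hu' v hv huS', hA.inv u hu]
        exact h0
      have h3 : Φ.B (c • v) (A u) = 0 := by rw [Φ.smul_left, h2, mul_zero]
      rw [hA.perp (A u) hu' _ hcv huS', hA.inv u hu] at h3
      exact h3)
    obtain ⟨d, hd⟩ := Submodule.mem_span_singleton.1 h1
    exact ⟨d, hd.symm⟩

private theorem exists_phi (hodd : Odd (Nat.card K)) (hc : Φ.c = 3) {W : Submodule K V}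
    (hW : Φ.ND W) (h4 : finrank K W = 4) {A : V → V} (hA : Φ.Inv2 W A) :
    ∃ φ : K ≃+* K, ∀ v ∈ W, ∀ c : K, A (c • v) = φ c • A v := by
  classical
  have hex : ∀ v : V, ∀ c : K, ∃ d : K, v ∈ W → A (c • v) = d • A v := by
    intro v c
    by_cases hv : v ∈ W
    · obtain ⟨d, hd⟩ := smul_ex hodd hc hW h4 hA v hv c
      exact ⟨d, fun _ => hd⟩
    · exact ⟨0, fun h => absurd h hv⟩
  choose f hf using hex
  have hinj : ∀ v ∈ W, v ≠ 0 → Function.Injective (f v) := by
    intro v hv hv0 c c' h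
    have h1 : A (c • v) = A (c' • v) := by rw [hf v c hv, hf v c' hv, h]
    have h2 := A_inj hA (W.smul_mem c hv) (W.smul_mem c' hv) h1
    exact smul_left_injective K hv0 h2
  have hsurj : ∀ v ∈ W, v ≠ 0 → Function.Surjective (f v) := fun v hv hv0 =>
    Finite.surjective_of_injective (hinj v hv hv0)
  -- independent vectors
  have hind : ∀ v ∈ W, ∀ w ∈ W, v ≠ 0 → w ∉ Submodule.span K {v} →
      A w ∉ Submodule.span K {A v} := by
    intro v hv w hw hv0 hnot hmem
    obtain ⟨d, hd⟩ := Submodule.mem_span_singleton.1 hmem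
    obtain ⟨e, rfl⟩ := hsurj v hv hv0 d
    rw [← hf v e hv] at hd
    have h2 := A_inj hA (W.smul_mem e hv) hw hd
    exact hnot (Submodule.mem_span_singleton.2 ⟨e, h2⟩)
  have hpair : ∀ v ∈ W, ∀ w ∈ W, v ≠ 0 → w ∉ Submodule.span K {v} → f v = f w := by
    intro v hv w hw hv0 hnot
    funext c
    have hn := hind v hv w hw hv0 hnot
    have hAv := A_ne hA hv hv0
    have h1 := hf (v + w) c (W.add_mem hv hw)
    rw [smul_add, hA.add _ (W.smul_mem c hv) _ (W.smul_mem c hw), hA.add v hv w hw, hf v c hv,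
      hf w c hw, smul_add] at h1
    -- f v c • A v + f w c • A w = g • A v + g • A w
    have h2 : (f w c - f (v + w) c) • A w = (f (v + w) c - f v c) • A v := by
      rw [sub_smul, sub_smul]
      have h3 : f w c • A w = f (v + w) c • A v + f (v + w) c • A w - f v c • A v := by
        rw [← h1]
        abel
      rw [h3]
      abel
    have h4' : f w c - f (v + w) c = 0 := by
      by_contra hne
      apply hn
      rw [Submodule.mem_span_singleton]
      refine ⟨(f w c - f (v + w) c)⁻¹ * (f (v + w) c - f v c), ?_⟩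
      rw [mul_smul, ← h2, smul_smul, inv_mul_cancel₀ hne, one_smul]
    rw [h4', zero_smul] at h2
    have h5 : f (v + w) c - f v c = 0 := (smul_eq_zero.1 h2.symm).resolve_right hAv
    rw [sub_eq_zero] at h4' h5
    rw [← h5, h4']
  have hthird : ∀ v : V, ∃ z ∈ W, z ∉ Submodule.span K {v} := by
    intro v
    by_contra hcon
    push Not at hcon
    have h1 : W ≤ Submodule.span K {v} := hcon
    have h2 := Submodule.finrank_mono h1
    have h3 := finrank_span_le_card (R := K) ({v} : Set V)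
    rw [Set.toFinset_singleton, Finset.card_singleton] at h3
    omega
  have hall : ∀ v ∈ W, ∀ w ∈ W, v ≠ 0 → w ≠ 0 → f v = f w := by
    intro v hv w hw hv0 hw0
    by_cases hd : w ∈ Submodule.span K {v}
    · obtain ⟨z, hz, hzn⟩ := hthird v
      have hzw : z ∉ Submodule.span K {w} := by
        intro h
        apply hzn
        have h1 : Submodule.span K {w} ≤ Submodule.span K {v} := by
          rw [Submodule.span_singleton_le_iff_mem]
          exact hd
        exact h1 h
      rw [hpair v hv z hz hv0 hzn, hpair w hw z hz hw0 hzw]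
    · exact hpair v hv w hw hv0 hd
  obtain ⟨v₀, hv₀, hv₀n⟩ := hthird 0
  have hv₀0 : v₀ ≠ 0 := by
    rintro rfl
    exact hv₀n (Submodule.zero_mem _)
  have hAv₀ := A_ne hA hv₀ hv₀0
  have hform : ∀ v ∈ W, ∀ c : K, A (c • v) = f v₀ c • A v := by
    intro v hv c
    by_cases hv0 : v = 0
    · rw [hv0, smul_zero, A_zero hA, smul_zero]
    · rw [hf v c hv, hall v hv v₀ hv₀ hv0 hv₀0]
  have hcan : ∀ a b : K, a • A v₀ = b • A v₀ → a = b := fun a b h =>
    smul_left_injective K hAv₀ h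
  have hadd : ∀ a b : K, f v₀ (a + b) = f v₀ a + f v₀ b := by
    intro a b
    apply hcan
    rw [← hf v₀ _ hv₀, add_smul, hA.add _ (W.smul_mem a hv₀) _ (W.smul_mem b hv₀), hf v₀ a hv₀,
      hf v₀ b hv₀, add_smul]
  have hmul : ∀ a b : K, f v₀ (a * b) = f v₀ a * f v₀ b := by
    intro a b
    apply hcan
    rw [← hf v₀ _ hv₀, mul_smul, hform _ (W.smul_mem b hv₀) a, hf v₀ b hv₀, smul_smul]
  have hone : f v₀ 1 = 1 := by
    apply hcan
    rw [← hf v₀ _ hv₀, one_smul, one_smul]
  have hzero : f v₀ 0 = 0 := by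
    apply hcan
    rw [← hf v₀ _ hv₀, zero_smul, zero_smul, A_zero hA]
  let g : K →+* K :=
    { toFun := f v₀
      map_one' := hone
      map_mul' := hmul
      map_zero' := hzero
      map_add' := hadd }
  exact ⟨RingEquiv.ofBijective g ⟨hinj v₀ hv₀ hv₀0, hsurj v₀ hv₀ hv₀0⟩, hform⟩

private theorem exists_k {W : Submodule K V} (hW : Φ.ND W) {A : V → V} (hA : Φ.Inv2 W A)
    {φ : K ≃+* K} (hφ : ∀ v ∈ W, ∀ c : K, A (c • v) = φ c • A v) {u : V} (hu : u ∈ W)
    (hu0 : u ≠ 0) (hS : Φ.S u) :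
    ∃ k : K, k ≠ 0 ∧ ∀ v ∈ W, Φ.B (A v) (A u) = k * φ (Φ.B v u) := by
  obtain ⟨y, hy, hne⟩ := hW.exists_ne hu hu0
  have hne' : φ (Φ.B y u) ≠ 0 := by
    rw [Ne, EmbeddingLike.map_eq_zero_iff]
    exact hne
  have hne2 : Φ.B (A y) (A u) ≠ 0 := fun h => hne ((hA.perp u hu y hy hS).2 h)
  refine ⟨Φ.B (A y) (A u) / φ (Φ.B y u), div_ne_zero hne2 hne', fun v hv => ?_⟩
  have hcy : (Φ.B v u / Φ.B y u) • y ∈ W := W.smul_mem _ hy
  have h1 : Φ.B (v - (Φ.B v u / Φ.B y u) • y) u = 0 := by
    rw [Φ.B_sub_left, Φ.smul_left, div_mul_cancel₀ _ hne, sub_self]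
  have h2 := (hA.perp u hu _ (W.sub_mem hv hcy) hS).1 h1
  rw [A_sub hA hv hcy, hφ y hy, Φ.B_sub_left, Φ.smul_left, sub_eq_zero, map_div₀] at h2
  rw [h2]
  field_simp

theorem ql_semi (hodd : Odd (Nat.card K)) (ht : Φ.t = 1) (hτ : ∀ a, Φ.τ a = a)
    (hsym : ∀ u v, Φ.B u v = Φ.B v u) {W : Submodule K V} (hW : Φ.ND W)
    (h4 : finrank K W = 4) (hr : ∀ E, Φ.TS E → E ≤ W → finrank K E ≤ 1)
    (hpt : ∃ y, Φ.IsPt y ∧ y ≤ W) {A : V → V} (hA : Φ.Inv2 W A) :
    ∃ φ : K ≃+* K, ∃ μ : K, μ ≠ 0 ∧ (∀ v ∈ W, ∀ c : K, A (c • v) = φ c • A v) ∧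
      ∀ u ∈ W, ∀ v ∈ W, Φ.B (A u) (A v) = μ * φ (Φ.B u v) := by
  have hc : Φ.c = 3 := by
    have h1 : 1 < Nat.card K := Finite.one_lt_card
    rcases Φ.typ with ⟨h, -⟩ | ⟨-, h⟩ | ⟨-, h⟩
    · exact h
    · rw [ht] at h
      omega
    · rw [ht] at h
      omega
  obtain ⟨φ, hφ⟩ := exists_phi hodd hc hW h4 hA
  obtain ⟨y, hy, hyW⟩ := hpt
  have hspan := span_pts hW hy hyW
  obtain ⟨u₀, hu₀0, hu₀S, rfl⟩ := hy
  have hu₀ : u₀ ∈ W := hyW (Submodule.mem_span_singleton_self u₀)
  obtain ⟨μ, hμ, hμu⟩ := exists_k hW hA hφ hu₀ hu₀0 hu₀S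
  -- all singular vectors have the same constant
  have hsing : ∀ u ∈ W, Φ.S u → ∀ v ∈ W, Φ.B (A v) (A u) = μ * φ (Φ.B v u) := by
    intro u hu hS v hv
    by_cases hu0 : u = 0
    · rw [hu0, A_zero hA, Φ.B_zero_right, Φ.B_zero_right, map_zero, mul_zero]
    obtain ⟨k, hk, hku⟩ := exists_k hW hA hφ hu hu0 hS
    by_cases hopp : Φ.B u u₀ = 0
    · -- proportional
      have hle : Submodule.span K {u} ≤ Φ.orth (Submodule.span K {u₀}) := Φ.span_le_orth.2 hopp
      have hTS : Φ.TS (Submodule.span K {u} ⊔ Submodule.span K {u₀}) :=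
        (isPt_span hu0 hS).ts.sup (isPt_span hu₀0 hu₀S).ts hle
      have huW : Submodule.span K {u} ≤ W := (Submodule.span_singleton_le_iff_mem _ _).2 hu
      have h1 := hr _ hTS (sup_le huW hyW)
      have h2 : Submodule.span K {u₀} = Submodule.span K {u} ⊔ Submodule.span K {u₀} := by
        apply Submodule.eq_of_le_of_finrank_le le_sup_right
        rw [finrank_span_singleton hu₀0]
        exact h1
      have h3 : u ∈ Submodule.span K {u₀} := by
        rw [h2]
        exact Submodule.mem_sup_left (Submodule.mem_span_singleton_self u)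
      obtain ⟨c, rfl⟩ := Submodule.mem_span_singleton.1 h3
      rw [hφ u₀ hu₀ c, Φ.smul_right, Φ.smul_right, hτ, hτ, hμu v hv, map_mul]
      ring
    · have h1 := hku u₀ hu₀
      have h2 := hμu u hu
      rw [hsym, hsym u₀ u, h2] at h1
      have hne : φ (Φ.B u u₀) ≠ 0 := by
        rw [Ne, EmbeddingLike.map_eq_zero_iff]
        exact hopp
      have h3 : μ = k := mul_right_cancel₀ hne h1
      rw [h3]
      exact hku v hv
  let M : Submodule K V :=
    { carrier := {u | u ∈ W ∧ ∀ v ∈ W, Φ.B (A v) (A u) = μ * φ (Φ.B v u)}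
      zero_mem' := ⟨W.zero_mem, fun v _ => by
        rw [A_zero hA, Φ.B_zero_right, Φ.B_zero_right, map_zero, mul_zero]⟩
      add_mem' := by
        rintro a b ⟨ha, ha'⟩ ⟨hb, hb'⟩
        refine ⟨W.add_mem ha hb, fun v hv => ?_⟩
        rw [hA.add a ha b hb, Φ.add_right, ha' v hv, hb' v hv, Φ.add_right, map_add, mul_add]
      smul_mem' := by
        rintro c a ⟨ha, ha'⟩
        refine ⟨W.smul_mem c ha, fun v hv => ?_⟩
        rw [hφ a ha c, Φ.smul_right, Φ.smul_right, hτ, hτ, ha' v hv, map_mul]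
        ring }
  have hWM : W ≤ M := by
    have h1 : sSup {z | Φ.IsPt z ∧ z ≤ W} ≤ M := by
      apply sSup_le
      rintro z ⟨hz, hzW⟩
      obtain ⟨z₀, hz0, hzS, rfl⟩ := hz
      rw [Submodule.span_singleton_le_iff_mem]
      have hz₀ := hzW (Submodule.mem_span_singleton_self z₀)
      exact ⟨hz₀, hsing z₀ hz₀ hzS⟩
    exact hspan.le.trans h1
  exact ⟨φ, μ, hμ, hφ, fun u hu v hv => (hWM hv).2 u hu⟩

end PS

end Pool.Agent.Work.MP_bc729a_al.CG
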