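import Pool.Agent.Work.MP_bc729a_al.CG.Bas

/-! # Module Sca (S): elements acting trivially on the subspaces are scalars

PROOF. `→`: every `g v ∈ span {v}` (take the subspace `span {v}`); `g v = c v • v`; for linearly independent `v, w` compare `g (v + w)`; if `w ∈ span {v}` use linearity. If `V` is trivial take `c = 1`. `←`: `g` is bijective, so `c ≠ 0` or `V` is trivial; `W.map g = W` (both inclusions).
(The module CG/Cen contains a similar private lemma.) -/

namespace Pool.Agent.Work.MP_bc729a_al.CG

open Module

universe u v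

variable {K : Type u} {V : Type v} [Field K] [AddCommGroup V] [Module K V] [Finite K] [Finite V]

theorem lat_eq_one {g : V ≃ₗ[K] V} : lat K V g = 1 ↔ ∃ c : K, ∀ v, g v = c • v := by
  constructor
  · intro h
    have h1 : ∀ v, ∃ a : K, g v = a • v := by
      intro v
      have h2 : (Submodule.span K {v}).map (g : V →ₗ[K] V) = Submodule.span K {v} := by
        have h3 := congrArg (fun e : Submodule K V ≃o Submodule K V => e (Submodule.span K {v})) h
        simp only [lat_apply] at h3
        exact h3
      have h4 : g v ∈ (Submodule.span K {v}).map (g : V →ₗ[K] V) :=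
        ⟨v, Submodule.mem_span_singleton_self v, rfl⟩
      rw [h2] at h4
      obtain ⟨a, ha⟩ := Submodule.mem_span_singleton.1 h4
      exact ⟨a, ha.symm⟩
    by_cases hV : ∃ v : V, v ≠ 0
    · obtain ⟨v, hv0⟩ := hV
      obtain ⟨a, ha⟩ := h1 v
      refine ⟨a, fun w => ?_⟩
      by_cases hs : w ∈ Submodule.span K {v}
      · obtain ⟨c, rfl⟩ := Submodule.mem_span_singleton.1 hs
        rw [map_smul, ha, smul_comm]
      · obtain ⟨b, hb⟩ := h1 w
        obtain ⟨d, hd⟩ := h1 (v + w)
        rw [map_add, ha, hb, smul_add] at hd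
        have h2 : (b - d) • w = (d - a) • v := by
          rw [sub_smul, sub_smul, sub_eq_sub_iff_add_eq_add, add_comm, hd]
        have h3 : b - d = 0 := by
          by_contra hne
          apply hs
          rw [Submodule.mem_span_singleton]
          refine ⟨(b - d)⁻¹ * (d - a), ?_⟩
          rw [mul_smul, ← h2, smul_smul, inv_mul_cancel₀ hne, one_smul]
        rw [h3, zero_smul] at h2
        have h4 : d - a = 0 := by
          rcases smul_eq_zero.1 h2.symm with h5 | h5
          · exact h5
          · exact absurd h5 hv0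
        rw [sub_eq_zero] at h3 h4
        rw [hb, h3, h4]
    · refine ⟨1, fun v => ?_⟩
      have hv : v = 0 := not_not.1 fun h2 => hV ⟨v, h2⟩
      rw [hv, map_zero, smul_zero]
  · rintro ⟨c, hc⟩
    apply RelIso.ext
    intro W
    rw [lat_apply]
    show W.map (g : V →ₗ[K] V) = W
    by_cases hV : ∃ v : V, v ≠ 0
    · obtain ⟨v, hv0⟩ := hV
      have hc0 : c ≠ 0 := by
        rintro rfl
        apply hv0
        have h2 := hc v
        rw [zero_smul] at h2
        exact (map_eq_zero_iff g g.injective).1 h2
      apply le_antisymm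
      · rintro _ ⟨w, hw, rfl⟩
        show g w ∈ W
        rw [hc w]
        exact W.smul_mem c hw
      · intro w hw
        refine ⟨c⁻¹ • w, W.smul_mem _ hw, ?_⟩
        show g (c⁻¹ • w) = w
        rw [hc, smul_smul, mul_inv_cancel₀ hc0, one_smul]
    · have hv : ∀ v : V, v = 0 := fun v => not_not.1 fun h2 => hV ⟨v, h2⟩
      ext w
      rw [hv w]
      exact ⟨fun _ => W.zero_mem, fun _ => (W.map (g : V →ₗ[K] V)).zero_mem⟩

end Pool.Agent.Work.MP_bc729a_al.CG
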