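import Pool.Agent.Work.MP_bc729a_al.CR.Defs
import Pool.Agent.Work.MP_bc729a_al.CR.Sca
import Pool.Agent.Work.MP_bc729a_al.CG.Tst
import Pool.Agent.Work.MP_bc729a_al.CG.Exq

/-! # Module Rad (M): the unipotent radical is determined by the action on the points

Write `W = orth (x ⊔ z)` for a point `z` opposite to `x` (`exists_opp`); it is nondegenerate (`hyp_nd`, `ND.orth`), `V = (x ⊔ z) ⊕ W`, `orth x = x ⊕ W`, `x = span {x₀}`.
PROOF of `rad_iff`. `→`: `IsU.map_eq`, `IsU.map_line` (a line `ℓ ≥ x` is `≤ orth x`), `IsU.pow` (`s ^ (p ^ 2) = 1`, as `s.1 = lat K V g`). `←`: `s = toPG g`, `g ∈ D ≤ Iso` (`exists_toPG`). `g x₀ = λ • x₀`. `s ^ (p ^ k) = 1` and `lat_eq_one`: `g ^ (p ^ k)` is a scalar `c`. `W` has dimension `n - 2 ≥ c`, so it is the span of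
its points (`exists_pt`, `span_pts`). For a point `span {w} ≤ W` the line `x ⊔ span {w}` is fixed (`TS.sup`), so `g w = μ w • w + ν w • x₀`. `λ ^ (p ^ k) = c` and (as `g` acts on `orth x / x`) `(μ w) ^ (p ^ k) = c`, so all `μ w` are equal to `λ` (the Frobenius map is injective: `frobenius_inj`, or `(a - b) ^ (p ^ k) = a ^ (p ^ k) - b ^ (p ^ k)`).
Opposite points `span {w}, span {w'}` of `W` (`exists_opp`): `B (g w) (g w') = λ * τ λ * B w w'`, so `λ * τ λ = 1`. So `u = λ⁻¹ • g` is an isometry (`S_smul_iff`), `u x₀ = x₀`, `u w - w ∈ x` for `w` in the points of `W`, so for all `w ∈ W`, and for all of `orth x`: `IsU x u`, `lat K V u = lat K V g` (a scalar multiple).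
PROOF of `rad3` (`finrank V = 3`). `W` has dimension `1`, `W = span {w}`, `B w w ≠ 0` (nondegenerate). `→` as before. `←`: `g w = μ • w + ν • x₀` (`g` preserves `orth x`), `B (g w) (g w) = μ * τ μ * B w w`, so `μ * τ μ = 1`; `λ ^ (p ^ k) = c = μ ^ (p ^ k)`, so `λ = μ`; `u = μ⁻¹ • g` as before. -/

namespace Pool.Agent.Work.MP_bc729a_al.CG

open Module

universe u v

variable {K : Type u} {V : Type v} [Field K] [AddCommGroup V] [Module K V] [Finite K] [Finite V]

namespace PS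

variable {Φ : PS K V}

/-- rescaling an isometry which acts as a scalar `l` on `x` and on `orth x` modulo `x` -/
private theorem rad_core {x : Submodule K V} {g : V ≃ₗ[K] V} (hg : g ∈ Φ.Iso) {l : K}
    (hl : l * Φ.τ l = 1) (hx : ∀ v ∈ x, g v = l • v) (ho : ∀ v ∈ Φ.orth x, g v - l • v ∈ x) :
    ∃ u : V ≃ₗ[K] V, Φ.IsU x u ∧ lat K V u = lat K V g := by
  have hl0 : l ≠ 0 := by
    rintro rfl
    rw [zero_mul] at hl
    exact zero_ne_one hl
  have hli : l⁻¹ ≠ 0 := inv_ne_zero hl0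
  have hl' : l⁻¹ * Φ.τ l⁻¹ = 1 := by
    rw [map_inv₀, ← mul_inv, hl, inv_one]
  let z : V ≃ₗ[K] V := LinearEquiv.smulOfNeZero K V l⁻¹ hli
  have hz : ∀ v, z v = l⁻¹ • v := fun v => rfl
  have hu : ∀ v, (z * g) v = l⁻¹ • g v := fun v => rfl
  refine ⟨z * g, ⟨⟨fun u v => ?_, fun v => ?_⟩, fun v hv => ?_, fun v hv => ?_⟩, ?_⟩
  · rw [hu, hu, Φ.smul_left, Φ.smul_right, ← mul_assoc, hl', one_mul, hg.1]
  · rw [hu, Φ.S_smul_iff hli, hg.2]
  · rw [hu, hx v hv, smul_smul, inv_mul_cancel₀ hl0, one_smul]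
  · have h1 : (z * g) v - v = l⁻¹ • (g v - l • v) := by
      rw [hu, smul_sub, smul_smul, inv_mul_cancel₀ hl0, one_smul]
    rw [h1]
    exact x.smul_mem _ (ho v hv)
  · rw [map_mul, (lat_eq_one).2 ⟨l⁻¹, hz⟩, one_mul]

private theorem rad_mu {p k : ℕ} [Fact p.Prime] [CharP K p] {x : Submodule K V}
    {g : V ≃ₗ[K] V} (hgx : ∀ v ∈ x, g v ∈ x) {l m c : K} {x0 : V} (hx0 : x0 ≠ 0)
    (h0 : g x0 = l • x0) (hc : ∀ v, (g ^ (p ^ k)) v = c • v) {v : V} (hv : v ∉ x)
    (h : g v - m • v ∈ x) : m = l := by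
  have h1 : ∀ j : ℕ, (g ^ j) x0 = l ^ j • x0 := by
    intro j
    induction j with
    | zero =>
      rw [pow_zero, pow_zero, one_smul]
      rfl
    | succ j ih =>
      rw [pow_succ']
      change g ((g ^ j) x0) = _
      rw [ih, map_smul, h0, smul_smul, ← pow_succ]
  have h2 : ∀ j : ℕ, (g ^ j) v - m ^ j • v ∈ x := by
    intro j
    induction j with
    | zero =>
      rw [pow_zero, pow_zero, one_smul]
      change v - v ∈ x
      rw [sub_self]
      exact x.zero_mem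
    | succ j ih =>
      rw [pow_succ']
      change g ((g ^ j) v) - _ ∈ x
      have h3 := hgx _ ih
      rw [map_sub, map_smul] at h3
      have h4 := x.add_mem h3 (x.smul_mem (m ^ j) h)
      have e : g ((g ^ j) v) - m ^ j • g v + m ^ j • (g v - m • v)
          = g ((g ^ j) v) - m ^ (j + 1) • v := by
        rw [smul_sub, smul_smul, ← pow_succ]
        abel
      rw [e] at h4
      exact h4
  have h3 : l ^ (p ^ k) = c := by
    have h4 := h1 (p ^ k)
    rw [hc] at h4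
    have h5 : (c - l ^ (p ^ k)) • x0 = 0 := by
      rw [sub_smul, h4, sub_self]
    rcases smul_eq_zero.1 h5 with h6 | h6
    · exact (sub_eq_zero.1 h6).symm
    · exact absurd h6 hx0
  have h4 : m ^ (p ^ k) = c := by
    have h5 := h2 (p ^ k)
    rw [hc, ← sub_smul] at h5
    by_contra hne
    have h6 : c - m ^ (p ^ k) ≠ 0 := fun h7 => hne (sub_eq_zero.1 h7).symm
    apply hv
    have h7 := x.smul_mem (c - m ^ (p ^ k))⁻¹ h5
    rwa [smul_smul, inv_mul_cancel₀ h6, one_smul] at h7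
  have h5 : (m - l) ^ (p ^ k) = 0 := by
    rw [sub_pow_char_pow, h3, h4, sub_self]
  exact sub_eq_zero.1 (eq_zero_of_pow_eq_zero h5)

private theorem rad_orth {x z : Submodule K V} (hx : Φ.IsPt x) (hz : Φ.IsPt z)
    (hxz : ¬ z ≤ Φ.orth x) {v : V} (hv : v ∈ Φ.orth x) :
    ∃ a ∈ x, ∃ w ∈ Φ.orth (x ⊔ z), v = a + w := by
  have h1 : v ∈ (x ⊔ z) ⊔ Φ.orth (x ⊔ z) := by
    rw [(hyp_nd hx hz hxz).1.sup]
    exact Submodule.mem_top
  obtain ⟨l, hl, w, hw, rfl⟩ := Submodule.mem_sup.1 h1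
  obtain ⟨a, ha, b, hb, rfl⟩ := Submodule.mem_sup.1 hl
  have hw1 : w ∈ Φ.orth x := Φ.orth_anti le_sup_left hw
  have h2 : b ∈ Φ.orth x := by
    have h3 := Submodule.sub_mem _ (Submodule.sub_mem _ hv hw1) (hx.self ha)
    have e : a + b + w - w - a = b := by abel
    rwa [e] at h3
  have h3 : b ∈ z ⊓ Φ.orth x := ⟨hb, h2⟩
  rw [hz.inf_eq_bot hxz] at h3
  have h4 : b = 0 := (Submodule.mem_bot K).1 h3
  exact ⟨a, ha, w, hw, by rw [h4, add_zero]⟩

private theorem rad_B {x : Submodule K V} (hx : Φ.IsPt x) {u v a b : V} (hu : u ∈ Φ.orth x)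
    (hv : v ∈ Φ.orth x) (ha : a ∈ x) (hb : b ∈ x) (m n : K) :
    Φ.B (m • u + a) (n • v + b) = m * Φ.τ n * Φ.B u v := by
  have h1 : Φ.B u b = 0 := hu b hb
  have h2 : Φ.B a v = 0 := Φ.refl _ _ (hv a ha)
  have h3 : Φ.B a b = 0 := hx.self ha b hb
  rw [Φ.add_left, Φ.add_right, Φ.add_right, Φ.smul_left, Φ.smul_left, Φ.smul_right,
    Φ.smul_right, h1, h2, h3]
  ring

private theorem rad_fwd {D : Subgroup (V ≃ₗ[K] V)} {p : ℕ} [Fact p.Prime] [CharP K p]
    {x : Submodule K V} {s : ↥(PG D)} (h : s ∈ Φ.UP D x) :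
    s.1 x = x ∧ (∀ ℓ, Φ.IsLn ℓ → x ≤ ℓ → s.1 ℓ = ℓ) ∧ ∃ k : ℕ, s ^ (p ^ k) = 1 := by
  obtain ⟨g, hg, hs⟩ := h
  refine ⟨?_, fun ℓ hℓ hxℓ => ?_, 2, ?_⟩
  · rw [hs]
    exact hg.map_eq
  · rw [hs]
    exact hg.map_line hxℓ (hℓ.1.2.trans (Φ.orth_anti hxℓ))
  · apply Subtype.ext
    change s.1 ^ (p ^ 2) = 1
    rw [hs, ← map_pow, hg.pow (p := p), map_one]

/-- the data for the other direction -/
private theorem rad_data {D : Subgroup (V ≃ₗ[K] V)} (hD : Φ.Grp D) {p : ℕ} [Fact p.Prime]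
    [CharP K p] {x : Submodule K V} (hx : Φ.IsPt x) {s : ↥(PG D)} (h1 : s.1 x = x)
    (h2 : ∃ k : ℕ, s ^ (p ^ k) = 1) :
    ∃ g : V ≃ₗ[K] V, g ∈ Φ.Iso ∧ s.1 = lat K V g ∧ (∀ v ∈ x, g v ∈ x) ∧
      ∃ l : K, (∀ v ∈ x, g v = l • v) ∧
        ∀ (v : V) (m : K), v ∉ x → g v - m • v ∈ x → m = l := by
  obtain ⟨g, hg, rfl⟩ := exists_toPG s
  obtain ⟨k, hk⟩ := h2
  have h3 : lat K V (g ^ (p ^ k)) = 1 := by
    rw [map_pow]
    exact congrArg Subtype.val hk
  obtain ⟨c, hc⟩ := lat_eq_one.1 h3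
  rw [toPG_apply] at h1
  have hgx : ∀ v ∈ x, g v ∈ x := by
    intro v hv
    have h4 : g v ∈ x.map (g : V →ₗ[K] V) := ⟨v, hv, rfl⟩
    rwa [h1] at h4
  obtain ⟨x0, hx0, hxS, hxe⟩ := hx
  have h4 : g x0 ∈ Submodule.span K {x0} := by
    rw [← hxe]
    apply hgx
    rw [hxe]
    exact Submodule.mem_span_singleton_self x0
  obtain ⟨l, hl⟩ := Submodule.mem_span_singleton.1 h4
  refine ⟨g, hD.le hg, rfl, hgx, l, ?_, ?_⟩
  · intro v hv
    rw [hxe] at hv
    obtain ⟨a, rfl⟩ := Submodule.mem_span_singleton.1 hv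
    rw [map_smul, ← hl, smul_comm]
  · intro v m hv hm
    exact rad_mu (p := p) (k := k) hgx hx0 hl.symm hc hv hm

theorem rad_iff {D : Subgroup (V ≃ₗ[K] V)} (hD : Φ.Grp D) {p : ℕ} [Fact p.Prime] [CharP K p]
    (hc : Φ.c + 2 ≤ finrank K V) {x : Submodule K V} (hx : Φ.IsPt x) (s : ↥(PG D)) :
    s ∈ Φ.UP D x ↔ s.1 x = x ∧ (∀ ℓ, Φ.IsLn ℓ → x ≤ ℓ → s.1 ℓ = ℓ) ∧
      ∃ k : ℕ, s ^ (p ^ k) = 1 := by
  constructor
  · exact rad_fwd
  · rintro ⟨h1, h2, h3⟩
    obtain ⟨g, hg, hs, hgx, l, hl, hm⟩ := rad_data (p := p) hD hx h1 h3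
    obtain ⟨z, hz, -, hxz⟩ := exists_opp (Φ := Φ) ND_top hx le_top
    obtain ⟨hL, hL2⟩ := hyp_nd hx hz hxz
    have hW := hL.orth
    have hdim : finrank K (Φ.orth (x ⊔ z)) + 2 = finrank K V := by
      rw [← hL2]
      exact Φ.finrank_orth (x ⊔ z)
    obtain ⟨y, hy, hyW⟩ := exists_pt (Φ := Φ) (W := Φ.orth (x ⊔ z)) (by omega)
    have hWx : Φ.orth (x ⊔ z) ≤ Φ.orth x := Φ.orth_anti le_sup_left
    let M : Submodule K V :=
      { carrier := {v | g v - l • v ∈ x}
        zero_mem' := by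
          change g 0 - l • (0 : V) ∈ x
          rw [map_zero, smul_zero, sub_zero]
          exact x.zero_mem
        add_mem' := by
          intro a b ha hb
          change g (a + b) - l • (a + b) ∈ x
          have e : g (a + b) - l • (a + b) = (g a - l • a) + (g b - l • b) := by
            rw [map_add, smul_add]
            abel
          rw [e]
          exact x.add_mem ha hb
        smul_mem' := by
          intro c a ha
          change g (c • a) - l • c • a ∈ x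
          rw [map_smul, smul_comm l c a, ← smul_sub]
          exact x.smul_mem c ha }
    have hM : ∀ v, v ∈ M ↔ g v - l • v ∈ x := fun v => Iff.rfl
    have hpt : ∀ w, Φ.IsPt w → w ≤ Φ.orth x → w ≤ M := by
      intro w hw hwx
      by_cases hne : w ≤ x
      · intro v hv
        rw [hM, hl v (hne hv), sub_self]
        exact x.zero_mem
      · have hln : Φ.IsLn (x ⊔ w) := by
          refine ⟨hx.ts.sup hw.ts (Φ.le_orth_comm.1 hwx), ?_⟩
          have h4 := Submodule.finrank_sup_add_finrank_inf_eq x w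
          rw [inf_comm, hw.inf_eq_bot hne, finrank_bot, hx.finrank, hw.finrank] at h4
          omega
        have h4 := h2 _ hln le_sup_left
        rw [hs] at h4
        intro v hv
        by_cases hv0 : v = 0
        · rw [hv0]
          exact M.zero_mem
        have h5 : g v ∈ (x ⊔ w).map (g : V →ₗ[K] V) :=
          ⟨v, (le_sup_right : w ≤ x ⊔ w) hv, rfl⟩
        have h6 : g v ∈ x ⊔ w := by
          rw [lat_apply] at h4
          rwa [h4] at h5
        obtain ⟨a, ha, b, hb, hab⟩ := Submodule.mem_sup.1 h6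
        rw [hw.eq_span hv hv0] at hb
        obtain ⟨m, rfl⟩ := Submodule.mem_span_singleton.1 hb
        have hvx : v ∉ x := fun h7 => hne (hw.le_of_mem hv hv0 h7)
        have h7 : g v - m • v ∈ x := by
          rw [← hab, add_sub_cancel_right]
          exact ha
        have h8 := hm v m hvx h7
        rw [hM, ← h8]
        exact h7
    have hWM : Φ.orth (x ⊔ z) ≤ M := by
      rw [span_pts hW hy hyW]
      apply sSup_le
      rintro w ⟨hw, hwW⟩
      exact hpt w hw (hwW.trans hWx)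
    have ho : ∀ v ∈ Φ.orth x, g v - l • v ∈ x := by
      intro v hv
      obtain ⟨a, ha, w, hw, rfl⟩ := rad_orth hx hz hxz hv
      rw [← hM]
      refine M.add_mem ?_ (hWM hw)
      rw [hM, hl a ha, sub_self]
      exact x.zero_mem
    have hll : l * Φ.τ l = 1 := by
      obtain ⟨y', hy', hyW', hyy⟩ := exists_opp hW hy hyW
      obtain ⟨w, hw0, hwS, rfl⟩ := hy
      obtain ⟨w', hw0', hwS', rfl⟩ := hy'
      rw [Φ.span_le_orth] at hyy
      have h4 : w ∈ Φ.orth x := hWx (hyW (Submodule.mem_span_singleton_self w))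
      have h5 : w' ∈ Φ.orth x := hWx (hyW' (Submodule.mem_span_singleton_self w'))
      have h6 := hg.1 w' w
      have e1 : g w' = l • w' + (g w' - l • w') := by abel
      have e2 : g w = l • w + (g w - l • w) := by abel
      rw [e1, e2, rad_B hx h5 h4 (ho w' h5) (ho w h4)] at h6
      exact mul_right_cancel₀ hyy (h6.trans (one_mul _).symm)
    obtain ⟨u, hu, hu2⟩ := rad_core hg hll hl ho
    exact ⟨u, hu, hs.trans hu2.symm⟩

theorem rad3 {D : Subgroup (V ≃ₗ[K] V)} (hD : Φ.Grp D) {p : ℕ} [Fact p.Prime] [CharP K p]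
    (hn : finrank K V = 3) {x : Submodule K V} (hx : Φ.IsPt x) (s : ↥(PG D)) :
    s ∈ Φ.UP D x ↔ s.1 x = x ∧ ∃ k : ℕ, s ^ (p ^ k) = 1 := by
  constructor
  · intro h
    obtain ⟨h1, -, h3⟩ := rad_fwd (p := p) h
    exact ⟨h1, h3⟩
  · rintro ⟨h1, h3⟩
    obtain ⟨g, hg, hs, hgx, l, hl, hm⟩ := rad_data (p := p) hD hx h1 h3
    obtain ⟨z, hz, -, hxz⟩ := exists_opp (Φ := Φ) ND_top hx le_top
    obtain ⟨hL, hL2⟩ := hyp_nd hx hz hxz
    have hW := hL.orth
    have hdim : finrank K (Φ.orth (x ⊔ z)) = 1 := by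
      have h4 := Φ.finrank_orth (x ⊔ z)
      rw [hL2, hn] at h4
      omega
    have hWx : Φ.orth (x ⊔ z) ≤ Φ.orth x := Φ.orth_anti le_sup_left
    obtain ⟨w, hw0, hwspan⟩ := finrank_eq_one_iff'.1 hdim
    have hw0' : (w : V) ≠ 0 := fun h4 => hw0 (Subtype.ext h4)
    have hwx : (w : V) ∈ Φ.orth x := hWx w.2
    have hspan : ∀ v ∈ Φ.orth (x ⊔ z), ∃ a : K, v = a • (w : V) := by
      intro v hv
      obtain ⟨a, ha⟩ := hwspan ⟨v, hv⟩
      exact ⟨a, (congrArg Subtype.val ha).symm⟩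
    obtain ⟨w', hw', hB⟩ := hW.exists_ne w.2 hw0'
    have hBw : Φ.B (w : V) w ≠ 0 := by
      obtain ⟨a, rfl⟩ := hspan w' hw'
      intro h4
      apply hB
      rw [Φ.smul_left, h4, mul_zero]
    have hwx' : (w : V) ∉ x := by
      intro h4
      exact hBw (hwx w h4)
    have h4 : g w ∈ Φ.orth x := by
      have h5 : x.map (g : V →ₗ[K] V) = x := by
        rw [hs, lat_apply] at h1
        exact h1
      have h6 : (g : V →ₗ[K] V) w ∈ (Φ.orth x).map (g : V →ₗ[K] V) := ⟨w, hwx, rfl⟩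
      rw [← orth_map hg, h5] at h6
      exact h6
    obtain ⟨a, ha, w1, hw1, hgw⟩ := rad_orth hx hz hxz h4
    obtain ⟨m, rfl⟩ := hspan w1 hw1
    have h5 : g w - m • (w : V) ∈ x := by
      rw [hgw, add_sub_cancel_right]
      exact ha
    have h6 := hm w m hwx' h5
    rw [h6] at hgw h5
    have ho : ∀ v ∈ Φ.orth x, g v - l • v ∈ x := by
      intro v hv
      obtain ⟨b, hb, w2, hw2, rfl⟩ := rad_orth hx hz hxz hv
      obtain ⟨n, rfl⟩ := hspan w2 hw2
      have e : g (b + n • (w : V)) - l • (b + n • (w : V)) = n • (g w - l • (w : V)) := by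
        rw [map_add, map_smul, hl b hb, smul_add, smul_sub, smul_comm l n]
        abel
      rw [e]
      exact x.smul_mem n h5
    have hll : l * Φ.τ l = 1 := by
      have h7 := hg.1 w w
      have e1 : g w = l • (w : V) + a := by rw [hgw, add_comm]
      rw [e1, rad_B hx hwx hwx ha ha] at h7
      exact mul_right_cancel₀ hBw (h7.trans (one_mul _).symm)
    obtain ⟨u, hu, hu2⟩ := rad_core hg hll hl ho
    exact ⟨u, hu, hs.trans hu2.symm⟩

end PS

end Pool.Agent.Work.MP_bc729a_al.CG
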