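import Pool.Agent.Work.MP_bc729a_al.CR.Tht
import Pool.Agent.Work.MP_bc729a_al.CR.Sca

/-! # Module Zen (M): unitary groups of dimension three: hyperbolic lines

`opp3`: otherwise `x ⊔ y` is totally singular of dimension `2` (`TS.sup`), but `orth (x ⊔ y)` has dimension `1`. Let `x = span {x₀}`, `y = span {y₀}`, `θ` from `exists_theta` (with `z = y`, `z₀ = y₀`), `W = orth (x ⊔ y)`, of dimension `1`, nondegenerate, `b = B x₀ y₀`. If `IsU x g`, `IsU x h` and `lat g * lat h = lat h * lat g` then `g h = h g` (`lat_eq_one`: `g h = c h g`, and both fix `x₀`).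
PROOF of `zen3`. `→`: `u_trans` (with the space `x ⊔ y`) gives `u`, `IsU x u`, `u w = w` for `w ∈ W`, `y.map u = z`. So `B w (θ u) = 0` for `w ∈ W`, `θ u = 0`, `u y₀ = y₀ + a • x₀`. For `IsU x g`: `u (g y₀) = u (y₀ + θ g + a' • x₀) = y₀ + a • x₀ + θ g + a' • x₀ = g (u y₀)`, so `u g = g u` (`IsU.ext`). `s` = the element with `s.1 = lat u` (`toPG`, `hD.u`).
`←`: `s.1 = lat u`. Let `w = θ u`. If `w ≠ 0` then `W = span {w}`, `B w w ≠ 0`. Choose `c` with `τ c ≠ c` and `g` with `IsU x g`, `θ g = c • w`. `u g = g u`; `u (g y₀) = y₀ + w + (..) • x₀ + c • w - (B (c • w) w / b) • x₀`, `g (u y₀) = y₀ + c • w + (..) • x₀ + w - (B w (c • w) / b) • x₀` with the same dots (`a + a'`), so `B (c • w) w = B w (c • w)`, `c * B w w = τ c * B w w`, contradiction. So `w = 0` and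
`z = y.map u = span {y₀ + a • x₀} ≤ x ⊔ y`. -/

namespace Pool.Agent.Work.MP_bc729a_al.CG

open Module

universe u v

variable {K : Type u} {V : Type v} [Field K] [AddCommGroup V] [Module K V] [Finite K] [Finite V]

namespace PS

variable {Φ : PS K V}

omit [Finite K] in
private theorem zen_finrank {x z : Submodule K V} (hx : Φ.IsPt x) (hz : Φ.IsPt z)
    (h : x ≠ z) : finrank K ↥(x ⊔ z) = 2 := by
  have h0 : ¬ x ≤ z := fun h1 => h (hx.eq_of_le hz h1)
  have h1 : x ⊓ z = ⊥ := hx.inf_eq_bot h0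
  have h2 := Submodule.finrank_sup_add_finrank_inf_eq x z
  rw [h1, finrank_bot, hx.finrank, hz.finrank] at h2
  omega

theorem opp3 (hn : finrank K V = 3) {x y : Submodule K V} (hx : Φ.IsPt x) (hy : Φ.IsPt y)
    (h : x ≠ y) : ¬ y ≤ Φ.orth x := by
  intro hle
  have h1 : Φ.TS (x ⊔ y) := hx.ts.sup hy.ts (Φ.le_orth_comm.1 hle)
  have h2 := zen_finrank hx hy h
  have h3 := finrank_orth (Φ := Φ) (x ⊔ y)
  have h4 := Submodule.finrank_mono h1.2
  omega

theorem zen3 {D : Subgroup (V ≃ₗ[K] V)} (hD : Φ.Grp D) (hn : finrank K V = 3)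
    (h1 : ∃ a, Φ.τ a ≠ a) {x y z : Submodule K V} (hx : Φ.IsPt x) (hy : Φ.IsPt y)
    (hz : Φ.IsPt z) (hxy : x ≠ y) (hxz : x ≠ z) :
    z ≤ x ⊔ y ↔ ∃ s ∈ Φ.UP D x, (∀ r ∈ Φ.UP D x, s * r = r * s) ∧ s.1 y = z := by
  have hyx : ¬ y ≤ Φ.orth x := opp3 hn hx hy hxy
  have hzx : ¬ z ≤ Φ.orth x := opp3 hn hx hz hxz
  obtain ⟨x₀, hx₀, hx1⟩ := hx.exists
  obtain ⟨y₀, hy₀, hy1⟩ := hy.exists
  have ex := hx.eq_span hx₀ hx1
  have ey := hy.eq_span hy₀ hy1
  obtain ⟨θ, hθ, -, hθs⟩ := exists_theta hx hy hyx hx₀ hx1 hy₀ hy1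
  have hb : Φ.B x₀ y₀ ≠ 0 := by
    intro h
    apply hyx
    rw [ex, ey, Φ.span_le_orth]
    exact Φ.refl _ _ h
  have hWx : Φ.orth (x ⊔ y) ≤ Φ.orth x := Φ.orth_anti le_sup_left
  have hND : Φ.ND (Φ.orth (x ⊔ y)) := (hyp_nd hx hy hyx).1.orth
  constructor
  · intro hzl
    obtain ⟨u, hu, huW, huz⟩ := u_trans hx le_sup_left hy le_sup_right hz hzl hyx hzx
    refine ⟨toPG (hD.u x hx hu), ⟨u, hu, rfl⟩, ?_, huz⟩
    rintro r ⟨g, hg, hr⟩
    apply Subtype.ext
    show lat K V u * r.1 = r.1 * lat K V u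
    rw [hr, ← map_mul, ← map_mul]
    congr 1
    obtain ⟨hu1, ⟨a, hua⟩, hu2⟩ := hθ u hu
    obtain ⟨hg1, ⟨a', hga⟩, hg2⟩ := hθ g hg
    have hθu : θ u = 0 := by
      by_contra h0
      obtain ⟨w, hw, hw'⟩ := hND.exists_ne hu1 h0
      have h3 := hu2 w (hWx hw)
      rw [huW w hw] at h3
      have h4 : (Φ.B w (θ u) / Φ.B x₀ y₀) • x₀ = 0 := sub_eq_self.1 h3.symm
      rcases smul_eq_zero.1 h4 with h5 | h5
      · exact div_ne_zero hw' hb h5
      · exact hx1 h5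
    rw [hθu, add_zero] at hua
    apply IsU.ext ((Φ.UU x).mul_mem hu hg) ((Φ.UU x).mul_mem hg hu) hx hy hyx
    intro v hv
    rw [ey] at hv
    obtain ⟨d, rfl⟩ := Submodule.mem_span_singleton.1 hv
    rw [map_smul, map_smul]
    congr 1
    show u (g y₀) = g (u y₀)
    rw [hga, hua, map_add, map_add, map_add, map_smul, map_smul, hua, hga, hu.2.1 x₀ hx₀,
      hg.2.1 x₀ hx₀, huW _ hg1]
    abel
  · rintro ⟨s, ⟨u, hu, hs⟩, hcom, hsz⟩
    obtain ⟨hu1, ⟨a, hua⟩, hu2⟩ := hθ u hu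
    have hmz : y.map (u : V →ₗ[K] V) = z := by
      rw [← hsz, hs]
      rfl
    have hθu : θ u = 0 := by
      by_contra h0
      obtain ⟨c, hc⟩ := h1
      obtain ⟨g, hg, hgθ⟩ := hθs (c • θ u) ((Φ.orth (x ⊔ y)).smul_mem c hu1)
      obtain ⟨hg1, ⟨a', hga⟩, hg2⟩ := hθ g hg
      have hco := hcom (toPG (hD.u x hx hg)) ⟨g, hg, rfl⟩
      have hco' : lat K V u * lat K V g = lat K V g * lat K V u := by
        have h2 := congrArg Subtype.val hco
        have h3 : s.1 * lat K V g = lat K V g * s.1 := h2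
        rwa [hs] at h3
      rw [← map_mul, ← map_mul] at hco'
      have h2 : lat K V ((u * g) * (g * u)⁻¹) = 1 := by
        rw [map_mul, map_inv, hco', mul_inv_cancel]
      obtain ⟨c', hc'⟩ := lat_eq_one.1 h2
      have e1 : ∀ v, u (g v) = c' • g (u v) := by
        intro v
        have h3 := hc' ((g * u) v)
        have e : ((u * g) * (g * u)⁻¹) ((g * u) v) = (u * g) v := by
          show (u * g) ((g * u).symm ((g * u) v)) = _
          rw [LinearEquiv.symm_apply_apply]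
        rw [e] at h3
        exact h3
      have e4 : c' = 1 := by
        have h3 := e1 x₀
        rw [hg.2.1 x₀ hx₀, hu.2.1 x₀ hx₀, hg.2.1 x₀ hx₀] at h3
        have h5 : (c' - 1) • x₀ = 0 := by rw [sub_smul, one_smul, ← h3, sub_self]
        rcases smul_eq_zero.1 h5 with h6 | h6
        · exact sub_eq_zero.1 h6
        · exact absurd h6 hx1
      have e5 : u (g y₀) = g (u y₀) := by
        have h3 := e1 y₀
        rwa [e4, one_smul] at h3
      have hww : Φ.B (θ u) (θ u) ≠ 0 := by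
        obtain ⟨w, hw, hw'⟩ := hND.exists_ne hu1 h0
        have hf : finrank K ↥(Φ.orth (x ⊔ y)) = 1 := by
          have h3 := finrank_orth (Φ := Φ) (x ⊔ y)
          rw [zen_finrank hx hy hxy, hn] at h3
          omega
        have hne : (⟨θ u, hu1⟩ : Φ.orth (x ⊔ y)) ≠ 0 := fun h3 => h0 (congrArg Subtype.val h3)
        obtain ⟨d, hd⟩ := (finrank_eq_one_iff_of_nonzero' _ hne).1 hf ⟨w, hw⟩
        have hd' : d • θ u = w := congrArg Subtype.val hd
        intro h3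
        apply hw'
        rw [← hd', Φ.smul_left, h3, mul_zero]
      rw [hgθ] at hga hg2
      have h6 : u (g y₀) = y₀ + θ u + a • x₀ +
          (c • θ u - (Φ.B (c • θ u) (θ u) / Φ.B x₀ y₀) • x₀) + a' • x₀ := by
        rw [hga, map_add, map_add, map_smul u a' x₀, hu.2.1 x₀ hx₀, hua,
          hu2 (c • θ u) ((Φ.orth x).smul_mem c (hWx hu1))]
      have h7 : g (u y₀) = y₀ + c • θ u + a' • x₀ +
          (θ u - (Φ.B (θ u) (c • θ u) / Φ.B x₀ y₀) • x₀) + a • x₀ := by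
        rw [hua, map_add, map_add, map_smul g a x₀, hg.2.1 x₀ hx₀, hga, hg2 (θ u) (hWx hu1)]
      rw [h6, h7] at e5
      have h8 : (Φ.B (θ u) (c • θ u) / Φ.B x₀ y₀ - Φ.B (c • θ u) (θ u) / Φ.B x₀ y₀) • x₀ = 0 := by
        rw [sub_smul, ← sub_eq_zero.2 e5]
        abel
      rcases smul_eq_zero.1 h8 with h9 | h9
      · rw [sub_eq_zero, div_left_inj' hb, Φ.smul_left, Φ.smul_right] at h9
        exact hc (mul_right_cancel₀ hww h9)
      · exact hx1 h9
    rw [hθu, add_zero] at hua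
    rw [← hmz, ey]
    rintro _ ⟨v, hv, rfl⟩
    obtain ⟨d, rfl⟩ := Submodule.mem_span_singleton.1 hv
    show u (d • y₀) ∈ _
    rw [map_smul, hua]
    refine Submodule.smul_mem _ d (Submodule.add_mem _ ?_ ?_)
    · exact Submodule.mem_sup_right (Submodule.mem_span_singleton_self y₀)
    · exact Submodule.mem_sup_left (x.smul_mem a hx₀)

end PS

end Pool.Agent.Work.MP_bc729a_al.CG
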